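import Mathlib
import Pool.Agent.Helper17.SympBase

open scoped ContDiff Topology ENNReal
open Set Function TopologicalSpace MeasureTheory

namespace Pool.Agent.CEF

open Pool.Agent.Helper17

/-- The derivative `Dφ(x)` of `φ ∈ Symp_ct(ℝ^{2n})`. -/
noncomputable def deriv1 {n : ℕ} (φ : SympCt n) (x : Phase n) : Phase n →L[ℝ] Phase n :=
  fderiv ℝ (φ : Equiv.Perm (Phase n)) x

/-- `‖Dφ(x) - Dφ(y)‖` (operator norm) for `φ ∈ Symp_ct(ℝ^{2n})`. -/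
noncomputable def derivDist {n : ℕ} (φ : SympCt n) (x y : Phase n) : ℝ :=
  dist (deriv1 φ x) (deriv1 φ y)

/-- `‖D²φ(x)‖` for `φ ∈ Symp_ct(ℝ^{2n})`. -/
noncomputable def hessNorm {n : ℕ} (φ : SympCt n) (x : Phase n) : ℝ :=
  ‖iteratedFDeriv ℝ 2 (φ : Equiv.Perm (Phase n)) x‖

/-- The critical (scale invariant) energy of order `p ≥ 2n` of `φ ∈ Symp_ct(ℝ^{2n})`:
`∬ ‖Dφ(x) - Dφ(y)‖^p / ‖x - y‖^{4n} dx dy` for `p > 2n` and `∫ ‖D²φ(x)‖^{2n} dx` for `p = 2n`. -/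
noncomputable def critEnergy {n : ℕ} (p : ℝ) (φ : SympCt n) : ℝ≥0∞ :=
  if p = 2 * n then ∫⁻ x, ENNReal.ofReal (hessNorm φ x ^ (2 * n))
  else ∫⁻ x, ∫⁻ y, ENNReal.ofReal (derivDist φ x y ^ p / ‖x - y‖ ^ (4 * n))

/-- The minimal (infimal) critical energy in a path component of `Symp_ct(ℝ^{2n})`. -/
noncomputable def minEnergy {n : ℕ} (p : ℝ) (c : ZerothHomotopy (SympCt n)) : ℝ≥0∞ :=
  ⨅ φ : {φ : SympCt n // ZerothHomotopy.mk φ = c}, critEnergy p φ.1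

/-- `ℓ` is a proper length function on the group `π₀(G)` of path components of
`G = Symp_ct(ℝ^{2n})`, bounded below off the identity: it is finite, `ℓ([id]) = 0`,
`ℓ([φψ]) ≤ ℓ([φ]) + ℓ([ψ])`, `ℓ ≥ ε` for some `ε > 0` at all components other than `[id]`, and for
every `E < ∞` only finitely many components have `ℓ ≤ E`. -/
structure IsProperLength {n : ℕ} (ℓ : ZerothHomotopy (SympCt n) → ℝ≥0∞) : Prop where
  ne_top : ∀ c, ℓ c ≠ ⊤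
  one : ℓ (ZerothHomotopy.mk 1) = 0
  mul_le : ∀ φ ψ : SympCt n, ℓ (ZerothHomotopy.mk (φ * ψ)) ≤
    ℓ (ZerothHomotopy.mk φ) + ℓ (ZerothHomotopy.mk ψ)
  gap : ∃ ε : ℝ≥0∞, 0 < ε ∧ ∀ c, c ≠ ZerothHomotopy.mk 1 → ε ≤ ℓ c
  finite : ∀ E : ℝ≥0∞, E ≠ ⊤ → {c | ℓ c ≤ E}.Finite

end Pool.Agent.CEF
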