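import Mathlib
import Pool.Agent.Helper17.SympBase
import Pool.Agent.Helper17.SympFamily
import Pool.Agent.Helper17.AdmPath
import Pool.Agent.Helper17.Component

open scoped ContDiff Topology ENNReal
open Set Function TopologicalSpace MeasureTheory

namespace Pool.Agent.CEF

open Pool.Agent.Helper17

variable {n : ℕ}

/-- Derivative of a translate. -/
lemma Sub_fderiv_translate (ψ : SympCt n) (a b : Phase n) (x : Phase n) :
    fderiv ℝ (fun x => b + (ψ : Equiv.Perm (Phase n)) (x - a)) x =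
      fderiv ℝ (ψ : Equiv.Perm (Phase n)) (x - a) := by
  rw [fderiv_const_add]
  exact fderiv_comp_sub a

/-- A translate of a compactly supported symplectomorphism, in the same path component. -/
lemma Sub_translate (ψ : SympCt n) (v : Phase n) : ∃ ψ' : SympCt n, Joined ψ ψ' ∧
    ∀ x, (ψ' : Equiv.Perm (Phase n)) x = v + (ψ : Equiv.Perm (Phase n)) (x - v) := by
  obtain ⟨K, hK, hψK⟩ := ψ.2.2.2.2
  set F : unitInterval → Phase n → Phase n := fun s x =>
    (s : ℝ) • v + (ψ : Equiv.Perm (Phase n)) (x - (s : ℝ) • v) with hF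
  have hc : Continuous (fun s : unitInterval => (s : ℝ) • v) := by fun_prop
  have h1 : CF (fun (s : unitInterval) (_ : Phase n) => (s : ℝ) • v) := CF.param hc
  have hCF : CF F := h1.add ((CF.const (SympCt.contDiff ψ)).comp ((CF.const contDiff_id).sub h1))
  set L : Set (Phase n) :=
    (fun q : unitInterval × Phase n => (q.1 : ℝ) • v + q.2) '' (univ ×ˢ K) with hL'
  have hL : IsCompact L := (isCompact_univ.prod hK).image (by fun_prop)
  have hFL : ∀ s, ∀ x ∉ L, F s x = x := by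
    intro s x hx
    have h2 : x - (s : ℝ) • v ∉ K := fun h => hx ⟨(s, x - (s : ℝ) • v), ⟨mem_univ _, h⟩, by simp⟩
    simp only [hF]
    rw [hψK _ h2]
    abel
  have hsymp : ∀ s x u w, omegaStd (fderiv ℝ (F s) x u) (fderiv ℝ (F s) x w) = omegaStd u w := by
    intro s x u w
    have hd : fderiv ℝ (F s) x = fderiv ℝ (ψ : Equiv.Perm (Phase n)) (x - (s : ℝ) • v) :=
      Sub_fderiv_translate ψ _ _ x
    rw [hd, ψ.2.2.2.1]
  set γ : unitInterval → SympCt n := fun s =>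
    mkSymp (F s) (hCF.contDiff s) ⟨L, hL, hFL s⟩ (hsymp s) with hγ
  have hγc : Continuous γ := continuous_of_CF hCF ⟨L, hL⟩ (fun t x hx => hFL t x hx)
    (fun t x => rfl)
  refine ⟨γ 1, ⟨⟨⟨γ, hγc⟩, ?_, rfl⟩⟩, fun x => ?_⟩
  · apply SympCt.ext'
    intro x
    change F 0 x = _
    simp [hF]
  · change F 1 x = _
    simp [hF]

/-- Product of two maps with disjoint supports. -/
lemma Sub_mul_apply {φ ψ : SympCt n} {K K' : Set (Phase n)}
    (hφ : ∀ x ∉ K, (φ : Equiv.Perm (Phase n)) x = x)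
    (hψ : ∀ x ∉ K', (ψ : Equiv.Perm (Phase n)) x = x) (hd : Disjoint K K') (x : Phase n) :
    ((φ * ψ : SympCt n) : Equiv.Perm (Phase n)) x =
      (φ : Equiv.Perm (Phase n)) x + (ψ : Equiv.Perm (Phase n)) x - x := by
  change (φ : Equiv.Perm (Phase n)) ((ψ : Equiv.Perm (Phase n)) x) = _
  by_cases hx : x ∈ K'
  · have h1 : (ψ : Equiv.Perm (Phase n)) x ∈ K' := by
      by_contra h2
      have h3 := hψ _ h2
      rw [(ψ : Equiv.Perm (Phase n)).injective h3] at h2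
      exact h2 hx
    rw [hφ _ (fun h => Set.disjoint_left.1 hd h h1), hφ x (fun h => Set.disjoint_left.1 hd h hx)]
    abel
  · rw [hψ x hx]
    abel

lemma Sub_fderiv {φ ψ : SympCt n} {K K' : Set (Phase n)}
    (hφ : ∀ x ∉ K, (φ : Equiv.Perm (Phase n)) x = x)
    (hψ : ∀ x ∉ K', (ψ : Equiv.Perm (Phase n)) x = x) (hd : Disjoint K K') (x : Phase n) :
    fderiv ℝ ((φ * ψ : SympCt n) : Equiv.Perm (Phase n)) x =
      fderiv ℝ (φ : Equiv.Perm (Phase n)) x + fderiv ℝ (ψ : Equiv.Perm (Phase n)) x -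
        ContinuousLinearMap.id ℝ (Phase n) := by
  have h1 : (((φ * ψ : SympCt n) : Equiv.Perm (Phase n)) : Phase n → Phase n) =
      fun x => (φ : Equiv.Perm (Phase n)) x + (ψ : Equiv.Perm (Phase n)) x - x := by
    ext1 y
    exact Sub_mul_apply hφ hψ hd y
  rw [h1]
  exact (((SympCt.differentiable φ x).hasFDerivAt.add
    (SympCt.differentiable ψ x).hasFDerivAt).sub (hasFDerivAt_id x)).fderiv

/-- The derivative is the identity off a closed support. -/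
lemma Sub_fderiv_off {φ : SympCt n} {K : Set (Phase n)} (hK : IsClosed K)
    (hφ : ∀ x ∉ K, (φ : Equiv.Perm (Phase n)) x = x) {x : Phase n} (hx : x ∉ K) :
    fderiv ℝ (φ : Equiv.Perm (Phase n)) x = ContinuousLinearMap.id ℝ (Phase n) := by
  have h1 : (φ : Equiv.Perm (Phase n)) =ᶠ[nhds x] fun y => y := by
    filter_upwards [hK.isOpen_compl.mem_nhds hx] with y hy
    exact hφ y hy
  rw [h1.fderiv_eq, fderiv_fun_id]

lemma Sub_fderiv2_off {φ : SympCt n} {K : Set (Phase n)} (hK : IsClosed K)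
    (hφ : ∀ x ∉ K, (φ : Equiv.Perm (Phase n)) x = x) {x : Phase n} (hx : x ∉ K) :
    fderiv ℝ (fderiv ℝ (φ : Equiv.Perm (Phase n))) x = 0 := by
  have h1 : fderiv ℝ (φ : Equiv.Perm (Phase n)) =ᶠ[nhds x]
      fun _ => ContinuousLinearMap.id ℝ (Phase n) := by
    filter_upwards [hK.isOpen_compl.mem_nhds hx] with y hy
    exact Sub_fderiv_off hK hφ hy
  rw [h1.fderiv_eq]
  exact (hasFDerivAt_const _ x).fderiv

/-- Energy of a product with disjoint supports, `p = 2n`. -/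
lemma Sub_energy2 {φ ψ : SympCt n} {K K' : Set (Phase n)} (hK : IsClosed K)
    (hK' : IsClosed K') (hφ : ∀ x ∉ K, (φ : Equiv.Perm (Phase n)) x = x)
    (hψ : ∀ x ∉ K', (ψ : Equiv.Perm (Phase n)) x = x) (hd : Disjoint K K') :
    (∫⁻ x, ‖fderiv ℝ (fderiv ℝ ((φ * ψ : SympCt n) : Equiv.Perm (Phase n))) x‖ₑ ^ (2 * n)) ≤
      (∫⁻ x, ‖fderiv ℝ (fderiv ℝ (φ : Equiv.Perm (Phase n))) x‖ₑ ^ (2 * n)) +
      ∫⁻ x, ‖fderiv ℝ (fderiv ℝ (ψ : Equiv.Perm (Phase n))) x‖ₑ ^ (2 * n) := by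
  have hmeas : Measurable (fun x : Phase n =>
      ‖fderiv ℝ (fderiv ℝ (φ : Equiv.Perm (Phase n))) x‖ₑ ^ (2 * n)) := by
    have hc : Continuous (fderiv ℝ (fderiv ℝ (φ : Equiv.Perm (Phase n)))) :=
      (((SympCt.contDiff φ).fderiv_right (m := 1) (by norm_cast)).continuous_fderiv (by norm_num))
    have h1 : Measurable (fun x : Phase n =>
        ENNReal.ofReal ‖fderiv ℝ (fderiv ℝ (φ : Equiv.Perm (Phase n))) x‖) :=
      ((continuous_norm (E := Phase n →L[ℝ] Phase n →L[ℝ] Phase n)).comp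
        hc).measurable.ennreal_ofReal
    have h2 : (fun x : Phase n => ‖fderiv ℝ (fderiv ℝ (φ : Equiv.Perm (Phase n))) x‖ₑ) =
        fun x : Phase n =>
        ENNReal.ofReal ‖fderiv ℝ (fderiv ℝ (φ : Equiv.Perm (Phase n))) x‖ := by
      ext1 x
      rw [← ofReal_norm]
    have h3 : Measurable
        (fun x : Phase n => ‖fderiv ℝ (fderiv ℝ (φ : Equiv.Perm (Phase n))) x‖ₑ) := by
      rw [h2]
      exact h1
    exact h3.pow_const _
  rw [← lintegral_add_left hmeas]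
  refine lintegral_mono fun x => ?_
  have h1 : fderiv ℝ (fderiv ℝ ((φ * ψ : SympCt n) : Equiv.Perm (Phase n))) x =
      fderiv ℝ (fderiv ℝ (φ : Equiv.Perm (Phase n))) x +
      fderiv ℝ (fderiv ℝ (ψ : Equiv.Perm (Phase n))) x := by
    have h2 : fderiv ℝ ((φ * ψ : SympCt n) : Equiv.Perm (Phase n)) = fun y =>
        fderiv ℝ (φ : Equiv.Perm (Phase n)) y + fderiv ℝ (ψ : Equiv.Perm (Phase n)) y -
          ContinuousLinearMap.id ℝ (Phase n) := by
      ext1 y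
      exact Sub_fderiv hφ hψ hd y
    have hd1 : ∀ χ : SympCt n, DifferentiableAt ℝ
        (fderiv ℝ (χ : Equiv.Perm (Phase n))) x := fun χ =>
      ((SympCt.contDiff χ).fderiv_right (m := 1) (by norm_cast)).differentiable (by norm_num) x
    rw [h2]
    have h3 := (((hd1 φ).hasFDerivAt.add (hd1 ψ).hasFDerivAt).sub
      (hasFDerivAt_const (ContinuousLinearMap.id ℝ (Phase n)) x)).fderiv
    rw [sub_zero] at h3
    exact h3
  by_cases hx : x ∈ K
  · have h2 : x ∉ K' := fun h => Set.disjoint_left.1 hd hx h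
    rw [h1, Sub_fderiv2_off hK' hψ h2, add_zero]
    exact le_self_add
  · rw [h1, Sub_fderiv2_off hK hφ hx, zero_add]
    exact le_add_self

lemma Sub_energy2_translate {ψ ψ' : SympCt n} {v : Phase n}
    (h : ∀ x, (ψ' : Equiv.Perm (Phase n)) x = v + (ψ : Equiv.Perm (Phase n)) (x - v)) :
    ∫⁻ x, ‖fderiv ℝ (fderiv ℝ (ψ' : Equiv.Perm (Phase n))) x‖ₑ ^ (2 * n) =
      ∫⁻ x, ‖fderiv ℝ (fderiv ℝ (ψ : Equiv.Perm (Phase n))) x‖ₑ ^ (2 * n) := by
  have h1 : fderiv ℝ (ψ' : Equiv.Perm (Phase n)) = fun x =>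
      fderiv ℝ (ψ : Equiv.Perm (Phase n)) (x - v) := by
    ext1 x
    have h2 : ((ψ' : Equiv.Perm (Phase n)) : Phase n → Phase n) = fun x =>
        v + (ψ : Equiv.Perm (Phase n)) (x - v) := funext h
    rw [h2]
    exact Sub_fderiv_translate ψ v v x
  have h3 : ∀ x, fderiv ℝ (fderiv ℝ (ψ' : Equiv.Perm (Phase n))) x =
      fderiv ℝ (fderiv ℝ (ψ : Equiv.Perm (Phase n))) (x - v) := by
    intro x
    rw [h1]
    exact fderiv_comp_sub v
  simp only [h3]
  exact lintegral_sub_right_eq_self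
    (fun x => ‖fderiv ℝ (fderiv ℝ (ψ : Equiv.Perm (Phase n))) x‖ₑ ^ (2 * n)) v

/-- The integrand of the fractional energy. -/
noncomputable def Sub_fr (p : ℝ) (φ : SympCt n) (x y : Phase n) : ℝ≥0∞ :=
  ‖fderiv ℝ (φ : Equiv.Perm (Phase n)) x - fderiv ℝ (φ : Equiv.Perm (Phase n)) y‖ₑ ^ p /
    ‖x - y‖ₑ ^ (4 * n)

lemma Sub_fr_translate {ψ ψ' : SympCt n} {v : Phase n} (p : ℝ)
    (h : ∀ x, (ψ' : Equiv.Perm (Phase n)) x = v + (ψ : Equiv.Perm (Phase n)) (x - v)) :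
    ∫⁻ x, ∫⁻ y, Sub_fr p ψ' x y = ∫⁻ x, ∫⁻ y, Sub_fr p ψ x y := by
  have h1 : ∀ x, fderiv ℝ (ψ' : Equiv.Perm (Phase n)) x =
      fderiv ℝ (ψ : Equiv.Perm (Phase n)) (x - v) := by
    intro x
    have h2 : ((ψ' : Equiv.Perm (Phase n)) : Phase n → Phase n) = fun x =>
        v + (ψ : Equiv.Perm (Phase n)) (x - v) := funext h
    rw [h2]
    exact Sub_fderiv_translate ψ v v x
  have h2 : ∀ x y, Sub_fr p ψ' x y = Sub_fr p ψ (x - v) (y - v) := by
    intro x y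
    simp only [Sub_fr, h1, sub_sub_sub_cancel_right]
  simp only [h2]
  have h3 : ∀ x, ∫⁻ y, Sub_fr p ψ (x - v) (y - v) = ∫⁻ y, Sub_fr p ψ (x - v) y := fun x =>
    lintegral_sub_right_eq_self (fun y => Sub_fr p ψ (x - v) y) v
  simp only [h3]
  exact lintegral_sub_right_eq_self (fun x => ∫⁻ y, Sub_fr p ψ x y) v

lemma Sub_fr_meas (p : ℝ) (φ : SympCt n) :
    Measurable (fun q : Phase n × Phase n => Sub_fr p φ q.1 q.2) := by
  have hc : Continuous (fderiv ℝ (φ : Equiv.Perm (Phase n))) :=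
    (SympCt.contDiff φ).continuous_fderiv (by simp)
  have h1 : Measurable (fun q : Phase n × Phase n =>
      ‖fderiv ℝ (φ : Equiv.Perm (Phase n)) q.1 - fderiv ℝ (φ : Equiv.Perm (Phase n)) q.2‖ₑ) :=
    ((hc.comp continuous_fst).sub (hc.comp continuous_snd)).enorm.measurable
  have h2 : Measurable (fun q : Phase n × Phase n => ‖q.1 - q.2‖ₑ) :=
    (continuous_fst.sub continuous_snd).enorm.measurable
  exact (h1.pow_const p).div (h2.pow_const _)

lemma Sub_fr_mix {φ ψ : SympCt n} {K K' : Set (Phase n)} {p : ℝ} (hp : 0 ≤ p)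
    (hK : IsClosed K)
    (hK' : IsClosed K') (hφ : ∀ x ∉ K, (φ : Equiv.Perm (Phase n)) x = x)
    (hψ : ∀ x ∉ K', (ψ : Equiv.Perm (Phase n)) x = x) (hd : Disjoint K K')
    {d : ℝ} (hdist : ∀ x ∈ K, ∀ y ∈ K', d ≤ ‖x - y‖) {C : ℝ}
    (hC : ∀ x y, ‖fderiv ℝ (φ : Equiv.Perm (Phase n)) x -
      fderiv ℝ (ψ : Equiv.Perm (Phase n)) y‖ ≤ C) (x y : Phase n) :
    Sub_fr p (φ * ψ) x y ≤ Sub_fr p φ x y + (Sub_fr p ψ x y +
      ((K ×ˢ K' ∪ K' ×ˢ K).indicator
        (fun _ => ENNReal.ofReal C ^ p / ENNReal.ofReal d ^ (4 * n)) (x, y))) := by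
  have key : fderiv ℝ ((φ * ψ : SympCt n) : Equiv.Perm (Phase n)) x -
      fderiv ℝ ((φ * ψ : SympCt n) : Equiv.Perm (Phase n)) y =
      (fderiv ℝ (φ : Equiv.Perm (Phase n)) x - fderiv ℝ (φ : Equiv.Perm (Phase n)) y) +
      (fderiv ℝ (ψ : Equiv.Perm (Phase n)) x - fderiv ℝ (ψ : Equiv.Perm (Phase n)) y) := by
    rw [Sub_fderiv hφ hψ hd, Sub_fderiv hφ hψ hd]
    abel
  have bound : ∀ D : Phase n →L[ℝ] Phase n, ‖D‖ ≤ C → d ≤ ‖x - y‖ →
      ‖D‖ₑ ^ p / ‖x - y‖ₑ ^ (4 * n) ≤ ENNReal.ofReal C ^ p / ENNReal.ofReal d ^ (4 * n) := by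
    intro D hD hxy
    rw [← ofReal_norm, ← ofReal_norm]
    gcongr
  by_cases hA : x ∉ K' ∧ y ∉ K'
  · have h1 : Sub_fr p (φ * ψ) x y = Sub_fr p φ x y := by
      simp only [Sub_fr]
      rw [key, Sub_fderiv_off hK' hψ hA.1, Sub_fderiv_off hK' hψ hA.2, sub_self, add_zero]
    rw [h1]
    exact le_self_add
  by_cases hB : x ∉ K ∧ y ∉ K
  · have h1 : Sub_fr p (φ * ψ) x y = Sub_fr p ψ x y := by
      simp only [Sub_fr]
      rw [key, Sub_fderiv_off hK hφ hB.1, Sub_fderiv_off hK hφ hB.2, sub_self, zero_add]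
    rw [h1]
    exact le_self_add.trans le_add_self
  have hcase : (x ∈ K ∧ y ∈ K') ∨ (x ∈ K' ∧ y ∈ K) := by
    have hd' := Set.disjoint_left.1 hd
    by_cases h1 : x ∈ K
    · left
      refine ⟨h1, ?_⟩
      by_contra h2
      exact hA ⟨hd' h1, h2⟩
    · right
      have h2 : y ∈ K := by
        by_contra h3
        exact hB ⟨h1, h3⟩
      refine ⟨?_, h2⟩
      by_contra h3
      exact hA ⟨h3, hd' h2⟩
  have hmem : (x, y) ∈ K ×ˢ K' ∪ K' ×ˢ K := by
    rcases hcase with h | h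
    · exact Or.inl h
    · exact Or.inr h
  rw [Set.indicator_of_mem hmem]
  refine le_trans ?_ (le_add_self.trans le_add_self)
  simp only [Sub_fr]
  rw [key]
  rcases hcase with ⟨h1, h2⟩ | ⟨h1, h2⟩
  · have h3 : x ∉ K' := fun h => Set.disjoint_left.1 hd h1 h
    have h4 : y ∉ K := fun h => Set.disjoint_left.1 hd h h2
    refine bound _ ?_ (hdist x h1 y h2)
    rw [Sub_fderiv_off hK' hψ h3, Sub_fderiv_off hK hφ h4]
    have h5 := hC x y
    rwa [sub_add_sub_cancel]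
  · have h3 : x ∉ K := fun h => Set.disjoint_left.1 hd h h1
    have h4 : y ∉ K' := fun h => Set.disjoint_left.1 hd h2 h
    refine bound _ ?_ (by rw [norm_sub_rev]; exact hdist y h2 x h1)
    rw [Sub_fderiv_off hK' hψ h4, Sub_fderiv_off hK hφ h3]
    have h5 := hC y x
    rw [add_comm, sub_add_sub_cancel, norm_sub_rev]
    exact h5

lemma Sub_int {f g h F : Phase n → Phase n → ℝ≥0∞}
    (hf : Measurable (fun q : Phase n × Phase n => f q.1 q.2))
    (hg : Measurable (fun q : Phase n × Phase n => g q.1 q.2))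
    (hF : ∀ x y, F x y ≤ f x y + (g x y + h x y)) :
    (∫⁻ x, ∫⁻ y, F x y) ≤ (∫⁻ x, ∫⁻ y, f x y) + ((∫⁻ x, ∫⁻ y, g x y) +
      (∫⁻ x, ∫⁻ y, h x y)) := by
  have hm1 : Measurable (fun x => ∫⁻ y, f x y) := hf.lintegral_prod_right'
  have hm2 : Measurable (fun x => ∫⁻ y, g x y) := hg.lintegral_prod_right'
  calc (∫⁻ x, ∫⁻ y, F x y)
      ≤ ∫⁻ x, ((∫⁻ y, f x y) + ((∫⁻ y, g x y) + ∫⁻ y, h x y)) := by
        refine lintegral_mono fun x => ?_
        have e1 : Measurable (fun y => f x y) := hf.comp measurable_prodMk_left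
        have e2 : Measurable (fun y => g x y) := hg.comp measurable_prodMk_left
        rw [← lintegral_add_left e2, ← lintegral_add_left e1]
        exact lintegral_mono fun y => hF x y
    _ = (∫⁻ x, ∫⁻ y, f x y) + ((∫⁻ x, ∫⁻ y, g x y) + (∫⁻ x, ∫⁻ y, h x y)) := by
        rw [lintegral_add_left hm1, lintegral_add_left hm2]

lemma Sub_ind {K K' : Set (Phase n)} (hK : MeasurableSet K) (hK' : MeasurableSet K')
    (c : ℝ≥0∞) : (∫⁻ x, ∫⁻ y, (K ×ˢ K' ∪ K' ×ˢ K).indicator (fun _ => c) (x, y)) ≤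
      c * (2 * (volume K * volume K')) := by
  have hset : MeasurableSet (K ×ˢ K' ∪ K' ×ˢ K) := (hK.prod hK').union (hK'.prod hK)
  have hm3 : Measurable ((K ×ˢ K' ∪ K' ×ˢ K).indicator
      (fun _ : Phase n × Phase n => c)) := measurable_const.indicator hset
  have h1 : (∫⁻ x, ∫⁻ y, (K ×ˢ K' ∪ K' ×ˢ K).indicator (fun _ => c) (x, y)) =
      ∫⁻ z, (K ×ˢ K' ∪ K' ×ˢ K).indicator (fun _ : Phase n × Phase n => c) z
        ∂((volume : Measure (Phase n)).prod (volume : Measure (Phase n))) :=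
    (lintegral_prod _ hm3.aemeasurable).symm
  rw [h1, lintegral_indicator hset, setLIntegral_const]
  refine mul_le_mul_right ?_ c
  refine (measure_union_le _ _).trans ?_
  rw [Measure.prod_prod, Measure.prod_prod, two_mul, mul_comm (volume K') (volume K)]

/-- Energy of a product with distant supports, `p > 2n`. -/
lemma Sub_fr_energy {φ ψ : SympCt n} {K K' : Set (Phase n)} {p : ℝ} (hp : 0 ≤ p)
    (hK : IsClosed K)
    (hK' : IsClosed K') (hφ : ∀ x ∉ K, (φ : Equiv.Perm (Phase n)) x = x)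
    (hψ : ∀ x ∉ K', (ψ : Equiv.Perm (Phase n)) x = x) (hd : Disjoint K K')
    {d : ℝ} (hdist : ∀ x ∈ K, ∀ y ∈ K', d ≤ ‖x - y‖) {C : ℝ}
    (hC : ∀ x y, ‖fderiv ℝ (φ : Equiv.Perm (Phase n)) x -
      fderiv ℝ (ψ : Equiv.Perm (Phase n)) y‖ ≤ C) :
    (∫⁻ x, ∫⁻ y, Sub_fr p (φ * ψ) x y) ≤ (∫⁻ x, ∫⁻ y, Sub_fr p φ x y) +
      ((∫⁻ x, ∫⁻ y, Sub_fr p ψ x y) + (ENNReal.ofReal C ^ p / ENNReal.ofReal d ^ (4 * n)) *
        (2 * (volume K * volume K'))) := by
  have h1 := Sub_int (Sub_fr_meas p φ) (Sub_fr_meas p ψ)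
    (Sub_fr_mix hp hK hK' hφ hψ hd hdist hC)
  have h2 := Sub_ind hK.measurableSet hK'.measurableSet
    (ENNReal.ofReal C ^ p / ENNReal.ofReal d ^ (4 * n))
  exact h1.trans (add_le_add_right (add_le_add_right h2 _) _)

/-- Distant translates: for every `η > 0` the product `φ ψ` lies in the component of a map with
energies at most the sum of the energies plus `η`. -/
theorem Sub_main (hn : n ≠ 0) (φ ψ : SympCt n) {p : ℝ} (hp : 0 ≤ p) {η : ℝ≥0∞} (hη : 0 < η) :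
    ∃ χ : SympCt n, Joined (φ * ψ) χ ∧
      (∫⁻ x, ‖fderiv ℝ (fderiv ℝ (χ : Equiv.Perm (Phase n))) x‖ₑ ^ (2 * n)) ≤
        (∫⁻ x, ‖fderiv ℝ (fderiv ℝ (φ : Equiv.Perm (Phase n))) x‖ₑ ^ (2 * n)) +
        (∫⁻ x, ‖fderiv ℝ (fderiv ℝ (ψ : Equiv.Perm (Phase n))) x‖ₑ ^ (2 * n)) ∧
      (∫⁻ x, ∫⁻ y, Sub_fr p χ x y) ≤ (∫⁻ x, ∫⁻ y, Sub_fr p φ x y) +
        (∫⁻ x, ∫⁻ y, Sub_fr p ψ x y) + η := by
  obtain ⟨K₁, hK₁, hφ⟩ := φ.2.2.2.2
  obtain ⟨K₂, hK₂, hψ⟩ := ψ.2.2.2.2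
  obtain ⟨R, hR⟩ := (hK₁.union hK₂).isBounded.subset_closedBall 0
  have hφB : ∀ x ∉ Metric.closedBall (0 : Phase n) R, (φ : Equiv.Perm (Phase n)) x = x :=
    fun x hx => hφ x fun h => hx (hR (Or.inl h))
  have hψB : ∀ x ∉ Metric.closedBall (0 : Phase n) R, (ψ : Equiv.Perm (Phase n)) x = x :=
    fun x hx => hψ x fun h => hx (hR (Or.inr h))
  obtain ⟨C, hC⟩ : ∃ C : ℝ, ∀ x y, ‖fderiv ℝ (φ : Equiv.Perm (Phase n)) x -
      fderiv ℝ (ψ : Equiv.Perm (Phase n)) y‖ ≤ C := by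
    have h1 : ∀ χ : SympCt n, ∃ C : ℝ, ∀ x, ‖fderiv ℝ (χ : Equiv.Perm (Phase n)) x‖ ≤ C := by
      intro χ
      obtain ⟨K, hK, hχ⟩ := χ.2.2.2.2
      have hc : Continuous (fderiv ℝ (χ : Equiv.Perm (Phase n))) :=
        (SympCt.contDiff χ).continuous_fderiv (by simp)
      obtain ⟨C, hC⟩ := hK.exists_bound_of_continuousOn hc.continuousOn
      refine ⟨max C ‖ContinuousLinearMap.id ℝ (Phase n)‖, fun x => ?_⟩
      by_cases hx : x ∈ K
      · exact (hC x hx).trans (le_max_left _ _)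
      · rw [Sub_fderiv_off hK.isClosed hχ hx]
        exact le_max_right _ _
    obtain ⟨C₁, h₁⟩ := h1 φ
    obtain ⟨C₂, h₂⟩ := h1 ψ
    exact ⟨C₁ + C₂, fun x y => (norm_sub_le _ _).trans (add_le_add (h₁ x) (h₂ y))⟩
  set V : ℝ≥0∞ := volume (Metric.closedBall (0 : Phase n) R) with hV
  have hVtop : V ≠ ⊤ := measure_closedBall_lt_top.ne
  set A : ℝ≥0∞ := ENNReal.ofReal C ^ p with hA
  have hAtop : A ≠ ⊤ := ENNReal.rpow_ne_top_of_nonneg hp ENNReal.ofReal_ne_top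
  have hW : A * (2 * (V * V)) ≠ ⊤ := ENNReal.mul_ne_top hAtop
    (ENNReal.mul_ne_top (by simp) (ENNReal.mul_ne_top hVtop hVtop))
  obtain ⟨m, hm⟩ := ENNReal.exists_nat_gt (ENNReal.div_ne_top hW hη.ne')
  have hm' : A * (2 * (V * V)) ≤ m * η := by
    rw [← ENNReal.div_le_iff_le_mul (Or.inl hη.ne') (Or.inr ?_)]
    · exact hm.le
    · exact ENNReal.natCast_ne_top m |> fun h => by
        rcases eq_or_ne (m : ℝ≥0∞) 0 with h0 | h0
        · rw [h0] at hm
          exact absurd hm (not_lt.2 zero_le)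
        · exact h0
  set d : ℝ := m + 1 with hd
  have hd1 : (1 : ℝ) ≤ d := by
    have : (0 : ℝ) ≤ m := Nat.cast_nonneg m
    linarith
  obtain ⟨v, hv⟩ : ∃ v : Phase n, ‖v‖ = 2 * |R| + d := by
    have : Nonempty (Fin n ⊕ Fin n) := ⟨Sum.inl ⟨0, Nat.pos_of_ne_zero hn⟩⟩
    exact exists_norm_eq (Phase n) (by positivity)
  obtain ⟨ψ', hj, hψ'⟩ := Sub_translate ψ v
  have hψB' : ∀ x ∉ Metric.closedBall v R, (ψ' : Equiv.Perm (Phase n)) x = x := by
    intro x hx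
    rw [hψ', hψB (x - v) ?_]
    · abel
    · intro h
      apply hx
      rw [mem_closedBall_zero_iff] at h
      rwa [Metric.mem_closedBall, dist_eq_norm]
  have hdist : ∀ x ∈ Metric.closedBall (0 : Phase n) R, ∀ y ∈ Metric.closedBall v R,
      d ≤ ‖x - y‖ := by
    intro x hx y hy
    rw [mem_closedBall_zero_iff] at hx
    rw [Metric.mem_closedBall, dist_eq_norm] at hy
    have h1 : ‖v‖ ≤ ‖x‖ + ‖x - y‖ + ‖y - v‖ := by
      have h2 : v = x - (x - y) - (y - v) := by abel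
      calc ‖v‖ = ‖x - (x - y) - (y - v)‖ := by rw [← h2]
        _ ≤ ‖x - (x - y)‖ + ‖y - v‖ := norm_sub_le _ _
        _ ≤ _ := add_le_add_left (norm_sub_le _ _) _
    have h3 := le_abs_self R
    linarith
  have hdisj : Disjoint (Metric.closedBall (0 : Phase n) R) (Metric.closedBall v R) := by
    rw [Set.disjoint_left]
    intro x hx hy
    have h1 := hdist x hx x hy
    rw [sub_self, norm_zero] at h1
    linarith
  have hC' : ∀ x y, ‖fderiv ℝ (φ : Equiv.Perm (Phase n)) x -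
      fderiv ℝ (ψ' : Equiv.Perm (Phase n)) y‖ ≤ C := by
    intro x y
    have h2 : ((ψ' : Equiv.Perm (Phase n)) : Phase n → Phase n) = fun x =>
        v + (ψ : Equiv.Perm (Phase n)) (x - v) := funext hψ'
    rw [h2, Sub_fderiv_translate ψ v v y]
    exact hC x _
  refine ⟨φ * ψ', hj.mul_left' φ, ?_, ?_⟩
  · rw [← Sub_energy2_translate hψ']
    exact Sub_energy2 Metric.isClosed_closedBall Metric.isClosed_closedBall hφB hψB' hdisj
  · refine (Sub_fr_energy hp Metric.isClosed_closedBall Metric.isClosed_closedBall hφB hψB' hdisj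
      hdist hC').trans ?_
    rw [Sub_fr_translate p hψ', ← add_assoc]
    refine add_le_add_right ?_ _
    rw [Measure.addHaar_closedBall_center volume v R]
    rw [← hV, ← hA, ← ENNReal.mul_div_right_comm]
    apply ENNReal.div_le_of_le_mul
    refine hm'.trans ?_
    rw [mul_comm]
    refine mul_le_mul_right ?_ η
    have h1 : (1 : ℝ≥0∞) ≤ ENNReal.ofReal d := by
      rw [← ENNReal.ofReal_one]
      exact ENNReal.ofReal_le_ofReal hd1
    calc (m : ℝ≥0∞) ≤ ENNReal.ofReal d := by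
          rw [← ENNReal.ofReal_natCast]
          exact ENNReal.ofReal_le_ofReal (by rw [hd]; linarith)
      _ ≤ ENNReal.ofReal d ^ (4 * n) := le_self_pow₀ h1 (by omega)

end Pool.Agent.CEF
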