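import Pool.Agent.CEF.Defs
import Pool.Agent.Helper17.SobolevPoincare

/-!
# CEF [Aff]: the inequality of Poincare for the map itself
-/

set_option autoImplicit false
set_option maxSynthPendingDepth 3

open scoped ContDiff Topology ENNReal
open Set Function Filter MeasureTheory

namespace Pool.Agent.CEF

open Pool.Agent.Helper17

/-- From the lower Lebesgue integral to the integral. -/
private lemma Aff_lint {n : ℕ} {F : Type} [NormedAddCommGroup F] (h : Phase n → F)
    (hc : Continuous h) : ∫⁻ z in Metric.closedBall (0 : Phase n) 1, ‖h z‖ₑ ^ 2 =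
      ENNReal.ofReal (∫ z in Metric.closedBall (0 : Phase n) 1, ‖h z‖ ^ 2) := by
  have hint : IntegrableOn (fun z => ‖h z‖ ^ 2) (Metric.closedBall (0 : Phase n) 1) :=
    (hc.norm.pow 2).continuousOn.integrableOn_compact (isCompact_closedBall _ _)
  rw [ofReal_integral_eq_lintegral_ofReal hint (Eventually.of_forall fun z => by positivity)]
  refine lintegral_congr fun z => ?_
  rw [ENNReal.ofReal_pow (norm_nonneg _), ofReal_norm]

theorem thm_Aff (n : ℕ) : St_Aff n := by
  refine ⟨4 * 2 ^ Module.finrank ℝ (Phase n), by positivity, fun f hf p B => ?_⟩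
  obtain ⟨g, hg⟩ : ∃ g : Phase n → Phase n, g = fun z => f (p + z) - B z := ⟨_, rfl⟩
  have hgs : ContDiff ℝ ∞ g := by
    rw [hg]
    exact (hf.comp (contDiff_const.add contDiff_id)).sub B.contDiff
  have hg1 : ContDiff ℝ 1 g := hgs.of_le (by exact_mod_cast le_top)
  have hd : ∀ z, fderiv ℝ g z = fderiv ℝ f (p + z) - B := by
    intro z
    rw [hg]
    have h1 : HasFDerivAt (fun z => f (p + z)) (fderiv ℝ f (p + z)) z := by
      have h2 : HasFDerivAt f (fderiv ℝ f (p + z)) (p + z) :=
        (hf.differentiable (by simp) _).hasFDerivAt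
      have h3 : HasFDerivAt (fun z => p + z) (ContinuousLinearMap.id ℝ (Phase n)) z :=
        (hasFDerivAt_id z).const_add p
      exact h2.comp z h3
    exact (h1.sub B.hasFDerivAt).fderiv
  obtain ⟨z₀, -, h⟩ := poincare_sq hg1
  refine ⟨g z₀, ?_⟩
  have hcg : Continuous g := hg1.continuous
  have hcd : Continuous (fderiv ℝ g) := hg1.continuous_fderiv (by simp)
  rw [Aff_lint (fun y => g y - g z₀) (hcg.sub continuous_const), Aff_lint _ hcd] at h
  have h1 : (∫ z in Metric.closedBall (0 : Phase n) 1, ‖g z - g z₀‖ ^ 2) ≤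
      4 * 2 ^ Module.finrank ℝ (Phase n) *
        ∫ z in Metric.closedBall (0 : Phase n) 1, ‖fderiv ℝ g z‖ ^ 2 := by
    have h0 : 0 ≤ ∫ z in Metric.closedBall (0 : Phase n) 1, ‖fderiv ℝ g z‖ ^ 2 :=
      integral_nonneg fun z => by positivity
    rw [← ENNReal.ofReal_le_ofReal_iff (by positivity)]
    refine h.trans (le_of_eq ?_)
    rw [ENNReal.ofReal_mul (by positivity), ENNReal.ofReal_mul (by norm_num),
      ENNReal.ofReal_pow (by norm_num), ENNReal.ofReal_ofNat, ENNReal.ofReal_ofNat, mul_assoc]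
  have e1 : (∫ z in Metric.closedBall (0 : Phase n) 1, ‖f (p + z) - g z₀ - B z‖ ^ 2) =
      ∫ z in Metric.closedBall (0 : Phase n) 1, ‖g z - g z₀‖ ^ 2 := by
    refine integral_congr_ae (Eventually.of_forall fun z => ?_)
    have h2 : f (p + z) - g z₀ - B z = g z - g z₀ := by
      rw [show g z = f (p + z) - B z from congrFun hg z]
      abel
    simp only [h2]
  have e2 : (∫ z in Metric.closedBall (0 : Phase n) 1, ‖fderiv ℝ f (p + z) - B‖ ^ 2) =
      ∫ z in Metric.closedBall (0 : Phase n) 1, ‖fderiv ℝ g z‖ ^ 2 := by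
    refine integral_congr_ae (Eventually.of_forall fun z => ?_)
    simp only [hd z]
  rw [e1, e2]
  exact h1

end Pool.Agent.CEF
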