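import Mathlib
import Pool.Agent.Helper17.SympBase
import Pool.Agent.Helper17.AdmPath
import Pool.Agent.Helper17.AdmComp
import Pool.Agent.Helper17.VarScale
import Pool.Agent.Helper17.VarFlat
import Pool.Agent.Helper17.Quot
import Pool.Agent.Helper17.Counting
import Pool.Agent.Helper17.ScaleFun

set_option maxSynthPendingDepth 3

open scoped ContDiff Topology ENNReal
open Set Function Filter MeasureTheory

/-!
# Campaign CEF (MP_ec5dc5_gt): finiteness under the critical energy alone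

Architect: helper17.  `V = Phase n`, `m = 2 n`.  For a compactly supported symplectomorphism `phi`
write `A = D phi`, `K(x, s) = int eta(z) A(x + s z) dz = kAvg phi x s` (a matrix), and
`osc q phi x s = int_{|z|<=1} int_{|w|<=1} |A(x + s z) - A(x + s w)|^q`.

All statements `St_*` below are definitions of propositions; their proofs are in the docstrings.
-/

namespace Pool.Agent.CEF

open Pool.Agent.Helper17

/-- The oscillation integral of order `q` of the derivative on the ball `B(x, s)`, written in the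
scale invariant coordinates. -/
noncomputable def osc {n : ℕ} (q : ℕ) (φ : Phase n → Phase n) (x : Phase n) (s : ℝ) : ℝ≥0∞ :=
  ∫⁻ z in Metric.closedBall (0 : Phase n) 1, ∫⁻ w in Metric.closedBall (0 : Phase n) 1,
    ‖fderiv ℝ φ (x + s • z) - fderiv ℝ φ (x + s • w)‖ₑ ^ q

/-- The integral of the derivative against a kernel `ζ` at the scale `s`;
`kAvg φ x s = kz (eta (Phase n)) φ x s` by definition. -/
noncomputable def kz {n : ℕ} (ζ : Phase n → ℝ) (φ : Phase n → Phase n) (x : Phase n) (s : ℝ) :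
    Phase n →L[ℝ] Phase n :=
  ∫ z, ζ z • fderiv ℝ φ (x + s • z)

/-- The first moment of the derivative, `Q(x, s) = ∫ η(z) A(x + s z) z dz`. -/
noncomputable def kQ {n : ℕ} (φ : Phase n → Phase n) (x : Phase n) (s : ℝ) : Phase n :=
  ∫ z, fderiv ℝ φ (x + s • z) z ∂(etaMeasure n)

/-- The box `(x, s)` is bad if the averaged derivative is not nearly symplectic. -/
def Bad {n : ℕ} (φ : Phase n → Phase n) (x : Phase n) (s : ℝ) : Prop :=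
  ¬NearL (1 / 4) (kAvg φ x s)

/-- Uniform control of `φ`: the oscillation integrals of order `4` are at most `c`, and for every
`ε > 0` there are at most `N ε` pairwise unrelated boxes with `osc 2 ≥ ε`. -/
structure Ctrl {n : ℕ} (c : ℝ) (N : ℝ → ℕ) (δ : ℝ → ℝ) (φ : Phase n → Phase n) : Prop where
  osc4 : ∀ x s, 0 < s → osc 4 φ x s ≤ ENNReal.ofReal c
  pack : ∀ ε, 0 < ε → ∀ bs : List (Phase n × ℝ),
    (∀ b ∈ bs, 0 < b.2 ∧ ENNReal.ofReal ε ≤ osc 2 φ b.1 b.2) →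
    bs.Pairwise (fun a b => ¬Related (δ ε) a b) → bs.length ≤ N ε

/-- **[Pt] Point values.**  (4) Bounded oscillation of order 4 gives, for every `R ≥ 1`, a point
`z₀` of the unit ball with `∫_{|z| ≤ R} ‖A(x + s z) - A(x + s z₀)‖^4 dz ≤ C(R, c)`.
(2) the same for the order 2 on the unit ball, with a bound which is linear in `osc 2`.

Proof.  (4) Apply the hypothesis at the scale `R s` and substitute `z = z'/R`, `w = w'/R`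
(Jacobian `R^(2m)`): the double integral over `|z'|, |w'| ≤ R` is at most `R^(2m) c`.  Restrict `w'`
to the unit ball and take a point `w' = z₀` where the inner integral is at most its average
(`exists_le_setLAverage`, as in `Helper17.poincare_ball`); `C = R^(2m) c / vol(B_1)`.  Pass from the
lower Lebesgue integral to the Bochner integral of the continuous function on the compact ball.
(2) The same with `R = 1`; `C = 1 / vol(B_1)`. -/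
def St_Pt (n : ℕ) : Prop :=
  (∀ c : ℝ, ∀ R : ℝ, 1 ≤ R → ∃ C : ℝ, 0 ≤ C ∧ ∀ φ : Phase n → Phase n, ContDiff ℝ ∞ φ →
    (∀ x s, 0 < s → osc 4 φ x s ≤ ENNReal.ofReal c) → ∀ x s, 0 < s → ∃ z₀, ‖z₀‖ ≤ 1 ∧
      ∫ z in Metric.closedBall (0 : Phase n) R,
        ‖fderiv ℝ φ (x + s • z) - fderiv ℝ φ (x + s • z₀)‖ ^ 4 ≤ C) ∧
  (∃ C : ℝ, 0 ≤ C ∧ ∀ φ : Phase n → Phase n, ContDiff ℝ ∞ φ → ∀ ε : ℝ, 0 ≤ ε → ∀ x s, 0 < s →
    osc 2 φ x s ≤ ENNReal.ofReal ε → ∃ z₀, ‖z₀‖ ≤ 1 ∧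
      ∫ z in Metric.closedBall (0 : Phase n) 1,
        ‖fderiv ℝ φ (x + s • z) - fderiv ℝ φ (x + s • z₀)‖ ^ 2 ≤ C * ε)

/-- **[Ker] Derivative of averages.**  For a smooth kernel `ζ` supported in the unit ball, along
every curve `(X(t), S(t))` with `S > 0` the average `kz ζ φ (X t) (S t)` is differentiable, and its
derivative is bounded by `C (‖X'‖ + |S'|) / S` times the mean distance of `A` from ANY constant
matrix `B` on the ball.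

Proof.  `kz ζ φ x s` is smooth in `(x, s)`; differentiation under the integral sign (compact
support; `Helper17.hasFDerivAt_setIntegral` or `hasDerivAt_integral_of_dominated_loc_of_deriv_le`)
gives the derivative `D = ∫ ζ(z) • (D A)(X + S z) (X' + S' z) dz`, where `D A = D^2 phi`.
For `a(z) = A(X + S z) - B` one has `D a(z) = S • (D A)(X + S z)`, so
`D = S⁻¹ ∫ ζ(z) • (D a)(z) (X' + S' z) dz`.  Integration by parts
(`integral_smul_fderiv_eq_neg_fderiv_smul_of_integrable`, for the constant direction `X'` with the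
kernel `ζ`, and for the directions `e_i` with the kernels `z_i ζ(z)`) gives
`D = - S⁻¹ ∫ [ζ'(z)(X' + S' z) + m S' ζ(z)] • a(z) dz`, `m = 2 n`, and the bracket is bounded by
`C (‖X'‖ + |S'|)` on the unit ball and vanishes outside. -/
def St_Ker (n : ℕ) : Prop :=
  ∀ ζ : Phase n → ℝ, ContDiff ℝ ∞ ζ → (∀ z, 1 < ‖z‖ → ζ z = 0) → ∃ C : ℝ, 0 ≤ C ∧
    ∀ φ : Phase n → Phase n, ContDiff ℝ ∞ φ → ∀ (X : ℝ → Phase n) (S : ℝ → ℝ) (t : ℝ)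
      (X' : Phase n) (S' : ℝ), HasDerivAt X X' t → HasDerivAt S S' t → 0 < S t →
      ∀ B : Phase n →L[ℝ] Phase n, ∃ D : Phase n →L[ℝ] Phase n,
        HasDerivAt (fun t => kz ζ φ (X t) (S t)) D t ∧
        ‖D‖ ≤ C * (‖X'‖ + |S'|) / S t * ∫ z in Metric.closedBall (0 : Phase n) 1,
          ‖fderiv ℝ φ (X t + S t • z) - B‖

/-- **[Gro] Logarithmic growth of the averages.**  For every `S > 0`,
`‖K(x, s) - K(x', s')‖ ≤ C (‖x - x'‖ / S + |log (S / s)| + |log (S / s')|)`.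

Proof.  Go from `(x, s)` vertically to `(x, S)`, horizontally to `(x', S)` and vertically to
`(x', s')`.  By [Pt] (4) with `R = 1` there is for each box a matrix `B` with
`∫_{|z| ≤ 1} ‖A(x + s z) - B‖ ≤ ∫ (1 + ‖A - B‖^4) ≤ vol(B_1) + C`, so by [Ker] for `ζ = eta` the
derivative along the vertical curve `t ↦ (x, exp t)` is bounded by a constant and the derivative
along the horizontal segment at the height `S` by `C ‖x - x'‖ / S`.  Mean value inequality. -/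
def St_Gro (n : ℕ) : Prop :=
  ∀ c : ℝ, ∃ C : ℝ, 0 ≤ C ∧ ∀ φ : Phase n → Phase n, ContDiff ℝ ∞ φ →
    (∀ x s, 0 < s → osc 4 φ x s ≤ ENNReal.ofReal c) → ∀ x x' s s' S, 0 < s → 0 < s' → 0 < S →
      ‖kAvg φ x s - kAvg φ x' s'‖ ≤ C * (‖x - x'‖ / S + |Real.log (S / s)| + |Real.log (S / s')|)

/-- **[Vm1] First derivatives of the mollification at a variable scale.**
`D (vmol φ ρ)(x) = K(x, ρ x) + Q ⊗ Dρ(x)` with `Q = Q(x, ρ x)`, `‖Q‖ ≤ C`; hence it is nearly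
symplectic if `K` is and if `‖Dρ(x)‖ (1 + ‖K‖)` is small.

Proof.  `Helper17.hasFDerivAt_vmol` gives `D (vmol φ ρ)(x) v = ∫ A(x + ρ z)(v + (Dρ v) z) dη(z)
= K v + (Dρ v) Q`.  Since `∫ z dη = 0`, `Q = ∫ (A(x + ρ z) - B) z dη` for every `B`, and with the
point value `B` of [Pt] (4), `‖Q‖ ≤ (sup eta) ∫_{|z|≤1} ‖A - B‖ ≤ (sup eta) (vol + C)`.  Further
`ω(K v + (Dρ v) Q, K w + (Dρ w) Q) = ω(K v, K w) + (Dρ w) ω(K v, Q) + (Dρ v) ω(Q, K w)`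
because `ω(Q, Q) = 0`. -/
def St_Vm1 (n : ℕ) : Prop :=
  ∀ c : ℝ, ∃ C : ℝ, 0 ≤ C ∧ ∀ φ : Phase n → Phase n, ContDiff ℝ ∞ φ →
    (∀ x s, 0 < s → osc 4 φ x s ≤ ENNReal.ofReal c) → ∀ ρ : Phase n → ℝ, ContDiff ℝ ∞ ρ →
    ∀ x, 0 < ρ x →
      ‖fderiv ℝ (vmol φ ρ) x - kAvg φ x (ρ x)‖ ≤ C * ‖fderiv ℝ ρ x‖ ∧
      ∀ θ, NearL θ (kAvg φ x (ρ x)) →
        NearL (θ + C * (‖fderiv ℝ ρ x‖ * (1 + ‖kAvg φ x (ρ x)‖))) (fderiv ℝ (vmol φ ρ) x)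

/-- **[Vm2] Second derivatives of the mollification at a variable scale.**

Proof.  Near `x`, `D (vmol φ ρ)(y) = K(y, ρ y) + Q(y, ρ y) ⊗ Dρ(y)` (see [Vm1]).  Differentiate in
the direction `v` along the curve `X(t) = x + t v`, `S(t) = ρ(x + t v)`: by [Ker] with `ζ = eta` and
the point value of [Pt] (4) as `B`, the derivative of the first term is at most
`C (1 + ‖Dρ‖)/ρ ≤ 2 C/ρ`.  `Q(y, s) = ∑_i ∫ eta(z) z_i A(y + s z) e_i dz`, so by [Ker] for the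
kernels `eta(z) z_i` the derivative of `Q` is at most `C/ρ` as well, and the derivative of the
second term is at most `C/ρ ‖Dρ‖ + ‖Q‖ ‖D²ρ‖ ≤ C (1 + H)/ρ`. -/
def St_Vm2 (n : ℕ) : Prop :=
  ∀ c : ℝ, ∃ C : ℝ, 0 ≤ C ∧ ∀ φ : Phase n → Phase n, ContDiff ℝ ∞ φ →
    (∀ x s, 0 < s → osc 4 φ x s ≤ ENNReal.ofReal c) → ∀ ρ : Phase n → ℝ, ContDiff ℝ ∞ ρ →
    ∀ (x : Phase n) (H : ℝ), 0 ≤ H → 0 < ρ x → ‖fderiv ℝ ρ x‖ ≤ 1 →
      ‖fderiv ℝ (fderiv ℝ ρ) x‖ ≤ H / ρ x →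
      ‖fderiv ℝ (fderiv ℝ (vmol φ ρ)) x‖ ≤ C * (1 + H) / ρ x

/-- **[Var] Small oscillation gives a nearly symplectic average.**

Proof.  For a probability measure `dη` and `K = ∫ A dη`, since `ω(A v, A w) = ω(v, w)` pointwise,
`ω(K v, K w) - ω(v, w) = - ∫ ω((A - K) v, (A - K) w) dη`, whose absolute value is at most
`‖v‖ ‖w‖ ∫ ‖A - K‖² dη ≤ ‖v‖ ‖w‖ ∫ ‖A - B‖² dη · 4` for every constant `B` (or use
`Helper17.integral_sub_mean_sq_le`), and `∫ ‖A - B‖² dη ≤ (sup eta) ∫_{|z|≤1} ‖A - B‖²`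
is small by [Pt] (2). -/
def St_Var (n : ℕ) : Prop :=
  ∃ ε : ℝ, 0 < ε ∧ ∀ φ : SympCt n, ∀ x s, 0 < s →
    osc 2 (φ : Equiv.Perm (Phase n)) x s ≤ ENNReal.ofReal ε →
    ¬Bad (φ : Equiv.Perm (Phase n)) x s

/-- A linear map preserving the symplectic form. -/
def SympL {n : ℕ} (A : Phase n →L[ℝ] Phase n) : Prop :=
  ∀ v w, omegaStd (A v) (A w) = omegaStd v w

/-- **[Lin] The contracted half.**  For a symplectic matrix `A₀` there is a projection `P` with: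
`ω` vanishes on the range of `1 - P`; for every `X` there is `w` with `‖w‖ = ‖P X‖`,
`ω(w, X) = ‖P X‖²` and `A₀` does not contract the preimage of `w`: `‖A₀⁻¹ w‖ ≤ ‖w‖`.
(2) for n ≠ 0 there is a unit vector `e` with `‖A₀ e‖ ≤ 2 / ‖A₀‖`.

Proof.  (1) Let `S = A₀ A₀ᵀ` (`A₀ᵀ = ContinuousLinearMap.adjoint A₀`), a positive symmetric
operator; `ω(u, v) = ⟪J u, v⟫` (`omegaStd_eq_inner`), `A₀ᵀ J A₀ = J`, hence also `A₀ J A₀ᵀ = J` and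
`S J S = J`.  Take an orthonormal basis `b_i` of eigenvectors (`LinearMap.IsSymmetric.eigenvectorBasis`),
`S b_i = λ_i b_i`, `λ_i > 0`, and let `P` be the orthogonal projection to the span of the `b_i` with
`λ_i ≤ 1` (`P X = ∑_{λ_i ≤ 1} ⟪b_i, X⟫ b_i`).  If `λ_i, λ_j > 1` then
`ω(b_i, b_j) = ω(S b_i, S b_j) = λ_i λ_j ω(b_i, b_j)` (S is symplectic), so `ω(b_i, b_j) = 0`: the
form vanishes on the range of `1 - P`.  For `X` let `w = - J P X`, so `J w = P X`, `‖w‖ = ‖P X‖`,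
`ω(w, X) = ⟪J w, X⟫ = ⟪P X, X⟫ = ‖P X‖²`.  If `S b = λ b` then `S J b = J S⁻¹ b = λ⁻¹ J b`, so `w` is
a combination of the orthogonal eigenvectors `J b_i` (`λ_i ≤ 1`) with eigenvalues `λ_i⁻¹ ≥ 1`; if
`A₀ y = w` then `‖y‖² = ⟪A₀⁻¹ w, A₀⁻¹ w⟫ = ⟪w, S⁻¹ w⟫ = ∑ λ_i w_i² ≤ ‖w‖²`.
(2) `A₀⁻¹ = - J A₀ᵀ J` has the same norm as `A₀` (`= ‖A₀ᵀ‖`), which is `≥ 1 > 0`; take `g` with
`‖g‖ = 1` and `‖A₀⁻¹ g‖ ≥ ‖A₀‖ / 2` and `e = A₀⁻¹ g / ‖A₀⁻¹ g‖`. -/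
def St_Lin (n : ℕ) : Prop :=
  ∀ A₀ : Phase n →L[ℝ] Phase n, SympL A₀ →
    (∃ P : Phase n →L[ℝ] Phase n, (∀ X, ‖P X‖ ≤ ‖X‖) ∧
      (∀ X Y, omegaStd (X - P X) (Y - P Y) = 0) ∧
      ∀ X, ∃ w : Phase n, ‖w‖ = ‖P X‖ ∧ omegaStd w X = ‖P X‖ ^ 2 ∧ ∀ y, A₀ y = w → ‖y‖ ≤ ‖w‖) ∧
    (n ≠ 0 → ∃ e : Phase n, ‖e‖ = 1 ∧ ‖A₀ e‖ * ‖A₀‖ ≤ 2)

/-- **[Dir] The contracted components do not move in the contracted direction.**  Let `A₀`, `A` be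
symplectic, `P` as in [Lin] for `A₀`.  Then `‖P (A e - A₀ e)‖ ≤ ‖A - A₀‖ (1 + ‖A - A₀‖) ‖A₀ e‖`.

Proof.  `N = A - A₀`, `X = N e`, `w` as in [Lin]: `‖P N e‖² = ω(w, N e)`.  `A` and `A₀` are
bijective; let `u = A⁻¹ w`.  Then `ω(w, N e) = ω(w, A e) - ω(w, A₀ e) = ω(u, e) - ω(w, A₀ e)
= ω(A₀ u, A₀ e) - ω(w, A₀ e) = ω(A₀ u - A u, A₀ e) = - ω(N u, A₀ e)`, so
`‖P N e‖² ≤ ‖N‖ ‖u‖ ‖A₀ e‖`.  Further `A⁻¹ = - J Aᵀ J`, `A⁻¹ - A₀⁻¹ = - J Nᵀ J`, so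
`‖u‖ ≤ ‖A₀⁻¹ w‖ + ‖N‖ ‖w‖ ≤ (1 + ‖N‖) ‖w‖ = (1 + ‖N‖) ‖P N e‖`.  Divide by `‖P N e‖`. -/
def St_Dir (n : ℕ) : Prop :=
  ∀ A₀ A P : Phase n →L[ℝ] Phase n, SympL A₀ → SympL A →
    (∀ X, ∃ w : Phase n, ‖w‖ = ‖P X‖ ∧ omegaStd w X = ‖P X‖ ^ 2 ∧ ∀ y, A₀ y = w → ‖y‖ ≤ ‖w‖) →
    ∀ e, ‖P (A e - A₀ e)‖ ≤ ‖A - A₀‖ * (1 + ‖A - A₀‖) * ‖A₀ e‖

/-- **[Wed] Integration by parts for a wedge product.**

Proof.  For fixed `u, v` put `β(w) = eta • ω(F, DG w)`.  The function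
`∂_u β(v) - ∂_v β(u)` is the derivative of compactly supported functions, so its integral is zero
(`integral_smul_fderiv_eq_neg_fderiv_smul_of_integrable` or `integral_eq_zero_of_hasFDerivAt...`).
Since `D²G` is symmetric, `∂_u β(v) - ∂_v β(u) = (∂_u eta) ω(F, DG v) - (∂_v eta) ω(F, DG u)
+ eta (ω(DF u, DG v) - ω(DF v, DG u))`.  Hence the integral on the left is
`- ∫ [(∂_u eta) ω(F, DG v) - (∂_v eta) ω(F, DG u)] dz`, which is at most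
`2 sup‖D eta‖ ‖u‖ ‖v‖ ∫_{|z| ≤ 1} ‖F‖ ‖DG‖`, and `‖F‖ ‖DG‖ ≤ (a ‖F‖² + a⁻¹ ‖DG‖²)/2`. -/
def St_Wed (n : ℕ) : Prop :=
  ∃ C : ℝ, 0 ≤ C ∧ ∀ F G : Phase n → Phase n, ContDiff ℝ ∞ F → ContDiff ℝ ∞ G → ∀ u v : Phase n,
    ∀ a : ℝ, 0 < a →
    |∫ z, (omegaStd (fderiv ℝ F z u) (fderiv ℝ G z v) -
        omegaStd (fderiv ℝ F z v) (fderiv ℝ G z u)) ∂(etaMeasure n)| ≤
      C * ‖u‖ * ‖v‖ * (a * (∫ z in Metric.closedBall (0 : Phase n) 1, ‖F z‖ ^ 2) +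
        a⁻¹ * ∫ z in Metric.closedBall (0 : Phase n) 1, ‖fderiv ℝ G z‖ ^ 2)

/-- **[Tra] Transport in the contracted direction.**

Proof.  `P (f(z + τ e) - f(z) - τ A₀ e) = ∫_0^τ P (A(z + t e) - A₀) e dt`, `A = Df`, and by [Dir]
its norm is at most `λ ∫_0^τ (‖N‖ + ‖N‖²)(z + t e) dt`, `N = A - A₀`; its square is at most
`λ² τ ∫_0^τ (‖N‖ + ‖N‖²)² dt ≤ λ² T ∫_0^T (2 + 4 ‖N‖^4)(z + t e) dt` (Cauchy-Schwarz and
`(x + x²)² ≤ 2 x² + 2 x⁴ ≤ 2 + 4 x⁴`).  Integrate over `|z| ≤ 1`, exchange the integrals, and use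
that `z + t e` stays in the ball of radius `T + 1`: the bound is `λ² T² (2 vol(B_1) + 4 J)`. -/
def St_Tra (n : ℕ) : Prop :=
  ∀ T : ℝ, 0 ≤ T → ∃ C : ℝ, 0 ≤ C ∧ ∀ f : Phase n → Phase n, ContDiff ℝ ∞ f →
    (∀ z, SympL (fderiv ℝ f z)) → ∀ (A₀ P : Phase n →L[ℝ] Phase n) (e : Phase n) (lam τ J : ℝ),
    SympL A₀ →
    (∀ X, ∃ w : Phase n, ‖w‖ = ‖P X‖ ∧ omegaStd w X = ‖P X‖ ^ 2 ∧ ∀ y, A₀ y = w → ‖y‖ ≤ ‖w‖) →
    ‖e‖ = 1 → ‖A₀ e‖ ≤ lam → 0 ≤ τ → τ ≤ T →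
    ∫ z in Metric.closedBall (0 : Phase n) (T + 1), ‖fderiv ℝ f z - A₀‖ ^ 4 ≤ J →
    ∫ z in Metric.closedBall (0 : Phase n) 1, ‖P (f (z + τ • e) - f z - τ • A₀ e)‖ ^ 2 ≤
      C * lam ^ 2 * (1 + J)

/-- **[Aff] Poincare's inequality for the map itself.**

Proof.  `Helper17.poincare_sq` (file SobolevPoincare) for `g z = f (p + z) - B z`, whose derivative
is `fderiv f (p + z) - B`; `a = g z₀`; pass to Bochner integrals (continuous functions on a compact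
ball).  `C = 4 * 2^(2n)`. -/
def St_Aff (n : ℕ) : Prop :=
  ∃ C : ℝ, 0 ≤ C ∧ ∀ f : Phase n → Phase n, ContDiff ℝ ∞ f → ∀ (p : Phase n)
    (B : Phase n →L[ℝ] Phase n), ∃ a : Phase n,
    ∫ z in Metric.closedBall (0 : Phase n) 1, ‖f (p + z) - a - B z‖ ^ 2 ≤
      C * ∫ z in Metric.closedBall (0 : Phase n) 1, ‖fderiv ℝ f (p + z) - B‖ ^ 2

/-- **[Cv2] Nearly affine contracted half gives a nearly symplectic average.**

Proof.  `A = Df`, `K = ∫ A dη = kAvg f 0 1`, `X = A - K`, `∫ X dη = 0`,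
`F(z) = P (f z - a - B z)`, `DF = P (A - B)`, `C' = P (B - K) = P X - DF` (a constant matrix),
`∫ DF dη = - C'`.  Since `ω(A u, A v) = ω(u, v)`, `ω(K u, K v) - ω(u, v) = - ∫ ω(X u, X v) dη`.
Since `ω(Y - P Y, Z - P Z) = 0`, `ω(X u, X v) = ω(P X u, X v) + ω(X u, P X v) - ω(P X u, P X v)`;
inserting `P X = DF + C'` and integrating,
`∫ ω(X u, X v) dη = ∫ [ω(DF u, X v) - ω(DF v, X u)] dη - ∫ ω(DF u, DF v) dη + ω(C' u, C' v)`.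
The first integral is estimated by [Wed] with `G z = f z - K z`, the second one is
`(1/2) ∫ [ω(DF u, DF v) - ω(DF v, DF u)] dη`, estimated by [Wed] with `G = F`, where
`∫_{B_1} ‖DF‖² ≤ 2 ∫ ‖X‖² + 2 vol ‖C'‖²`; finally `C' u = - ∫ DF u dη = ∫ (∂_u eta) F dz`, so
`‖C'‖² ≤ (sup ‖D eta‖)² vol(B_1) ∫_{B_1} ‖F‖²` (`Helper17.setIntegral_pow_le` with exponent 2).
With `∫_{B_1} ‖X‖² ≤ C₂` and `∫_{B_1} ‖F‖² ≤ μ ≤ 1` the total is at most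
`‖u‖ ‖v‖ C (a μ + (C₂ + 1) / a + μ)` for every `a > 0`; choose `a` large and then `μ` small. -/
def St_Cv2 (n : ℕ) : Prop :=
  ∀ C₂ : ℝ, ∃ μ : ℝ, 0 < μ ∧ ∀ f : Phase n → Phase n, ContDiff ℝ ∞ f →
    (∀ z, SympL (fderiv ℝ f z)) → ∀ (P B : Phase n →L[ℝ] Phase n) (a : Phase n),
    (∀ X, ‖P X‖ ≤ ‖X‖) → (∀ X Y, omegaStd (X - P X) (Y - P Y) = 0) →
    ∫ z in Metric.closedBall (0 : Phase n) 1, ‖fderiv ℝ f z - kAvg f 0 1‖ ^ 2 ≤ C₂ →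
    ∫ z in Metric.closedBall (0 : Phase n) 1, ‖P (f z - a - B z)‖ ^ 2 ≤ μ →
    NearL (1 / 4) (kAvg f 0 1)

/-- **[Deg] In a bad box the average is bounded.**

Proof.  Let `C₂ = C₂(c)` be a bound for `∫_{B_1} ‖A(x + s z) - K(x, s)‖² dz` (from [Pt] (4)
with `R = 1`: with the point value `B`, `‖A - K‖² ≤ 2 ‖A - B‖² + 2 ‖K - B‖²`,
`‖K - B‖ ≤ (sup eta) ∫_{B_1} ‖A - B‖`, `t, t² ≤ 1 + t⁴`), `μ = μ(C₂)` from [Cv2].  Choose `ε > 0`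
with `2 C_Aff C_Pt2 ε ≤ μ / 2`, `T = 3 (N ε + 1)`, `R = T + 1`, `C_R` from [Pt] (4), `C_T` from
[Tra].  Let `(x, s)` be a box, `f z = s⁻¹ • φ (x + s z)`, so `Df(z) = Dφ(x + s z)` and
`kAvg f 0 1 = kAvg φ x s = K`; `A₀ = Df(z₀)` the point value on `B_R`; `‖A₀ - K‖ ≤ C(R)`.
`P`, `e` from [Lin] for `A₀`, `lam = 2 / ‖A₀‖`.  The `N ε + 1` boxes `(x + 3 k s e, s)`,
`k = 1, .., N ε + 1`, are pairwise unrelated (distance `≥ 3 s > s + s`), so one of them has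
`osc 2 < ε`; with [Pt] (2) for this box we get a matrix `B` with
`∫_{B_1} ‖Df(3 k e + z) - B‖² ≤ C_Pt2 ε`, with [Aff] a vector `a` with
`∫_{B_1} ‖f(3 k e + z) - a - B z‖² ≤ C_Aff C_Pt2 ε`, and with [Tra] for `τ = 3 k ≤ T`
`∫_{B_1} ‖P (f (z + 3 k e) - f z - 3 k A₀ e)‖² ≤ C_T lam² (1 + C_R)`.  Subtract: for
`a' = a - 3 k A₀ e`, `∫_{B_1} ‖P (f z - a' - B z)‖² ≤ 2 C_Aff C_Pt2 ε + 2 C_T lam² (1 + C_R) ≤ μ`
as soon as `‖A₀‖ ≥ ‖K‖ - C(R)` is large.  Then [Cv2] says that the box is not bad. -/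
def St_Deg (n : ℕ) : Prop :=
  n ≠ 0 → ∀ (c : ℝ) (N : ℝ → ℕ) (δ : ℝ → ℝ), (∀ ε, 0 < ε → 0 < δ ε ∧ δ ε ≤ 1) → ∃ M : ℝ, 0 ≤ M ∧
    ∀ φ : SympCt n, Ctrl c N δ (φ : Equiv.Perm (Phase n)) → ∀ x s, 0 < s →
      Bad (φ : Equiv.Perm (Phase n)) x s → ‖kAvg (φ : Equiv.Perm (Phase n)) x s‖ ≤ M

/-- **[Cov] The bad boxes are covered by boundedly many of them.**

Proof.  `ε` from [Var]: bad boxes have `osc 2 > ε`.  Take a family of pairwise unrelated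
(`Related (δ ε)`) bad boxes of maximal length (at most `N ε` by `Ctrl.pack`); every bad box is
related to a member.  `Λ₀ = 1 + (δ ε)⁻¹`.  Copy the end of `Helper17.energy_packing`
(file Finiteness) from the comment -- families of pairwise unrelated bad balls. -/
def St_Cov (n : ℕ) : Prop :=
  ∀ (c : ℝ) (N : ℝ → ℕ) (δ : ℝ → ℝ), (∀ ε, 0 < ε → 0 < δ ε ∧ δ ε ≤ 1) →
    ∃ (N' : ℕ) (Λ₀ : ℝ), 1 ≤ Λ₀ ∧ ∀ φ : SympCt n, Ctrl c N δ (φ : Equiv.Perm (Phase n)) →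
      ∃ bs : List (Phase n × ℝ), bs.length ≤ N' ∧
        (∀ b ∈ bs, 0 < b.2 ∧ Bad (φ : Equiv.Perm (Phase n)) b.1 b.2) ∧
        ∀ x s, 0 < s → Bad (φ : Equiv.Perm (Phase n)) x s →
          ∃ b ∈ bs, ‖x - b.1‖ ≤ Λ₀ * b.2 ∧ b.2 ≤ Λ₀ * s ∧ s ≤ Λ₀ * b.2

/-- **[Gap] No bad box at all.**

Proof.  `t ↦ vmol φ (const (t R))`, `t ∈ [0, 1]`, is a path of nearly symplectic maps:
`D (vmol φ (const r))(x) = kAvg φ x r` (`Helper17.fderiv_vmol_const`), which is `NearL (1/4)` for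
`r > 0` and `= Dφ(x)` for `r = 0` (see `Helper17.InClass.admPath_vmol`, file NormalClass).  For
large `R` the end of the path is joined to the identity by a segment
(`Helper17.exists_large_scale`, `Helper17.admissible_near_one'`, `Helper17.admPath_segment`, exactly
as in `Helper17.admPath_vmol_one`, file Packing).  Conclude with `Helper17.joined_of_admPath`. -/
def St_Gap (n : ℕ) : Prop :=
  n ≠ 0 → ∀ φ : SympCt n, (∀ x s, 0 < s → ¬Bad (φ : Equiv.Perm (Phase n)) x s) → Joined φ 1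

/-- Quantitative admissibility. -/
def QAdm {n : ℕ} (c : ℝ) (B : Phase n →L[ℝ] Phase n) : Prop :=
  ∀ u : Phase n, ∃ v : Phase n, ‖v‖ ≤ ‖u‖ ∧ ∀ s ∈ Icc (0 : ℝ) 1,
    c * ‖u‖ ^ 2 ≤ (1 - s) * omegaStd u v + s * omegaStd (B u) (B v)

/-- A class of maps of bounded geometry. -/
structure Cls {n : ℕ} (C L H c : ℝ) (γ : Phase n → Phase n) : Prop where
  smooth : ContDiff ℝ ∞ γ
  supp : ∀ x, C < ‖x‖ → γ x = x
  lip : ∀ x, ‖fderiv ℝ γ x‖ ≤ L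
  hess : ∀ x, ‖fderiv ℝ (fderiv ℝ γ) x‖ ≤ H
  qadm : ∀ x, QAdm c (fderiv ℝ γ x)

/-- **[Cls] A class of bounded geometry contains finitely many isotopy classes.**

Proof.  `QAdm c B` implies `Admissible B` (`c > 0`), so members are `Adm` and are joined to a
symplectic map (`Helper17.Adm.exists_symp`).  If `‖B' - B‖ ≤ τ`, `‖B‖ ≤ L`, then
`QAdm (c - 2 L τ - τ²) B'` (same `v`).  If `γ, γ'` are members with `‖γ - γ'‖ ≤ τ₀` everywhere, then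
`g = γ' - γ` satisfies `‖D g(x) v‖ ≤ 2 τ₀ / h + 2 H h` for unit `v` and every `h > 0` (mean value
inequality for `Dg`), so `‖Dg‖ ≤ 2 τ₀/h + 2 H h` is as small as we like; hence for `τ₀ = τ₀(L,H,c)`
the segment `γ + t (γ' - γ)` consists of admissible maps and `Helper17.admPath_segment` joins them.
The members are equicontinuous and are the identity outside `B_C`: finitely many codes (values on a
finite net up to `τ₀/4`) suffice, exactly as in `Helper17.finite_classes` (file NormalClass), which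
should be copied. -/
def St_Cls (n : ℕ) : Prop :=
  ∀ C L H c : ℝ, 1 ≤ L → 0 ≤ H → 0 < c → ∃ F : Set (SympCt n), F.Finite ∧
    ∀ γ : Phase n → Phase n, Cls C L H c γ → ∃ g ∈ F, AdmPath γ (g : Equiv.Perm (Phase n))

/-- **[Quo] The quotient of two nearly symplectic maps which differ in a ball only.**
`A`, `B` are compactly supported, nearly symplectic (constant 1/2), equal outside `B(p, R r)`, and
have bounded geometry in `B(p, 2 R r)` in units of `r`.  `Φ` is the inverse of `B`.  The rescaled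
quotient `γ'(y) = r⁻¹ (A(Φ(P + r y)) - P)`, `P = B p`, lies in a class `Cls`, with constants
depending on `Rm, L, H` only (`R ≤ Rm`); and `γ = A ∘ Φ` is `Adm`.

Proof.  If `x = Φ w` is not in `closedBall p (R r)` then `A = B` near `x` so `γ = id` near `w`
(`Φ` is continuous): `γ w = w`, `Dγ = 1`, `D²γ = 0` there.  Let `x = Φ w ∈ ball p (2 R r)`.  By
`NearL.norm_ge` (file Quot, `‖DB‖ ≤ 2L`) `‖DΦ(w)‖ ≤ 4 L`; `Dγ(w) = DA(x) ∘ DΦ(w)`, so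
`‖Dγ‖ ≤ 4 L²`.  Differentiating `DB(Φ w) ∘ DΦ(w) = 1`,
`D²Φ(w)(v₁) = - DΦ(w) ∘ (D²B(x)(DΦ(w) v₁)) ∘ DΦ(w)`, so `‖D²Φ‖ ≤ 64 L³ H/r` and
`‖D²γ‖ ≤ (H/r) 16 L² + L 64 L³ H / r`.  QAdm: for `u'` put `u = DΦ(w) u'`, so `u' = DB(x) u`,
`‖u'‖ ≤ L ‖u‖`; if `u ≠ 0` let `v = (‖u'‖ / (L ‖u‖)) DB(x)(J u)`, `‖v‖ ≤ ‖u'‖`
(`omegaStd_Jl`, `norm_Jl`); then for `s ∈ [0,1]`, with `k = ‖u'‖ / (L ‖u‖)`,
`(1-s) ω(u', v) + s ω(Dγ u', Dγ v) = k [(1-s) ω(DB u, DB J u) + s ω(DA u, DA J u)]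
≥ k ‖u‖²/2 ≥ ‖u'‖² / (2 L²)` (`NearL.lower`).  Where `Dγ = 1` use `v = J u'`.  Support: if
`‖w - P‖ > L R r` then `Φ w ∉ closedBall p (R r)` because `B` is `L`-Lipschitz on this ball.
Rescaling: `Dγ'(y) = Dγ(P + r y)`, `D²γ'(y) = r D²γ(P + r y)`.
(If `closedBall p (R r)` is replaced by its complement in the second case note that every `w` is in
one of the two cases because `R r < 2 R r`.) -/
def St_Quo (n : ℕ) : Prop :=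
  ∀ Rm L H : ℝ, 0 < Rm → 1 ≤ L → 0 ≤ H → ∃ C' L' H' c' : ℝ, 1 ≤ L' ∧ 0 ≤ H' ∧ 0 < c' ∧
    ∀ (A B Φ : Phase n → Phase n) (p : Phase n) (R r : ℝ), 0 < R → R ≤ Rm → 0 < r →
      Adm A → Adm B →
      ContDiff ℝ ∞ Φ → (∀ x, Φ (B x) = x) → (∀ y, B (Φ y) = y) →
      (∀ x, NearL (1 / 2) (fderiv ℝ A x)) → (∀ x, NearL (1 / 2) (fderiv ℝ B x)) →
      (∀ x, R * r < ‖x - p‖ → A x = B x) →
      (∀ x, ‖x - p‖ ≤ 2 * R * r → ‖fderiv ℝ A x‖ ≤ L ∧ ‖fderiv ℝ B x‖ ≤ L ∧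
        ‖fderiv ℝ (fderiv ℝ A) x‖ ≤ H / r ∧ ‖fderiv ℝ (fderiv ℝ B) x‖ ≤ H / r) →
      Adm (fun y => A (Φ y)) ∧
      Cls C' L' H' c' (fun y => r⁻¹ • (A (Φ (B p + r • y)) - B p))

/-- The squared hump: height `l`, equal to `l²` for `‖x - p‖ ≤ l / η`, zero for `‖x - p‖ ≥ 2 l / η`. -/
noncomputable def hmp {n : ℕ} (η : ℝ) (p : Phase n) (l : ℝ) (x : Phase n) : ℝ :=
  (l * (bmp n ((η / l) • (x - p))) ^ 2) ^ 2

/-- **[Hmp] Properties of the squared hump.**  `t` is a factor in `[0, 1]` and `s > 0` satisfies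
`t hmp(x) ≤ s²`.

Proof.  `b = bmp(..) ∈ [0,1]`, `hmp = l² b⁴`, `‖D(t hmp)‖ ≤ 4 t l² b³ C_b (η/l) = 4 C_b η l t b³`.
With `a = s / l`: `√t b² ≤ a` and `√t b² ≤ 1`, and `√t b ≤ (√t b²)^(1/2)`, so
`t b³ = (√t b²)(√t b) ≤ a √a`, `≤ a`, `≤ 1`.  Hence (i) `‖D(t hmp)‖ ≤ 4 C_b η l min(a,1) ≤ C η s`;
(ii) for `a ≤ 1`, `√a |log a| ≤ 1` gives `‖D(t hmp)‖ |log a| ≤ 4 C_b η l a`; for `a ≥ 1`,
`|log a| ≤ a` gives the same.  (iii) `D²(hmp)(x) = l² (η/l)² D²(bmp⁴)(..)`, bounded by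
`sup ‖D²(bmp⁴)‖` because `η ≤ 1` (continuous with compact support). -/
def St_Hmp (n : ℕ) : Prop :=
  ∃ C : ℝ, 1 ≤ C ∧ ∀ (η : ℝ) (p : Phase n) (l : ℝ), 0 < η → η ≤ 1 → 0 < l →
    ContDiff ℝ ∞ (hmp η p l) ∧ (∀ x, 0 ≤ hmp η p l x ∧ hmp η p l x ≤ l ^ 2) ∧
    (∀ x, η * ‖x - p‖ ≤ l → hmp η p l x = l ^ 2) ∧
    (∀ x, 2 * l ≤ η * ‖x - p‖ → hmp η p l x = 0) ∧
    (∀ x, ‖fderiv ℝ (fderiv ℝ (hmp η p l)) x‖ ≤ C) ∧
    ∀ x (t s : ℝ), 0 ≤ t → t ≤ 1 → 0 < s → t * hmp η p l x ≤ s ^ 2 →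
      ‖fderiv ℝ (fun x => t * hmp η p l x) x‖ ≤ C * η * s ∧
      ‖fderiv ℝ (fun x => t * hmp η p l x) x‖ * |Real.log (s / l)| ≤ C * η * s

/-- The slope condition for a squared scale function `F`. -/
def Slp {n : ℕ} (κ : ℝ) (φ : Phase n → Phase n) (F : Phase n → ℝ) : Prop :=
  ∀ x s, 0 < s → F x ≤ s ^ 2 → ‖fderiv ℝ F x‖ * (1 + ‖kAvg φ x s‖) ≤ κ * s

/-- **[Slo] Slopes of humps at boxes with bounded average.**

Proof.  Let `G = hmp η' p l`, `S = l / η'`.  Outside `ball p (2 S)` the derivative vanishes (`G` is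
zero near such points, or use that `D(tG)(x) = 0` where `G` attains its minimum `0`).  For
`‖x - p‖ ≤ 2 S` and `s > 0`, [Gro] for `(x, s)`, `(p, r)`, `S` gives
`‖K(x, s)‖ ≤ M + C_g (2 + |log (S/s)| + |log (S/r)|)
≤ M + C_g (2 + |log η'| + |log (l/(η' r))|) + C_g |log (s/l)|`, so by [Hmp]
`‖D(tG)‖ (1 + ‖K‖) ≤ C_h η' s (1 + M + C_g (3 + |log η'| + |log (l / (η' r))|))`.
For `(η', l) = (η, K r)`: `l/(η' r) = K/η`; for `(η', l) = (s₀ η/(4K), s₀ r)`: `l/(η' r) = 4 K/η`,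
`|log η'| ≤ |log η| + log (4 Kmax / s₀)`, `η' ≤ η`.  In both cases the bound is at most
`C_h η s (1 + M + C_g (3 + 2 |log η| + 2 log (4 Kmax/s₀)))`, and `η |log η| → 0` as `η → 0`. -/
def St_Slo (n : ℕ) : Prop :=
  ∀ c M κ₁ s₀ Kmax : ℝ, 0 < κ₁ → 0 < s₀ → s₀ ≤ 1 → 1 ≤ Kmax → ∃ η : ℝ, 0 < η ∧ η ≤ 1 ∧
    ∀ φ : Phase n → Phase n, ContDiff ℝ ∞ φ → (∀ x s, 0 < s → osc 4 φ x s ≤ ENNReal.ofReal c) →
    ∀ (p : Phase n) (r K : ℝ), 0 < r → ‖kAvg φ p r‖ ≤ M → 1 ≤ K → K ≤ Kmax →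
      ∀ t : ℝ, 0 ≤ t → t ≤ 1 →
        Slp κ₁ φ (fun x => t * hmp η p (K * r) x) ∧
        Slp κ₁ φ (fun x => t * hmp (s₀ * η / (4 * K)) p (s₀ * r) x)

/-- The invariant of the induction over the list of bad boxes (`F` is the square of the scale). -/
structure Inv2 {n : ℕ} (φ : Phase n → Phase n) (Λ₀ Λ κ₁ C₂ : ℝ) (N : ℕ)
    (bs : List (Phase n × ℝ)) (F : Phase n → ℝ) : Prop where
  smooth : ContDiff ℝ ∞ F
  pos : ∃ a : ℝ, 0 < a ∧ ∀ x, a ≤ F x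
  bdd : ∃ B, ∀ x, F x ≤ B
  slope : Slp (2 * ((N : ℝ) - bs.length) * κ₁) φ F
  hess : ∀ x, ‖fderiv ℝ (fderiv ℝ F) x‖ ≤ 2 * ((N : ℝ) - bs.length) * C₂
  clear : ∀ b ∈ bs,
    (∀ x, ‖x - b.1‖ ≤ 2 ^ bs.length * Λ * b.2 → (2 ^ bs.length * Λ) ^ 2 * F x < b.2 ^ 2) ∨
    (∀ x, ‖x - b.1‖ ≤ 2 ^ bs.length * Λ * b.2 → (2 ^ bs.length * Λ * b.2) ^ 2 < F x)
  below : ∀ x s, 0 < s → Bad φ x s → (8 * s) ^ 2 < F x ∨
    ∃ b ∈ bs, ‖x - b.1‖ ≤ Λ₀ * b.2 ∧ b.2 ≤ Λ₀ * s ∧ s ≤ Λ₀ * b.2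

/-- **[Stp] The step over the smallest box.**  Adding the humps
`G₁ = hmp (s₀ η/(4K)) b.1 (s₀ b.2)` and `G₂ = hmp η b.1 (K b.2)` for a suitable `K`.

Proof.  Adapt `Helper17.Inv.step` and `Helper17.hump_window` (file ScaleFun).  Write
`Λ'' = 2^(bs.length) Λ ≤ 2^N Λ`, `r = b.2`.  Window lemma: if for some `y` with
`‖y - b'.1‖ ≤ Λ'' b'.2` we have `b'.2² < (2 Λ'')² hmp η b.1 (K r) y`, then `b'.2 < 2 Λ'' K r` and
`‖y - b.1‖ < 2 K r/η`, and for `K' > (4 Λ''² + 2) K` all `x` with `‖x - b'.1‖ ≤ Λ'' b'.2` satisfy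
`η ‖x - b.1‖ ≤ K' r`, so `hmp η b.1 (K' r) x = (K' r)² > (Λ'' b'.2)²`.  Pigeonhole over
`K = K₀ W^q`, `q = 0, .., bs.length`: for one `K` every `b' ∈ bs` satisfies either
`(2 Λ'')² G₂(y) ≤ b'.2²` for all `y` in its ball or `(Λ'' b'.2)² < G₂(y)` for all of them.
*clear*: let `b' ∈ bs` be low before (`(2 Λ'')² F < b'.2²` on the ball of radius `2 Λ'' b'.2`).  In
the first case `Λ''² (F + G₁ + G₂) < b'.2²/4 + Λ''² s₀² r² + b'.2²/4 < b'.2²` because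
`2^N Λ s₀ ≤ 1/2` and `r ≤ b'.2`; in the second case it becomes high.  If `b'` was high it stays high.
*below*: a bad `(x, s)` in the box of `b` has `‖x - b.1‖ ≤ Λ₀ r`, `s ≤ Λ₀ r`, and
`G₂(x) = (K r)² > (8 Λ₀ r)² ≥ (8 s)²` as `K ≥ K₀ > 8 Λ₀` and `η ≤ 1`.
*slope*: `Slp` is additive for nonnegative functions (`F, G ≥ 0`, `F + G ≤ s²` gives `F ≤ s²` and
`G ≤ s²`, and the derivative of the sum is at most the sum); *hess*: [Hmp].  Nonnegativity of `F`: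
from `pos`. -/
def St_Stp (n : ℕ) : Prop :=
  ∀ (Λ₀ Λ κ₁ C₂ s₀ η K₀ W : ℝ) (N : ℕ), 1 ≤ Λ₀ → 8 * Λ₀ ≤ Λ → 0 ≤ κ₁ → 0 < s₀ →
    2 ^ N * Λ * s₀ ≤ 1 / 2 → 0 < η → η ≤ 1 → 8 * Λ₀ < K₀ → 1 ≤ W → 4 * (2 ^ N * Λ) ^ 2 + 2 < W →
    (∀ (η' : ℝ) (p : Phase n) (l : ℝ), 0 < η' → η' ≤ 1 → 0 < l →
      ∀ x, ‖fderiv ℝ (fderiv ℝ (hmp η' p l)) x‖ ≤ C₂) →
    ∀ (φ : Phase n → Phase n) (b : Phase n × ℝ) (bs : List (Phase n × ℝ)) (F : Phase n → ℝ),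
      (b :: bs).length ≤ N → 0 < b.2 → (∀ b' ∈ bs, b.2 ≤ b'.2) →
      Inv2 φ Λ₀ Λ κ₁ C₂ N (b :: bs) F →
      (∀ K, K₀ ≤ K → K ≤ K₀ * W ^ N → Slp κ₁ φ (hmp η b.1 (K * b.2)) ∧
        Slp κ₁ φ (hmp (s₀ * η / (4 * K)) b.1 (s₀ * b.2))) →
      ∃ K, K₀ ≤ K ∧ K ≤ K₀ * W ^ N ∧ Inv2 φ Λ₀ Λ κ₁ C₂ N bs
        (fun x => F x + hmp (s₀ * η / (4 * K)) b.1 (s₀ * b.2) x + hmp η b.1 (K * b.2) x)

/-- **[Rho] The scale function is the square root of `F`.**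

Proof.  `ρ = √F` is smooth (`Real.sqrt` is smooth away from zero), `2 ρ Dρ = DF`, so
`‖Dρ‖ = ‖DF‖/(2ρ)`; differentiating once more `2 ρ D²ρ + 2 Dρ ⊗ Dρ = D²F`. -/
def St_Rho (n : ℕ) : Prop :=
  ∀ F : Phase n → ℝ, ContDiff ℝ ∞ F → (∀ x, 0 < F x) →
    ContDiff ℝ ∞ (fun x => Real.sqrt (F x)) ∧
    ∀ x, ‖fderiv ℝ (fun x => Real.sqrt (F x)) x‖ = ‖fderiv ℝ F x‖ / (2 * Real.sqrt (F x)) ∧
      ‖fderiv ℝ (fderiv ℝ (fun x => Real.sqrt (F x))) x‖ ≤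
        (‖fderiv ℝ (fderiv ℝ F) x‖ / 2 + ‖fderiv ℝ (fun x => Real.sqrt (F x)) x‖ ^ 2) /
          Real.sqrt (F x)

/-- **[Poi] Poincare's inequality for the oscillation integrals.**

Proof.  For `a(z) = A(x + s z)`, `‖a z - a w‖ ≤ 2 ∫_0^1 ‖Da(w + t (z - w))‖ dt` on the unit ball
(`Helper17.enorm_sub_le_lintegral`), Jensen's inequality
`(∫_0^1 g)^q ≤ ∫_0^1 g^q` (as `Helper17.sq_lintegral_Icc_le`, for `q = 2` and `q = 4`), and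
`Helper17.lintegral_segments_le_of_continuous` (file SobolevPoincare) for the continuous function
`‖Da‖^q`; `Da(z) = s • D²φ(x + s z)`. -/
def St_Poi (n : ℕ) : Prop :=
  ∃ C : ℝ, 0 ≤ C ∧ ∀ φ : Phase n → Phase n, ContDiff ℝ ∞ φ → ∀ x s, 0 < s →
    (osc 4 φ x s ≤ ENNReal.ofReal (C * ∫ z in Metric.closedBall (0 : Phase n) 1,
      (s * ‖fderiv ℝ (fderiv ℝ φ) (x + s • z)‖) ^ 4)) ∧
    (osc 2 φ x s ≤ ENNReal.ofReal (C * ∫ z in Metric.closedBall (0 : Phase n) 1,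
      (s * ‖fderiv ℝ (fderiv ℝ φ) (x + s • z)‖) ^ 2))

/-- **[Eng] The critical energy controls the map.**

Proof.  `m = 2 n ≥ 4`, `g(z) = s ‖D²φ(x + s z)‖`; `∫_{B_1} g^m dz = ∫_{B(x,s)} ‖D²φ‖^m ≤ E` by
scaling, and `∫_{B_1} g dz = s^(1-m) ∫_{B(x,s)} ‖D²φ‖`.  *osc4*: [Poi] and `g⁴ ≤ 1 + g^m`.
*osc2 small*: `g² ≤ λ + λ^(1-m/2) g^m` for every `λ > 0` (here `m/2 = n` is an integer:
`g² ≤ λ + λ (g²/λ)^n`), so `osc 2 ≤ C (λ vol + λ^(1-n) E)`; choose `λ` small, then `E₀`.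
*pack*: `g² ≤ λ g + λ^(2-m) g^m` (compare `g` with `λ`), so `osc 2 ≥ ε` gives
`ε ≤ C λ ∫ g + C λ^(2-m) E`; choose `λ` with `C λ^(2-m) E ≤ ε/2`: then
`∫_{B(x,s)} ‖D²φ‖ ≥ a s^(m-1)` with `a = ε/(2 C λ)`.  Now `Helper17.energy_unrelated` (file
Counting) bounds the length of a list of pairwise unrelated boxes exactly as in the first part of
`Helper17.energy_packing` (file Finiteness): `N ε > max E 0 / e₀`,
`e₀ = (a/2)^m / ballVol^(m-1)`, and `δ ε` so small that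
`(N (δ^m ballVol))^(m-1) max E 0 ≤ (a/2)^m` (sort the list by decreasing size; if its length were
larger than `N ε`, take a sublist of length `N ε + 1`). -/
def St_Eng (n : ℕ) : Prop :=
  2 ≤ n → (∀ E : ℝ, ∃ (c : ℝ) (N : ℝ → ℕ) (δ : ℝ → ℝ), (∀ ε, 0 < ε → 0 < δ ε ∧ δ ε ≤ 1) ∧
    ∀ φ : SympCt n,
      ∫ x, ‖fderiv ℝ (fderiv ℝ (φ : Equiv.Perm (Phase n))) x‖ ^ (2 * n) ≤ E →
      Ctrl c N δ (φ : Equiv.Perm (Phase n))) ∧
  (∀ ε : ℝ, 0 < ε → ∃ E₀ : ℝ, 0 < E₀ ∧ ∀ φ : SympCt n,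
    ∫ x, ‖fderiv ℝ (fderiv ℝ (φ : Equiv.Perm (Phase n))) x‖ ^ (2 * n) ≤ E₀ →
      ∀ x s, 0 < s → osc 2 (φ : Equiv.Perm (Phase n)) x s ≤ ENNReal.ofReal ε)

/-- The fractional critical energy `∬ |Dφ(x) - Dφ(y)|^p / |x - y|^{4n} dx dy` of order `p`. -/
noncomputable def fracEnergy {n : ℕ} (p : ℝ) (φ : Phase n → Phase n) : ℝ≥0∞ :=
  ∫⁻ x, ∫⁻ y, ‖fderiv ℝ φ x - fderiv ℝ φ y‖ₑ ^ p / ‖x - y‖ₑ ^ (4 * n)

/-- **[Frc] The fractional critical energies control the map.**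

Proof.  `m = 2 n ≥ 4`, `p > m`.  By the substitution `x' = x + s z`, `y' = x + s w` and
`|x' - y'| ≤ 2 s`, `∬_{|z|,|w| ≤ 1} |ΔA|^p dz dw ≤ 4^m E` where `ΔA = A(x + s z) - A(x + s w)`
(scale invariance: `s^(2m)` against `|x' - y'|^(2m)`).  *osc4*: `t⁴ ≤ 1 + t^p`.
*osc2 small*: `t² ≤ μ + μ^(1-p/2) t^p` for every `μ > 0`; choose `μ` small, then `E₀`.
*pack*: let `osc 2 ≥ ε`.  Choose `μ` large with `μ^(1-p/2) 4^m E ≤ ε/4` and then `d ∈ (0, 1]` small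
with `μ vol(B_1) vol(B_d) ≤ ε/4`: the pairs with `|z - w| ≤ d` contribute at most `ε/2`, so
`∬_{|z-w| > d} |ΔA|² ≥ ε/2`, and with `μ' = ε/(4 vol(B_1)²)`,
`∬_{|z-w| > d} |ΔA|^p ≥ c₁(ε) > 0`.  Back in the original variables the energy of the set
`U(x, s) = {(x', y') : x', y' ∈ B(x, s), |x' - y'| > d s}` is at least `4^(-m) c₁`.  If
`U(x, s)` and `U(x₁, s₁)` intersect then `d s < 2 s₁`, `d s₁ < 2 s` and `|x - x₁| ≤ s + s₁`, so the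
boxes are related with `δ = d / 2`.  Pairwise unrelated boxes therefore have disjoint sets `U`, and
their number is at most `4^m E / c₁`. -/
def St_Frc (n : ℕ) : Prop :=
  2 ≤ n → ∀ p : ℝ, 2 * n < p →
  (∀ E : ℝ, ∃ (c : ℝ) (N : ℝ → ℕ) (δ : ℝ → ℝ), (∀ ε, 0 < ε → 0 < δ ε ∧ δ ε ≤ 1) ∧
    ∀ φ : SympCt n, fracEnergy p (φ : Equiv.Perm (Phase n)) ≤ ENNReal.ofReal E →
      Ctrl c N δ (φ : Equiv.Perm (Phase n))) ∧
  (∀ ε : ℝ, 0 < ε → ∃ E₀ : ℝ, 0 < E₀ ∧ ∀ φ : SympCt n,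
    fracEnergy p (φ : Equiv.Perm (Phase n)) ≤ ENNReal.ofReal E₀ →
      ∀ x s, 0 < s → osc 2 (φ : Equiv.Perm (Phase n)) x s ≤ ENNReal.ofReal ε)

/-- **[FrF] The fractional energies are finite.**

Proof.  `A = Dφ` is Lipschitz (constant `L₁`), bounded (`‖A x - A y‖ ≤ 2 L₀`), and `= 1` outside a
ball `B(0, R₀)`.  The integrand vanishes unless `x` or `y` lies in `B(0, R₀)`.  For `|x - y| ≤ 1` it
is at most `L₁^p |x - y|^(p - 4n)`, and `∫_{|h| ≤ 1} |h|^(p - 4n) dh < ∞` because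
`p - 4n > - 2n`; for `|x - y| > 1` it is at most `(2 L₀)^p |x - y|^(-4n)`, integrable at infinity
because `4n > 2n` (`n ≠ 0`).  Fubini (Tonelli) with the variables `x` (or `y`) and `h = y - x`. -/
def St_FrF (n : ℕ) : Prop :=
  n ≠ 0 → ∀ p : ℝ, 2 * n < p → ∀ φ : SympCt n, fracEnergy p (φ : Equiv.Perm (Phase n)) < ⊤

/-- **[Abs] The abstract finiteness theorem.** -/
def St_Abs (n : ℕ) : Prop :=
  n ≠ 0 → ∀ (c : ℝ) (N : ℝ → ℕ) (δ : ℝ → ℝ), (∀ ε, 0 < ε → 0 < δ ε ∧ δ ε ≤ 1) →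
    ∃ F : Set (SympCt n), F.Finite ∧ ∀ φ : SympCt n,
      Ctrl c N δ (φ : Equiv.Perm (Phase n)) → ∃ g ∈ F, Joined φ g

end Pool.Agent.CEF
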