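import Mathlib
import Pool.Agent.CEF.Defs
import Pool.Agent.Helper17.NormalClass
import Pool.Agent.Helper17.Packing
import Pool.Agent.Helper17.PackingFinite

set_option maxSynthPendingDepth 3

open scoped ContDiff Topology ENNReal
open Set Function Filter MeasureTheory

namespace Pool.Agent.CEF

open Pool.Agent.Helper17

variable {n : ℕ}

lemma Slp.add {κ κ' : ℝ} {φ : Phase n → Phase n} {F G : Phase n → ℝ} (hF : Slp κ φ F)
    (hG : Slp κ' φ G) (hF0 : ∀ x, 0 ≤ F x) (hG0 : ∀ x, 0 ≤ G x) (hFs : ContDiff ℝ ∞ F)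
    (hGs : ContDiff ℝ ∞ G) : Slp (κ + κ') φ (fun x => F x + G x) := by
  intro x s hs hx
  simp only at hx
  have h1 := hF x s hs (by linarith [hG0 x])
  have h2 := hG x s hs (by linarith [hF0 x])
  have h3 : fderiv ℝ (fun x => F x + G x) x = fderiv ℝ F x + fderiv ℝ G x :=
    fderiv_add (hFs.differentiable (by simp) x) (hGs.differentiable (by simp) x)
  rw [h3]
  have h4 : 0 ≤ 1 + ‖kAvg φ x s‖ := by positivity
  calc ‖fderiv ℝ F x + fderiv ℝ G x‖ * (1 + ‖kAvg φ x s‖) ≤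
        (‖fderiv ℝ F x‖ + ‖fderiv ℝ G x‖) * (1 + ‖kAvg φ x s‖) :=
        mul_le_mul_of_nonneg_right (norm_add_le _ _) h4
    _ ≤ (κ + κ') * s := by linarith

lemma Slp.mono {κ κ' : ℝ} {φ : Phase n → Phase n} {F : Phase n → ℝ} (hF : Slp κ φ F)
    (h : κ ≤ κ') : Slp κ' φ F := fun x s hs hx =>
  (hF x s hs hx).trans (mul_le_mul_of_nonneg_right h hs.le)

lemma Slp.add_const {κ a : ℝ} {φ : Phase n → Phase n} {F : Phase n → ℝ} (hF : Slp κ φ F)
    (ha : 0 ≤ a) : Slp κ φ (fun x => F x + a) := by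
  intro x s hs hx
  simp only at hx
  rw [fderiv_add_const]
  exact hF x s hs (by linarith)

lemma slp_const {κ a : ℝ} {φ : Phase n → Phase n} (hκ : 0 ≤ κ) : Slp κ φ (fun _ => a) := by
  intro x s hs _
  have h : fderiv ℝ (fun _ : Phase n => a) x = 0 := (hasFDerivAt_const a x).fderiv
  rw [h, norm_zero, zero_mul]
  positivity

/-- The slope of the scale function. -/
lemma Slp.sqrt_le (hRho : St_Rho n) {κ : ℝ} {φ : Phase n → Phase n} {F : Phase n → ℝ}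
    (hF : Slp κ φ F) (hFs : ContDiff ℝ ∞ F) (hF0 : ∀ x, 0 < F x) (x : Phase n) :
    ‖fderiv ℝ (fun x => Real.sqrt (F x)) x‖ * (1 + ‖kAvg φ x (Real.sqrt (F x))‖) ≤ κ / 2 := by
  obtain ⟨-, h1⟩ := hRho F hFs hF0
  obtain ⟨h2, -⟩ := h1 x
  have hs : 0 < Real.sqrt (F x) := Real.sqrt_pos.2 (hF0 x)
  have h3 := hF x (Real.sqrt (F x)) hs (by rw [Real.sq_sqrt (hF0 x).le])
  rw [h2, div_mul_eq_mul_div, div_le_iff₀ (by positivity)]
  linarith

/-- Nearly symplectic mollification. -/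
lemma nearL_half (hRho : St_Rho n) {κ C : ℝ} {φ : Phase n → Phase n} {F : Phase n → ℝ}
    (hF : Slp κ φ F) (hFs : ContDiff ℝ ∞ F) (hF0 : ∀ x, 0 < F x) (x : Phase n)
    (hC0 : 0 ≤ C) (hκC : C * κ ≤ 1 / 2)
    (hV : ∀ θ, NearL θ (kAvg φ x (Real.sqrt (F x))) →
      NearL (θ + C * (‖fderiv ℝ (fun x => Real.sqrt (F x)) x‖ *
        (1 + ‖kAvg φ x (Real.sqrt (F x))‖))) (fderiv ℝ (vmol φ (fun x => Real.sqrt (F x))) x))
    (hbad : ¬Bad φ x (Real.sqrt (F x))) :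
    NearL (1 / 2) (fderiv ℝ (vmol φ (fun x => Real.sqrt (F x))) x) := by
  have h1 := hV (1 / 4) (not_not.1 hbad)
  apply h1.mono
  have h2 := hF.sqrt_le hRho hFs hF0 x
  have h3 := mul_le_mul_of_nonneg_left h2 hC0
  linarith

/-- Outside a large ball the mollification is the identity. -/
lemma vmol_supp {φ : SympCt n} {N B : ℝ} (hN : ∀ x, N < ‖x‖ → (φ : Equiv.Perm (Phase n)) x = x)
    {ρ : Phase n → ℝ} (h0 : ∀ x, 0 ≤ ρ x) (hB : ∀ x, ρ x ≤ B) :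
    ∀ x ∉ Metric.closedBall (0 : Phase n) (N + B), vmol (φ : Equiv.Perm (Phase n)) ρ x = x := by
  intro x hx
  apply vmol_eq_of_gt hN (B := B) _ (by simpa using hx)
  rw [abs_of_nonneg (h0 x)]
  exact hB x

lemma CF_sqrt {T : Type} [TopologicalSpace T] {F : T → Phase n → ℝ} (hF : CF F)
    (h0 : ∀ t x, 0 < F t x) : CF (fun t x => Real.sqrt (F t x)) :=
  CF.comp_smooth (g := Real.sqrt) (fun t x => Real.contDiffAt_sqrt (h0 t x).ne') hF

/-- A path of scale functions without bad boxes. -/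
lemma admPath_of_family (hRho : St_Rho n) {κ C : ℝ} {φ : SympCt n} (hC0 : 0 ≤ C)
    (hκC : C * κ ≤ 1 / 2)
    (hV : ∀ ρ : Phase n → ℝ, ContDiff ℝ ∞ ρ → ∀ x, 0 < ρ x →
      ∀ θ, NearL θ (kAvg (φ : Equiv.Perm (Phase n)) x (ρ x)) →
        NearL (θ + C * (‖fderiv ℝ ρ x‖ * (1 + ‖kAvg (φ : Equiv.Perm (Phase n)) x (ρ x)‖)))
          (fderiv ℝ (vmol (φ : Equiv.Perm (Phase n)) ρ) x))
    {F G : Phase n → ℝ} (hFs : ContDiff ℝ ∞ F) (hGs : ContDiff ℝ ∞ G) (hF0 : ∀ x, 0 < F x)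
    (hG0 : ∀ x, 0 ≤ G x) {B : ℝ} (hFB : ∀ x, F x ≤ B) {B' : ℝ} (hGB : ∀ x, G x ≤ B')
    (hslope : ∀ t ∈ Icc (0 : ℝ) 1, Slp κ (φ : Equiv.Perm (Phase n)) (fun x => F x + t * G x))
    (hbad : ∀ t ∈ Icc (0 : ℝ) 1, ∀ x,
      ¬Bad (φ : Equiv.Perm (Phase n)) x (Real.sqrt (F x + t * G x))) :
    AdmPath (vmol (φ : Equiv.Perm (Phase n)) (fun x => Real.sqrt (F x)))
      (vmol (φ : Equiv.Perm (Phase n)) (fun x => Real.sqrt (F x + G x))) := by
  obtain ⟨N₁, hN₁0, hN₁⟩ := exists_support_radius φ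
  have hpos : ∀ t ∈ Icc (0 : ℝ) 1, ∀ x, 0 < F x + t * G x := fun t ht x =>
    add_pos_of_pos_of_nonneg (hF0 x) (mul_nonneg ht.1 (hG0 x))
  have hsm : ∀ t : ℝ, ContDiff ℝ ∞ (fun x => F x + t * G x) := fun t =>
    hFs.add (contDiff_const.mul hGs)
  have hCF : CF (fun (t : Icc (0 : ℝ) 1) (x : Phase n) => F x + (t : ℝ) * G x) :=
    (CF.const hFs).add ((CF.param continuous_subtype_val).smul (CF.const hGs))
  have hle : ∀ t ∈ Icc (0 : ℝ) 1, ∀ x, Real.sqrt (F x + t * G x) ≤ Real.sqrt (B + B') := by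
    intro t ht x
    apply Real.sqrt_le_sqrt
    have : t * G x ≤ G x := mul_le_of_le_one_left (hG0 x) ht.2
    linarith [hFB x, hGB x]
  refine ⟨fun t x => vmol (φ : Equiv.Perm (Phase n)) (fun x => Real.sqrt (F x + (t : ℝ) * G x)) x,
    CF_vmol (SympCt.contDiff φ) (CF_sqrt hCF fun t x => hpos t t.2 x),
    ⟨Metric.closedBall 0 (N₁ + Real.sqrt (B + B')), isCompact_closedBall _ _,
      fun t => vmol_supp hN₁ (fun x => Real.sqrt_nonneg _) (hle t t.2)⟩, ?_, ?_, ?_⟩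
  · intro t x
    have hρs : ContDiff ℝ ∞ (fun x => Real.sqrt (F x + (t : ℝ) * G x)) :=
      (hRho _ (hsm t) (hpos t t.2)).1
    exact (nearL_half hRho (hslope t t.2) (hsm t) (hpos t t.2) x hC0 hκC
      (hV _ hρs x (Real.sqrt_pos.2 (hpos t t.2 x))) (hbad t t.2 x)).admissible (by norm_num)
  · ext1 x
    simp
  · ext1 x
    simp

end Pool.Agent.CEF
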