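import Mathlib
import Pool.Agent.CEF.Asm1

set_option maxSynthPendingDepth 3

open scoped ContDiff Topology ENNReal
open Set Function Filter MeasureTheory

namespace Pool.Agent.CEF

open Pool.Agent.Helper17

variable {n : ℕ}

/-- The end of the induction: no bad boxes above the scale. -/
lemma admPath_one (hn : n ≠ 0) (hRho : St_Rho n) {κ C : ℝ} {φ : SympCt n} (hC0 : 0 ≤ C)
    (hκC : C * κ ≤ 1 / 2) (hκ1 : κ ≤ 1)
    (hV : ∀ ρ : Phase n → ℝ, ContDiff ℝ ∞ ρ → ∀ x, 0 < ρ x →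
      ∀ θ, NearL θ (kAvg (φ : Equiv.Perm (Phase n)) x (ρ x)) →
        NearL (θ + C * (‖fderiv ℝ ρ x‖ * (1 + ‖kAvg (φ : Equiv.Perm (Phase n)) x (ρ x)‖)))
          (fderiv ℝ (vmol (φ : Equiv.Perm (Phase n)) ρ) x))
    {F : Phase n → ℝ} (hFs : ContDiff ℝ ∞ F) (hF0 : ∀ x, 0 < F x)
    (hFB : ∃ B, ∀ x, F x ≤ B)
    (hslope : Slp κ (φ : Equiv.Perm (Phase n)) F)
    (hbad : ∀ x s, 0 < s → F x ≤ s ^ 2 → ¬Bad (φ : Equiv.Perm (Phase n)) x s) :
    AdmPath (vmol (φ : Equiv.Perm (Phase n)) (fun x => Real.sqrt (F x)))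
      ((1 : SympCt n) : Equiv.Perm (Phase n)) := by
  obtain ⟨L₀, hL₀⟩ : ∃ L₀ : ℝ, ∀ x, ‖fderiv ℝ (φ : Equiv.Perm (Phase n)) x‖ ≤ L₀ := by
    obtain ⟨K, hK, hφK⟩ := φ.2.2.2.2
    have hc : Continuous (fderiv ℝ (φ : Equiv.Perm (Phase n))) :=
      (SympCt.contDiff φ).continuous_fderiv (by simp)
    obtain ⟨C, hC⟩ := hK.exists_bound_of_continuousOn hc.continuousOn
    refine ⟨max C ‖ContinuousLinearMap.id ℝ (Phase n)‖, fun x => ?_⟩
    by_cases hx : x ∈ K
    · exact (hC x hx).trans (le_max_left _ _)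
    · have h1 : (φ : Equiv.Perm (Phase n)) =ᶠ[nhds x] fun y => y := by
        filter_upwards [hK.isClosed.isOpen_compl.mem_nhds hx] with y hy
        exact hφK y hy
      rw [h1.fderiv_eq, fderiv_fun_id]
      exact le_max_right _ _
  obtain ⟨R, hR, hRclose⟩ := exists_large_scale hn (le_max_right L₀ 1)
    (fun x => (hL₀ x).trans (le_max_left _ _)) (φ := φ)
  obtain ⟨N, hN0, hN⟩ := exists_support_radius φ
  obtain ⟨B, hB⟩ := hFB
  have hR2 : 0 ≤ R ^ 2 := sq_nonneg R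
  have p1 : AdmPath (vmol (φ : Equiv.Perm (Phase n)) (fun x => Real.sqrt (F x)))
      (vmol (φ : Equiv.Perm (Phase n)) (fun x => Real.sqrt (F x + R ^ 2))) := by
    apply admPath_of_family hRho (κ := κ) hC0 hκC hV hFs contDiff_const hF0 (fun _ => hR2) hB
      (fun _ => le_rfl)
    · intro t ht
      exact hslope.add_const (mul_nonneg ht.1 hR2)
    · intro t ht x
      have h1 : 0 < F x + t * R ^ 2 := add_pos_of_pos_of_nonneg (hF0 x) (mul_nonneg ht.1 hR2)
      apply hbad x _ (Real.sqrt_pos.2 h1)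
      rw [Real.sq_sqrt h1.le]
      linarith [mul_nonneg ht.1 hR2]
  refine p1.trans ?_
  have hs : ContDiff ℝ ∞ (fun x => F x + R ^ 2) := hFs.add contDiff_const
  have h0 : ∀ x, 0 < F x + R ^ 2 := fun x => add_pos_of_pos_of_nonneg (hF0 x) hR2
  have hρs : ContDiff ℝ ∞ (fun x => Real.sqrt (F x + R ^ 2)) := (hRho _ hs h0).1
  have e1 : (((1 : SympCt n) : Equiv.Perm (Phase n)) : Phase n → Phase n) = fun x => x := rfl
  rw [e1]
  apply admPath_segment (contDiff_vmol (SympCt.contDiff φ) hρs) contDiff_id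
    (isCompact_closedBall 0 (N + Real.sqrt (B + R ^ 2)))
    (vmol_supp hN (fun x => Real.sqrt_nonneg _) (fun x => Real.sqrt_le_sqrt (by linarith [hB x])))
    (fun x _ => rfl)
  intro x t ht
  rw [fderiv_id]
  apply admissible_near_one' _ ht
  apply hRclose _ hρs
  · rw [Real.le_sqrt hR.le (h0 x).le]
    linarith [hF0 x]
  · have h1 := (hslope.add_const hR2).sqrt_le hRho hs h0 x
    have h3 : 0 ≤ ‖kAvg (φ : Equiv.Perm (Phase n)) x (Real.sqrt (F x + R ^ 2))‖ := norm_nonneg _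
    have h2 : ‖fderiv ℝ (fun x => Real.sqrt (F x + R ^ 2)) x‖ * 1 ≤
        ‖fderiv ℝ (fun x => Real.sqrt (F x + R ^ 2)) x‖ *
          (1 + ‖kAvg (φ : Equiv.Perm (Phase n)) x (Real.sqrt (F x + R ^ 2))‖) :=
      mul_le_mul_of_nonneg_left (by linarith) (norm_nonneg _)
    linarith

/-- The start of the induction: mollification at a small constant scale. -/
lemma admPath_start {φ : SympCt n} {r : ℝ} (hr : 0 ≤ r)
    (hbad : ∀ x s, 0 < s → s ≤ r → ¬Bad (φ : Equiv.Perm (Phase n)) x s) :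
    AdmPath (φ : Equiv.Perm (Phase n)) (vmol (φ : Equiv.Perm (Phase n)) (fun _ => r)) := by
  obtain ⟨N, hN0, hN⟩ := exists_support_radius φ
  obtain ⟨L₀, hL₀⟩ : ∃ L₀ : ℝ, ∀ x, ‖fderiv ℝ (φ : Equiv.Perm (Phase n)) x‖ ≤ L₀ := by
    obtain ⟨K, hK, hφK⟩ := φ.2.2.2.2
    have hc : Continuous (fderiv ℝ (φ : Equiv.Perm (Phase n))) :=
      (SympCt.contDiff φ).continuous_fderiv (by simp)
    obtain ⟨C, hC⟩ := hK.exists_bound_of_continuousOn hc.continuousOn
    refine ⟨max C ‖ContinuousLinearMap.id ℝ (Phase n)‖, fun x => ?_⟩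
    by_cases hx : x ∈ K
    · exact (hC x hx).trans (le_max_left _ _)
    · have h1 : (φ : Equiv.Perm (Phase n)) =ᶠ[nhds x] fun y => y := by
        filter_upwards [hK.isClosed.isOpen_compl.mem_nhds hx] with y hy
        exact hφK y hy
      rw [h1.fderiv_eq, fderiv_fun_id]
      exact le_max_right _ _
  refine ⟨fun t => vmol (φ : Equiv.Perm (Phase n)) (fun _ => (t : ℝ) * r),
    CF_vmol (SympCt.contDiff φ) (CF.param (continuous_subtype_val.mul continuous_const)),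
    ⟨Metric.closedBall 0 (N + r), isCompact_closedBall _ _, fun t =>
      vmol_supp hN (fun _ => mul_nonneg t.2.1 hr) (fun _ => mul_le_of_le_one_left hr t.2.2)⟩,
    ?_, ?_, ?_⟩
  · intro t x
    rw [fderiv_vmol_const (SympCt.contDiff φ) hL₀]
    rcases (mul_nonneg t.2.1 hr).eq_or_lt with h0 | h0
    · rw [← h0]
      have h2 : kAvg (φ : Equiv.Perm (Phase n)) x 0 = fderiv ℝ (φ : Equiv.Perm (Phase n)) x := by
        rw [kAvg_eq]
        simp
      rw [h2]
      exact SympCt.admissible φ x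
    · exact (not_not.1 (hbad x _ h0 (mul_le_of_le_one_left hr t.2.2))).admissible (by norm_num)
  · ext1 x
    exact vmol_zero (by simp)
  · ext1 x
    simp

end Pool.Agent.CEF
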