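import Mathlib
import Pool.Agent.CEF.Asm2

set_option maxSynthPendingDepth 3

open scoped ContDiff Topology ENNReal
open Set Function Filter MeasureTheory

namespace Pool.Agent.CEF

open Pool.Agent.Helper17

variable {n : ℕ}

/-- Estimates of the mollification in the region of a bad box. -/
lemma region_est (hRho : St_Rho n) {φ : SympCt n} {CQ CV Cg M κ h₂ s₀ Cρ Rb : ℝ}
    (hCQ : 0 ≤ CQ) (hCV : 0 ≤ CV) (hCg : 0 ≤ Cg) (hκ1 : κ ≤ 1) (hs₀ : 0 < s₀) (hs₀1 : s₀ ≤ 1)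
    (hCρ : 1 ≤ Cρ) (hh₂ : 0 ≤ h₂)
    (hV1 : ∀ ρ : Phase n → ℝ, ContDiff ℝ ∞ ρ → ∀ x, 0 < ρ x →
      ‖fderiv ℝ (vmol (φ : Equiv.Perm (Phase n)) ρ) x -
        kAvg (φ : Equiv.Perm (Phase n)) x (ρ x)‖ ≤ CQ * ‖fderiv ℝ ρ x‖)
    (hV2 : ∀ ρ : Phase n → ℝ, ContDiff ℝ ∞ ρ →
      ∀ (x : Phase n) (H : ℝ), 0 ≤ H → 0 < ρ x → ‖fderiv ℝ ρ x‖ ≤ 1 →
      ‖fderiv ℝ (fderiv ℝ ρ) x‖ ≤ H / ρ x →
      ‖fderiv ℝ (fderiv ℝ (vmol (φ : Equiv.Perm (Phase n)) ρ)) x‖ ≤ CV * (1 + H) / ρ x)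
    (hG : ∀ x x' s s' S, 0 < s → 0 < s' → 0 < S →
      ‖kAvg (φ : Equiv.Perm (Phase n)) x s - kAvg (φ : Equiv.Perm (Phase n)) x' s'‖ ≤
        Cg * (‖x - x'‖ / S + |Real.log (S / s)| + |Real.log (S / s')|))
    {b : Phase n} {r : ℝ} (hr : 0 < r) (hM : ‖kAvg (φ : Equiv.Perm (Phase n)) b r‖ ≤ M)
    {F : Phase n → ℝ} (hFs : ContDiff ℝ ∞ F) (hF0 : ∀ x, 0 < F x)
    (hslope : Slp κ (φ : Equiv.Perm (Phase n)) F)
    (hhess : ∀ x, ‖fderiv ℝ (fderiv ℝ F) x‖ ≤ h₂)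
    {x : Phase n} (hx : ‖x - b‖ ≤ Rb * r) (hlow : (s₀ * r) ^ 2 ≤ F x)
    (hup : F x ≤ (Cρ * r) ^ 2) :
    ‖fderiv ℝ (vmol (φ : Equiv.Perm (Phase n)) (fun x => Real.sqrt (F x))) x‖ ≤
        M + Cg * (Rb + Real.log (1 / s₀) + Real.log Cρ) + CQ ∧
      ‖fderiv ℝ (fderiv ℝ (vmol (φ : Equiv.Perm (Phase n)) (fun x => Real.sqrt (F x)))) x‖ ≤
        CV * (1 + (h₂ / 2 + 1)) / s₀ / r := by
  set ρ : Phase n → ℝ := fun x => Real.sqrt (F x) with hρ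
  obtain ⟨hρs, hρd⟩ := hRho F hFs hF0
  have hρ0 : 0 < ρ x := Real.sqrt_pos.2 (hF0 x)
  have hlow' : s₀ * r ≤ ρ x := by
    rw [hρ]
    exact Real.le_sqrt_of_sq_le hlow
  have hup' : ρ x ≤ Cρ * r := by
    rw [hρ]
    exact (Real.sqrt_le_left (by positivity)).2 hup
  have hd1 : ‖fderiv ℝ ρ x‖ ≤ 1 := by
    have h1 := hslope.sqrt_le hRho hFs hF0 x
    have h3 : 0 ≤ ‖kAvg (φ : Equiv.Perm (Phase n)) x (Real.sqrt (F x))‖ := norm_nonneg _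
    have h2 : ‖fderiv ℝ ρ x‖ * 1 ≤
        ‖fderiv ℝ ρ x‖ * (1 + ‖kAvg (φ : Equiv.Perm (Phase n)) x (Real.sqrt (F x))‖) :=
      mul_le_mul_of_nonneg_left (by linarith) (norm_nonneg _)
    linarith
  have hd2 : ‖fderiv ℝ (fderiv ℝ ρ) x‖ ≤ (h₂ / 2 + 1) / ρ x := by
    refine (hρd x).2.trans ?_
    apply div_le_div_of_nonneg_right _ hρ0.le
    have h1 : ‖fderiv ℝ (fun x => Real.sqrt (F x)) x‖ ^ 2 ≤ 1 := pow_le_one₀ (norm_nonneg _) hd1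
    linarith [hhess x]
  have hlogs : |Real.log (r / ρ x)| ≤ Real.log (1 / s₀) + Real.log Cρ := by
    have h1 : 0 ≤ Real.log Cρ := Real.log_nonneg hCρ
    have h2 : 0 ≤ Real.log (1 / s₀) := Real.log_nonneg (by rw [le_div_iff₀ hs₀]; linarith)
    have h3 : 1 / Cρ ≤ r / ρ x := by
      rw [div_le_div_iff₀ (by linarith) hρ0]
      linarith
    have h4 : r / ρ x ≤ 1 / s₀ := by
      rw [div_le_div_iff₀ hρ0 hs₀]
      linarith
    have h5 : Real.log (r / ρ x) ≤ Real.log (1 / s₀) :=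
      Real.log_le_log (by positivity) h4
    have h6 : Real.log (1 / Cρ) ≤ Real.log (r / ρ x) :=
      Real.log_le_log (by positivity) h3
    rw [one_div, Real.log_inv] at h6
    rw [abs_le]
    constructor <;> linarith
  have hK : ‖kAvg (φ : Equiv.Perm (Phase n)) x (ρ x)‖ ≤
      M + Cg * (Rb + Real.log (1 / s₀) + Real.log Cρ) := by
    have h1 := hG x b (ρ x) r r hρ0 hr hr
    rw [div_self hr.ne', Real.log_one, abs_zero, add_zero] at h1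
    have h2 : ‖x - b‖ / r ≤ Rb := by
      rw [div_le_iff₀ hr]
      exact hx
    have h3 : ‖kAvg (φ : Equiv.Perm (Phase n)) x (ρ x)‖ ≤
        ‖kAvg (φ : Equiv.Perm (Phase n)) x (ρ x) - kAvg (φ : Equiv.Perm (Phase n)) b r‖ +
          ‖kAvg (φ : Equiv.Perm (Phase n)) b r‖ := by
      have := norm_add_le (kAvg (φ : Equiv.Perm (Phase n)) x (ρ x) -
        kAvg (φ : Equiv.Perm (Phase n)) b r) (kAvg (φ : Equiv.Perm (Phase n)) b r)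
      rwa [sub_add_cancel] at this
    have h4 : Cg * (‖x - b‖ / r + |Real.log (r / ρ x)|) ≤
        Cg * (Rb + Real.log (1 / s₀) + Real.log Cρ) :=
      mul_le_mul_of_nonneg_left (by linarith) hCg
    linarith
  constructor
  · have h1 := hV1 ρ hρs x hρ0
    have h2 : CQ * ‖fderiv ℝ ρ x‖ ≤ CQ := mul_le_of_le_one_right hCQ hd1
    have h3 : ‖fderiv ℝ (vmol (φ : Equiv.Perm (Phase n)) ρ) x‖ ≤
        ‖fderiv ℝ (vmol (φ : Equiv.Perm (Phase n)) ρ) x -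
          kAvg (φ : Equiv.Perm (Phase n)) x (ρ x)‖ +
          ‖kAvg (φ : Equiv.Perm (Phase n)) x (ρ x)‖ := by
      have := norm_add_le (fderiv ℝ (vmol (φ : Equiv.Perm (Phase n)) ρ) x -
          kAvg (φ : Equiv.Perm (Phase n)) x (ρ x)) (kAvg (φ : Equiv.Perm (Phase n)) x (ρ x))
      rwa [sub_add_cancel] at this
    linarith
  · refine (hV2 ρ hρs x (h₂ / 2 + 1) (by linarith) hρ0 hd1 hd2).trans ?_
    rw [div_div]
    apply div_le_div_of_nonneg_left (by positivity) (by positivity) hlow'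

lemma Inv2.zero_lt {φ : Phase n → Phase n} {Λ₀ Λ κ₁ C₂ : ℝ} {N : ℕ}
    {bs : List (Phase n × ℝ)} {F : Phase n → ℝ} (h : Inv2 φ Λ₀ Λ κ₁ C₂ N bs F) (x : Phase n) :
    0 < F x := by
  obtain ⟨a, ha, h1⟩ := h.pos
  linarith [h1 x]

/-- No bad box lies on the graph of the scale function. -/
lemma Inv2.not_bad {φ : Phase n → Phase n} {Λ₀ Λ κ₁ C₂ : ℝ} {N : ℕ} (hΛ₀ : 1 ≤ Λ₀)
    (hΛ : 8 * Λ₀ ≤ Λ) {bs : List (Phase n × ℝ)} (hbs : ∀ b ∈ bs, 0 < b.2) {F : Phase n → ℝ}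
    (h : Inv2 φ Λ₀ Λ κ₁ C₂ N bs F) {r₁ : ℝ} (hr₁ : ∀ b ∈ bs, r₁ ≤ b.2) (hr₁0 : 0 ≤ r₁)
    {s₁ : ℝ} (hs₁ : 0 ≤ s₁) (hs₁' : 8 * Λ₀ * s₁ ≤ 1)
    {x : Phase n} {s : ℝ} (hs : 0 < s) (h1 : F x ≤ s ^ 2) (h2 : s ^ 2 ≤ F x + (s₁ * r₁) ^ 2) :
    ¬Bad φ x s := by
  intro hbad
  have hF := h.zero_lt x
  rcases h.below x s hs hbad with h3 | ⟨b, hb, h3, h4, h5⟩
  · nlinarith [sq_nonneg s]
  · have hb0 := hbs b hb
    have hp : (1 : ℝ) ≤ 2 ^ bs.length := one_le_pow₀ (by norm_num)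
    have hΛ' : 8 * Λ₀ ≤ 2 ^ bs.length * Λ := by nlinarith
    set Λ' : ℝ := 2 ^ bs.length * Λ with hΛ'def
    have h6 : ‖x - b.1‖ ≤ Λ' * b.2 := h3.trans (mul_le_mul_of_nonneg_right (by linarith) hb0.le)
    rcases h.clear b hb with h7 | h7
    · have h8 := h7 x h6
      have h9 : (8 * Λ₀) ^ 2 * F x < b.2 ^ 2 := by
        refine lt_of_le_of_lt ?_ h8
        exact mul_le_mul_of_nonneg_right (pow_le_pow_left₀ (by linarith) hΛ' 2) hF.le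
      have h10 : (8 * Λ₀) ^ 2 * (s₁ * r₁) ^ 2 ≤ b.2 ^ 2 := by
        rw [← mul_pow]
        apply pow_le_pow_left₀ (by positivity)
        calc 8 * Λ₀ * (s₁ * r₁) = (8 * Λ₀ * s₁) * r₁ := by ring
          _ ≤ 1 * b.2 := mul_le_mul hs₁' (hr₁ b hb) hr₁0 zero_le_one
          _ = b.2 := one_mul _
      have h11 : (8 * Λ₀) ^ 2 * s ^ 2 ≤ (8 * Λ₀) ^ 2 * (F x + (s₁ * r₁) ^ 2) :=
        mul_le_mul_of_nonneg_left h2 (by positivity)
      have h12 : b.2 ^ 2 ≤ (Λ₀ * s) ^ 2 := pow_le_pow_left₀ hb0.le h4 2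
      have h13 : 0 < b.2 ^ 2 := by positivity
      nlinarith
    · have h8 := h7 x h6
      have h9 : (8 * s) ^ 2 ≤ (Λ' * b.2) ^ 2 := by
        apply pow_le_pow_left₀ (by positivity)
        calc 8 * s ≤ 8 * (Λ₀ * b.2) := by linarith
          _ = 8 * Λ₀ * b.2 := by ring
          _ ≤ Λ' * b.2 := mul_le_mul_of_nonneg_right hΛ' hb0.le
      nlinarith [sq_nonneg s]

/-- Boxes above the graph are skipped. -/
lemma Inv2.skip {φ : Phase n → Phase n} {Λ₀ Λ κ₁ C₂ : ℝ} {N : ℕ} (hΛ₀ : 1 ≤ Λ₀)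
    (hΛ : 8 * Λ₀ ≤ Λ) (hκ₁ : 0 ≤ κ₁) (hC₂ : 0 ≤ C₂) {b : Phase n × ℝ}
    {bs : List (Phase n × ℝ)} (hb : 0 < b.2) (hbs : ∀ b ∈ bs, 0 < b.2) {F : Phase n → ℝ}
    (h : Inv2 φ Λ₀ Λ κ₁ C₂ N (b :: bs) F)
    (hhigh : ∀ x, ‖x - b.1‖ ≤ 2 ^ (b :: bs).length * Λ * b.2 →
      (2 ^ (b :: bs).length * Λ * b.2) ^ 2 < F x) :
    Inv2 φ Λ₀ Λ κ₁ C₂ N bs F := by
  have hlen : (((b :: bs).length : ℕ) : ℝ) = bs.length + 1 := by
    rw [List.length_cons]; push_cast; ring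
  have hlen' : (2 : ℝ) ^ (b :: bs).length * Λ = 2 * (2 ^ bs.length * Λ) := by
    rw [List.length_cons, pow_succ]; ring
  have hp : (1 : ℝ) ≤ 2 ^ bs.length := one_le_pow₀ (by norm_num)
  have hΛ' : 8 * Λ₀ ≤ 2 ^ bs.length * Λ := by nlinarith
  set Λ' : ℝ := 2 ^ bs.length * Λ with hΛ'def
  rw [hlen'] at hhigh
  refine ⟨h.smooth, h.pos, h.bdd, ?_, ?_, ?_, ?_⟩
  · apply h.slope.mono
    rw [hlen]
    nlinarith
  · intro x
    refine (h.hess x).trans ?_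
    rw [hlen]
    nlinarith
  · intro b' hb'
    have hb'0 := hbs b' hb'
    have hc := h.clear b' (List.mem_cons_of_mem b hb')
    rw [hlen'] at hc
    rw [← hΛ'def]
    have hmono : ∀ x, ‖x - b'.1‖ ≤ Λ' * b'.2 → ‖x - b'.1‖ ≤ 2 * Λ' * b'.2 := fun x hx =>
      hx.trans (by nlinarith [mul_pos (by linarith : 0 < Λ') hb'0])
    rcases hc with hc | hc
    · left
      intro x hx
      have h1 := hc x (hmono x hx)
      have h2 := h.zero_lt x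
      have h3 : Λ' ^ 2 * F x ≤ (2 * Λ') ^ 2 * F x :=
        mul_le_mul_of_nonneg_right (pow_le_pow_left₀ (by linarith) (by linarith) 2) h2.le
      linarith
    · right
      intro x hx
      have h1 := hc x (hmono x hx)
      have h3 : (Λ' * b'.2) ^ 2 ≤ (2 * Λ' * b'.2) ^ 2 :=
        pow_le_pow_left₀ (mul_nonneg (by linarith) hb'0.le)
          (by nlinarith [mul_pos (by linarith : 0 < Λ') hb'0]) 2
      linarith
  · intro x s hs hbad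
    rcases h.below x s hs hbad with h1 | ⟨b', hb', h1, h2, h3⟩
    · exact Or.inl h1
    · rcases List.mem_cons.1 hb' with h4 | h4
      · left
        subst h4
        have h5 := hhigh x (h1.trans (by nlinarith [mul_pos (by linarith : 0 < Λ') hb]))
        have h6 : (8 * s) ^ 2 ≤ (2 * Λ' * b'.2) ^ 2 := by
          apply pow_le_pow_left₀ (by positivity)
          calc 8 * s ≤ 8 * (Λ₀ * b'.2) := by linarith
            _ = 8 * Λ₀ * b'.2 := by ring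
            _ ≤ 2 * Λ' * b'.2 := mul_le_mul_of_nonneg_right (by linarith) hb.le
        linarith
      · right
        exact ⟨b', h4, h1, h2, h3⟩

end Pool.Agent.CEF
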