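import Mathlib
import Pool.Agent.CEF.Asm3

set_option maxSynthPendingDepth 3

open scoped ContDiff Topology ENNReal
open Set Function Filter MeasureTheory

namespace Pool.Agent.CEF

open Pool.Agent.Helper17

variable {n : ℕ}

lemma ar_s0 {Λ₀ s₀ : ℝ} {N : ℕ} (hΛ₀ : 1 ≤ Λ₀) (hs₀ : 0 < s₀)
    (h : 2 ^ N * (8 * Λ₀) * s₀ ≤ 1 / 2) : 8 * Λ₀ * s₀ ≤ 1 / 2 ∧ s₀ ≤ 1 := by
  have hp : (1 : ℝ) ≤ 2 ^ N := one_le_pow₀ (by norm_num)
  have h2 : 0 < 8 * Λ₀ * s₀ := by positivity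
  have h1 : 8 * Λ₀ * s₀ ≤ 2 ^ N * (8 * Λ₀) * s₀ := by nlinarith
  have h3 : 8 * Λ₀ * s₀ ≤ 1 / 2 := by linarith
  refine ⟨h3, ?_⟩
  nlinarith

lemma ar_eta {s₀ η K : ℝ} (hs : s₀ ≤ 1) (hs0 : 0 < s₀) (hη0 : 0 < η) (hη : η ≤ 1) (hK : 1 ≤ K) :
    s₀ * η / (4 * K) ≤ 1 := by
  rw [div_le_one (by positivity)]
  have : s₀ * η ≤ 1 := mul_le_one₀ hs hη0.le hη
  linarith

lemma ar_slope1 {N l κ : ℝ} (hκ : 0 ≤ κ) (hl : 0 ≤ l) (hN : l + 1 ≤ N) :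
    2 * (N - (l + 1)) * κ ≤ 2 * N * κ - κ := by nlinarith

lemma ar_slope2 {N l κ : ℝ} (hκ : 0 ≤ κ) (hl : 0 ≤ l) : 2 * (N - l) * κ ≤ 2 * N * κ := by
  nlinarith

lemma ar_hess {N l C a b : ℝ} (hC : 0 ≤ C) (hl : 0 ≤ l) (ha : a ≤ 2 * (N - (l + 1)) * C)
    (hb : b ≤ C) : a + b ≤ 2 * N * C := by nlinarith

lemma ar_Fb {Λ₀ F r : ℝ} {k : ℕ} (hΛ₀ : 1 ≤ Λ₀) (hF : 0 < F)
    (h : (2 ^ k * (8 * Λ₀)) ^ 2 * F < r ^ 2) : F ≤ r ^ 2 := by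
  have h1 : (1 : ℝ) ≤ 2 ^ k := one_le_pow₀ (by norm_num)
  have h2 : (1 : ℝ) ≤ 2 ^ k * (8 * Λ₀) := by nlinarith
  have h3 : (1 : ℝ) ≤ (2 ^ k * (8 * Λ₀)) ^ 2 := one_le_pow₀ h2
  nlinarith

lemma ar_sum {r a b : ℝ} (hr : 0 ≤ r) (ha : 0 ≤ a) (hb : 0 ≤ b) :
    (r + a) ^ 2 + r ^ 2 + b ^ 2 ≤ (2 * r + a + b) ^ 2 := by
  nlinarith [mul_nonneg ha hr, mul_nonneg hb hr, mul_nonneg ha hb, sq_nonneg r]

/-- The step of the induction over a low box. -/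
theorem asm_step (hHmp : St_Hmp n) (hStp : St_Stp n) (hRho : St_Rho n)
    {Λ₀ κ₁ C₂ s₀ η K₀ W CQ CV Cg M L H Rm : ℝ} {N : ℕ}
    (hΛ₀ : 1 ≤ Λ₀) (hκ₁ : 0 ≤ κ₁) (hκN : 2 * (N : ℝ) * κ₁ ≤ 1) (hCQ0 : 0 ≤ CQ)
    (hκC : CQ * (2 * (N : ℝ) * κ₁) ≤ 1 / 2) (hCV0 : 0 ≤ CV) (hCg0 : 0 ≤ Cg) (hs₀ : 0 < s₀)
    (hs₀' : 2 ^ N * (8 * Λ₀) * s₀ ≤ 1 / 2) (hη0 : 0 < η) (hη1 : η ≤ 1) (hK₀ : 8 * Λ₀ < K₀)
    (hW1 : 1 ≤ W) (hW : 4 * (2 ^ N * (8 * Λ₀)) ^ 2 + 2 < W) (hC₂0 : 0 ≤ C₂)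
    (hC₂ : ∀ (η' : ℝ) (p : Phase n) (l : ℝ), 0 < η' → η' ≤ 1 → 0 < l →
      ∀ x, ‖fderiv ℝ (fderiv ℝ (hmp η' p l)) x‖ ≤ C₂)
    (hRm : 2 * (K₀ * W ^ N) / η ≤ Rm)
    (hL : M + Cg * (4 * (K₀ * W ^ N) / η + Real.log (1 / s₀) +
      Real.log (2 + 4 * (K₀ * W ^ N) / η + K₀ * W ^ N)) + CQ ≤ L)
    (hH : CV * (1 + (2 * N * C₂ / 2 + 1)) / s₀ ≤ H) {F₁ : Set (SympCt n)}
    (hFin : ∀ (A B Φ : Phase n → Phase n) (p : Phase n) (R r : ℝ), 0 < R → R ≤ Rm → 0 < r →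
      Adm A → Adm B →
      ContDiff ℝ ∞ Φ → (∀ x, Φ (B x) = x) → (∀ y, B (Φ y) = y) →
      (∀ x, NearL (1 / 2) (fderiv ℝ A x)) → (∀ x, NearL (1 / 2) (fderiv ℝ B x)) →
      (∀ x, R * r < ‖x - p‖ → A x = B x) →
      (∀ x, ‖x - p‖ ≤ 2 * R * r → ‖fderiv ℝ A x‖ ≤ L ∧ ‖fderiv ℝ B x‖ ≤ L ∧
        ‖fderiv ℝ (fderiv ℝ A) x‖ ≤ H / r ∧ ‖fderiv ℝ (fderiv ℝ B) x‖ ≤ H / r) →
      Adm (fun y => A (Φ y)) ∧
      ∃ g ∈ F₁, AdmPath (fun y => r⁻¹ • (A (Φ (B p + r • y)) - B p)) (g : Equiv.Perm (Phase n)))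
    {φ : SympCt n}
    (hV1 : ∀ ρ : Phase n → ℝ, ContDiff ℝ ∞ ρ → ∀ x, 0 < ρ x →
      ‖fderiv ℝ (vmol (φ : Equiv.Perm (Phase n)) ρ) x -
        kAvg (φ : Equiv.Perm (Phase n)) x (ρ x)‖ ≤ CQ * ‖fderiv ℝ ρ x‖)
    (hV : ∀ ρ : Phase n → ℝ, ContDiff ℝ ∞ ρ → ∀ x, 0 < ρ x →
      ∀ θ, NearL θ (kAvg (φ : Equiv.Perm (Phase n)) x (ρ x)) →
        NearL (θ + CQ * (‖fderiv ℝ ρ x‖ * (1 + ‖kAvg (φ : Equiv.Perm (Phase n)) x (ρ x)‖)))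
          (fderiv ℝ (vmol (φ : Equiv.Perm (Phase n)) ρ) x))
    (hV2 : ∀ ρ : Phase n → ℝ, ContDiff ℝ ∞ ρ →
      ∀ (x : Phase n) (H : ℝ), 0 ≤ H → 0 < ρ x → ‖fderiv ℝ ρ x‖ ≤ 1 →
      ‖fderiv ℝ (fderiv ℝ ρ) x‖ ≤ H / ρ x →
      ‖fderiv ℝ (fderiv ℝ (vmol (φ : Equiv.Perm (Phase n)) ρ)) x‖ ≤ CV * (1 + H) / ρ x)
    (hG : ∀ x x' s s' S, 0 < s → 0 < s' → 0 < S →
      ‖kAvg (φ : Equiv.Perm (Phase n)) x s - kAvg (φ : Equiv.Perm (Phase n)) x' s'‖ ≤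
        Cg * (‖x - x'‖ / S + |Real.log (S / s)| + |Real.log (S / s')|))
    {b : Phase n × ℝ} {bs : List (Phase n × ℝ)} {F : Phase n → ℝ}
    (hlen : (b :: bs).length ≤ N) (hb : 0 < b.2) (hbs : ∀ b' ∈ bs, b.2 ≤ b'.2)
    (hM : ‖kAvg (φ : Equiv.Perm (Phase n)) b.1 b.2‖ ≤ M)
    (hSlo : ∀ K, K₀ ≤ K → K ≤ K₀ * W ^ N → ∀ t : ℝ, 0 ≤ t → t ≤ 1 →
      Slp κ₁ (φ : Equiv.Perm (Phase n)) (fun x => t * hmp η b.1 (K * b.2) x) ∧
      Slp κ₁ (φ : Equiv.Perm (Phase n)) (fun x => t * hmp (s₀ * η / (4 * K)) b.1 (s₀ * b.2) x))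
    (h : Inv2 (φ : Equiv.Perm (Phase n)) Λ₀ (8 * Λ₀) κ₁ C₂ N (b :: bs) F)
    (hlow : ∀ x, ‖x - b.1‖ ≤ 2 ^ (b :: bs).length * (8 * Λ₀) * b.2 →
      (2 ^ (b :: bs).length * (8 * Λ₀)) ^ 2 * F x < b.2 ^ 2) :
    ∃ F' : Phase n → ℝ, Inv2 (φ : Equiv.Perm (Phase n)) Λ₀ (8 * Λ₀) κ₁ C₂ N bs F' ∧
      ∃ g ∈ F₁, ∀ g' : SympCt n,
        AdmPath (vmol (φ : Equiv.Perm (Phase n)) (fun x => Real.sqrt (F' x)))
          (g' : Equiv.Perm (Phase n)) →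
        AdmPath (vmol (φ : Equiv.Perm (Phase n)) (fun x => Real.sqrt (F x)))
          ((g * g' : SympCt n) : Equiv.Perm (Phase n)) := by
  obtain ⟨Ch, -, hhmp⟩ := hHmp
  have hbs0 : ∀ b' ∈ bs, 0 < b'.2 := fun b' hb' => hb.trans_le (hbs b' hb')
  have hbs0' : ∀ b' ∈ b :: bs, 0 < b'.2 := by
    intro b' hb'
    rcases List.mem_cons.1 hb' with h1 | h1
    · rw [h1]; exact hb
    · exact hbs0 b' h1
  have hbsb : ∀ b' ∈ b :: bs, b.2 ≤ b'.2 := by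
    intro b' hb'
    rcases List.mem_cons.1 hb' with h1 | h1
    · rw [h1]
    · exact hbs b' h1
  have hone : ∀ {G : Phase n → ℝ}, Slp κ₁ (φ : Equiv.Perm (Phase n)) (fun x => 1 * G x) →
      Slp κ₁ (φ : Equiv.Perm (Phase n)) G := fun {G} hG => by
    have : (fun x => 1 * G x) = G := by ext1 x; rw [one_mul]
    rwa [this] at hG
  obtain ⟨K, hKK₀, hKW, hInv⟩ := hStp Λ₀ (8 * Λ₀) κ₁ C₂ s₀ η K₀ W N hΛ₀ le_rfl hκ₁ hs₀ hs₀' hη0 hη1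
    hK₀ hW1 hW hC₂ (φ : Equiv.Perm (Phase n)) b bs F hlen hb hbs h
    (fun K h1 h2 => ⟨hone (hSlo K h1 h2 1 zero_le_one le_rfl).1,
      hone (hSlo K h1 h2 1 zero_le_one le_rfl).2⟩)
  have hK1 : 1 ≤ K := by linarith
  have hKpos : 0 < K := by linarith
  obtain ⟨hs₀s, hs₀1⟩ := ar_s0 hΛ₀ hs₀ hs₀'
  -- the humps
  set η₁ : ℝ := s₀ * η / (4 * K) with hη₁
  have hη₁0 : 0 < η₁ := by positivity
  have hη₁1 : η₁ ≤ 1 := ar_eta hs₀1 hs₀ hη0 hη1 hK1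
  set r : ℝ := b.2 with hr
  have hl₁ : 0 < s₀ * r := by positivity
  have hl₂ : 0 < K * r := by positivity
  obtain ⟨g1s, g1b, g1i, g1o, -, -⟩ := hhmp η₁ b.1 (s₀ * r) hη₁0 hη₁1 hl₁
  obtain ⟨g2s, g2b, g2i, g2o, -, -⟩ := hhmp η b.1 (K * r) hη0 hη1 hl₂
  set G₁ : Phase n → ℝ := hmp η₁ b.1 (s₀ * r) with hG₁
  set G₂ : Phase n → ℝ := hmp η b.1 (K * r) with hG₂
  set F₂ : Phase n → ℝ := fun x => F x + G₁ x with hF₂
  set F' : Phase n → ℝ := fun x => F x + G₁ x + G₂ x with hF'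
  refine ⟨F', hInv, ?_⟩
  have hF0 : ∀ x, 0 < F x := fun x => h.zero_lt x
  have hF'0 : ∀ x, 0 < F' x := fun x => hInv.zero_lt x
  have hF₂0 : ∀ x, 0 < F₂ x := fun x => add_pos_of_pos_of_nonneg (hF0 x) (g1b x).1
  have hF₂s : ContDiff ℝ ∞ F₂ := h.smooth.add g1s
  obtain ⟨BF, hBF⟩ := h.bdd
  -- lengths
  have hlen2 : ((b :: bs).length : ℝ) = bs.length + 1 := by
    rw [List.length_cons]; push_cast; ring
  have hlenN : (bs.length : ℝ) + 1 ≤ N := by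
    rw [← hlen2]; exact_mod_cast hlen
  have hbl0 : (0 : ℝ) ≤ bs.length := Nat.cast_nonneg _
  -- slopes
  have slopeF : Slp (2 * (N : ℝ) * κ₁ - κ₁) (φ : Equiv.Perm (Phase n)) F := by
    apply h.slope.mono
    rw [hlen2]
    exact ar_slope1 hκ₁ hbl0 hlenN
  have slopeFt : ∀ t ∈ Icc (0 : ℝ) 1, Slp (2 * (N : ℝ) * κ₁) (φ : Equiv.Perm (Phase n))
      (fun x => F x + t * G₁ x) := by
    intro t ht
    have h1 := slopeF.add (hSlo K hKK₀ hKW t ht.1 ht.2).2 (fun x => (hF0 x).le)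
      (fun x => mul_nonneg ht.1 (g1b x).1) h.smooth (contDiff_const.mul g1s)
    exact h1.mono (by linarith)
  have slopeF₂ : Slp (2 * (N : ℝ) * κ₁) (φ : Equiv.Perm (Phase n)) F₂ := by
    have h1 := slopeFt 1 (right_mem_Icc.2 zero_le_one)
    have h2 : (fun x => F x + 1 * G₁ x) = F₂ := by ext1 x; rw [one_mul]
    rwa [h2] at h1
  have slopeF' : Slp (2 * (N : ℝ) * κ₁) (φ : Equiv.Perm (Phase n)) F' := by
    exact hInv.slope.mono (ar_slope2 hκ₁ hbl0)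
  -- no bad boxes on the graphs
  have badt : ∀ t ∈ Icc (0 : ℝ) 1, ∀ x,
      ¬Bad (φ : Equiv.Perm (Phase n)) x (Real.sqrt (F x + t * G₁ x)) := by
    intro t ht x
    have h1 : 0 ≤ t * G₁ x := mul_nonneg ht.1 (g1b x).1
    have h2 : 0 < F x + t * G₁ x := add_pos_of_pos_of_nonneg (hF0 x) h1
    have h3 : t * G₁ x ≤ (s₀ * r) ^ 2 := (mul_le_of_le_one_left (g1b x).1 ht.2).trans (g1b x).2
    apply h.not_bad hΛ₀ le_rfl hbs0' hbsb hb.le hs₀.le (by linarith) (Real.sqrt_pos.2 h2)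
    · rw [Real.sq_sqrt h2.le]; linarith
    · rw [Real.sq_sqrt h2.le]; linarith
  have bad₂ : ∀ x, ¬Bad (φ : Equiv.Perm (Phase n)) x (Real.sqrt (F₂ x)) := by
    intro x
    have := badt 1 (right_mem_Icc.2 zero_le_one) x
    rwa [one_mul] at this
  have bad' : ∀ x, ¬Bad (φ : Equiv.Perm (Phase n)) x (Real.sqrt (F' x)) := by
    intro x
    apply hInv.not_bad hΛ₀ le_rfl hbs0 hbs hb.le (s₁ := 0) le_rfl (by norm_num)
      (Real.sqrt_pos.2 (hF'0 x))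
    · rw [Real.sq_sqrt (hF'0 x).le]
    · rw [Real.sq_sqrt (hF'0 x).le]; simp
  -- the path below the box
  have path1 : AdmPath (vmol (φ : Equiv.Perm (Phase n)) (fun x => Real.sqrt (F x)))
      (vmol (φ : Equiv.Perm (Phase n)) (fun x => Real.sqrt (F₂ x))) :=
    admPath_of_family hRho (κ := 2 * (N : ℝ) * κ₁) hCQ0 hκC hV h.smooth g1s hF0
      (fun x => (g1b x).1) hBF (fun x => (g1b x).2) slopeFt badt
  -- the two maps
  have hF's : ContDiff ℝ ∞ F' := hInv.smooth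
  have hρ₂s : ContDiff ℝ ∞ (fun x => Real.sqrt (F₂ x)) := (hRho F₂ hF₂s hF₂0).1
  have hρ's : ContDiff ℝ ∞ (fun x => Real.sqrt (F' x)) := (hRho F' hF's hF'0).1
  set A : Phase n → Phase n := vmol (φ : Equiv.Perm (Phase n)) (fun x => Real.sqrt (F₂ x)) with hA
  set B : Phase n → Phase n := vmol (φ : Equiv.Perm (Phase n)) (fun x => Real.sqrt (F' x)) with hB
  have hAn : ∀ x, NearL (1 / 2) (fderiv ℝ A x) := fun x =>
    nearL_half hRho slopeF₂ hF₂s hF₂0 x hCQ0 hκC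
      (hV _ hρ₂s x (Real.sqrt_pos.2 (hF₂0 x))) (bad₂ x)
  have hBn : ∀ x, NearL (1 / 2) (fderiv ℝ B x) := fun x =>
    nearL_half hRho slopeF' hF's hF'0 x hCQ0 hκC
      (hV _ hρ's x (Real.sqrt_pos.2 (hF'0 x))) (bad' x)
  obtain ⟨N₁, hN₁0, hN₁⟩ := exists_support_radius φ
  have hAadm : Adm A := ⟨contDiff_vmol (SympCt.contDiff φ) hρ₂s,
    ⟨Metric.closedBall 0 (N₁ + Real.sqrt (BF + (s₀ * r) ^ 2)), isCompact_closedBall _ _,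
      vmol_supp hN₁ (fun x => Real.sqrt_nonneg _) (fun x => Real.sqrt_le_sqrt (by
        have h1 := hBF x
        have h2 := (g1b x).2
        simp only [hF₂]
        linarith))⟩,
    fun x => (hAn x).admissible (by norm_num)⟩
  obtain ⟨BF', hBF'⟩ := hInv.bdd
  have hBadm : Adm B := ⟨contDiff_vmol (SympCt.contDiff φ) hρ's,
    ⟨Metric.closedBall 0 (N₁ + Real.sqrt BF'), isCompact_closedBall _ _,
      vmol_supp hN₁ (fun x => Real.sqrt_nonneg _) (fun x => Real.sqrt_le_sqrt (hBF' x))⟩,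
    fun x => (hBn x).admissible (by norm_num)⟩
  obtain ⟨Φ, hΦs, hΦ1, hΦ2⟩ := hBadm.exists_inverse
  -- the region
  set Kmax : ℝ := K₀ * W ^ N with hKmax
  set R : ℝ := 2 * K / η with hR
  have hR0 : 0 < R := by positivity
  have hRle : R ≤ Rm := by
    refine le_trans ?_ hRm
    rw [hR]
    exact div_le_div_of_nonneg_right (by linarith) hη0.le
  have hout : ∀ x, R * r < ‖x - b.1‖ → A x = B x := by
    intro x hx
    have h1 : G₂ x = 0 := by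
      apply g2o
      have h2 : η * (R * r) < η * ‖x - b.1‖ := mul_lt_mul_of_pos_left hx hη0
      have h3 : η * (R * r) = 2 * (K * r) := by rw [hR]; field_simp
      linarith
    have h2 : Real.sqrt (F₂ x) = Real.sqrt (F' x) := by
      simp only [hF₂, hF', h1, add_zero]
    rw [hA, hB, vmol_eq, vmol_eq, h2]
  -- bounds for the scale functions in the region
  have hFb : F b.1 ≤ r ^ 2 := by
    exact ar_Fb hΛ₀ (hF0 b.1) (hlow b.1 (by rw [sub_self, norm_zero]; positivity))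
  have hρlip : ∀ x, Real.sqrt (F x) ≤ r + ‖x - b.1‖ := by
    intro x
    have hρs : ContDiff ℝ ∞ (fun x => Real.sqrt (F x)) := (hRho F h.smooth hF0).1
    have hd : ∀ y, ‖fderiv ℝ (fun x => Real.sqrt (F x)) y‖ ≤ 1 := by
      intro y
      have h1 := slopeF.sqrt_le hRho h.smooth hF0 y
      have h3 : 0 ≤ ‖kAvg (φ : Equiv.Perm (Phase n)) y (Real.sqrt (F y))‖ := norm_nonneg _
      have h2 : ‖fderiv ℝ (fun x => Real.sqrt (F x)) y‖ * 1 ≤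
          ‖fderiv ℝ (fun x => Real.sqrt (F x)) y‖ *
            (1 + ‖kAvg (φ : Equiv.Perm (Phase n)) y (Real.sqrt (F y))‖) :=
        mul_le_mul_of_nonneg_left (by linarith) (norm_nonneg _)
      linarith
    have h1 : ‖Real.sqrt (F x) - Real.sqrt (F b.1)‖ ≤ 1 * ‖x - b.1‖ :=
      convex_univ.norm_image_sub_le_of_norm_fderiv_le (𝕜 := ℝ)
        (f := fun x => Real.sqrt (F x))
        (fun w _ => hρs.differentiable (by simp) w) (fun w _ => hd w) (mem_univ b.1) (mem_univ x)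
    have h2 : Real.sqrt (F b.1) ≤ r := by
      rw [Real.sqrt_le_left hb.le]
      exact hFb
    rw [Real.norm_eq_abs] at h1
    have h3 := (le_abs_self _).trans h1
    linarith
  set Cρ : ℝ := 2 + 4 * Kmax / η + Kmax with hCρ
  have hKmax1 : 1 ≤ Kmax := hK1.trans hKW
  have hCρ1 : 1 ≤ Cρ := by
    have : 0 ≤ 4 * Kmax / η := by positivity
    rw [hCρ]; linarith
  have hregion : ∀ x, ‖x - b.1‖ ≤ 2 * R * r →
      ((s₀ * r) ^ 2 ≤ F₂ x ∧ F₂ x ≤ (Cρ * r) ^ 2) ∧ (s₀ * r) ^ 2 ≤ F' x ∧ F' x ≤ (Cρ * r) ^ 2 := by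
    intro x hx
    have h1 : G₁ x = (s₀ * r) ^ 2 := by
      apply g1i
      have h2 : η₁ * ‖x - b.1‖ ≤ η₁ * (2 * R * r) := mul_le_mul_of_nonneg_left hx hη₁0.le
      have h3 : η₁ * (2 * R * r) = s₀ * r := by
        rw [hη₁, hR]
        field_simp
        ring
      linarith
    have h2 : F x ≤ (r + 4 * Kmax / η * r) ^ 2 := by
      have h3 : Real.sqrt (F x) ≤ r + 4 * Kmax / η * r := by
        refine (hρlip x).trans ?_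
        have h4 : 2 * R * r ≤ 4 * Kmax / η * r := by
          apply mul_le_mul_of_nonneg_right _ hb.le
          rw [hR, mul_div_assoc', div_le_div_iff_of_pos_right hη0]
          linarith
        linarith
      rw [← Real.sq_sqrt (hF0 x).le]
      exact pow_le_pow_left₀ (Real.sqrt_nonneg _) h3 2
    have h3 : G₂ x ≤ (Kmax * r) ^ 2 := by
      refine (g2b x).2.trans ?_
      exact pow_le_pow_left₀ hl₂.le (mul_le_mul_of_nonneg_right hKW hb.le) 2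
    have h4 := (g2b x).1
    have h5 := hF0 x
    have hs2 : (s₀ * r) ^ 2 ≤ r ^ 2 := by
      apply pow_le_pow_left₀ hl₁.le
      exact mul_le_of_le_one_left hb.le hs₀1
    have h6 : (r + 4 * Kmax / η * r) ^ 2 + r ^ 2 + (Kmax * r) ^ 2 ≤ (Cρ * r) ^ 2 := by
      have e1 : 0 ≤ 4 * Kmax / η * r := by positivity
      have e2 : 0 ≤ Kmax * r := by positivity
      have e3 : Cρ * r = 2 * r + 4 * Kmax / η * r + Kmax * r := by rw [hCρ]; ring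
      rw [e3]
      exact ar_sum hb.le e1 e2
    refine ⟨⟨?_, ?_⟩, ?_, ?_⟩
    · simp only [hF₂]; linarith
    · simp only [hF₂]; linarith [sq_nonneg (Kmax * r)]
    · simp only [hF']; linarith
    · simp only [hF']; linarith
  have hhess₂ : ∀ x, ‖fderiv ℝ (fderiv ℝ F₂) x‖ ≤ 2 * N * C₂ := by
    intro x
    have e0 : fderiv ℝ F₂ = fun x => fderiv ℝ F x + fderiv ℝ G₁ x := by
      ext1 y
      exact fderiv_add (h.smooth.differentiable (by simp) y) (g1s.differentiable (by simp) y)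
    have e1 : fderiv ℝ (fderiv ℝ F₂) x = fderiv ℝ (fderiv ℝ F) x + fderiv ℝ (fderiv ℝ G₁) x := by
      rw [e0]
      exact fderiv_add
        (((h.smooth.fderiv_right (m := ∞) (by simp)).differentiable (by simp)) x)
        (((g1s.fderiv_right (m := ∞) (by simp)).differentiable (by simp)) x)
    rw [e1]
    refine (norm_add_le _ _).trans ?_
    have e2 := h.hess x
    have e3 := hC₂ η₁ b.1 (s₀ * r) hη₁0 hη₁1 hl₁ x
    rw [hlen2] at e2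
    exact ar_hess hC₂0 hbl0 e2 e3
  have hhess' : ∀ x, ‖fderiv ℝ (fderiv ℝ F') x‖ ≤ 2 * N * C₂ := by
    intro x
    exact (hInv.hess x).trans (ar_slope2 hC₂0 hbl0)
  have hNC : 0 ≤ 2 * (N : ℝ) * C₂ := by positivity
  have hMM : M + Cg * (2 * R + Real.log (1 / s₀) + Real.log Cρ) + CQ ≤ L := by
    refine le_trans ?_ hL
    have h1 : 2 * R ≤ 4 * Kmax / η := by
      rw [hR, mul_div_assoc', div_le_div_iff_of_pos_right hη0]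
      linarith
    have h2 : Cg * (2 * R + Real.log (1 / s₀) + Real.log Cρ) ≤
        Cg * (4 * Kmax / η + Real.log (1 / s₀) + Real.log Cρ) :=
      mul_le_mul_of_nonneg_left (by linarith) hCg0
    linarith
  have hHr : CV * (1 + (2 * N * C₂ / 2 + 1)) / s₀ / r ≤ H / r :=
    div_le_div_of_nonneg_right hH hb.le
  have hest : ∀ x, ‖x - b.1‖ ≤ 2 * R * r → ‖fderiv ℝ A x‖ ≤ L ∧ ‖fderiv ℝ B x‖ ≤ L ∧
        ‖fderiv ℝ (fderiv ℝ A) x‖ ≤ H / r ∧ ‖fderiv ℝ (fderiv ℝ B) x‖ ≤ H / r := by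
    intro x hx
    obtain ⟨⟨a1, a2⟩, a3, a4⟩ := hregion x hx
    obtain ⟨c1, c2⟩ := region_est hRho hCQ0 hCV0 hCg0 hκN hs₀ hs₀1 hCρ1 hNC hV1 hV2 hG hb hM hF₂s hF₂0
      slopeF₂ hhess₂ hx a1 a2
    obtain ⟨c3, c4⟩ := region_est hRho hCQ0 hCV0 hCg0 hκN hs₀ hs₀1 hCρ1 hNC hV1 hV2 hG hb hM hF's hF'0
      slopeF' hhess' hx a3 a4
    exact ⟨c1.trans hMM, c3.trans hMM, c2.trans hHr, c4.trans hHr⟩
  obtain ⟨hγadm, g, hgF, hg⟩ := hFin A B Φ b.1 R r hR0 hRle hb hAadm hBadm hΦs hΦ1 hΦ2 hAn hBn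
    hout hest
  refine ⟨g, hgF, fun g' hg' => path1.trans ?_⟩
  have hpγ : AdmPath (fun y => A (Φ y)) (g : Equiv.Perm (Phase n)) :=
    (admPath_rescale hγadm (B b.1) hb).trans hg
  have h1 : (fun x => A (Φ (B x))) = A := by
    ext1 x
    rw [hΦ1]
  have hcomp := admPath_comp hγadm hBadm (θ := 1 / 2) (by norm_num) (by norm_num) hBn (by
    intro x
    rw [h1]
    exact hAn x) hpγ hg'
  rwa [h1] at hcomp

end Pool.Agent.CEF
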