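import Mathlib
import Pool.Agent.CEF.Asm4

set_option maxSynthPendingDepth 3

open scoped ContDiff Topology ENNReal Pointwise
open Set Function Filter MeasureTheory

namespace Pool.Agent.CEF

open Pool.Agent.Helper17

variable {n : ℕ}

lemma ar_kappa {N : ℕ} {CQ : ℝ} (hCQ : 0 ≤ CQ) : ∃ κ₁ : ℝ, 0 < κ₁ ∧ 2 * (N : ℝ) * κ₁ ≤ 1 ∧
    CQ * (2 * (N : ℝ) * κ₁) ≤ 1 / 2 := by
  have hN : (0 : ℝ) ≤ N := Nat.cast_nonneg _
  refine ⟨1 / ((2 * N + 2) * (2 * CQ + 2)), by positivity, ?_, ?_⟩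
  · rw [mul_one_div, div_le_one (by positivity)]
    nlinarith
  · rw [mul_one_div, mul_div_assoc', div_le_div_iff₀ (by positivity) (by norm_num)]
    nlinarith

/-- The invariant at the start. -/
lemma inv2_start {φ : Phase n → Phase n} {Λ₀ κ₁ C₂ : ℝ} {N : ℕ} {bs : List (Phase n × ℝ)}
    (hκ₁ : 0 ≤ κ₁) (hC₂ : 0 ≤ C₂) (hlen : bs.length ≤ N) {r : ℝ} (hr : 0 < r)
    (hr' : ∀ b ∈ bs, (2 ^ bs.length * (8 * Λ₀)) * r < b.2) (hΛ₀ : 1 ≤ Λ₀)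
    (hcov : ∀ x s, 0 < s → Bad φ x s →
      ∃ b ∈ bs, ‖x - b.1‖ ≤ Λ₀ * b.2 ∧ b.2 ≤ Λ₀ * s ∧ s ≤ Λ₀ * b.2) :
    Inv2 φ Λ₀ (8 * Λ₀) κ₁ C₂ N bs (fun _ => r ^ 2) := by
  have hl : (bs.length : ℝ) ≤ N := by exact_mod_cast hlen
  refine ⟨contDiff_const, ⟨r ^ 2, by positivity, fun _ => le_rfl⟩, ⟨r ^ 2, fun _ => le_rfl⟩,
    slp_const (mul_nonneg (by linarith) hκ₁), ?_, ?_, ?_⟩
  · intro x
    have h1 : fderiv ℝ (fun _ : Phase n => r ^ 2) = fun _ => 0 := by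
      ext1 y
      exact (hasFDerivAt_const _ y).fderiv
    rw [h1]
    have h2 : fderiv ℝ (fun _ : Phase n => (0 : Phase n →L[ℝ] ℝ)) x = 0 :=
      (hasFDerivAt_const _ x).fderiv
    rw [h2, norm_zero]
    exact mul_nonneg (by linarith) hC₂
  · intro b hb
    left
    intro x _
    rw [← mul_pow]
    exact pow_lt_pow_left₀ (hr' b hb) (by positivity) two_ne_zero
  · intro x s hs hbad
    exact Or.inr (hcov x s hs hbad)

theorem thm_Abs (n : ℕ) (hVm1 : St_Vm1 n) (hVm2 : St_Vm2 n) (hGro : St_Gro n) (hDeg : St_Deg n)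
    (hCov : St_Cov n) (hCls : St_Cls n) (hQuo : St_Quo n) (hHmp : St_Hmp n) (hSlo : St_Slo n)
    (hStp : St_Stp n) (hRho : St_Rho n) : St_Abs n := by
  intro hn c N δ hδ
  obtain ⟨CQ, hCQ0, hVm1'⟩ := hVm1 c
  obtain ⟨CV, hCV0, hVm2'⟩ := hVm2 c
  obtain ⟨Cg, hCg0, hGro'⟩ := hGro c
  obtain ⟨M, hM0, hDeg'⟩ := hDeg hn c N δ hδ
  obtain ⟨N', Λ₀, hΛ₀, hCov'⟩ := hCov c N δ hδ
  have hHmp' := hHmp
  obtain ⟨Ch, hCh1, hhmp⟩ := hHmp'
  obtain ⟨κ₁, hκ₁0, hκN, hκC⟩ := ar_kappa (N := N') hCQ0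
  obtain ⟨D, hD⟩ : ∃ D : ℝ, D = 2 ^ N' * (8 * Λ₀) := ⟨_, rfl⟩
  have hD1 : 1 ≤ D := by
    rw [hD]
    have : (1 : ℝ) ≤ 2 ^ N' := one_le_pow₀ (by norm_num)
    nlinarith
  obtain ⟨s₀, hs₀⟩ : ∃ s₀ : ℝ, s₀ = 1 / (2 * D) := ⟨_, rfl⟩
  have hs₀0 : 0 < s₀ := by rw [hs₀]; positivity
  have hs₀' : 2 ^ N' * (8 * Λ₀) * s₀ ≤ 1 / 2 := by
    rw [← hD, hs₀]
    apply le_of_eq
    field_simp
  have hs₀1 : s₀ ≤ 1 := (ar_s0 hΛ₀ hs₀0 hs₀').2
  obtain ⟨K₀, hK₀⟩ : ∃ K₀ : ℝ, K₀ = 8 * Λ₀ + 1 := ⟨_, rfl⟩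
  obtain ⟨W, hW⟩ : ∃ W : ℝ, W = 4 * (2 ^ N' * (8 * Λ₀)) ^ 2 + 3 := ⟨_, rfl⟩
  have hW1 : 1 ≤ W := by
    rw [hW]
    have : 0 ≤ 4 * ((2 : ℝ) ^ N' * (8 * Λ₀)) ^ 2 := by positivity
    linarith
  have hK₀8 : 8 * Λ₀ < K₀ := by rw [hK₀]; linarith
  have hK₀1 : 1 ≤ K₀ := by rw [hK₀]; linarith
  have hWN : 1 ≤ W ^ N' := one_le_pow₀ hW1
  have hKm1 : 1 ≤ K₀ * W ^ N' := by nlinarith
  obtain ⟨η, hη0, hη1, hSlo'⟩ := hSlo c M κ₁ s₀ (K₀ * W ^ N') hκ₁0 hs₀0 hs₀1 hKm1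
  obtain ⟨L, hL⟩ : ∃ L : ℝ, L = max 1 (M + Cg * (4 * (K₀ * W ^ N') / η + Real.log (1 / s₀) +
      Real.log (2 + 4 * (K₀ * W ^ N') / η + K₀ * W ^ N')) + CQ) := ⟨_, rfl⟩
  obtain ⟨H, hH⟩ : ∃ H : ℝ, H = CV * (1 + (2 * N' * Ch / 2 + 1)) / s₀ := ⟨_, rfl⟩
  have hCh0 : 0 ≤ Ch := by linarith
  have hH0 : 0 ≤ H := by rw [hH]; positivity
  obtain ⟨C', L', H', c', hL'1, hH'0, hc'0, hQ⟩ := hQuo (2 * (K₀ * W ^ N') / η) L H
    (by positivity) (by rw [hL]; exact le_max_left _ _) hH0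
  obtain ⟨F₁, hF₁, hF₁'⟩ := hCls C' L' H' c' hL'1 hH'0 hc'0
  refine ⟨⋃ j ∈ Finset.range (N' + 1), prodSet F₁ j,
    (Finset.range (N' + 1)).finite_toSet.biUnion fun j _ => prodSet_finite hF₁ j, ?_⟩
  intro φ hφ
  have hφs := SympCt.contDiff φ
  have hG := hGro' (φ : Equiv.Perm (Phase n)) hφs hφ.osc4
  have hV12 := hVm1' (φ : Equiv.Perm (Phase n)) hφs hφ.osc4
  have hV2 := hVm2' (φ : Equiv.Perm (Phase n)) hφs hφ.osc4
  have hV1 : ∀ ρ : Phase n → ℝ, ContDiff ℝ ∞ ρ → ∀ x, 0 < ρ x →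
      ‖fderiv ℝ (vmol (φ : Equiv.Perm (Phase n)) ρ) x -
        kAvg (φ : Equiv.Perm (Phase n)) x (ρ x)‖ ≤ CQ * ‖fderiv ℝ ρ x‖ := fun ρ h1 x h2 =>
    (hV12 ρ h1 x h2).1
  have hV : ∀ ρ : Phase n → ℝ, ContDiff ℝ ∞ ρ → ∀ x, 0 < ρ x →
      ∀ θ, NearL θ (kAvg (φ : Equiv.Perm (Phase n)) x (ρ x)) →
        NearL (θ + CQ * (‖fderiv ℝ ρ x‖ * (1 + ‖kAvg (φ : Equiv.Perm (Phase n)) x (ρ x)‖)))
          (fderiv ℝ (vmol (φ : Equiv.Perm (Phase n)) ρ) x) := fun ρ h1 x h2 =>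
    (hV12 ρ h1 x h2).2
  have key : ∀ bs : List (Phase n × ℝ), bs.length ≤ N' → bs.Pairwise (fun a b => a.2 ≤ b.2) →
      (∀ b ∈ bs, 0 < b.2 ∧ Bad (φ : Equiv.Perm (Phase n)) b.1 b.2) → ∀ F : Phase n → ℝ,
      Inv2 (φ : Equiv.Perm (Phase n)) Λ₀ (8 * Λ₀) κ₁ Ch N' bs F →
      ∃ j ≤ bs.length, ∃ g ∈ prodSet F₁ j,
        AdmPath (vmol (φ : Equiv.Perm (Phase n)) (fun x => Real.sqrt (F x)))
          (g : Equiv.Perm (Phase n)) := by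
    intro bs
    induction bs with
    | nil =>
      intro _ _ _ F hInv
      refine ⟨0, le_rfl, 1, rfl, ?_⟩
      apply admPath_one hn hRho (κ := 2 * (N' : ℝ) * κ₁) hCQ0 hκC hκN hV hInv.smooth
        (fun x => hInv.zero_lt x) hInv.bdd
      · have := hInv.slope
        simpa using this
      · intro x s hs hxs hb
        rcases hInv.below x s hs hb with h1 | ⟨b, hb, -⟩
        · have := hInv.zero_lt x
          nlinarith [sq_nonneg s]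
        · simp at hb
    | cons b bs ih =>
      intro hlen hsort hpos F hInv
      have hb := hpos b List.mem_cons_self
      have hbs' : ∀ b' ∈ bs, b.2 ≤ b'.2 := (List.pairwise_cons.1 hsort).1
      have hbs0 : ∀ b' ∈ bs, 0 < b'.2 := fun b' hb' => hb.1.trans_le (hbs' b' hb')
      have hlen' : bs.length ≤ N' := by
        rw [List.length_cons] at hlen
        omega
      have ih' := ih hlen' (List.pairwise_cons.1 hsort).2
        (fun b' hb' => hpos b' (List.mem_cons_of_mem b hb'))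
      rcases hInv.clear b List.mem_cons_self with hlow | hhigh
      · obtain ⟨F', hInv', g, hg, hstep⟩ := asm_step hHmp hStp hRho (L := L) (H := H)
          (Rm := 2 * (K₀ * W ^ N') / η) (F₁ := F₁) hΛ₀ hκ₁0.le hκN hCQ0 hκC hCV0 hCg0 hs₀0 hs₀'
          hη0 hη1 hK₀8 hW1 (by rw [hW]; linarith) hCh0
          (fun η' p l h1 h2 h3 => (hhmp η' p l h1 h2 h3).2.2.2.2.1) le_rfl
          (by rw [hL]; exact le_max_right _ _) (by rw [hH])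
          (fun A B Φ p R r h1 h2 h3 h4 h5 h6 h7 h8 h9 h10 h11 h12 => by
            obtain ⟨q1, q2⟩ := hQ A B Φ p R r h1 h2 h3 h4 h5 h6 h7 h8 h9 h10 h11 h12
            exact ⟨q1, hF₁' _ q2⟩) hV1 hV hV2 hG hlen hb.1 hbs'
          (hDeg' φ hφ b.1 b.2 hb.1 hb.2)
          (fun K h1 h2 t h3 h4 => hSlo' (φ : Equiv.Perm (Phase n)) hφs hφ.osc4 b.1 b.2 K hb.1
            (hDeg' φ hφ b.1 b.2 hb.1 hb.2) (hK₀1.trans h1) h2 t h3 h4) hInv hlow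
        obtain ⟨j, hj, g', hg', hpath⟩ := ih' F' hInv'
        refine ⟨j + 1, by rw [List.length_cons]; omega, g * g', ?_, hstep g' hpath⟩
        exact Set.mul_mem_mul hg hg'
      · obtain ⟨j, hj, g', hg', hpath⟩ := ih' F (hInv.skip hΛ₀ le_rfl hκ₁0.le hCh0 hb.1 hbs0 hhigh)
        exact ⟨j, by rw [List.length_cons]; omega, g', hg', hpath⟩
  obtain ⟨bs, hlen, hbsb, hcov⟩ := hCov' φ hφ
  -- sort the boxes
  classical
  obtain ⟨bs', hbs'⟩ : ∃ bs' : List (Phase n × ℝ),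
    bs' = bs.mergeSort (fun a b => decide (a.2 ≤ b.2)) := ⟨_, rfl⟩
  have hperm : bs'.Perm bs := by rw [hbs']; exact List.mergeSort_perm _ _
  have hsort : bs'.Pairwise (fun a b => a.2 ≤ b.2) := by
    have h1 := List.pairwise_mergeSort (le := fun a b : Phase n × ℝ => decide (a.2 ≤ b.2))
      (fun a b c => by simpa using fun h1 h2 => le_trans h1 h2)
      (fun a b => by simpa using le_total a.2 b.2) bs
    rw [hbs']
    simpa using h1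
  have hlen' : bs'.length ≤ N' := by rw [hperm.length_eq]; exact hlen
  have hbsb' : ∀ b ∈ bs', 0 < b.2 ∧ Bad (φ : Equiv.Perm (Phase n)) b.1 b.2 := fun b hb =>
    hbsb b (hperm.mem_iff.1 hb)
  have hcov' : ∀ x s, 0 < s → Bad (φ : Equiv.Perm (Phase n)) x s →
      ∃ b ∈ bs', ‖x - b.1‖ ≤ Λ₀ * b.2 ∧ b.2 ≤ Λ₀ * s ∧ s ≤ Λ₀ * b.2 := by
    intro x s hs hbad
    obtain ⟨b, hb, h1⟩ := hcov x s hs hbad
    exact ⟨b, hperm.mem_iff.2 hb, h1⟩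
  -- a small scale
  obtain ⟨r, hr0, hr⟩ : ∃ r : ℝ, 0 < r ∧ ∀ b ∈ bs', (2 ^ bs'.length * (8 * Λ₀)) * r < b.2 := by
    have hE0 : 0 < (2 : ℝ) ^ bs'.length * (8 * Λ₀) := by positivity
    have h1 : ∀ l : List (Phase n × ℝ), (∀ b ∈ l, 0 < b.2) →
        ∃ r : ℝ, 0 < r ∧ ∀ b ∈ l, (2 ^ bs'.length * (8 * Λ₀)) * r < b.2 := by
      intro l
      induction l with
      | nil => intro _; exact ⟨1, one_pos, by simp⟩
      | cons b l ih =>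
        intro hl
        obtain ⟨r, hr0, hr⟩ := ih fun b' hb' => hl b' (List.mem_cons_of_mem b hb')
        have hb := hl b List.mem_cons_self
        refine ⟨min r (b.2 / (2 * (2 ^ bs'.length * (8 * Λ₀)))),
          lt_min hr0 (by positivity), ?_⟩
        intro b' hb'
        rcases List.mem_cons.1 hb' with h | h
        · rw [h]
          have h2 : (2 ^ bs'.length * (8 * Λ₀)) *
              min r (b.2 / (2 * (2 ^ bs'.length * (8 * Λ₀)))) ≤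
              (2 ^ bs'.length * (8 * Λ₀)) * (b.2 / (2 * (2 ^ bs'.length * (8 * Λ₀)))) :=
            mul_le_mul_of_nonneg_left (min_le_right _ _) hE0.le
          have h3 : (2 ^ bs'.length * (8 * Λ₀)) * (b.2 / (2 * (2 ^ bs'.length * (8 * Λ₀)))) =
              b.2 / 2 := by field_simp
          linarith
        · refine lt_of_le_of_lt ?_ (hr b' h)
          exact mul_le_mul_of_nonneg_left (min_le_left _ _) hE0.le
    exact h1 bs' fun b hb => (hbsb' b hb).1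
  have hInv := inv2_start (κ₁ := κ₁) (C₂ := Ch) hκ₁0.le hCh0 hlen' hr0 hr hΛ₀ hcov'
  obtain ⟨j, hj, g, hg, hpath⟩ := key bs' hlen' hsort hbsb' _ hInv
  have hstart : AdmPath (φ : Equiv.Perm (Phase n))
      (vmol (φ : Equiv.Perm (Phase n)) (fun _ => r)) := by
    apply admPath_start hr0.le
    intro x s hs hsr hbad
    obtain ⟨b, hb, -, h2, -⟩ := hcov' x s hs hbad
    have h3 := hr b hb
    have h4 : (1 : ℝ) ≤ 2 ^ bs'.length := one_le_pow₀ (by norm_num)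
    have h5 : Λ₀ * s ≤ 2 ^ bs'.length * (8 * Λ₀) * r := by
      apply mul_le_mul _ hsr hs.le (by positivity)
      nlinarith
    linarith
  have hsq : (fun x : Phase n => Real.sqrt ((fun _ : Phase n => r ^ 2) x)) = fun _ => r := by
    ext1 x
    exact Real.sqrt_sq hr0.le
  rw [hsq] at hpath
  refine ⟨g, ?_, joined_of_admPath (hstart.trans hpath)⟩
  simp only [mem_iUnion]
  exact ⟨j, by rw [Finset.mem_range]; omega, hg⟩

end Pool.Agent.CEF
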