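import Pool.Agent.CEF.Defs
import Pool.Agent.Helper17.AdmPath
import Pool.Agent.Helper17.AdmComp
import Pool.Agent.Helper17.NormalClass

/-!
# CEF [Cls]: a class of bounded geometry contains finitely many isotopy classes (helper36)
-/

set_option autoImplicit false
set_option maxSynthPendingDepth 3

open scoped ContDiff Topology ENNReal
open Set Function Filter MeasureTheory

namespace Pool.Agent.CEF

open Pool.Agent.Helper17

variable {n : ℕ}

lemma Cls_admissible {c : ℝ} (hc : 0 < c) {B : Phase n →L[ℝ] Phase n} (h : QAdm c B) :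
    Admissible B := by
  intro s hs u hu
  obtain ⟨v, -, hv⟩ := h u
  have h1 := hv s hs
  rw [hu v] at h1
  by_contra hne
  have h2 : 0 < ‖u‖ := norm_pos_iff.2 hne
  have h3 : 0 < c * ‖u‖ ^ 2 := by positivity
  linarith

lemma Cls_perturb {c L p : ℝ} {A B : Phase n →L[ℝ] Phase n} (h : QAdm c A) (hL : ‖A‖ ≤ L)
    (hp : ‖B - A‖ ≤ p) : QAdm (c - (2 * L * p + p ^ 2)) B := by
  intro u
  obtain ⟨v, hv, h1⟩ := h u
  refine ⟨v, hv, fun s hs => ?_⟩
  have hL0 : 0 ≤ L := (norm_nonneg _).trans hL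
  have hp0 : 0 ≤ p := (norm_nonneg _).trans hp
  set P := B - A with hP
  have hB : ∀ w, B w = A w + P w := fun w => by simp [hP]
  have hAu : ∀ w, ‖A w‖ ≤ L * ‖w‖ := fun w =>
    (A.le_opNorm w).trans (mul_le_mul_of_nonneg_right hL (norm_nonneg _))
  have hPu : ∀ w, ‖P w‖ ≤ p * ‖w‖ := fun w =>
    (P.le_opNorm w).trans (mul_le_mul_of_nonneg_right hp (norm_nonneg _))
  have h2 : |omegaStd (A u) (P v)| ≤ (L * ‖u‖) * (p * ‖v‖) :=
    (abs_omegaStd_le _ _).trans (mul_le_mul (hAu u) (hPu v) (norm_nonneg _) (by positivity))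
  have h3 : |omegaStd (P u) (A v)| ≤ (p * ‖u‖) * (L * ‖v‖) :=
    (abs_omegaStd_le _ _).trans (mul_le_mul (hPu u) (hAu v) (norm_nonneg _) (by positivity))
  have h4 : |omegaStd (P u) (P v)| ≤ (p * ‖u‖) * (p * ‖v‖) :=
    (abs_omegaStd_le _ _).trans (mul_le_mul (hPu u) (hPu v) (norm_nonneg _) (by positivity))
  have h5 : omegaStd (B u) (B v) = omegaStd (A u) (A v) + (omegaStd (A u) (P v) +
      omegaStd (P u) (A v) + omegaStd (P u) (P v)) := by
    rw [hB u, hB v, omegaStd_add_left, omegaStd_add_right, omegaStd_add_right]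
    ring
  set E := omegaStd (A u) (P v) + omegaStd (P u) (A v) + omegaStd (P u) (P v) with hE
  have h6 : -((2 * L * p + p ^ 2) * ‖u‖ ^ 2) ≤ E := by
    have e1 : ‖u‖ * ‖v‖ ≤ ‖u‖ ^ 2 := by
      rw [pow_two]
      exact mul_le_mul_of_nonneg_left hv (norm_nonneg _)
    have e2 := (abs_le.1 h2).1
    have e3 := (abs_le.1 h3).1
    have e4 := (abs_le.1 h4).1
    have e5 : (2 * L * p + p ^ 2) * (‖u‖ * ‖v‖) ≤ (2 * L * p + p ^ 2) * ‖u‖ ^ 2 :=
      mul_le_mul_of_nonneg_left e1 (by positivity)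
    rw [hE]
    linarith
  have h7 : -((2 * L * p + p ^ 2) * ‖u‖ ^ 2) ≤ s * E := by
    have e1 : 0 ≤ (2 * L * p + p ^ 2) * ‖u‖ ^ 2 := by positivity
    have e2 : s * -((2 * L * p + p ^ 2) * ‖u‖ ^ 2) ≤ s * E := mul_le_mul_of_nonneg_left h6 hs.1
    have e3 : s * ((2 * L * p + p ^ 2) * ‖u‖ ^ 2) ≤ 1 * ((2 * L * p + p ^ 2) * ‖u‖ ^ 2) :=
      mul_le_mul_of_nonneg_right hs.2 e1
    linarith
  have h8 := h1 s hs
  rw [h5]
  have h9 : (1 - s) * omegaStd u v + s * (omegaStd (A u) (A v) + E) =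
      ((1 - s) * omegaStd u v + s * omegaStd (A u) (A v)) + s * E := by ring
  rw [h9]
  linarith

lemma Cls_adm {C L H c : ℝ} {γ : Phase n → Phase n} (h : Cls C L H c γ) (hc : 0 < c) : Adm γ :=
  ⟨h.smooth, ⟨Metric.closedBall 0 C, isCompact_closedBall _ _, fun x hx =>
    h.supp x (by simpa using hx)⟩, fun x => Cls_admissible hc (h.qadm x)⟩

/-- the derivative of the difference of two members -/
lemma Cls_fderiv_sub {C L H c : ℝ} {γ γ' : Phase n → Phase n} (h : Cls C L H c γ)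
    (h' : Cls C L H c γ') {τ r : ℝ} (hr : 0 < r) (hτ : ∀ x, ‖γ x - γ' x‖ ≤ τ) (x : Phase n) :
    ‖fderiv ℝ γ' x - fderiv ℝ γ x‖ ≤ 2 * τ / r + 2 * H * r := by
  have hτ0 : 0 ≤ τ := (norm_nonneg _).trans (hτ 0)
  have hH0 : 0 ≤ H := (norm_nonneg _).trans (h.hess 0)
  set g : Phase n → Phase n := fun y => γ' y - γ y with hg
  have hd : ∀ y, HasFDerivAt g (fderiv ℝ γ' y - fderiv ℝ γ y) y := fun y =>
    ((h'.smooth.differentiable (by simp) y).hasFDerivAt).sub
      ((h.smooth.differentiable (by simp) y).hasFDerivAt)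
  have hlip : ∀ {f : Phase n → Phase n}, Cls C L H c f → ∀ y,
      ‖fderiv ℝ f y - fderiv ℝ f x‖ ≤ H * ‖y - x‖ := by
    intro f hf y
    have hdf : Differentiable ℝ (fderiv ℝ f) :=
      (hf.smooth.fderiv_right (m := ∞) (by simp)).differentiable (by simp)
    exact convex_univ.norm_image_sub_le_of_norm_fderiv_le (𝕜 := ℝ)
      (fun w _ => hdf w) (fun w _ => hf.hess w) (mem_univ x) (mem_univ y)
  apply ContinuousLinearMap.opNorm_le_bound _ (by positivity)
  intro u
  rcases eq_or_ne u 0 with hu | hu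
  · rw [hu]
    simp
  have hu0 : 0 < ‖u‖ := norm_pos_iff.2 hu
  set w : Phase n := (r / ‖u‖) • u with hw
  have hwn : ‖w‖ = r := by
    rw [hw, norm_smul, Real.norm_of_nonneg (by positivity)]
    field_simp
  have hmv := (convex_closedBall x r).norm_image_sub_le_of_norm_hasFDerivWithin_le' (f := g)
    (f' := fun y => fderiv ℝ γ' y - fderiv ℝ γ y) (φ := fderiv ℝ γ' x - fderiv ℝ γ x)
    (C := 2 * H * r) (x := x) (y := x + w)
    (fun y _ => (hd y).hasFDerivWithinAt) (fun y hy => ?_)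
    (Metric.mem_closedBall_self hr.le) (by simp [hwn])
  · rw [add_sub_cancel_left, hwn] at hmv
    have e1 : ‖g (x + w)‖ ≤ τ := by
      rw [hg]
      show ‖γ' (x + w) - γ (x + w)‖ ≤ τ
      rw [norm_sub_rev]
      exact hτ _
    have e2 : ‖g x‖ ≤ τ := by
      rw [hg]
      show ‖γ' x - γ x‖ ≤ τ
      rw [norm_sub_rev]
      exact hτ _
    set M := fderiv ℝ γ' x - fderiv ℝ γ x with hM
    have e3 : ‖M w‖ ≤ 2 * τ + 2 * H * r * r := by
      have n1 := norm_sub_le (g (x + w) - g x) (g (x + w) - g x - M w)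
      have n2 : g (x + w) - g x - (g (x + w) - g x - M w) = M w := by abel
      rw [n2] at n1
      have n3 := norm_sub_le (g (x + w)) (g x)
      linarith
    have e4 : M w = (r / ‖u‖) • M u := by rw [hw, map_smul]
    rw [e4, norm_smul, Real.norm_of_nonneg (by positivity)] at e3
    have e5 : ‖M u‖ = (‖u‖ / r) * (r / ‖u‖ * ‖M u‖) := by
      field_simp
    rw [e5]
    have e6 : (‖u‖ / r) * (r / ‖u‖ * ‖M u‖) ≤ (‖u‖ / r) * (2 * τ + 2 * H * r * r) :=
      mul_le_mul_of_nonneg_left e3 (by positivity)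
    refine e6.trans (le_of_eq ?_)
    field_simp
  · have hy' : ‖y - x‖ ≤ r := by
      rw [← dist_eq_norm]
      exact Metric.mem_closedBall.1 hy
    have e1 := hlip h y
    have e2 := hlip h' y
    have e3 : fderiv ℝ γ' y - fderiv ℝ γ y - (fderiv ℝ γ' x - fderiv ℝ γ x) =
        (fderiv ℝ γ' y - fderiv ℝ γ' x) - (fderiv ℝ γ y - fderiv ℝ γ x) := by abel
    show ‖fderiv ℝ γ' y - fderiv ℝ γ y - (fderiv ℝ γ' x - fderiv ℝ γ x)‖ ≤ 2 * H * r
    rw [e3]
    have e4 := norm_sub_le (fderiv ℝ γ' y - fderiv ℝ γ' x) (fderiv ℝ γ y - fderiv ℝ γ x)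
    have e5 : H * ‖y - x‖ ≤ H * r := mul_le_mul_of_nonneg_left hy' hH0
    linarith

/-- Two members of the class which are close in the uniform norm are joined. -/
lemma Cls_close {C L H c : ℝ} {γ γ' : Phase n → Phase n} (h : Cls C L H c γ)
    (h' : Cls C L H c γ') {τ r p : ℝ} (hr : 0 < r) (hτ : ∀ x, ‖γ x - γ' x‖ ≤ τ)
    (hp : 2 * τ / r + 2 * H * r ≤ p) (hc : 0 < c - (2 * L * p + p ^ 2)) : AdmPath γ γ' := by
  apply admPath_segment h.smooth h'.smooth (isCompact_closedBall (0 : Phase n) C)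
    (fun x hx => h.supp x (by simpa using hx)) (fun x hx => h'.supp x (by simpa using hx))
  intro x t ht
  refine Cls_admissible hc (Cls_perturb (h.qadm x) (h.lip x) ?_)
  rw [add_sub_cancel_left, norm_smul, Real.norm_of_nonneg ht.1]
  exact (mul_le_of_le_one_left (norm_nonneg _) ht.2).trans
    ((Cls_fderiv_sub h h' hr hτ x).trans hp)

theorem thm_Cls (n : ℕ) : St_Cls n := by
  intro C L H c hL1 hH0 hc
  -- the closeness required
  set p : ℝ := min 1 (c / (2 * (2 * L + 1) + 1)) with hp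
  have hp0 : 0 < p := lt_min one_pos (by positivity)
  have hp1 : p ≤ 1 := min_le_left _ _
  have hpc : 0 < c - (2 * L * p + p ^ 2) := by
    have e1 : p ≤ c / (2 * (2 * L + 1) + 1) := min_le_right _ _
    have e2 : p * (2 * (2 * L + 1) + 1) ≤ c := by
      rwa [le_div_iff₀ (by positivity)] at e1
    nlinarith
  set r : ℝ := p / (4 * (H + 1)) with hr
  have hr0 : 0 < r := by positivity
  set τ : ℝ := r * p / 4 with hτd
  have hτ0 : 0 < τ := by positivity
  have hpr : 2 * τ / r + 2 * H * r ≤ p := by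
    have e1 : 2 * τ / r = p / 2 := by
      rw [hτd]
      field_simp
      ring
    have e2 : 2 * H * r ≤ p / 2 := by
      rw [hr]
      have e3 : 2 * H * (p / (4 * (H + 1))) = (p / 2) * (H / (H + 1)) := by
        field_simp
        ring
      rw [e3]
      have e4 : H / (H + 1) ≤ 1 := by
        rw [div_le_one (by positivity)]
        linarith
      have e5 := mul_le_mul_of_nonneg_left e4 (by positivity : 0 ≤ p / 2)
      linarith
    linarith
  set C' : ℝ := |C| + 1 + L * (2 * |C| + 1) with hC'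
  obtain ⟨t₁, ht₁s, ht₁f, ht₁⟩ := finite_cover_balls_of_compact
    (isCompact_closedBall (0 : Phase n) C) (e := τ / (4 * L)) (by positivity)
  obtain ⟨t₂, -, ht₂f, ht₂⟩ := finite_cover_balls_of_compact
    (isCompact_closedBall (0 : Phase n) C') (e := τ / 4) (by positivity)
  have : Finite t₁ := ht₁f.to_subtype
  have : Finite t₂ := ht₂f.to_subtype
  have hlip : ∀ {γ : Phase n → Phase n}, Cls C L H c γ → ∀ y z,
      ‖γ y - γ z‖ ≤ L * ‖y - z‖ := fun {γ} h y z =>
    convex_univ.norm_image_sub_le_of_norm_fderiv_le (𝕜 := ℝ)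
      (fun w _ => h.smooth.differentiable (by simp) w) (fun w _ => h.lip w) (mem_univ z)
      (mem_univ y)
  have hbd : ∀ {γ : Phase n → Phase n}, Cls C L H c γ → ∀ y, ‖y‖ ≤ C → ‖γ y‖ ≤ C' := by
    intro γ h y hy
    rcases subsingleton_or_nontrivial (Phase n) with hs | hs
    · have : γ y = 0 := Subsingleton.elim _ _
      rw [this, norm_zero]
      positivity
    · obtain ⟨z₀, hz₀⟩ := exists_norm_eq (Phase n) (c := |C| + 1) (by positivity)
      have e1 := hlip h y z₀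
      have e2 : γ z₀ = z₀ := h.supp z₀ (by rw [hz₀]; linarith [le_abs_self C])
      rw [e2] at e1
      have e3 := norm_sub_le y z₀
      have e4 : ‖y - z₀‖ ≤ 2 * |C| + 1 := by
        have := le_abs_self C
        linarith
      have e5 : L * ‖y - z₀‖ ≤ L * (2 * |C| + 1) := mul_le_mul_of_nonneg_left e4 (by linarith)
      have e6 : ‖γ y‖ ≤ ‖γ y - z₀‖ + ‖z₀‖ := by
        have := norm_add_le (γ y - z₀) z₀
        rwa [sub_add_cancel] at this
      rw [hC']
      linarith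
  have hcode : ∀ {γ : Phase n → Phase n}, Cls C L H c γ →
      ∃ k : t₁ → t₂, ∀ y : t₁, ‖γ y - k y‖ < τ / 4 := by
    intro γ h
    have h1 : ∀ y : t₁, ∃ w : t₂, ‖γ y - w‖ < τ / 4 := by
      intro y
      have e1 : ‖(y : Phase n)‖ ≤ C := by simpa using ht₁s y.2
      have e2 := ht₂ (show γ y ∈ Metric.closedBall (0 : Phase n) C' by simpa using hbd h y e1)
      simp only [mem_iUnion, Metric.mem_ball] at e2
      obtain ⟨w, hw, hyw⟩ := e2
      exact ⟨⟨w, hw⟩, by rwa [← dist_eq_norm]⟩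
    choose k hk using h1
    exact ⟨k, hk⟩
  classical
  set G : (t₁ → t₂) → SympCt n := fun k =>
    if h : ∃ γ : Phase n → Phase n, Cls C L H c γ ∧ ∀ y : t₁, ‖γ y - k y‖ < τ / 4 then
      (Cls_adm h.choose_spec.1 hc).exists_symp.choose else 1 with hG
  refine ⟨range G, finite_range G, fun γ hγ => ?_⟩
  obtain ⟨k, hk⟩ := hcode hγ
  refine ⟨G k, mem_range_self k, ?_⟩
  have hex : ∃ γ : Phase n → Phase n, Cls C L H c γ ∧ ∀ y : t₁, ‖γ y - k y‖ < τ / 4 :=
    ⟨γ, hγ, hk⟩
  have hGc : G k = (Cls_adm hex.choose_spec.1 hc).exists_symp.choose := by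
    simp only [hG]
    rw [dif_pos hex]
  rw [hGc]
  have hpath := (Cls_adm hex.choose_spec.1 hc).exists_symp.choose_spec
  refine AdmPath.trans ?_ hpath
  obtain ⟨h1, h2⟩ := hex.choose_spec
  set γ' := hex.choose with hγ'
  apply Cls_close hγ h1 hr0 (τ := τ) _ hpr hpc
  intro x
  by_cases hx : ‖x‖ ≤ C
  · have h3 := ht₁ (show x ∈ Metric.closedBall (0 : Phase n) C by simpa using hx)
    simp only [mem_iUnion, Metric.mem_ball] at h3
    obtain ⟨y, hy, hxy⟩ := h3
    rw [dist_eq_norm] at hxy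
    have e1 := hlip hγ x y
    have e2 := hlip h1 y x
    have e3 := hk ⟨y, hy⟩
    have e4 := h2 ⟨y, hy⟩
    simp only at e3 e4
    have e5 : L * ‖x - y‖ ≤ τ / 4 := by
      have := mul_le_mul_of_nonneg_left hxy.le (by linarith : 0 ≤ L)
      refine this.trans (le_of_eq ?_)
      field_simp
    rw [norm_sub_rev y x] at e2
    have e6 : γ x - γ' x = (γ x - γ y) + (γ y - (k ⟨y, hy⟩ : Phase n)) -
        (γ' y - (k ⟨y, hy⟩ : Phase n)) + (γ' y - γ' x) := by abel
    rw [e6]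
    have n1 := norm_add_le ((γ x - γ y) + (γ y - (k ⟨y, hy⟩ : Phase n)) -
        (γ' y - (k ⟨y, hy⟩ : Phase n))) (γ' y - γ' x)
    have n2 := norm_sub_le ((γ x - γ y) + (γ y - (k ⟨y, hy⟩ : Phase n)))
        (γ' y - (k ⟨y, hy⟩ : Phase n))
    have n3 := norm_add_le (γ x - γ y) (γ y - (k ⟨y, hy⟩ : Phase n))
    linarith
  · push Not at hx
    rw [hγ.supp x hx, h1.supp x hx, sub_self, norm_zero]
    exact hτ0.le

end Pool.Agent.CEF
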