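import Pool.Agent.CEF.Defs

/-!
# CEF [Cov]: the bad boxes are covered by boundedly many of them (helper36)
-/

set_option autoImplicit false
set_option maxSynthPendingDepth 3

open scoped ContDiff Topology ENNReal
open Set Function Filter MeasureTheory

namespace Pool.Agent.CEF

open Pool.Agent.Helper17

theorem thm_Cov (n : ℕ) (h1 : St_Var n) : St_Cov n := by
  obtain ⟨ε, hε, hvar⟩ := h1
  intro c N δ hδ
  obtain ⟨hδ0, hδ1⟩ := hδ ε hε
  have hinv : 1 ≤ (δ ε)⁻¹ := (one_le_inv₀ hδ0).2 hδ1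
  refine ⟨N ε, 1 + (δ ε)⁻¹, by linarith, fun φ hφ => ?_⟩
  have hbadosc : ∀ x s, 0 < s → Bad (φ : Equiv.Perm (Phase n)) x s →
      ENNReal.ofReal ε ≤ osc 2 (φ : Equiv.Perm (Phase n)) x s := by
    intro x s hs hb
    by_contra hcon
    exact hvar φ x s hs (not_le.1 hcon).le hb
  -- families of pairwise unrelated bad boxes
  set P : ℕ → Prop := fun k => ∃ bs : List (Phase n × ℝ), bs.length = k ∧
    (∀ b ∈ bs, 0 < b.2 ∧ Bad (φ : Equiv.Perm (Phase n)) b.1 b.2) ∧
    bs.Pairwise (fun a b => ¬Related (δ ε) a b) with hP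
  have hP0 : P 0 := ⟨[], rfl, by simp, List.Pairwise.nil⟩
  have hPN : ¬P (N ε + 1) := by
    rintro ⟨bs, hlen, hbad, hun⟩
    have h2 := hφ.pack ε hε bs (fun b hb => ⟨(hbad b hb).1,
      hbadosc b.1 b.2 (hbad b hb).1 (hbad b hb).2⟩) hun
    omega
  obtain ⟨k, hk, hPk, hPk1⟩ : ∃ k ≤ N ε, P k ∧ ¬P (k + 1) := by
    by_contra hcon
    push Not at hcon
    apply hPN
    have h1 : ∀ k, k ≤ N ε + 1 → P k := by
      intro k
      induction k with
      | zero => intro _; exact hP0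
      | succ k ih => intro hk; exact hcon k (by omega) (ih (by omega))
    exact h1 (N ε + 1) le_rfl
  obtain ⟨bs, hlen, hbad, hun⟩ := hPk
  refine ⟨bs, by omega, hbad, fun x s hs hxs => ?_⟩
  have h1 : ∃ b ∈ bs, Related (δ ε) (x, s) b := by
    by_contra hcon
    push Not at hcon
    apply hPk1
    refine ⟨(x, s) :: bs, by rw [List.length_cons, hlen], ?_, ?_⟩
    · intro b hb
      rcases List.mem_cons.1 hb with h2 | h2
      · rw [h2]
        exact ⟨hs, hxs⟩
      · exact hbad b h2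
    · exact List.pairwise_cons.2 ⟨hcon, hun⟩
  obtain ⟨b, hb, h2, h3, h4⟩ := h1
  have hb0 := (hbad b hb).1
  simp only at h2 h3 h4
  have h5 : s ≤ (δ ε)⁻¹ * b.2 := by
    rw [inv_mul_eq_div, le_div_iff₀ hδ0]
    linarith
  have h6 : b.2 ≤ (δ ε)⁻¹ * s := by
    rw [inv_mul_eq_div, le_div_iff₀ hδ0]
    linarith
  refine ⟨b, hb, ?_, ?_, ?_⟩
  · linarith
  · linarith
  · linarith

end Pool.Agent.CEF
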