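import Pool.Agent.CEF.Pt

/-!
# CEF: in a bad box the average is bounded
-/

set_option autoImplicit false
set_option maxSynthPendingDepth 3

open scoped ContDiff Topology ENNReal
open Set Function Filter MeasureTheory

namespace Pool.Agent.CEF

open Pool.Agent.Helper17

variable {n : ℕ}

theorem Deg_intOn {h : Phase n → ℝ} (hh : Continuous h) (R : ℝ) :
    IntegrableOn h (Metric.closedBall (0 : Phase n) R) :=
  hh.continuousOn.integrableOn_compact (isCompact_closedBall _ _)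

theorem Deg_mean (n : ℕ) : ∃ E : ℝ, 0 ≤ E ∧ ∀ g : Phase n → Phase n →L[ℝ] Phase n,
    Continuous g → ∀ B : Phase n →L[ℝ] Phase n, ‖(∫ z, g z ∂(etaMeasure n)) - B‖ ≤
      E * ∫ z in Metric.closedBall (0 : Phase n) 1, (1 + ‖g z - B‖ ^ 4) := by
  obtain ⟨C, hC⟩ := (contDiff_eta (Phase n)).continuous.bounded_above_of_compact_support
    (hasCompactSupport_eta (Phase n))
  have hC0 : 0 ≤ C := (norm_nonneg _).trans (hC 0)
  refine ⟨C, hC0, fun g hg B => ?_⟩
  have hc : Continuous fun z => ‖g z - B‖ := (hg.sub continuous_const).norm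
  have h1 : (∫ z, g z ∂(etaMeasure n)) - B = ∫ z, (g z - B) ∂(etaMeasure n) := by
    rw [integral_sub (integrable_etaMeasure hg) (integrable_const _), integral_const]
    simp
  rw [h1]
  refine (norm_integral_le_integral_norm _).trans ?_
  rw [integral_etaMeasure]
  have h2 : ∫ z, eta (Phase n) z • ‖g z - B‖ =
      ∫ z in Metric.closedBall (0 : Phase n) 1, eta (Phase n) z • ‖g z - B‖ := by
    symm
    apply setIntegral_eq_integral_of_forall_compl_eq_zero
    intro z hz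
    rw [mem_closedBall_zero_iff, not_le] at hz
    rw [eta_eq_zero _ hz, zero_smul]
  rw [h2, ← integral_const_mul]
  refine setIntegral_mono ?_ ?_ ?_
  · exact Deg_intOn (((contDiff_eta (Phase n)).continuous).smul hc) 1
  · exact Deg_intOn (continuous_const.mul (continuous_const.add (hc.pow 4))) 1
  · intro z
    simp only [smul_eq_mul]
    have h3 : eta (Phase n) z ≤ C := (le_abs_self _).trans (hC z)
    have h4 : ‖g z - B‖ ≤ 1 + ‖g z - B‖ ^ 4 := by
      have h0 := norm_nonneg (g z - B)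
      rcases le_or_gt ‖g z - B‖ 1 with h | h
      · have : (0 : ℝ) ≤ ‖g z - B‖ ^ 4 := by positivity
        linarith
      · have : ‖g z - B‖ ^ 1 ≤ ‖g z - B‖ ^ 4 := pow_le_pow_right₀ h.le (by norm_num)
        rw [pow_one] at this
        linarith
    exact mul_le_mul h3 h4 (norm_nonneg _) hC0

theorem Deg_one {g : Phase n → Phase n →L[ℝ] Phase n} (hg : Continuous g)
    (B : Phase n →L[ℝ] Phase n) :
    ∫ z in Metric.closedBall (0 : Phase n) 1, (1 + ‖g z - B‖ ^ 4) =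
      volume.real (Metric.closedBall (0 : Phase n) 1) +
        ∫ z in Metric.closedBall (0 : Phase n) 1, ‖g z - B‖ ^ 4 := by
  have hc : Continuous fun z => ‖g z - B‖ ^ 4 := (hg.sub continuous_const).norm.pow 4
  have h0 : IntegrableOn (fun _ : Phase n => (1 : ℝ)) (Metric.closedBall (0 : Phase n) 1) :=
    Deg_intOn continuous_const 1
  rw [integral_add h0 (Deg_intOn hc 1), setIntegral_const, smul_eq_mul, mul_one]

/-- The bound of the variance. -/
theorem Deg_var (n : ℕ) (C₁ : ℝ) : ∃ C₂ : ℝ, ∀ g : Phase n → Phase n →L[ℝ] Phase n,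
    Continuous g → ∀ B : Phase n →L[ℝ] Phase n,
    ∫ z in Metric.closedBall (0 : Phase n) 1, ‖g z - B‖ ^ 4 ≤ C₁ →
    ∫ z in Metric.closedBall (0 : Phase n) 1, ‖g z - ∫ y, g y ∂(etaMeasure n)‖ ^ 2 ≤ C₂ := by
  obtain ⟨E, hE, hmean⟩ := Deg_mean n
  set V := volume.real (Metric.closedBall (0 : Phase n) 1) with hV
  have hV0 : 0 ≤ V := measureReal_nonneg
  refine ⟨2 * (V + C₁) + 2 * (E * (V + C₁)) ^ 2 * V, fun g hg B hB => ?_⟩
  set K := ∫ y, g y ∂(etaMeasure n) with hK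
  have hKB : ‖K - B‖ ≤ E * (V + C₁) := by
    refine (hmean g hg B).trans ?_
    rw [Deg_one hg B]
    exact mul_le_mul_of_nonneg_left (by linarith) hE
  have h1 : ∫ z in Metric.closedBall (0 : Phase n) 1, ‖g z - K‖ ^ 2 ≤
      ∫ z in Metric.closedBall (0 : Phase n) 1,
        (2 * (1 + ‖g z - B‖ ^ 4) + 2 * (E * (V + C₁)) ^ 2) := by
    refine setIntegral_mono (Deg_intOn ((hg.sub continuous_const).norm.pow 2) 1) ?_ fun z => ?_
    · exact Deg_intOn (((continuous_const.mul (continuous_const.add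
        ((hg.sub continuous_const).norm.pow 4))).add continuous_const)) 1
    · show ‖g z - K‖ ^ 2 ≤ 2 * (1 + ‖g z - B‖ ^ 4) + 2 * (E * (V + C₁)) ^ 2
      have h2 : ‖g z - K‖ ≤ ‖g z - B‖ + ‖K - B‖ := by
        have : g z - K = (g z - B) - (K - B) := by abel
        rw [this]
        exact norm_sub_le _ _
      have h3 : ‖g z - K‖ ^ 2 ≤ 2 * ‖g z - B‖ ^ 2 + 2 * ‖K - B‖ ^ 2 := by
        have h4 := pow_le_pow_left₀ (norm_nonneg _) h2 2
        nlinarith [sq_nonneg (‖g z - B‖ - ‖K - B‖)]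
      have h5 : ‖K - B‖ ^ 2 ≤ (E * (V + C₁)) ^ 2 := pow_le_pow_left₀ (norm_nonneg _) hKB 2
      have h6 : ‖g z - B‖ ^ 2 ≤ 1 + ‖g z - B‖ ^ 4 := by
        nlinarith [sq_nonneg (‖g z - B‖ ^ 2 - 1), sq_nonneg ‖g z - B‖]
      linarith
  have hc4 : Continuous fun z => 2 * (1 + ‖g z - B‖ ^ 4) :=
    continuous_const.mul (continuous_const.add ((hg.sub continuous_const).norm.pow 4))
  have h0 : IntegrableOn (fun _ : Phase n => 2 * (E * (V + C₁)) ^ 2)
    (Metric.closedBall (0 : Phase n) 1) := Deg_intOn continuous_const 1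
  have h7 : ∫ z in Metric.closedBall (0 : Phase n) 1,
      (2 * (1 + ‖g z - B‖ ^ 4) + 2 * (E * (V + C₁)) ^ 2) =
      2 * (V + ∫ z in Metric.closedBall (0 : Phase n) 1, ‖g z - B‖ ^ 4) +
        2 * (E * (V + C₁)) ^ 2 * V := by
    rw [integral_add (Deg_intOn hc4 1) h0, integral_const_mul, Deg_one hg B, setIntegral_const,
      smul_eq_mul]
    ring
  rw [h7] at h1
  linarith

theorem Deg_end {u v w : Phase n → Phase n} (hu : Continuous u) (hv : Continuous v)
    (hw : Continuous w) (h : ∀ z, ‖w z‖ ≤ ‖u z‖ + ‖v z‖) :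
    ∫ z in Metric.closedBall (0 : Phase n) 1, ‖w z‖ ^ 2 ≤
      2 * (∫ z in Metric.closedBall (0 : Phase n) 1, ‖u z‖ ^ 2) +
        2 * ∫ z in Metric.closedBall (0 : Phase n) 1, ‖v z‖ ^ 2 := by
  have hu2 : Continuous fun z => 2 * ‖u z‖ ^ 2 := continuous_const.mul (hu.norm.pow 2)
  have hv2 : Continuous fun z => 2 * ‖v z‖ ^ 2 := continuous_const.mul (hv.norm.pow 2)
  have hw2 : Continuous fun z => ‖w z‖ ^ 2 := hw.norm.pow 2
  have huv : Continuous fun z => 2 * ‖u z‖ ^ 2 + 2 * ‖v z‖ ^ 2 := hu2.add hv2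
  rw [← integral_const_mul, ← integral_const_mul, ← integral_add (Deg_intOn hu2 1)
    (Deg_intOn hv2 1)]
  refine setIntegral_mono (Deg_intOn hw2 1) (Deg_intOn huv 1) fun z => ?_
  have e3 := pow_le_pow_left₀ (norm_nonneg _) (h z) 2
  show ‖w z‖ ^ 2 ≤ 2 * ‖u z‖ ^ 2 + 2 * ‖v z‖ ^ 2
  nlinarith [sq_nonneg (‖u z‖ - ‖v z‖)]

theorem Deg_sub (R : ℝ) (hR : 1 ≤ R) {g : Phase n → Phase n →L[ℝ] Phase n} (hg : Continuous g)
    (B : Phase n →L[ℝ] Phase n) :
    ∫ z in Metric.closedBall (0 : Phase n) 1, ‖g z - B‖ ^ 4 ≤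
      ∫ z in Metric.closedBall (0 : Phase n) R, ‖g z - B‖ ^ 4 := by
  refine setIntegral_mono_set (Deg_intOn ((hg.sub continuous_const).norm.pow 4) R) ?_ ?_
  · exact Eventually.of_forall fun z => by positivity
  · exact (Metric.closedBall_subset_closedBall hR).eventuallyLE

/-- The rescaled map. -/
noncomputable def Deg_f (φ : Phase n → Phase n) (x : Phase n) (s : ℝ) : Phase n → Phase n :=
  fun z => s⁻¹ • φ (x + s • z)

theorem Deg_smooth {φ : Phase n → Phase n} (hφ : ContDiff ℝ ∞ φ) (x : Phase n) (s : ℝ) :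
    ContDiff ℝ ∞ (Deg_f φ x s) :=
  (hφ.comp (contDiff_const.add (contDiff_id.const_smul s))).const_smul s⁻¹

theorem Deg_fderiv {φ : Phase n → Phase n} (hφ : ContDiff ℝ ∞ φ) (x : Phase n) {s : ℝ}
    (hs : 0 < s) (z : Phase n) : fderiv ℝ (Deg_f φ x s) z = fderiv ℝ φ (x + s • z) := by
  have h1 : HasFDerivAt φ (fderiv ℝ φ (x + s • z)) (x + s • z) :=
    (hφ.differentiable (by simp) _).hasFDerivAt
  have h2 : HasFDerivAt (fun z : Phase n => x + s • z)
      (s • ContinuousLinearMap.id ℝ (Phase n)) z :=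
    ((hasFDerivAt_id z).const_smul s).const_add x
  have h3 := (h1.comp z h2).const_smul s⁻¹
  have h4 : fderiv ℝ (Deg_f φ x s) z =
      s⁻¹ • (fderiv ℝ φ (x + s • z)).comp (s • ContinuousLinearMap.id ℝ (Phase n)) := h3.fderiv
  rw [h4]
  ext1 v
  simp only [_root_.smul_apply, ContinuousLinearMap.comp_apply,
    ContinuousLinearMap.id_apply, map_smul]
  rw [smul_smul, inv_mul_cancel₀ hs.ne', one_smul]

theorem Deg_kAvg {φ : Phase n → Phase n} (hφ : ContDiff ℝ ∞ φ) (x : Phase n) {s : ℝ}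
    (hs : 0 < s) : kAvg (Deg_f φ x s) 0 1 = kAvg φ x s := by
  rw [kAvg_eq, kAvg_eq]
  refine integral_congr_ae (Eventually.of_forall fun z => ?_)
  simp only [zero_add, one_smul]
  exact Deg_fderiv hφ x hs z

/-- One of the boxes has small oscillation. -/
theorem Deg_box {c : ℝ} {N : ℝ → ℕ} {δ : ℝ → ℝ} {φ : Phase n → Phase n} (hφ : Ctrl c N δ φ)
    {ε : ℝ} (hε : 0 < ε) (x e : Phase n) (he : ‖e‖ = 1) {s : ℝ} (hs : 0 < s) :
    ∃ i : ℕ, i < N ε + 1 ∧
      osc 2 φ (x + (3 * ((i : ℝ) + 1) * s) • e) s < ENNReal.ofReal ε := by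
  by_contra hcon
  push Not at hcon
  have h1 := hφ.pack ε hε ((List.range (N ε + 1)).map
    fun i : ℕ => (x + (3 * ((i : ℝ) + 1) * s) • e, s)) (by
      intro b hb
      obtain ⟨i, hi, rfl⟩ := List.mem_map.1 hb
      exact ⟨hs, hcon i (List.mem_range.1 hi)⟩) (by
      rw [List.pairwise_map]
      refine (List.pairwise_lt_range).imp fun {i j} hij hr => ?_
      have h2 := hr.2.2
      simp only at h2
      have h3 : (x + (3 * ((i : ℝ) + 1) * s) • e) - (x + (3 * ((j : ℝ) + 1) * s) • e) =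
          (-(3 * ((j : ℝ) - i) * s)) • e := by
        module
      rw [h3, norm_smul, he, mul_one, Real.norm_eq_abs, abs_neg] at h2
      have h4 : (1 : ℝ) ≤ (j : ℝ) - i := by
        have : (i : ℝ) + 1 ≤ j := by exact_mod_cast hij
        linarith
      have h5 : 3 * s ≤ 3 * ((j : ℝ) - i) * s := by nlinarith
      have h6 := le_abs_self (3 * ((j : ℝ) - i) * s)
      linarith)
  simp at h1

/-- DEG -/
theorem thm_Deg (n : ℕ) (h1 : St_Pt n) (h2 : St_Lin n) (h3 : St_Tra n) (h4 : St_Aff n)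
    (h5 : St_Cv2 n) : St_Deg n := by
  intro hn c N δ hδ
  obtain ⟨-, Cp, hCp, hP2⟩ := h1
  have hP4 := Pt_real4 n
  obtain ⟨C₁, hC₁, hP1⟩ := hP4 c 1 le_rfl
  obtain ⟨C₂, hvar⟩ := Deg_var n C₁
  obtain ⟨μ, hμ, hCv2⟩ := h5 C₂
  obtain ⟨Ca, hCa, hAff⟩ := h4
  obtain ⟨E, hE, hmean⟩ := Deg_mean n
  set V := volume.real (Metric.closedBall (0 : Phase n) 1) with hV
  have hV0 : 0 ≤ V := measureReal_nonneg
  set ε : ℝ := μ / (4 * (Ca * Cp + 1)) with hε
  have hCaCp : 0 ≤ Ca * Cp := mul_nonneg hCa hCp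
  have hε0 : 0 < ε := by positivity
  have hεμ : 2 * (Ca * (Cp * ε)) ≤ μ / 2 := by
    have e1 : ε * (4 * (Ca * Cp + 1)) = μ := by
      rw [hε]
      field_simp
    linarith
  set T : ℝ := 3 * ((N ε : ℝ) + 1) with hT
  have hT0 : 0 ≤ T := by positivity
  have hR : 1 ≤ T + 1 := by linarith
  obtain ⟨CR, hCR, hPR⟩ := hP4 c (T + 1) hR
  obtain ⟨Ct, hCt, hTra⟩ := h3 T hT0
  set L₀ : ℝ := 1 + 16 * Ct * (1 + CR) / μ with hL₀
  have hL₀1 : 1 ≤ L₀ := by
    have : 0 ≤ 16 * Ct * (1 + CR) / μ := by positivity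
    linarith
  refine ⟨E * (V + CR) + L₀, by positivity, fun φ hφ x s hs hbad => ?_⟩
  by_contra hM
  push Not at hM
  apply hbad
  have hsm : ContDiff ℝ ∞ (φ : Equiv.Perm (Phase n)) := φ.2.1
  have hsy : ∀ y, SympL (fderiv ℝ (φ : Equiv.Perm (Phase n)) y) := fun y u v => φ.2.2.2.1 y u v
  have hAc : Continuous fun z : Phase n => fderiv ℝ (φ : Equiv.Perm (Phase n)) (x + s • z) :=
    (hsm.continuous_fderiv (by simp)).comp (continuous_const.add (continuous_id.const_smul s))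
  set f : Phase n → Phase n := Deg_f (φ : Equiv.Perm (Phase n)) x s with hf
  have hfs : ContDiff ℝ ∞ f := Deg_smooth hsm x s
  have hfd : ∀ z, fderiv ℝ f z = fderiv ℝ (φ : Equiv.Perm (Phase n)) (x + s • z) :=
    Deg_fderiv hsm x hs
  have hfy : ∀ z, SympL (fderiv ℝ f z) := fun z => by
    rw [hfd]
    exact hsy _
  have hfK : kAvg f 0 1 = kAvg (φ : Equiv.Perm (Phase n)) x s := Deg_kAvg hsm x hs
  obtain ⟨z₀, -, hz₀⟩ := hPR _ hsm hφ.osc4 x s hs
  set A₀ := fderiv ℝ (φ : Equiv.Perm (Phase n)) (x + s • z₀) with hA₀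
  have hKA : ‖kAvg (φ : Equiv.Perm (Phase n)) x s - A₀‖ ≤ E * (V + CR) := by
    rw [kAvg_eq]
    refine (hmean _ hAc A₀).trans ?_
    rw [Deg_one hAc A₀]
    refine mul_le_mul_of_nonneg_left ?_ hE
    have := Deg_sub (T + 1) hR hAc A₀
    linarith
  have hA₀L : L₀ ≤ ‖A₀‖ := by
    have h6 : ‖kAvg (φ : Equiv.Perm (Phase n)) x s‖ ≤
        ‖kAvg (φ : Equiv.Perm (Phase n)) x s - A₀‖ + ‖A₀‖ := by
      have := norm_add_le (kAvg (φ : Equiv.Perm (Phase n)) x s - A₀) A₀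
      rwa [sub_add_cancel] at this
    linarith
  have hA₀0 : 0 < ‖A₀‖ := by linarith
  obtain ⟨⟨P, hP1', hP2', hP3'⟩, hPe⟩ := h2 A₀ (hsy _)
  obtain ⟨e, he, heA⟩ := hPe hn
  obtain ⟨i, hi, hosc⟩ := Deg_box hφ hε0 x e he hs
  set τ : ℝ := 3 * ((i : ℝ) + 1) with hτ
  have hτ0 : 0 ≤ τ := by positivity
  have hτT : τ ≤ T := by
    have : (i : ℝ) + 1 ≤ N ε + 1 := by exact_mod_cast hi
    linarith
  obtain ⟨z₁, -, hz₁⟩ := hP2 _ hsm ε hε0.le _ s hs hosc.le
  set B := fderiv ℝ (φ : Equiv.Perm (Phase n)) (x + (τ * s) • e + s • z₁) with hB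
  have hshift : ∀ z, fderiv ℝ f (τ • e + z) =
      fderiv ℝ (φ : Equiv.Perm (Phase n)) (x + (τ * s) • e + s • z) := by
    intro z
    rw [hfd]
    congr 1
    module
  obtain ⟨a, ha⟩ := hAff f hfs (τ • e) B
  have ha' : ∫ z in Metric.closedBall (0 : Phase n) 1, ‖f (τ • e + z) - a - B z‖ ^ 2 ≤
      Ca * (Cp * ε) := by
    refine ha.trans (mul_le_mul_of_nonneg_left ?_ hCa)
    simp only [hshift]
    exact hz₁
  set lam : ℝ := 2 / ‖A₀‖ with hlam
  have hlamA : ‖A₀ e‖ ≤ lam := by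
    rw [hlam, le_div_iff₀ hA₀0]
    exact heA
  have htr : ∫ z in Metric.closedBall (0 : Phase n) 1,
      ‖P (f (z + τ • e) - f z - τ • A₀ e)‖ ^ 2 ≤ Ct * lam ^ 2 * (1 + CR) := by
    refine hTra f hfs hfy A₀ P e lam τ CR (hsy _) hP3' he hlamA hτ0 hτT ?_
    simp only [hfd]
    exact hz₀
  have hlam2 : 2 * (Ct * lam ^ 2 * (1 + CR)) ≤ μ / 2 := by
    have e1 : 16 * Ct * (1 + CR) ≤ μ * ‖A₀‖ ^ 2 := by
      have e2 : 16 * Ct * (1 + CR) / μ ≤ ‖A₀‖ := by linarith
      rw [div_le_iff₀ hμ] at e2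
      have e3 : ‖A₀‖ ≤ ‖A₀‖ ^ 2 := le_self_pow₀ (hL₀1.trans hA₀L) two_ne_zero
      have e5 := mul_le_mul_of_nonneg_left e3 hμ.le
      linarith
    have e4 : 2 * (Ct * lam ^ 2 * (1 + CR)) = 8 * Ct * (1 + CR) / ‖A₀‖ ^ 2 := by
      rw [hlam]
      field_simp
      ring
    rw [e4, div_le_iff₀ (by positivity)]
    linarith
  rw [← hfK]
  refine hCv2 f hfs hfy P B (a - τ • A₀ e) hP1' hP2' ?_ ?_
  · rw [hfK, kAvg_eq]
    simp only [hfd]
    obtain ⟨z₂, -, hz₂⟩ := hP1 _ hsm hφ.osc4 x s hs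
    exact hvar _ hAc _ hz₂
  · have hc1 : Continuous fun z => f (τ • e + z) - a - B z :=
      ((hfs.continuous.comp (continuous_const.add continuous_id)).sub continuous_const).sub
        B.continuous
    have hc2 : Continuous fun z => P (f (z + τ • e) - f z - τ • A₀ e) :=
      P.continuous.comp (((hfs.continuous.comp (continuous_id.add continuous_const)).sub
        hfs.continuous).sub continuous_const)
    have hc3 : Continuous fun z => P (f z - (a - τ • A₀ e) - B z) :=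
      P.continuous.comp ((hfs.continuous.sub continuous_const).sub B.continuous)
    have hle := Deg_end hc1 hc2 hc3 fun z => by
      have e1 : f z - (a - τ • A₀ e) - B z =
          (f (τ • e + z) - a - B z) - (f (z + τ • e) - f z - τ • A₀ e) := by
        rw [add_comm z (τ • e)]
        abel
      rw [e1, map_sub]
      exact (norm_sub_le _ _).trans (add_le_add (hP1' _) le_rfl)
    linarith

end Pool.Agent.CEF
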