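import Pool.Agent.CEF.Defs

/-!
# CEF [Dir]: the contracted components do not move in the contracted direction
-/

set_option autoImplicit false

namespace Pool.Agent.CEF

open Pool.Agent.Helper17

variable {n : ℕ}

/-- A symplectic linear map is surjective. -/
private lemma Dir_surj {A : Phase n →L[ℝ] Phase n} (hA : SympL A) (w : Phase n) : ∃ u, A u = w := by
  have hinj : Function.Injective (A : Phase n →ₗ[ℝ] Phase n) := by
    rw [← LinearMap.ker_eq_bot, LinearMap.ker_eq_bot']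
    intro u hu
    apply eq_zero_of_omegaStd
    intro v
    have hu' : A u = 0 := hu
    rw [← hA u v, hu', omegaStd_zero_left]
  exact (LinearMap.injective_iff_surjective.mp hinj) w

/-- The preimages of `w` under two symplectic maps are close. -/
private lemma Dir_close {A₀ A : Phase n →L[ℝ] Phase n} (h₀ : SympL A₀) (hA : SympL A)
    {u y w : Phase n} (hu : A u = w) (hy : A₀ y = w) : ‖u - y‖ ≤ ‖A - A₀‖ * ‖w‖ := by
  have h1 : ∀ v, omegaStd (u - y) v = omegaStd w ((A - A₀) v) := by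
    intro v
    rw [ContinuousLinearMap.sub_apply, omegaStd_sub_left, omegaStd_sub_right, ← hA u v,
      ← h₀ y v, hu, hy]
  have h2 := h1 (Jl n (u - y))
  rw [omegaStd_Jl] at h2
  have h3 : omegaStd w ((A - A₀) (Jl n (u - y))) ≤ ‖w‖ * (‖A - A₀‖ * ‖u - y‖) := by
    refine (le_abs_self _).trans ((abs_omegaStd_le _ _).trans ?_)
    refine mul_le_mul_of_nonneg_left ?_ (norm_nonneg _)
    have h4 := (A - A₀).le_opNorm (Jl n (u - y))
    rw [norm_Jl] at h4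
    exact h4
  rw [← h2] at h3
  rcases (norm_nonneg (u - y)).eq_or_lt with h5 | h5
  · rw [← h5]
    positivity
  · have h6 : ‖u - y‖ * ‖u - y‖ ≤ (‖A - A₀‖ * ‖w‖) * ‖u - y‖ := by
      calc ‖u - y‖ * ‖u - y‖ = ‖u - y‖ ^ 2 := (sq _).symm
        _ ≤ ‖w‖ * (‖A - A₀‖ * ‖u - y‖) := h3
        _ = (‖A - A₀‖ * ‖w‖) * ‖u - y‖ := by ring
    exact le_of_mul_le_mul_right h6 h5

theorem thm_Dir (n : ℕ) : St_Dir n := by
  intro A₀ A P h₀ hA hP e
  obtain ⟨w, hw1, hw2, hw3⟩ := hP (A e - A₀ e)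
  obtain ⟨u, hu⟩ := Dir_surj hA w
  obtain ⟨y, hy⟩ := Dir_surj h₀ w
  have hyw := hw3 y hy
  have hcl := Dir_close h₀ hA hu hy
  have hun : ‖u‖ ≤ (1 + ‖A - A₀‖) * ‖w‖ := by
    calc ‖u‖ = ‖(u - y) + y‖ := by rw [sub_add_cancel]
      _ ≤ ‖u - y‖ + ‖y‖ := norm_add_le _ _
      _ ≤ ‖A - A₀‖ * ‖w‖ + ‖w‖ := add_le_add hcl hyw
      _ = (1 + ‖A - A₀‖) * ‖w‖ := by ring
  have h1 : omegaStd w (A e - A₀ e) = -omegaStd ((A - A₀) u) (A₀ e) := by
    rw [ContinuousLinearMap.sub_apply, omegaStd_sub_left, omegaStd_sub_right, hu, h₀ u e, ← hA u e,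
      hu]
    ring
  have h2 : ‖P (A e - A₀ e)‖ ^ 2 ≤ (‖A - A₀‖ * ((1 + ‖A - A₀‖) * ‖w‖)) * ‖A₀ e‖ := by
    rw [← hw2, h1]
    refine (le_abs_self _).trans ?_
    rw [abs_neg]
    refine (abs_omegaStd_le _ _).trans (mul_le_mul_of_nonneg_right ?_ (norm_nonneg _))
    exact ((A - A₀).le_opNorm u).trans (mul_le_mul_of_nonneg_left hun (norm_nonneg _))
  rw [hw1] at h2
  rcases (norm_nonneg (P (A e - A₀ e))).eq_or_lt with h5 | h5
  · rw [← h5]
    positivity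
  · have h6 : ‖P (A e - A₀ e)‖ * ‖P (A e - A₀ e)‖ ≤
        (‖A - A₀‖ * (1 + ‖A - A₀‖) * ‖A₀ e‖) * ‖P (A e - A₀ e)‖ := by
      calc ‖P (A e - A₀ e)‖ * ‖P (A e - A₀ e)‖ = ‖P (A e - A₀ e)‖ ^ 2 := (sq _).symm
        _ ≤ _ := h2
        _ = _ := by ring
    exact le_of_mul_le_mul_right h6 h5

end Pool.Agent.CEF
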