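import Pool.Agent.CEF.Defs
import Pool.Agent.Helper17.Finiteness

set_option maxSynthPendingDepth 3

open scoped ContDiff Topology ENNReal
open Set Function Filter MeasureTheory

/-!
# Campaign CEF: the critical energy controls the map (statement St_Eng)
-/

namespace Pool.Agent.CEF

open Pool.Agent.Helper17

variable {n : ℕ}

/-- Scaling of an integral over a ball. -/
lemma Eng_scale (G : Phase n → ℝ) (x : Phase n) {s : ℝ} (hs : 0 < s) :
    ∫ z in Metric.closedBall (0 : Phase n) 1, G (x + s • z) =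
      (s ^ (2 * n))⁻¹ * ∫ y in Metric.closedBall x s, G y := by
  obtain ⟨H, hH⟩ : ∃ H : Phase n → ℝ, H = (Metric.closedBall x s).indicator G := ⟨_, rfl⟩
  have h1 : ∫ z in Metric.closedBall (0 : Phase n) 1, G (x + s • z) =
      ∫ z, (fun z => H (x + z)) (s • z) := by
    rw [← integral_indicator measurableSet_closedBall]
    congr 1
    funext z
    show (Metric.closedBall (0 : Phase n) 1).indicator (fun z => G (x + s • z)) z =
      H (x + s • z)
    rw [hH]
    by_cases hz : z ∈ Metric.closedBall (0 : Phase n) 1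
    · have h2 : x + s • z ∈ Metric.closedBall x s := by
        rw [mem_closedBall_iff_norm, add_sub_cancel_left, norm_smul, Real.norm_of_nonneg hs.le]
        have h3 : ‖z‖ ≤ 1 := by simpa using hz
        nlinarith
      rw [indicator_of_mem hz, indicator_of_mem h2]
    · have h2 : x + s • z ∉ Metric.closedBall x s := by
        rw [mem_closedBall_iff_norm, add_sub_cancel_left, norm_smul, Real.norm_of_nonneg hs.le]
        have h3 : 1 < ‖z‖ := by simpa using hz
        intro h4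
        nlinarith
      rw [indicator_of_notMem hz, indicator_of_notMem h2]
  rw [h1, Measure.integral_comp_smul volume (fun z => H (x + z)) s, finrank_phase,
    integral_add_left_eq_self (fun y => H y) x, abs_of_nonneg (by positivity), smul_eq_mul, hH,
    integral_indicator measurableSet_closedBall]

/-- The second derivative. -/
noncomputable def Eng_f (φ : SympCt n) (y : Phase n) : ℝ :=
  ‖fderiv ℝ (fderiv ℝ (φ : Equiv.Perm (Phase n))) y‖

lemma Eng_f_cont (φ : SympCt n) : Continuous (Eng_f φ) := (continuous_secondDeriv φ).norm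

lemma Eng_f_nonneg (φ : SympCt n) (y : Phase n) : 0 ≤ Eng_f φ y := norm_nonneg _

lemma Eng_g_cont (φ : SympCt n) (x : Phase n) (s : ℝ) :
    Continuous (fun z : Phase n => s * Eng_f φ (x + s • z)) :=
  continuous_const.mul ((Eng_f_cont φ).comp (continuous_const.add (continuous_const_smul s)))

lemma Eng_int {G : Phase n → ℝ} (hG : Continuous G) :
    IntegrableOn G (Metric.closedBall (0 : Phase n) 1) :=
  hG.continuousOn.integrableOn_compact (isCompact_closedBall _ _)

lemma Eng_gint (φ : SympCt n) (x : Phase n) (s : ℝ) :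
    IntegrableOn (fun z : Phase n => s * Eng_f φ (x + s • z))
      (Metric.closedBall (0 : Phase n) 1) := Eng_int (Eng_g_cont φ x s)

lemma Eng_gpint (φ : SympCt n) (x : Phase n) (s : ℝ) (k : ℕ) :
    IntegrableOn (fun z : Phase n => (s * Eng_f φ (x + s • z)) ^ k)
      (Metric.closedBall (0 : Phase n) 1) := Eng_int ((Eng_g_cont φ x s).pow k)

/-- The energy of a ball. -/
lemma Eng_energy (hn : n ≠ 0) (φ : SympCt n) {E : ℝ} (hE : ∫ y, Eng_f φ y ^ (2 * n) ≤ E)
    (x : Phase n) {s : ℝ} (hs : 0 < s) :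
    ∫ z in Metric.closedBall (0 : Phase n) 1, (s * Eng_f φ (x + s • z)) ^ (2 * n) ≤ E := by
  have h1 : ∀ z : Phase n, (s * Eng_f φ (x + s • z)) ^ (2 * n) =
      s ^ (2 * n) * (fun y => Eng_f φ y ^ (2 * n)) (x + s • z) := fun z => by
    rw [mul_pow]
  simp_rw [h1]
  rw [integral_const_mul, Eng_scale (fun y => Eng_f φ y ^ (2 * n)) x hs,
    mul_inv_cancel_left₀ (pow_pos hs _).ne']
  refine le_trans ?_ hE
  exact setIntegral_le_integral (integrable_energy φ (by omega))
    (Eventually.of_forall fun y => pow_nonneg (Eng_f_nonneg φ y) _)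

lemma Eng_mass (hn : n ≠ 0) (φ : SympCt n) (x : Phase n) {s : ℝ} (hs : 0 < s) :
    s ^ (2 * n - 1) * ∫ z in Metric.closedBall (0 : Phase n) 1, s * Eng_f φ (x + s • z) =
      ∫ y in Metric.closedBall x s, Eng_f φ y := by
  rw [integral_const_mul, Eng_scale (Eng_f φ) x hs]
  obtain ⟨k, hk⟩ : ∃ k, 2 * n = k + 1 := ⟨2 * n - 1, by omega⟩
  rw [hk, Nat.add_sub_cancel, pow_succ]
  field_simp

lemma Eng_le4 (hn : 2 ≤ n) {g : ℝ} (hg : 0 ≤ g) : g ^ 4 ≤ 1 + g ^ (2 * n) := by
  rcases le_total g 1 with h | h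
  · have h1 : g ^ 4 ≤ 1 := pow_le_one₀ hg h
    have h2 : 0 ≤ g ^ (2 * n) := pow_nonneg hg _
    linarith
  · have h1 : g ^ 4 ≤ g ^ (2 * n) := pow_le_pow_right₀ h (by omega)
    linarith

lemma Eng_le2 (hn : n ≠ 0) {g lam : ℝ} (hl : 0 < lam) :
    g ^ 2 ≤ lam + lam * (1 / lam) ^ n * g ^ (2 * n) := by
  have h0 : lam * (1 / lam) ^ n * g ^ (2 * n) = lam * (g ^ 2 / lam) ^ n := by
    rw [pow_mul, div_eq_mul_inv (g ^ 2), mul_pow, one_div]
    ring
  rw [h0]
  have h1 : 0 ≤ g ^ 2 / lam := by positivity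
  rcases le_total (g ^ 2) lam with h | h
  · have h2 : 0 ≤ lam * (g ^ 2 / lam) ^ n := by positivity
    linarith
  · have h2 : 1 ≤ g ^ 2 / lam := by rwa [le_div_iff₀ hl, one_mul]
    have h3 : g ^ 2 / lam ≤ (g ^ 2 / lam) ^ n := le_self_pow₀ h2 hn
    have h4 : g ^ 2 = lam * (g ^ 2 / lam) := by field_simp
    have h5 := mul_le_mul_of_nonneg_left h3 hl.le
    linarith

lemma Eng_le1 (hn : 2 ≤ n) {g lam : ℝ} (hg : 0 ≤ g) (hl : 1 ≤ lam) :
    g ^ 2 ≤ lam * g + 1 / lam * g ^ (2 * n) := by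
  have hl0 : 0 < lam := by linarith
  rcases le_total g lam with h | h
  · have h2 : 0 ≤ 1 / lam * g ^ (2 * n) := by positivity
    nlinarith
  · have hg1 : 1 ≤ g := hl.trans h
    have h2 : 0 ≤ lam * g := by positivity
    have h3 : g ^ 3 ≤ g ^ (2 * n) := pow_le_pow_right₀ hg1 (by omega)
    have h4 : g ^ 2 ≤ 1 / lam * g ^ 3 := by
      rw [one_div, inv_mul_eq_div, le_div_iff₀ hl0]
      nlinarith [sq_nonneg g]
    have h5 : 1 / lam * g ^ 3 ≤ 1 / lam * g ^ (2 * n) :=
      mul_le_mul_of_nonneg_left h3 (by positivity)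
    linarith

/-- Packing bound. -/
lemma Eng_pack (hn : 2 ≤ n) {C : ℝ} (hC0 : 0 < C)
    (hC : ∀ φ : SympCt n, ∀ x s, 0 < s → osc 2 (φ : Equiv.Perm (Phase n)) x s ≤
      ENNReal.ofReal (C * ∫ z in Metric.closedBall (0 : Phase n) 1,
        (s * Eng_f φ (x + s • z)) ^ 2)) (E : ℝ) (ε : ℝ) (hε : 0 < ε) :
    ∃ (N : ℕ) (δ : ℝ), 0 < δ ∧ δ ≤ 1 ∧ ∀ φ : SympCt n, ∫ y, Eng_f φ y ^ (2 * n) ≤ E →
      ∀ bs : List (Phase n × ℝ),
        (∀ b ∈ bs, 0 < b.2 ∧ ENNReal.ofReal ε ≤ osc 2 (φ : Equiv.Perm (Phase n)) b.1 b.2) →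
        bs.Pairwise (fun a b => ¬Related δ a b) → bs.length ≤ N := by
  have hn0 : n ≠ 0 := by omega
  obtain ⟨E', hE'⟩ : ∃ E', E' = max E 0 := ⟨_, rfl⟩
  have hE'0 : 0 ≤ E' := by rw [hE']; exact le_max_right _ _
  have hEE' : E ≤ E' := by rw [hE']; exact le_max_left _ _
  obtain ⟨lam, hlam⟩ : ∃ lam : ℝ, lam = max 1 (2 * C * E' / ε) := ⟨_, rfl⟩
  have hlam1 : 1 ≤ lam := by rw [hlam]; exact le_max_left _ _
  have hlam0 : 0 < lam := by linarith
  have hlam2 : 2 * C * E' / ε ≤ lam := by rw [hlam]; exact le_max_right _ _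
  have hlam3 : C * (1 / lam * E') ≤ ε / 2 := by
    rw [div_le_iff₀ hε] at hlam2
    have h1 : C * (1 / lam * E') = C * E' / lam := by ring
    rw [h1, div_le_iff₀ hlam0]
    linarith
  obtain ⟨a, haa⟩ : ∃ a, a = ε / (2 * C * lam) := ⟨_, rfl⟩
  have ha : 0 < a := by rw [haa]; positivity
  have hv : 0 < ballVol n := ballVol_pos n
  obtain ⟨e₀, he₀⟩ : ∃ e₀, e₀ = (a / 2) ^ (2 * n) / ballVol n ^ (2 * n - 1) := ⟨_, rfl⟩
  have he₀0 : 0 < e₀ := by rw [he₀]; positivity
  obtain ⟨N, hN⟩ := exists_nat_gt (E' / e₀)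
  have hN' : E' < ((N + 1 : ℕ) : ℝ) * e₀ := by
    rw [div_lt_iff₀ he₀0] at hN
    push_cast
    nlinarith
  obtain ⟨δ, hδ0, hδ1, hδ⟩ : ∃ δ : ℝ, 0 < δ ∧ δ ≤ 1 ∧
      (N * (δ ^ (2 * n) * ballVol n)) ^ (2 * n - 1) * E' ≤ (a / 2) ^ (2 * n) := by
    have hc : Continuous (fun δ : ℝ => (N * (δ ^ (2 * n) * ballVol n)) ^ (2 * n - 1) * E') := by
      fun_prop
    have h0 : (N * ((0 : ℝ) ^ (2 * n) * ballVol n)) ^ (2 * n - 1) * E' < (a / 2) ^ (2 * n) := by
      rw [zero_pow (by omega), zero_mul, mul_zero, zero_pow (by omega), zero_mul]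
      positivity
    have h1 := (hc.tendsto 0).eventually (gt_mem_nhds h0)
    obtain ⟨d, hd, h2⟩ := Metric.eventually_nhds_iff.1 h1
    refine ⟨min (d / 2) 1, by positivity, min_le_right _ _, (h2 ?_).le⟩
    rw [Real.dist_eq, sub_zero, abs_of_pos (by positivity)]
    have := min_le_left (d / 2) 1
    linarith
  refine ⟨N, δ, hδ0, hδ1, fun φ hE bs hbad hun => ?_⟩
  have hmass : ∀ (x : Phase n) (s : ℝ), 0 < s →
      ENNReal.ofReal ε ≤ osc 2 (φ : Equiv.Perm (Phase n)) x s →
      a * s ^ (2 * n - 1) ≤ ∫ y in Metric.closedBall x s, Eng_f φ y := by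
    intro x s hs hos
    have h1 := hos.trans (hC φ x s hs)
    have h2 : ε ≤ C * ∫ z in Metric.closedBall (0 : Phase n) 1,
        (s * Eng_f φ (x + s • z)) ^ 2 := by
      by_contra hcon
      push Not at hcon
      exact absurd h1 (not_le.2 ((ENNReal.ofReal_lt_ofReal_iff hε).2 hcon))
    have h3 : ∫ z in Metric.closedBall (0 : Phase n) 1, (s * Eng_f φ (x + s • z)) ^ 2 ≤
        lam * (∫ z in Metric.closedBall (0 : Phase n) 1, s * Eng_f φ (x + s • z)) +
          1 / lam * ∫ z in Metric.closedBall (0 : Phase n) 1,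
            (s * Eng_f φ (x + s • z)) ^ (2 * n) := by
      rw [← integral_const_mul, ← integral_const_mul, ← integral_add
        ((Eng_gint φ x s).const_mul lam) ((Eng_gpint φ x s (2 * n)).const_mul (1 / lam))]
      apply setIntegral_mono (Eng_gpint φ x s 2)
        (((Eng_gint φ x s).const_mul lam).add ((Eng_gpint φ x s (2 * n)).const_mul (1 / lam)))
      intro z
      exact Eng_le1 hn (mul_nonneg hs.le (Eng_f_nonneg φ _)) hlam1
    have h4 := Eng_energy hn0 φ hE x hs
    have h5 : 1 / lam * ∫ z in Metric.closedBall (0 : Phase n) 1,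
        (s * Eng_f φ (x + s • z)) ^ (2 * n) ≤ 1 / lam * E' :=
      mul_le_mul_of_nonneg_left (h4.trans hEE') (by positivity)
    obtain ⟨I, hI⟩ : ∃ I, I = ∫ z in Metric.closedBall (0 : Phase n) 1,
        s * Eng_f φ (x + s • z) := ⟨_, rfl⟩
    rw [← hI] at h3
    have h6 : ε / 2 ≤ C * (lam * I) := by
      have h7 := mul_le_mul_of_nonneg_left (h3.trans (add_le_add_right h5 _)) hC0.le
      rw [mul_add] at h7
      linarith
    have h8 : a ≤ I := by
      rw [haa, div_le_iff₀ (by positivity)]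
      linarith
    rw [← Eng_mass hn0 φ x hs, ← hI, mul_comm]
    exact mul_le_mul_of_nonneg_left h8 (by positivity)
  have hfE : ∀ S : Set (Phase n), IsCompact S → ∫ x in S, Eng_f φ x ^ (2 * n) ≤ E' := by
    intro S _
    refine le_trans ?_ (hE.trans hEE')
    exact setIntegral_le_integral (integrable_energy φ (by omega))
      (Eventually.of_forall fun x => pow_nonneg (Eng_f_nonneg φ x) _)
  by_contra hcon
  push Not at hcon
  obtain ⟨bs', hbs'⟩ : ∃ bs', bs' = bs.mergeSort (fun a b => decide (b.2 ≤ a.2)) := ⟨_, rfl⟩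
  have hperm : bs'.Perm bs := by
    rw [hbs']
    exact List.mergeSort_perm _ _
  have hsort : bs'.Pairwise (fun a b => b.2 ≤ a.2) := by
    have h1 := List.pairwise_mergeSort (le := fun a b : Phase n × ℝ => decide (b.2 ≤ a.2))
      (fun a b c => by simpa using fun h1 h2 => le_trans h2 h1)
      (fun a b => by simpa using le_total b.2 a.2) bs
    rw [hbs']
    simpa using h1
  have hun' : bs'.Pairwise (fun a b => ¬Related δ a b) :=
    (hperm.pairwise_iff (fun {a b} h h' => h h'.symm)).2 hun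
  have hbad' : ∀ b ∈ bs', 0 < b.2 ∧
      ENNReal.ofReal ε ≤ osc 2 (φ : Equiv.Perm (Phase n)) b.1 b.2 := fun b hb =>
    hbad b (hperm.mem_iff.1 hb)
  have hlen' : (bs'.take (N + 1)).length = N + 1 := by
    rw [List.length_take, hperm.length_eq]
    omega
  have hsub : (bs'.take (N + 1)).Sublist bs' := List.take_sublist _ _
  have h1 := energy_unrelated hn0 (Eng_f_cont φ) (Eng_f_nonneg φ) ha hδ0 hδ1 hfE hδ
    (bs := bs'.take (N + 1)) (by rw [hlen'])
    (fun b hb => (hbad' b (hsub.subset hb)).1)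
    (fun b hb => hmass b.1 b.2 (hbad' b (hsub.subset hb)).1 (hbad' b (hsub.subset hb)).2)
    (hsort.sublist hsub) (hun'.sublist hsub)
  rw [hlen', ← he₀] at h1
  have h2 := hfE _ (isCompact_unionBalls (bs'.take (N + 1)))
  linarith

theorem thm_Eng (n : ℕ) (h1 : St_Poi n) : St_Eng n := by
  intro hn
  have hn0 : n ≠ 0 := by omega
  obtain ⟨C₁, hC₁, hP⟩ := h1
  obtain ⟨C, hCC⟩ : ∃ C, C = C₁ + 1 := ⟨_, rfl⟩
  have hC0 : 0 < C := by rw [hCC]; linarith
  have hP4 : ∀ φ : SympCt n, ∀ x s, 0 < s → osc 4 (φ : Equiv.Perm (Phase n)) x s ≤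
      ENNReal.ofReal (C * ∫ z in Metric.closedBall (0 : Phase n) 1,
        (s * Eng_f φ (x + s • z)) ^ 4) := by
    intro φ x s hs
    refine ((hP φ (SympCt.contDiff φ) x s hs).1).trans (ENNReal.ofReal_le_ofReal ?_)
    apply mul_le_mul_of_nonneg_right (by rw [hCC]; linarith)
    exact integral_nonneg fun z => by positivity
  have hP2 : ∀ φ : SympCt n, ∀ x s, 0 < s → osc 2 (φ : Equiv.Perm (Phase n)) x s ≤
      ENNReal.ofReal (C * ∫ z in Metric.closedBall (0 : Phase n) 1,
        (s * Eng_f φ (x + s • z)) ^ 2) := by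
    intro φ x s hs
    refine ((hP φ (SympCt.contDiff φ) x s hs).2).trans (ENNReal.ofReal_le_ofReal ?_)
    apply mul_le_mul_of_nonneg_right (by rw [hCC]; linarith)
    exact integral_nonneg fun z => by positivity
  obtain ⟨v, hv⟩ : ∃ v : ℝ, v = ∫ z in Metric.closedBall (0 : Phase n) 1, (1 : ℝ) := ⟨_, rfl⟩
  have hv0 : 0 ≤ v := by
    rw [hv]
    exact integral_nonneg fun _ => zero_le_one
  have hone : IntegrableOn (fun _ : Phase n => (1 : ℝ)) (Metric.closedBall (0 : Phase n) 1) :=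
    Eng_int continuous_const
  refine ⟨fun E => ?_, fun ε hε => ?_⟩
  · have key := Eng_pack hn hC0 hP2 E
    choose! N δ hδ0 hδ1 hN using key
    refine ⟨C * (v + E), N, δ, fun ε hε => ⟨hδ0 ε hε, hδ1 ε hε⟩, fun φ hE => ⟨?_, ?_⟩⟩
    · intro x s hs
      refine (hP4 φ x s hs).trans (ENNReal.ofReal_le_ofReal
        (mul_le_mul_of_nonneg_left ?_ hC0.le))
      have h3 : ∫ z in Metric.closedBall (0 : Phase n) 1, (s * Eng_f φ (x + s • z)) ^ 4 ≤
          v + ∫ z in Metric.closedBall (0 : Phase n) 1,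
            (s * Eng_f φ (x + s • z)) ^ (2 * n) := by
        rw [hv, ← integral_add hone (Eng_gpint φ x s (2 * n))]
        apply setIntegral_mono (Eng_gpint φ x s 4) (hone.add (Eng_gpint φ x s (2 * n)))
        intro z
        exact Eng_le4 hn (mul_nonneg hs.le (Eng_f_nonneg φ _))
      exact h3.trans (add_le_add_right (Eng_energy hn0 φ hE x hs) _)
    · intro ε hε bs hbs hun
      exact hN ε hε φ hE bs hbs hun
  · obtain ⟨lam, hlam⟩ : ∃ lam, lam = ε / (2 * (C * v + 1)) := ⟨_, rfl⟩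
    have hCv : 0 ≤ C * v := mul_nonneg hC0.le hv0
    have hlam0 : 0 < lam := by rw [hlam]; positivity
    obtain ⟨κ, hκ⟩ : ∃ κ, κ = lam * (1 / lam) ^ n := ⟨_, rfl⟩
    have hκ0 : 0 < κ := by rw [hκ]; positivity
    refine ⟨ε / (2 * (C * κ + 1)), by positivity, fun φ hE x s hs => ?_⟩
    refine (hP2 φ x s hs).trans (ENNReal.ofReal_le_ofReal ?_)
    have h3 : ∫ z in Metric.closedBall (0 : Phase n) 1, (s * Eng_f φ (x + s • z)) ^ 2 ≤
        lam * v + κ * ∫ z in Metric.closedBall (0 : Phase n) 1,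
          (s * Eng_f φ (x + s • z)) ^ (2 * n) := by
      rw [hv, ← integral_const_mul, ← integral_const_mul, ← integral_add
        (hone.const_mul lam) ((Eng_gpint φ x s (2 * n)).const_mul κ)]
      apply setIntegral_mono (Eng_gpint φ x s 2)
        ((hone.const_mul lam).add ((Eng_gpint φ x s (2 * n)).const_mul κ))
      intro z
      show (s * Eng_f φ (x + s • z)) ^ 2 ≤ lam * 1 + κ * (s * Eng_f φ (x + s • z)) ^ (2 * n)
      rw [mul_one, hκ]
      exact Eng_le2 hn0 hlam0
    have h4 := Eng_energy hn0 φ hE x hs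
    have h5 := mul_le_mul_of_nonneg_left h4 hκ0.le
    have h6 := mul_le_mul_of_nonneg_left (h3.trans (add_le_add_right h5 _)) hC0.le
    refine h6.trans ?_
    have h7 : C * (lam * v) ≤ ε / 2 := by
      have h8 : C * (lam * v) = ε / 2 * (C * v / (C * v + 1)) := by
        rw [hlam]
        field_simp
      rw [h8]
      have h9 : C * v / (C * v + 1) ≤ 1 := by
        rw [div_le_one (by linarith)]
        linarith
      nlinarith
    have h10 : C * (κ * (ε / (2 * (C * κ + 1)))) ≤ ε / 2 := by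
      have hCκ : 0 < C * κ := by positivity
      have h8 : C * (κ * (ε / (2 * (C * κ + 1)))) = ε / 2 * (C * κ / (C * κ + 1)) := by
        field_simp
      rw [h8]
      have h9 : C * κ / (C * κ + 1) ≤ 1 := by
        rw [div_le_one (by linarith)]
        linarith
      nlinarith
    rw [mul_add]
    linarith

end Pool.Agent.CEF
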