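import Pool.Agent.CEF.Defs

/-!
# CEF, [FrF]: the fractional energies are finite
-/

set_option autoImplicit false
set_option maxSynthPendingDepth 3

open scoped ContDiff Topology ENNReal
open Set Function Filter MeasureTheory

namespace Pool.Agent.CEF

open Pool.Agent.Helper17

/-- the radial profile -/
private noncomputable def FrF_f (n : ℕ) (p C : ℝ) (y : ℝ) : ℝ :=
  (C * min y 1) ^ p / y ^ (4 * n)

private theorem FrF_radial {n : ℕ} (hn : n ≠ 0) {p : ℝ} (hp : 2 * n < p) {C : ℝ} (hC : 0 ≤ C) :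
    IntegrableOn (fun y : ℝ => y ^ (2 * n - 1) • FrF_f n p C y) (Ioi 0) := by
  have hn1 : 1 ≤ n := Nat.one_le_iff_ne_zero.2 hn
  have hp0 : 0 < p := by
    have : (0 : ℝ) ≤ 2 * n := by positivity
    linarith
  rw [← Ioc_union_Ioi_eq_Ioi (zero_le_one (α := ℝ)), integrableOn_union]
  constructor
  · have h1 : IntegrableOn (fun y : ℝ => C ^ p * y ^ (p - 2 * n - 1)) (Ioc 0 1) := by
      refine Integrable.const_mul ?_ _
      have := intervalIntegral.intervalIntegrable_rpow' (a := 0) (b := 1)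
        (r := p - 2 * n - 1) (by linarith)
      rwa [intervalIntegrable_iff_integrableOn_Ioc_of_le zero_le_one] at this
    refine h1.congr_fun (fun y hy => ?_) measurableSet_Ioc
    have hy0 : 0 < y := hy.1
    change C ^ p * y ^ (p - 2 * n - 1) = y ^ (2 * n - 1) * ((C * min y 1) ^ p / y ^ (4 * n))
    rw [min_eq_left hy.2, Real.mul_rpow hC hy0.le, ← Real.rpow_natCast y (2 * n - 1),
      ← Real.rpow_natCast y (4 * n)]
    have e : p - 2 * n - 1 = ((2 * n - 1 : ℕ) : ℝ) + (p - ((4 * n : ℕ) : ℝ)) := by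
      rw [Nat.cast_sub (by omega)]
      push_cast
      ring
    rw [e, Real.rpow_add hy0, Real.rpow_sub hy0]
    ring
  · have h1 : IntegrableOn (fun y : ℝ => C ^ p * y ^ (-(2 * n : ℝ) - 1)) (Ioi 1) := by
      refine Integrable.const_mul ?_ _
      refine integrableOn_Ioi_rpow_of_lt ?_ one_pos
      have : (0 : ℝ) < 2 * n := by positivity
      linarith
    refine h1.congr_fun (fun y hy => ?_) measurableSet_Ioi
    have hy1 : 1 < y := hy
    have hy0 : 0 < y := by linarith
    change C ^ p * y ^ (-(2 * n : ℝ) - 1) = y ^ (2 * n - 1) * ((C * min y 1) ^ p / y ^ (4 * n))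
    rw [min_eq_right hy1.le, mul_one, ← Real.rpow_natCast y (2 * n - 1),
      ← Real.rpow_natCast y (4 * n)]
    have e : -(2 * n : ℝ) - 1 = ((2 * n - 1 : ℕ) : ℝ) - ((4 * n : ℕ) : ℝ) := by
      rw [Nat.cast_sub (by omega)]
      push_cast
      ring
    rw [e, Real.rpow_sub hy0]
    ring

private theorem FrF_int {n : ℕ} (hn : n ≠ 0) {p : ℝ} (hp : 2 * n < p) {C : ℝ} (hC : 0 ≤ C) :
    ∫⁻ h : Phase n, ENNReal.ofReal (FrF_f n p C ‖h‖) < ⊤ := by
  have hdim : Module.finrank ℝ (Phase n) = 2 * n := by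
    rw [finrank_euclideanSpace, Fintype.card_sum, Fintype.card_fin]
    ring
  have : Nontrivial (Phase n) := by
    apply Module.nontrivial_of_finrank_pos (R := ℝ)
    rw [hdim]
    omega
  have h1 : Integrable (fun h : Phase n => FrF_f n p C ‖h‖) := by
    rw [integrable_fun_norm_addHaar, hdim]
    exact FrF_radial hn hp hC
  exact h1.lintegral_lt_top

private theorem FrF_meas (n : ℕ) (p C : ℝ) :
    Measurable (fun h : Phase n => ENNReal.ofReal (FrF_f n p C ‖h‖)) := by
  unfold FrF_f
  fun_prop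

/-- the derivative minus the identity has compact support, is Lipschitz and bounded -/
private theorem FrF_der {n : ℕ} (φ : SympCt n) : ∃ (R C : ℝ), 0 ≤ C ∧
    (∀ x, R < ‖x‖ → fderiv ℝ (φ : Equiv.Perm (Phase n)) x = 1) ∧
    ∀ x y, ‖fderiv ℝ (φ : Equiv.Perm (Phase n)) x - fderiv ℝ (φ : Equiv.Perm (Phase n)) y‖ ≤
      C * min ‖x - y‖ 1 := by
  obtain ⟨hφ, -, -, K, hK, hφK⟩ := φ.2
  obtain ⟨R, hR⟩ := hK.isBounded.subset_closedBall (0 : Phase n)
  have h1 : ∀ x, R < ‖x‖ → fderiv ℝ (φ : Equiv.Perm (Phase n)) x = 1 := by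
    intro x hx
    have hU : {y : Phase n | R < ‖y‖} ∈ 𝓝 x := (isOpen_lt continuous_const continuous_norm).mem_nhds hx
    have h2 : ((φ : Equiv.Perm (Phase n)) : Phase n → Phase n) =ᶠ[𝓝 x] id := by
      filter_upwards [hU] with y hy
      refine hφK y fun hyK => ?_
      have := hR hyK
      rw [mem_closedBall_zero_iff] at this
      exact absurd hy (not_lt.2 this)
    rw [h2.fderiv_eq, fderiv_id]
    rfl
  let f : Phase n → (Phase n →L[ℝ] Phase n) := fun x => fderiv ℝ (φ : Equiv.Perm (Phase n)) x - 1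
  have hf : ContDiff ℝ 1 f := by
    have h2 : ContDiff ℝ 1 (fderiv ℝ (φ : Equiv.Perm (Phase n))) :=
      hφ.fderiv_right (m := 1) (by norm_cast)
    exact h2.sub contDiff_const
  have hs : HasCompactSupport f := by
    refine HasCompactSupport.intro (isCompact_closedBall (0 : Phase n) R) fun x hx => ?_
    rw [mem_closedBall_zero_iff, not_le] at hx
    change fderiv ℝ (φ : Equiv.Perm (Phase n)) x - 1 = 0
    rw [h1 x hx, sub_self]
  obtain ⟨C₁, hC₁⟩ := hf.lipschitzWith_of_hasCompactSupport hs one_ne_zero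
  obtain ⟨C₂, hC₂⟩ := hs.exists_bound_of_continuous hf.continuous
  have hC₂0 : 0 ≤ C₂ := (norm_nonneg _).trans (hC₂ 0)
  refine ⟨R, max C₁ (2 * C₂), le_max_of_le_left C₁.2, h1, fun x y => ?_⟩
  have h3 : fderiv ℝ (φ : Equiv.Perm (Phase n)) x - fderiv ℝ (φ : Equiv.Perm (Phase n)) y =
      f x - f y := (sub_sub_sub_cancel_right _ _ _).symm
  rw [h3]
  rcases le_total ‖x - y‖ 1 with h4 | h4
  · rw [min_eq_left h4]
    have h5 := hC₁.dist_le_mul x y
    rw [dist_eq_norm, dist_eq_norm] at h5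
    exact h5.trans (mul_le_mul_of_nonneg_right (le_max_left _ _) (norm_nonneg _))
  · rw [min_eq_right h4, mul_one]
    refine (norm_sub_le _ _).trans (le_trans ?_ (le_max_right _ _))
    have h5 := hC₂ x
    have h6 := hC₂ y
    linarith

/-- Tonelli -/
private theorem FrF_tonelli {n : ℕ} {G : Phase n → ℝ≥0∞} (hG : Measurable G)
    (hI : ∫⁻ h, G h < ⊤) {B : Set (Phase n)} (hB : MeasurableSet B) (hvol : volume B < ⊤)
    {F : Phase n → Phase n → ℝ≥0∞} (hbound : ∀ x y : Phase n, F x y ≤
      B.indicator (fun _ => G (y - x)) x + B.indicator (fun _ => G (y - x)) y) :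
    ∫⁻ x, ∫⁻ y, F x y < ⊤ := by
  have hm1 : Measurable (fun q : Phase n × Phase n => G (q.2 - q.1)) :=
    hG.comp (measurable_snd.sub measurable_fst)
  have hm2 : Measurable (fun q : Phase n × Phase n =>
      B.indicator (fun _ => G (q.2 - q.1)) q.2) := by
    have h3 : (fun q : Phase n × Phase n => B.indicator (fun _ => G (q.2 - q.1)) q.2) =
        (Prod.snd ⁻¹' B).indicator (fun q : Phase n × Phase n => G (q.2 - q.1)) := by
      funext q
      by_cases hq : q.2 ∈ B
      · rw [indicator_of_mem hq, indicator_of_mem (show q ∈ Prod.snd ⁻¹' B from hq)]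
      · rw [indicator_of_notMem hq, indicator_of_notMem (show q ∉ Prod.snd ⁻¹' B from hq)]
    rw [h3]
    exact hm1.indicator (measurable_snd hB)
  have hS1 : ∫⁻ x, ∫⁻ y, B.indicator (fun _ => G (y - x)) x = (∫⁻ h, G h) * volume B := by
    have h3 : ∀ x, ∫⁻ y, B.indicator (fun _ => G (y - x)) x =
        B.indicator (fun _ => ∫⁻ h, G h) x := by
      intro x
      by_cases hx : x ∈ B
      · simp only [indicator_of_mem hx]
        exact lintegral_sub_right_eq_self G x
      · simp only [indicator_of_notMem hx, lintegral_zero]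
    simp only [h3]
    rw [lintegral_indicator_const hB]
  have hS2 : ∫⁻ x, ∫⁻ y, B.indicator (fun _ => G (y - x)) y = (∫⁻ h, G h) * volume B := by
    rw [lintegral_lintegral_swap hm2.aemeasurable]
    have h3 : ∀ y, ∫⁻ x, B.indicator (fun _ => G (y - x)) y =
        B.indicator (fun _ => ∫⁻ h, G h) y := by
      intro y
      by_cases hy : y ∈ B
      · simp only [indicator_of_mem hy]
        exact lintegral_sub_left_eq_self G y
      · simp only [indicator_of_notMem hy, lintegral_zero]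
    simp only [h3]
    rw [lintegral_indicator_const hB]
  have hfin : (∫⁻ h, G h) * volume B < ⊤ := ENNReal.mul_lt_top hI hvol
  calc ∫⁻ x, ∫⁻ y, F x y
      ≤ ∫⁻ x, ∫⁻ y, (B.indicator (fun _ => G (y - x)) x + B.indicator (fun _ => G (y - x)) y) :=
        lintegral_mono fun x => lintegral_mono fun y => hbound x y
    _ = ∫⁻ x, ((∫⁻ y, B.indicator (fun _ => G (y - x)) x) +
          ∫⁻ y, B.indicator (fun _ => G (y - x)) y) := by
        refine lintegral_congr fun x => ?_
        refine lintegral_add_right _ ?_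
        exact hm2.comp measurable_prodMk_left
    _ = (∫⁻ x, ∫⁻ y, B.indicator (fun _ => G (y - x)) x) +
          ∫⁻ x, ∫⁻ y, B.indicator (fun _ => G (y - x)) y := by
        refine lintegral_add_right _ ?_
        exact hm2.lintegral_prod_right
    _ < ⊤ := by
        rw [hS1, hS2]
        exact ENNReal.add_lt_top.2 ⟨hfin, hfin⟩

/-- the pointwise bound -/
private theorem FrF_bound {n : ℕ} {p R C : ℝ} (hp0 : 0 < p) (hC : 0 ≤ C)
    {A : Phase n → (Phase n →L[ℝ] Phase n)} (h1 : ∀ x, R < ‖x‖ → A x = 1)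
    (h2 : ∀ x y, ‖A x - A y‖ ≤ C * min ‖x - y‖ 1) (x y : Phase n) :
    ‖A x - A y‖ₑ ^ p / ‖x - y‖ₑ ^ (4 * n) ≤
      (Metric.closedBall (0 : Phase n) R).indicator
        (fun _ => ENNReal.ofReal (FrF_f n p C ‖y - x‖)) x +
      (Metric.closedBall (0 : Phase n) R).indicator
        (fun _ => ENNReal.ofReal (FrF_f n p C ‖y - x‖)) y := by
  rcases eq_or_ne x y with rfl | hxy
  · rw [sub_self, enorm_zero, ENNReal.zero_rpow_of_pos hp0, ENNReal.zero_div]
    exact zero_le
  · have hh : 0 < ‖x - y‖ := norm_pos_iff.2 (sub_ne_zero.2 hxy)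
    have h3 : ‖A x - A y‖ₑ ^ p / ‖x - y‖ₑ ^ (4 * n) ≤
        ENNReal.ofReal (FrF_f n p C ‖y - x‖) := by
      unfold FrF_f
      rw [norm_sub_rev y x, ENNReal.ofReal_div_of_pos (pow_pos hh _),
        ENNReal.ofReal_pow hh.le, ofReal_norm]
      refine ENNReal.div_le_div_right ?_ _
      have h4 : 0 ≤ C * min ‖x - y‖ 1 := mul_nonneg hC (le_min hh.le zero_le_one)
      rw [← ENNReal.ofReal_rpow_of_nonneg h4 hp0.le]
      refine ENNReal.rpow_le_rpow ?_ hp0.le
      rw [← ofReal_norm]
      exact ENNReal.ofReal_le_ofReal (h2 x y)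
    by_cases hx : x ∈ Metric.closedBall (0 : Phase n) R
    · rw [indicator_of_mem hx]
      exact h3.trans le_self_add
    · by_cases hy : y ∈ Metric.closedBall (0 : Phase n) R
      · rw [indicator_of_mem hy]
        exact h3.trans le_add_self
      · have hx' : R < ‖x‖ := by
          rw [mem_closedBall_zero_iff, not_le] at hx
          exact hx
        have hy' : R < ‖y‖ := by
          rw [mem_closedBall_zero_iff, not_le] at hy
          exact hy
        have h4 : A x - A y = 0 := by rw [h1 x hx', h1 y hy', sub_self]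
        rw [h4, enorm_zero, ENNReal.zero_rpow_of_pos hp0, ENNReal.zero_div]
        exact zero_le

/-- [FrF] The fractional energies are finite. -/
theorem thm_FrF (n : ℕ) : St_FrF n := by
  intro hn p hp φ
  have hp0 : 0 < p := by
    have : (0 : ℝ) ≤ 2 * n := by positivity
    linarith
  obtain ⟨R, C, hC, h1, h2⟩ := FrF_der φ
  exact FrF_tonelli (FrF_meas n p C) (FrF_int hn hp hC)
    (measurableSet_closedBall (x := (0 : Phase n)) (ε := R)) measure_closedBall_lt_top
    (FrF_bound hp0 hC h1 h2)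

end Pool.Agent.CEF
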