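import Pool.Agent.CEF.Defs

set_option autoImplicit false
set_option maxSynthPendingDepth 3

open scoped ContDiff Topology ENNReal
open Set Function Filter MeasureTheory

/-!
# CEF [Frc]: the fractional critical energies control the map
-/

namespace Pool.Agent.CEF

open Pool.Agent.Helper17

section

variable {n : ℕ}

/-- pairs of points of the unit ball at distance more than `d` -/
def Frc_S (n : ℕ) (d : ℝ) : Set (Phase n × Phase n) :=
  {p | ‖p.1‖ ≤ 1 ∧ ‖p.2‖ ≤ 1 ∧ d < ‖p.1 - p.2‖}

/-- the same for the ball `B(x, s)` -/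
def Frc_U (x : Phase n) (s d : ℝ) : Set (Phase n × Phase n) :=
  {q | ‖q.1 - x‖ ≤ s ∧ ‖q.2 - x‖ ≤ s ∧ d * s < ‖q.1 - q.2‖}

/-- the density of the fractional energy -/
noncomputable def Frc_G (p : ℝ) (A : Phase n → Phase n →L[ℝ] Phase n) (q : Phase n × Phase n) :
    ℝ≥0∞ := ‖A q.1 - A q.2‖ₑ ^ p / ‖q.1 - q.2‖ₑ ^ (4 * n)

theorem Frc_measS (d : ℝ) : MeasurableSet (Frc_S n d) := by
  have h1 : MeasurableSet {p : Phase n × Phase n | ‖p.1‖ ≤ 1} :=
    (isClosed_le (by fun_prop) continuous_const).measurableSet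
  have h2 : MeasurableSet {p : Phase n × Phase n | ‖p.2‖ ≤ 1} :=
    (isClosed_le (by fun_prop) continuous_const).measurableSet
  have h3 : MeasurableSet {p : Phase n × Phase n | d < ‖p.1 - p.2‖} :=
    (isOpen_lt continuous_const (by fun_prop)).measurableSet
  exact h1.inter (h2.inter h3)

theorem Frc_measU (x : Phase n) (s d : ℝ) : MeasurableSet (Frc_U x s d) := by
  have h1 : MeasurableSet {p : Phase n × Phase n | ‖p.1 - x‖ ≤ s} :=
    (isClosed_le (by fun_prop) continuous_const).measurableSet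
  have h2 : MeasurableSet {p : Phase n × Phase n | ‖p.2 - x‖ ≤ s} :=
    (isClosed_le (by fun_prop) continuous_const).measurableSet
  have h3 : MeasurableSet {p : Phase n × Phase n | d * s < ‖p.1 - p.2‖} :=
    (isOpen_lt continuous_const (by fun_prop)).measurableSet
  exact h1.inter (h2.inter h3)

theorem Frc_measG (p : ℝ) {A : Phase n → Phase n →L[ℝ] Phase n} (hA : Continuous A) :
    Measurable (Frc_G p A) := by
  unfold Frc_G
  have h1 : Measurable fun q : Phase n × Phase n => ‖A q.1 - A q.2‖ₑ :=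
    (by fun_prop : Continuous fun q : Phase n × Phase n => A q.1 - A q.2).enorm.measurable
  have h2 : Measurable fun q : Phase n × Phase n => ‖q.1 - q.2‖ₑ :=
    (by fun_prop : Continuous fun q : Phase n × Phase n => q.1 - q.2).enorm.measurable
  exact (h1.pow_const p).div (h2.pow_const _)

/-- change of variables -/
theorem Frc_scale {F : Phase n × Phase n → ℝ≥0∞} (hF : Measurable F) (x : Phase n) {s : ℝ}
    (hs : 0 < s) (d : ℝ) :
    ENNReal.ofReal (s ^ (4 * n)) * ∫⁻ p in Frc_S n d, F (x + s • p.1, x + s • p.2) =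
      ∫⁻ q in Frc_U x s d, F q := by
  have hH : Measurable ((Frc_U x s d).indicator F) := hF.indicator (Frc_measU x s d)
  have e1 : ∫⁻ p in Frc_S n d, F (x + s • p.1, x + s • p.2) =
      ∫⁻ p : Phase n × Phase n, (Frc_U x s d).indicator F ((x, x) + s • p) := by
    rw [← lintegral_indicator (Frc_measS d)]
    apply lintegral_congr
    intro p
    have e2 : ((x, x) : Phase n × Phase n) + s • p = (x + s • p.1, x + s • p.2) := rfl
    rw [e2]
    have e3 : p ∈ Frc_S n d ↔ (x + s • p.1, x + s • p.2) ∈ Frc_U x s d := by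
      unfold Frc_S Frc_U
      simp only [mem_ofPred_eq, add_sub_cancel_left, add_sub_add_left_eq_sub]
      rw [← smul_sub, norm_smul, norm_smul, norm_smul, Real.norm_eq_abs, abs_of_pos hs]
      rw [mul_comm d s]
      constructor
      · rintro ⟨h1, h2, h3⟩
        exact ⟨by nlinarith, by nlinarith, by nlinarith⟩
      · rintro ⟨h1, h2, h3⟩
        exact ⟨le_of_mul_le_mul_left (by linarith) hs, le_of_mul_le_mul_left (by linarith) hs,
          lt_of_mul_lt_mul_left h3 hs.le⟩
    by_cases h : p ∈ Frc_S n d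
    · rw [indicator_of_mem h, indicator_of_mem (e3.1 h)]
    · rw [indicator_of_notMem h, indicator_of_notMem (fun h' => h (e3.2 h'))]
  have e4 : ∫⁻ p : Phase n × Phase n, (Frc_U x s d).indicator F ((x, x) + s • p) =
      ENNReal.ofReal ((s ^ (4 * n))⁻¹) * ∫⁻ q in Frc_U x s d, F q := by
    have hm : Measurable fun q : Phase n × Phase n =>
        (Frc_U x s d).indicator F ((x, x) + q) := hH.comp (measurable_const_add _)
    have hfr : Module.finrank ℝ (Phase n × Phase n) = 4 * n := by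
      rw [Module.finrank_prod, finrank_euclideanSpace, Fintype.card_sum, Fintype.card_fin]
      ring
    have hH : (volume : Measure (Phase n × Phase n)).IsAddHaarMeasure := by
      rw [Measure.volume_eq_prod]
      exact Measure.prod.instIsAddHaarMeasure _ _
    rw [← lintegral_map hm (measurable_const_smul s), Measure.map_addHaar_smul _ hs.ne',
      lintegral_smul_measure, lintegral_add_left_eq_self (fun q => (Frc_U x s d).indicator F q),
      lintegral_indicator (Frc_measU x s d), hfr, abs_of_pos (by positivity), smul_eq_mul]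
  rw [e1, e4, ← mul_assoc, ← ENNReal.ofReal_mul (by positivity),
    mul_inv_cancel₀ (by positivity), ENNReal.ofReal_one, one_mul]

/-- the `p`-th powers are controlled by the energy -/
theorem Frc_pw (hn : 2 ≤ n) {p : ℝ} (hp : 0 < p) {A : Phase n → Phase n →L[ℝ] Phase n}
    (hA : Continuous A) (x : Phase n) {s : ℝ} (hs : 0 < s) (d : ℝ) :
    ∫⁻ q in Frc_S n d, ‖A (x + s • q.1) - A (x + s • q.2)‖ₑ ^ p ≤
      ENNReal.ofReal (16 ^ n) * ∫⁻ q in Frc_U x s d, Frc_G p A q := by
  have e0 : (16 : ℝ) ^ n = 2 ^ (4 * n) := by rw [pow_mul]; norm_num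
  have h1 : ∀ q ∈ Frc_S n d, ‖A (x + s • q.1) - A (x + s • q.2)‖ₑ ^ p ≤
      ENNReal.ofReal ((2 * s) ^ (4 * n)) * Frc_G p A (x + s • q.1, x + s • q.2) := by
    intro q hq
    obtain ⟨h1, h2, -⟩ := hq
    unfold Frc_G
    by_cases h0 : q.1 = q.2
    · rw [h0, sub_self, enorm_zero, ENNReal.zero_rpow_of_pos hp]
      exact bot_le
    · have h3 : (x + s • q.1) - (x + s • q.2) = s • (q.1 - q.2) := by
        rw [add_sub_add_left_eq_sub, smul_sub]
      have h4 : ‖(x + s • q.1) - (x + s • q.2)‖ₑ ^ (4 * n) ≤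
          ENNReal.ofReal ((2 * s) ^ (4 * n)) := by
        rw [ENNReal.ofReal_pow (by positivity)]
        apply pow_le_pow_left'
        rw [h3, ← ofReal_norm, norm_smul, Real.norm_eq_abs, abs_of_pos hs]
        apply ENNReal.ofReal_le_ofReal
        have := norm_sub_le q.1 q.2
        nlinarith
      have h5 : ‖(x + s • q.1) - (x + s • q.2)‖ₑ ^ (4 * n) ≠ 0 := by
        apply pow_ne_zero
        rw [h3, enorm_ne_zero]
        exact smul_ne_zero hs.ne' (sub_ne_zero.mpr h0)
      have h6 : ‖(x + s • q.1) - (x + s • q.2)‖ₑ ^ (4 * n) ≠ ⊤ := by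
        apply ENNReal.pow_ne_top
        exact enorm_ne_top
      calc ‖A (x + s • q.1) - A (x + s • q.2)‖ₑ ^ p
          = ‖(x + s • q.1) - (x + s • q.2)‖ₑ ^ (4 * n) *
            (‖A (x + s • q.1) - A (x + s • q.2)‖ₑ ^ p /
              ‖(x + s • q.1) - (x + s • q.2)‖ₑ ^ (4 * n)) := by
            rw [ENNReal.mul_div_cancel h5 h6]
        _ ≤ _ := by gcongr
  have hG : Measurable fun q : Phase n × Phase n =>
      Frc_G p A (x + s • q.1, x + s • q.2) := (Frc_measG p hA).comp (by fun_prop)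
  calc ∫⁻ q in Frc_S n d, ‖A (x + s • q.1) - A (x + s • q.2)‖ₑ ^ p
      ≤ ∫⁻ q in Frc_S n d, ENNReal.ofReal ((2 * s) ^ (4 * n)) *
          Frc_G p A (x + s • q.1, x + s • q.2) := by
        apply setLIntegral_mono (hG.const_mul _)
        exact h1
    _ = ENNReal.ofReal ((2 * s) ^ (4 * n)) *
          ∫⁻ q in Frc_S n d, Frc_G p A (x + s • q.1, x + s • q.2) := by
        rw [lintegral_const_mul _ hG]
    _ = ENNReal.ofReal (16 ^ n) * (ENNReal.ofReal (s ^ (4 * n)) *
          ∫⁻ q in Frc_S n d, Frc_G p A (x + s • q.1, x + s • q.2)) := by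
        rw [mul_pow, ← e0, ENNReal.ofReal_mul (by positivity), mul_assoc]
    _ = _ := by rw [Frc_scale (Frc_measG p hA) x hs d]

theorem Frc_Sm (n : ℕ) : Frc_S n (-1) =
    Metric.closedBall (0 : Phase n) 1 ×ˢ Metric.closedBall (0 : Phase n) 1 := by
  ext q
  simp only [Frc_S, mem_ofPred_eq, mem_prod, mem_closedBall_zero_iff]
  constructor
  · rintro ⟨h1, h2, -⟩
    exact ⟨h1, h2⟩
  · rintro ⟨h1, h2⟩
    exact ⟨h1, h2, by linarith [norm_nonneg (q.1 - q.2)]⟩

theorem Frc_osc (k : ℕ) {φ : Phase n → Phase n} (hA : Continuous (fderiv ℝ φ)) (x : Phase n)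
    (s : ℝ) : osc k φ x s =
      ∫⁻ q in Frc_S n (-1), ‖fderiv ℝ φ (x + s • q.1) - fderiv ℝ φ (x + s • q.2)‖ₑ ^ k := by
  rw [Frc_Sm, Measure.volume_eq_prod, ← Measure.prod_restrict, lintegral_prod]
  · rfl
  · apply Measurable.aemeasurable
    exact (by fun_prop : Continuous fun q : Phase n × Phase n =>
      fderiv ℝ φ (x + s • q.1) - fderiv ℝ φ (x + s • q.2)).enorm.measurable.pow_const k

theorem Frc_energy (p : ℝ) {φ : Phase n → Phase n} (hA : Continuous (fderiv ℝ φ)) :
    fracEnergy p φ = ∫⁻ q, Frc_G p (fderiv ℝ φ) q := by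
  rw [Measure.volume_eq_prod, lintegral_prod _ (Frc_measG p hA).aemeasurable]
  rfl

/-- the volume of the unit ball -/
noncomputable def Frc_v (n : ℕ) : ℝ := (volume (Metric.closedBall (0 : Phase n) 1)).toReal

theorem Frc_v_eq (n : ℕ) : volume (Metric.closedBall (0 : Phase n) 1) = ENNReal.ofReal (Frc_v n) :=
  (ENNReal.ofReal_toReal measure_closedBall_lt_top.ne).symm

theorem Frc_v_pos (n : ℕ) : 0 < Frc_v n :=
  ENNReal.toReal_pos (Metric.measure_closedBall_pos _ _ one_pos).ne'
    measure_closedBall_lt_top.ne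

theorem Frc_volS (n : ℕ) (d : ℝ) : volume (Frc_S n d) ≤ ENNReal.ofReal (Frc_v n ^ 2) := by
  have h1 : Frc_S n d ⊆ Frc_S n (-1) := by
    rintro q ⟨h1, h2, -⟩
    exact ⟨h1, h2, by linarith [norm_nonneg (q.1 - q.2)]⟩
  refine (measure_mono h1).trans ?_
  rw [Frc_Sm, Measure.volume_eq_prod, Measure.prod_prod, Frc_v_eq,
    ← ENNReal.ofReal_mul (Frc_v_pos n).le, sq]

/-- the elementary inequality -/
theorem Frc_ineq {p lam : ℝ} (hp : 2 < p) (hl : 0 < lam) (t : ℝ≥0∞) :
    t ^ 2 ≤ ENNReal.ofReal lam + ENNReal.ofReal (lam ^ (1 - p / 2)) * t ^ p := by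
  rcases le_total (t ^ 2) (ENNReal.ofReal lam) with h | h
  · exact h.trans le_self_add
  · refine le_trans ?_ le_add_self
    by_cases ht : t = ⊤
    · subst ht
      rw [ENNReal.top_rpow_of_pos (by linarith), ENNReal.mul_top]
      · exact le_top
      · rw [Ne, ENNReal.ofReal_eq_zero, not_le]
        positivity
    · obtain ⟨a, rfl⟩ : ∃ a : NNReal, t = a := ⟨t.toNNReal, (ENNReal.coe_toNNReal ht).symm⟩
      have ha : (a : ℝ≥0∞) = ENNReal.ofReal (a : ℝ) := by
        rw [ENNReal.ofReal_coe_nnreal]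
      rw [ha] at h ⊢
      have ha' : ENNReal.ofReal (a : ℝ) ^ 2 = ENNReal.ofReal ((a : ℝ) ^ 2) :=
        (ENNReal.ofReal_pow a.2 2).symm
      have hap : ENNReal.ofReal (a : ℝ) ^ p = ENNReal.ofReal ((a : ℝ) ^ p) :=
        ENNReal.ofReal_rpow_of_nonneg (NNReal.coe_nonneg a) (by linarith)
      rw [ha'] at h ⊢
      rw [hap, ← ENNReal.ofReal_mul (by positivity)]
      apply ENNReal.ofReal_le_ofReal
      have h1 : lam ≤ (a : ℝ) ^ 2 := by
        rwa [ENNReal.ofReal_le_ofReal_iff (by positivity)] at h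
      have ha0 : 0 < (a : ℝ) := by
        rcases a.2.eq_or_lt with h2 | h2
        · change 0 = (a : ℝ) at h2
          rw [← h2] at h1
          norm_num at h1
          linarith
        · exact h2
      have h2 : lam ^ (p / 2 - 1) ≤ (a : ℝ) ^ (p - 2) := by
        have h3 : ((a : ℝ) ^ 2) ^ (p / 2 - 1) = (a : ℝ) ^ (p - 2) := by
          rw [← Real.rpow_natCast, ← Real.rpow_mul ha0.le]
          congr 1
          push_cast
          ring
        rw [← h3]
        exact Real.rpow_le_rpow hl.le h1 (by linarith)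
      have h4 : lam ^ (1 - p / 2) * (a : ℝ) ^ p =
          (a : ℝ) ^ 2 * (lam ^ (1 - p / 2) * (a : ℝ) ^ (p - 2)) := by
        have h5 : (a : ℝ) ^ p = (a : ℝ) ^ 2 * (a : ℝ) ^ (p - 2) := by
          rw [← Real.rpow_natCast, ← Real.rpow_add ha0]
          congr 1
          push_cast
          ring
        rw [h5]
        ring
      rw [h4]
      have h6 : 1 ≤ lam ^ (1 - p / 2) * (a : ℝ) ^ (p - 2) := by
        have h7 : lam ^ (1 - p / 2) * lam ^ (p / 2 - 1) = 1 := by
          rw [← Real.rpow_add hl]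
          norm_num
        calc (1 : ℝ) = lam ^ (1 - p / 2) * lam ^ (p / 2 - 1) := h7.symm
          _ ≤ _ := by gcongr
      nlinarith [sq_nonneg (a : ℝ)]

theorem Frc_two {p lam : ℝ} (hp : 2 < p) (hl : 0 < lam) {A : Phase n → Phase n →L[ℝ] Phase n}
    (x : Phase n) (s : ℝ) {S : Set (Phase n × Phase n)} :
    ∫⁻ q in S, ‖A (x + s • q.1) - A (x + s • q.2)‖ₑ ^ 2 ≤
      ENNReal.ofReal lam * volume S + ENNReal.ofReal (lam ^ (1 - p / 2)) *
        ∫⁻ q in S, ‖A (x + s • q.1) - A (x + s • q.2)‖ₑ ^ p := by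
  calc ∫⁻ q in S, ‖A (x + s • q.1) - A (x + s • q.2)‖ₑ ^ 2
      ≤ ∫⁻ q in S, (ENNReal.ofReal lam + ENNReal.ofReal (lam ^ (1 - p / 2)) *
          ‖A (x + s • q.1) - A (x + s • q.2)‖ₑ ^ p) :=
        lintegral_mono fun q => Frc_ineq hp hl _
    _ = _ := by
        rw [lintegral_add_left measurable_const, setLIntegral_const,
          lintegral_const_mul' _ _ ENNReal.ofReal_ne_top]

theorem Frc_four {p : ℝ} (hp : 4 ≤ p) (t : ℝ≥0∞) : t ^ 4 ≤ 1 + t ^ p := by
  rcases le_total t 1 with h | h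
  · exact (pow_le_one' h 4).trans le_self_add
  · refine le_trans ?_ le_add_self
    rw [← ENNReal.rpow_natCast]
    apply ENNReal.rpow_le_rpow_of_exponent_le h
    push_cast
    exact hp

/-- pairs at distance at most `d` have small volume -/
theorem Frc_near (n : ℕ) (d : ℝ) : volume (Frc_S n (-1) \ Frc_S n d) ≤
    ENNReal.ofReal (Frc_v n) * volume (Metric.closedBall (0 : Phase n) d) := by
  have hms : MeasurableSet {q : Phase n × Phase n |
      q.1 ∈ Metric.closedBall (0 : Phase n) 1 ∧ ‖q.1 - q.2‖ ≤ d} := by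
    have h1 : MeasurableSet {q : Phase n × Phase n | q.1 ∈ Metric.closedBall (0 : Phase n) 1} :=
      measurable_fst (Metric.isClosed_closedBall.measurableSet)
    have h2 : MeasurableSet {q : Phase n × Phase n | ‖q.1 - q.2‖ ≤ d} :=
      (isClosed_le (by fun_prop) continuous_const).measurableSet
    exact h1.inter h2
  have hsub : Frc_S n (-1) \ Frc_S n d ⊆ {q : Phase n × Phase n |
      q.1 ∈ Metric.closedBall (0 : Phase n) 1 ∧ ‖q.1 - q.2‖ ≤ d} := by
    rintro q ⟨⟨h1, h2, -⟩, h3⟩
    refine ⟨by rwa [mem_closedBall_zero_iff], ?_⟩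
    by_contra h4
    exact h3 ⟨h1, h2, not_le.mp h4⟩
  refine (measure_mono hsub).trans ?_
  rw [Measure.volume_eq_prod, Measure.prod_apply hms]
  have h5 : ∀ z : Phase n, volume (Prod.mk z ⁻¹' {q : Phase n × Phase n |
      q.1 ∈ Metric.closedBall (0 : Phase n) 1 ∧ ‖q.1 - q.2‖ ≤ d}) ≤
      (Metric.closedBall (0 : Phase n) 1).indicator
        (fun _ => volume (Metric.closedBall (0 : Phase n) d)) z := by
    intro z
    by_cases hz : z ∈ Metric.closedBall (0 : Phase n) 1
    · rw [indicator_of_mem hz]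
      have h6 : Prod.mk z ⁻¹' {q : Phase n × Phase n |
          q.1 ∈ Metric.closedBall (0 : Phase n) 1 ∧ ‖q.1 - q.2‖ ≤ d} ⊆
          Metric.closedBall z d := by
        intro w hw
        rw [Metric.mem_closedBall, dist_comm, dist_eq_norm]
        exact hw.2
      refine (measure_mono h6).trans (le_of_eq ?_)
      have h7 := Measure.addHaar_closedBall_center (volume : Measure (Phase n)) z d
      exact h7
    · rw [indicator_of_notMem hz]
      have h6 : Prod.mk z ⁻¹' {q : Phase n × Phase n |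
          q.1 ∈ Metric.closedBall (0 : Phase n) 1 ∧ ‖q.1 - q.2‖ ≤ d} = ∅ := by
        ext w
        simp only [mem_preimage, mem_ofPred_eq, mem_empty_iff_false, iff_false]
        exact fun h => hz h.1
      rw [h6, measure_empty]
  calc ∫⁻ z : Phase n, volume (Prod.mk z ⁻¹' {q : Phase n × Phase n |
      q.1 ∈ Metric.closedBall (0 : Phase n) 1 ∧ ‖q.1 - q.2‖ ≤ d})
      ≤ ∫⁻ z : Phase n, (Metric.closedBall (0 : Phase n) 1).indicator
        (fun _ => volume (Metric.closedBall (0 : Phase n) d)) z := lintegral_mono h5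
    _ = _ := by
      rw [lintegral_indicator Metric.isClosed_closedBall.measurableSet, setLIntegral_const,
        Frc_v_eq, mul_comm]

/-- intersecting boxes are related -/
theorem Frc_rel {x x₁ : Phase n} {s s₁ d : ℝ}
    (h : ¬Related (d / 2) (x, s) (x₁, s₁)) : Disjoint (Frc_U x s d) (Frc_U x₁ s₁ d) := by
  rw [Set.disjoint_left]
  rintro q ⟨h1, h2, h3⟩ ⟨h4, h5, h6⟩
  apply h
  have e1 : ‖q.1 - q.2‖ ≤ 2 * s := by
    have : q.1 - q.2 = (q.1 - x) - (q.2 - x) := by abel
    rw [this]
    have := norm_sub_le (q.1 - x) (q.2 - x)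
    linarith
  have e2 : ‖q.1 - q.2‖ ≤ 2 * s₁ := by
    have : q.1 - q.2 = (q.1 - x₁) - (q.2 - x₁) := by abel
    rw [this]
    have := norm_sub_le (q.1 - x₁) (q.2 - x₁)
    linarith
  refine ⟨?_, ?_, ?_⟩
  · show d / 2 * s ≤ s₁
    linarith
  · show d / 2 * s₁ ≤ s
    linarith
  · show ‖x - x₁‖ ≤ s + s₁
    have : x - x₁ = (q.1 - x₁) - (q.1 - x) := by abel
    rw [this]
    have := norm_sub_le (q.1 - x₁) (q.1 - x)
    linarith

theorem Frc_sum {G : Phase n × Phase n → ℝ≥0∞} {d : ℝ} {c : ℝ≥0∞} :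
    ∀ bs : List (Phase n × ℝ), (∀ b ∈ bs, 0 < b.2) →
      (∀ b ∈ bs, c ≤ ∫⁻ q in Frc_U b.1 b.2 d, G q) →
      bs.Pairwise (fun a b => ¬Related (d / 2) a b) →
      bs.length * c ≤ ∫⁻ q in ⋃ b ∈ bs, Frc_U b.1 b.2 d, G q := by
  intro bs
  induction bs with
  | nil =>
    intro _ _ _
    simp
  | cons b bs ih =>
    intro h1 h2 h3
    rw [List.pairwise_cons] at h3
    have ih' := ih (fun b' hb' => h1 b' (List.mem_cons_of_mem _ hb'))
      (fun b' hb' => h2 b' (List.mem_cons_of_mem _ hb')) h3.2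
    have e1 : (⋃ b' ∈ b :: bs, Frc_U b'.1 b'.2 d) =
        Frc_U b.1 b.2 d ∪ ⋃ b' ∈ bs, Frc_U b'.1 b'.2 d := by
      simp only [List.mem_cons, iUnion_iUnion_eq_or_left]
    have hm : MeasurableSet (⋃ b' ∈ bs, Frc_U b'.1 b'.2 d) := by
      have : (⋃ b' ∈ bs, Frc_U b'.1 b'.2 d) = ⋃ b' ∈ {b' | b' ∈ bs}, Frc_U b'.1 b'.2 d := rfl
      rw [this]
      exact MeasurableSet.biUnion (List.finite_toSet bs).countable
        (fun b' _ => Frc_measU b'.1 b'.2 d)
    have hdis : Disjoint (Frc_U b.1 b.2 d) (⋃ b' ∈ bs, Frc_U b'.1 b'.2 d) := by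
      rw [Set.disjoint_iUnion₂_right]
      intro b' hb'
      exact Frc_rel (h3.1 b' hb')
    rw [e1, lintegral_union hm hdis, List.length_cons]
    push_cast
    rw [add_mul, one_mul, add_comm]
    exact add_le_add (h2 b List.mem_cons_self) ih'

end

theorem Frc_cont {n : ℕ} (φ : SympCt n) :
    Continuous (fderiv ℝ (φ : Equiv.Perm (Phase n))) := by
  have h : ContDiff ℝ ∞ (φ : Equiv.Perm (Phase n)) := φ.2.1
  exact h.continuous_fderiv (by simp)

theorem thm_Frc (n : ℕ) : St_Frc n := by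
  intro hn p hp
  have hn2 : (2 : ℝ) ≤ n := by exact_mod_cast hn
  have hp4 : 4 ≤ p := by linarith
  have hp2 : 2 < p := by linarith
  have hp0 : 0 < p := by linarith
  have hv := Frc_v_pos n
  have hball : Tendsto (fun d : ℝ => volume (Metric.closedBall (0 : Phase n) d)) (𝓝[>] 0)
      (𝓝 0) := by
    have h1 : ∀ d : ℝ, 0 < d → volume (Metric.closedBall (0 : Phase n) d) =
        ENNReal.ofReal (d ^ (2 * n)) * volume (Metric.closedBall (0 : Phase n) 1) := by
      intro d hd
      have hfr : Module.finrank ℝ (Phase n) = 2 * n := by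
        rw [finrank_euclideanSpace, Fintype.card_sum, Fintype.card_fin]
        ring
      have h2 := Measure.addHaar_closedBall_mul (volume : Measure (Phase n)) 0 hd.le
        (zero_le_one)
      rw [mul_one, hfr] at h2
      exact h2
    have h3 : Tendsto (fun d : ℝ => ENNReal.ofReal (d ^ (2 * n)) *
        volume (Metric.closedBall (0 : Phase n) 1)) (𝓝[>] 0) (𝓝 0) := by
      have h4 : Tendsto (fun d : ℝ => ENNReal.ofReal (d ^ (2 * n))) (𝓝[>] 0) (𝓝 0) := by
        have h5 : Tendsto (fun d : ℝ => d ^ (2 * n)) (𝓝[>] 0) (𝓝 0) := by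
          have h6 : Tendsto (fun d : ℝ => d ^ (2 * n)) (𝓝 0) (𝓝 (0 ^ (2 * n))) :=
            (continuous_pow (2 * n)).tendsto 0
          rw [zero_pow (by omega)] at h6
          exact h6.mono_left nhdsWithin_le_nhds
        have h7 := ENNReal.tendsto_ofReal h5
        rwa [ENNReal.ofReal_zero] at h7
      have h8 := ENNReal.Tendsto.mul_const (b := volume (Metric.closedBall (0 : Phase n) 1)) h4
        (Or.inr measure_closedBall_lt_top.ne)
      rwa [zero_mul] at h8
    refine h3.congr' ?_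
    filter_upwards [self_mem_nhdsWithin] with d hd
    exact (h1 d hd).symm
  refine ⟨fun E => ?_, fun ε hε => ?_⟩
  · -- control
    set E' : ℝ := max E 0 with hE'
    have hE0 : 0 ≤ E' := le_max_right _ _
    have hEle : ENNReal.ofReal E = ENNReal.ofReal E' := by
      rcases le_total E 0 with h | h
      · rw [hE', max_eq_right h, ENNReal.ofReal_of_nonpos h, ENNReal.ofReal_zero]
      · rw [hE', max_eq_left h]
    -- the constants for packing
    have key : ∀ ε : ℝ, ∃ (N : ℕ) (δ : ℝ), 0 < ε → (0 < δ ∧ δ ≤ 1) ∧ ∀ φ : SympCt n,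
        fracEnergy p (φ : Equiv.Perm (Phase n)) ≤ ENNReal.ofReal E' →
        ∀ bs : List (Phase n × ℝ), (∀ b ∈ bs, 0 < b.2 ∧
          ENNReal.ofReal ε ≤ osc 2 (φ : Equiv.Perm (Phase n)) b.1 b.2) →
        bs.Pairwise (fun a b => ¬Related δ a b) → bs.length ≤ N := by
      intro ε
      by_cases hε : 0 < ε
      swap
      · exact ⟨0, 1, fun h => absurd h hε⟩
      -- choose lam
      obtain ⟨lam, hl, hlam⟩ : ∃ lam : ℝ, 0 < lam ∧
          lam ^ (1 - p / 2) * (16 ^ n * E') ≤ ε / 4 := by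
        have h1 : Tendsto (fun lam : ℝ => lam ^ (1 - p / 2) * (16 ^ n * E')) atTop (𝓝 0) := by
          have h2 : Tendsto (fun lam : ℝ => lam ^ (-(p / 2 - 1))) atTop (𝓝 0) :=
            tendsto_rpow_neg_atTop (by linarith)
          have h3 := h2.mul_const (16 ^ n * E')
          rw [zero_mul] at h3
          refine h3.congr fun lam => ?_
          congr 2
          ring
        have h4 : ∀ᶠ lam : ℝ in atTop, lam ^ (1 - p / 2) * (16 ^ n * E') ≤ ε / 4 :=
          (h1.eventually_lt_const (by positivity : (0 : ℝ) < ε / 4)).mono fun _ h => h.le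
        obtain ⟨lam, h5, h6⟩ := (h4.and (eventually_gt_atTop 0)).exists
        exact ⟨lam, h6, h5⟩
      -- choose d
      obtain ⟨d, hd0, hd1, hd⟩ : ∃ d : ℝ, 0 < d ∧ d ≤ 1 ∧
          ENNReal.ofReal lam * (ENNReal.ofReal (Frc_v n) *
            volume (Metric.closedBall (0 : Phase n) d)) ≤ ENNReal.ofReal (ε / 4) := by
        have h1 : Tendsto (fun d : ℝ => ENNReal.ofReal lam * (ENNReal.ofReal (Frc_v n) *
            volume (Metric.closedBall (0 : Phase n) d))) (𝓝[>] 0) (𝓝 0) := by
          have h2 := ENNReal.Tendsto.const_mul (a := ENNReal.ofReal (Frc_v n)) hball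
            (Or.inr ENNReal.ofReal_ne_top)
          rw [mul_zero] at h2
          have h3 := ENNReal.Tendsto.const_mul (a := ENNReal.ofReal lam) h2
            (Or.inr ENNReal.ofReal_ne_top)
          rwa [mul_zero] at h3
        have h4 : ∀ᶠ d : ℝ in 𝓝[>] 0, ENNReal.ofReal lam * (ENNReal.ofReal (Frc_v n) *
            volume (Metric.closedBall (0 : Phase n) d)) < ENNReal.ofReal (ε / 4) :=
          h1.eventually_lt_const (by rw [ENNReal.ofReal_pos]; positivity)
        have h5 : ∀ᶠ d : ℝ in 𝓝[>] 0, d ∈ Ioc (0 : ℝ) 1 :=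
          Ioc_mem_nhdsGT one_pos
        obtain ⟨d, h6, h7⟩ := (h4.and h5).exists
        exact ⟨d, h7.1, h7.2, h6.le⟩
      set mu : ℝ := ε / (4 * Frc_v n ^ 2) with hmu
      have hmu0 : 0 < mu := by positivity
      set c₁ : ℝ := ε / 4 / (mu ^ (1 - p / 2) * 16 ^ n) with hc₁
      have hc₁0 : 0 < c₁ := by positivity
      refine ⟨⌊E' / c₁⌋₊, d / 2, fun _ => ⟨⟨by positivity, by linarith⟩, ?_⟩⟩
      intro φ hφ bs hbs hpair
      have hA := Frc_cont φ
      rw [Frc_energy p hA] at hφ
      have hmass : ∀ b ∈ bs, ENNReal.ofReal c₁ ≤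
          ∫⁻ q in Frc_U b.1 b.2 d, Frc_G p (fderiv ℝ (φ : Equiv.Perm (Phase n))) q := by
        intro b hb
        obtain ⟨hb0, hb1⟩ := hbs b hb
        rw [Frc_osc 2 hA] at hb1
        set f : Phase n × Phase n → ℝ≥0∞ := fun q =>
          ‖fderiv ℝ (φ : Equiv.Perm (Phase n)) (b.1 + b.2 • q.1) -
            fderiv ℝ (φ : Equiv.Perm (Phase n)) (b.1 + b.2 • q.2)‖ₑ ^ 2 with hf
        have hsub : Frc_S n d ⊆ Frc_S n (-1) := by
          rintro q ⟨h1, h2, -⟩
          exact ⟨h1, h2, by linarith [norm_nonneg (q.1 - q.2)]⟩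
        have hsplit : ∫⁻ q in Frc_S n (-1), f q ≤
            (∫⁻ q in Frc_S n (-1) \ Frc_S n d, f q) + ∫⁻ q in Frc_S n d, f q := by
          have h1 : Frc_S n (-1) = (Frc_S n (-1) \ Frc_S n d) ∪ Frc_S n d :=
            (sdiff_union_of_subset hsub).symm
          conv_lhs => rw [h1]
          exact lintegral_union_le f _ _
        have hnear : ∫⁻ q in Frc_S n (-1) \ Frc_S n d, f q ≤ ENNReal.ofReal (ε / 2) := by
          refine (Frc_two hp2 hl b.1 b.2).trans ?_
          have e1 : ENNReal.ofReal (ε / 2) = ENNReal.ofReal (ε / 4) + ENNReal.ofReal (ε / 4) := by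
            rw [← ENNReal.ofReal_add (by positivity) (by positivity)]
            congr 1
            ring
          rw [e1]
          apply add_le_add
          · exact (mul_le_mul_right (Frc_near n d) _).trans hd
          · have h2 : ∫⁻ q in Frc_S n (-1) \ Frc_S n d,
                ‖fderiv ℝ (φ : Equiv.Perm (Phase n)) (b.1 + b.2 • q.1) -
                  fderiv ℝ (φ : Equiv.Perm (Phase n)) (b.1 + b.2 • q.2)‖ₑ ^ p ≤
                ENNReal.ofReal (16 ^ n) * ENNReal.ofReal E' := by
              refine (lintegral_mono_set sdiff_subset).trans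
                ((Frc_pw hn hp0 hA b.1 hb0 (-1)).trans ?_)
              gcongr
              exact (setLIntegral_le_lintegral _ _).trans hφ
            calc _ ≤ ENNReal.ofReal (lam ^ (1 - p / 2)) *
                  (ENNReal.ofReal (16 ^ n) * ENNReal.ofReal E') := by gcongr
              _ = ENNReal.ofReal (lam ^ (1 - p / 2) * (16 ^ n * E')) := by
                  rw [← ENNReal.ofReal_mul (by positivity), ← ENNReal.ofReal_mul (by positivity)]
              _ ≤ _ := ENNReal.ofReal_le_ofReal hlam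
        have hfar : ENNReal.ofReal (ε / 2) ≤ ∫⁻ q in Frc_S n d, f q := by
          have h1 : ENNReal.ofReal ε = ENNReal.ofReal (ε / 2) + ENNReal.ofReal (ε / 2) := by
            rw [← ENNReal.ofReal_add (by positivity) (by positivity)]
            congr 1
            ring
          have h2 : ENNReal.ofReal (ε / 2) + ENNReal.ofReal (ε / 2) ≤
              ENNReal.ofReal (ε / 2) + ∫⁻ q in Frc_S n d, f q := by
            rw [← h1]
            exact hb1.trans (hsplit.trans (add_le_add hnear le_rfl))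
          exact (ENNReal.add_le_add_iff_left ENNReal.ofReal_ne_top).1 h2
        have hfar2 : ENNReal.ofReal (ε / 4) ≤ ENNReal.ofReal (mu ^ (1 - p / 2)) *
            ∫⁻ q in Frc_S n d, ‖fderiv ℝ (φ : Equiv.Perm (Phase n)) (b.1 + b.2 • q.1) -
              fderiv ℝ (φ : Equiv.Perm (Phase n)) (b.1 + b.2 • q.2)‖ₑ ^ p := by
          have h1 : ENNReal.ofReal (ε / 2) = ENNReal.ofReal (ε / 4) + ENNReal.ofReal (ε / 4) := by
            rw [← ENNReal.ofReal_add (by positivity) (by positivity)]
            congr 1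
            ring
          have h2 : ENNReal.ofReal mu * volume (Frc_S n d) ≤ ENNReal.ofReal (ε / 4) := by
            calc ENNReal.ofReal mu * volume (Frc_S n d)
                ≤ ENNReal.ofReal mu * ENNReal.ofReal (Frc_v n ^ 2) := by
                  gcongr
                  exact Frc_volS n d
              _ = ENNReal.ofReal (ε / 4) := by
                  rw [← ENNReal.ofReal_mul hmu0.le, hmu]
                  congr 1
                  field_simp
          have h3 : ENNReal.ofReal (ε / 4) + ENNReal.ofReal (ε / 4) ≤ ENNReal.ofReal (ε / 4) +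
              ENNReal.ofReal (mu ^ (1 - p / 2)) *
            ∫⁻ q in Frc_S n d, ‖fderiv ℝ (φ : Equiv.Perm (Phase n)) (b.1 + b.2 • q.1) -
              fderiv ℝ (φ : Equiv.Perm (Phase n)) (b.1 + b.2 • q.2)‖ₑ ^ p := by
            rw [← h1]
            exact hfar.trans ((Frc_two hp2 hmu0 b.1 b.2).trans (add_le_add h2 le_rfl))
          exact (ENNReal.add_le_add_iff_left ENNReal.ofReal_ne_top).1 h3
        have hfar3 : ENNReal.ofReal (ε / 4) ≤ ENNReal.ofReal (mu ^ (1 - p / 2) * 16 ^ n) *
            ∫⁻ q in Frc_U b.1 b.2 d, Frc_G p (fderiv ℝ (φ : Equiv.Perm (Phase n))) q := by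
          refine hfar2.trans ?_
          rw [ENNReal.ofReal_mul (by positivity), mul_assoc]
          gcongr
          exact Frc_pw hn hp0 hA b.1 hb0 d
        have h4 : ENNReal.ofReal (ε / 4) = ENNReal.ofReal (mu ^ (1 - p / 2) * 16 ^ n) *
            ENNReal.ofReal c₁ := by
          rw [← ENNReal.ofReal_mul (by positivity), hc₁]
          congr 1
          field_simp
        rw [h4] at hfar3
        exact (ENNReal.mul_le_mul_iff_right (by
          rw [Ne, ENNReal.ofReal_eq_zero, not_le]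
          positivity) ENNReal.ofReal_ne_top).1 hfar3
      have hsum := Frc_sum bs (fun b hb => (hbs b hb).1) hmass hpair
      have h5 : (bs.length : ℝ≥0∞) * ENNReal.ofReal c₁ ≤ ENNReal.ofReal E' :=
        hsum.trans ((setLIntegral_le_lintegral _ _).trans hφ)
      have h6 : (bs.length : ℝ) * c₁ ≤ E' := by
        rw [← ENNReal.ofReal_natCast, ← ENNReal.ofReal_mul (by positivity),
          ENNReal.ofReal_le_ofReal_iff hE0] at h5
        exact h5
      apply Nat.le_floor
      rw [le_div_iff₀ hc₁0]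
      exact h6
    choose N δ hNδ using key
    refine ⟨Frc_v n ^ 2 + 16 ^ n * E', N, δ, fun ε hε => (hNδ ε hε).1, fun φ hφ => ?_⟩
    rw [hEle] at hφ
    refine ⟨fun x s hs => ?_, fun ε hε bs hbs hpair => (hNδ ε hε).2 φ hφ bs hbs hpair⟩
    have hA := Frc_cont φ
    rw [Frc_osc 4 hA]
    have hφ' := hφ
    rw [Frc_energy p hA] at hφ'
    calc ∫⁻ q in Frc_S n (-1), ‖fderiv ℝ (φ : Equiv.Perm (Phase n)) (x + s • q.1) -
          fderiv ℝ (φ : Equiv.Perm (Phase n)) (x + s • q.2)‖ₑ ^ 4
        ≤ ∫⁻ q in Frc_S n (-1), (1 + ‖fderiv ℝ (φ : Equiv.Perm (Phase n)) (x + s • q.1) -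
          fderiv ℝ (φ : Equiv.Perm (Phase n)) (x + s • q.2)‖ₑ ^ p) :=
          lintegral_mono fun q => Frc_four hp4 _
      _ = volume (Frc_S n (-1)) + ∫⁻ q in Frc_S n (-1),
          ‖fderiv ℝ (φ : Equiv.Perm (Phase n)) (x + s • q.1) -
            fderiv ℝ (φ : Equiv.Perm (Phase n)) (x + s • q.2)‖ₑ ^ p := by
          rw [lintegral_add_left measurable_const, setLIntegral_const, one_mul]
      _ ≤ ENNReal.ofReal (Frc_v n ^ 2) + ENNReal.ofReal (16 ^ n) * ENNReal.ofReal E' := by
          apply add_le_add (Frc_volS n (-1))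
          refine (Frc_pw hn hp0 hA x hs (-1)).trans ?_
          gcongr
          exact (setLIntegral_le_lintegral _ _).trans hφ'
      _ = ENNReal.ofReal (Frc_v n ^ 2 + 16 ^ n * E') := by
          rw [← ENNReal.ofReal_mul (by positivity), ← ENNReal.ofReal_add (by positivity)
            (by positivity)]
  · -- small energy
    set lam : ℝ := ε / (2 * Frc_v n ^ 2) with hlam
    have hl : 0 < lam := by positivity
    refine ⟨ε / (2 * (lam ^ (1 - p / 2) * 16 ^ n)), by positivity, fun φ hφ x s hs => ?_⟩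
    have hA := Frc_cont φ
    rw [Frc_osc 2 hA]
    rw [Frc_energy p hA] at hφ
    refine (Frc_two hp2 hl x s).trans ?_
    have e1 : ENNReal.ofReal ε = ENNReal.ofReal (ε / 2) + ENNReal.ofReal (ε / 2) := by
      rw [← ENNReal.ofReal_add (by positivity) (by positivity)]
      congr 1
      ring
    rw [e1]
    apply add_le_add
    · calc ENNReal.ofReal lam * volume (Frc_S n (-1))
          ≤ ENNReal.ofReal lam * ENNReal.ofReal (Frc_v n ^ 2) := by
            gcongr
            exact Frc_volS n (-1)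
        _ = ENNReal.ofReal (ε / 2) := by
            rw [← ENNReal.ofReal_mul hl.le, hlam]
            congr 1
            field_simp
    · have h2 : ∫⁻ q in Frc_S n (-1), ‖fderiv ℝ (φ : Equiv.Perm (Phase n)) (x + s • q.1) -
          fderiv ℝ (φ : Equiv.Perm (Phase n)) (x + s • q.2)‖ₑ ^ p ≤
          ENNReal.ofReal (16 ^ n) *
            ENNReal.ofReal (ε / (2 * (lam ^ (1 - p / 2) * 16 ^ n))) := by
        refine (Frc_pw hn hp0 hA x hs (-1)).trans ?_
        gcongr
        exact (setLIntegral_le_lintegral _ _).trans hφ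
      calc _ ≤ ENNReal.ofReal (lam ^ (1 - p / 2)) * (ENNReal.ofReal (16 ^ n) *
            ENNReal.ofReal (ε / (2 * (lam ^ (1 - p / 2) * 16 ^ n)))) := by gcongr
        _ = ENNReal.ofReal (ε / 2) := by
          rw [← ENNReal.ofReal_mul (by positivity), ← ENNReal.ofReal_mul (by positivity)]
          congr 1
          field_simp

end Pool.Agent.CEF
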