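import Pool.Agent.CEF.Defs
import Pool.Agent.Helper17.Packing
import Pool.Agent.Helper17.NormalClass

/-!
# CEF, module Gap: no bad box at all
-/

set_option autoImplicit false
set_option maxSynthPendingDepth 3

open scoped ContDiff Topology ENNReal
open Set Function Filter MeasureTheory

namespace Pool.Agent.CEF

open Pool.Agent.Helper17

variable {n : ℕ}

lemma Gap_bound (φ : SympCt n) : ∃ L : ℝ, 1 ≤ L ∧
    ∀ x, ‖fderiv ℝ (φ : Equiv.Perm (Phase n)) x‖ ≤ L := by
  obtain ⟨N, hN0, hN⟩ := exists_support_radius φ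
  have h1 : Continuous (fderiv ℝ (φ : Equiv.Perm (Phase n))) :=
    (SympCt.contDiff φ).continuous_fderiv (by simp)
  obtain ⟨C, hC⟩ := (isCompact_closedBall (0 : Phase n) N).exists_bound_of_continuousOn
    h1.continuousOn
  refine ⟨max C 1, le_max_right _ _, fun y => ?_⟩
  rcases le_or_gt ‖y‖ N with hy | hy
  · exact (hC y (by simpa using hy)).trans (le_max_left _ _)
  · have h2 : (φ : Equiv.Perm (Phase n)) =ᶠ[𝓝 y] fun z => z := by
      filter_upwards [(isOpen_lt continuous_const continuous_norm).mem_nhds hy] with z hz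
      exact hN z hz
    have h3 : fderiv ℝ (φ : Equiv.Perm (Phase n)) y = ContinuousLinearMap.id ℝ (Phase n) := by
      rw [h2.fderiv_eq]
      exact fderiv_fun_id
    rw [h3]
    exact ContinuousLinearMap.norm_id_le.trans (le_max_right _ _)

theorem thm_Gap (n : ℕ) : St_Gap n := by
  intro hn φ hgood
  obtain ⟨L, hL1, hL⟩ := Gap_bound φ
  obtain ⟨R, hR, hRclose⟩ := exists_large_scale hn hL1 hL
  obtain ⟨N, hN0, hN⟩ := exists_support_radius φ
  have hsupp : ∀ t ∈ Icc (0 : ℝ) 1, ∀ x ∉ Metric.closedBall (0 : Phase n) (N + R),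
      vmol (φ : Equiv.Perm (Phase n)) (fun _ => t * R) x = x := by
    intro t ht x hx
    apply vmol_eq_of_gt hN (B := R) _ (by simpa using hx)
    rw [abs_of_nonneg (mul_nonneg ht.1 hR.le)]
    exact mul_le_of_le_one_left hR.le ht.2
  have p1 : AdmPath (φ : Equiv.Perm (Phase n))
      (vmol (φ : Equiv.Perm (Phase n)) (fun _ => 1 * R)) := by
    refine ⟨fun t => vmol (φ : Equiv.Perm (Phase n)) (fun _ => (t : ℝ) * R),
      CF_vmol (SympCt.contDiff φ) (CF.param (continuous_subtype_val.mul continuous_const)),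
      ⟨Metric.closedBall 0 (N + R), isCompact_closedBall _ _, fun t => hsupp t t.2⟩, ?_, ?_, ?_⟩
    · intro t x
      rw [fderiv_vmol_const (SympCt.contDiff φ) hL]
      rcases t.2.1.eq_or_lt with h0 | h0
      · rw [← h0, zero_mul]
        have h2 : kAvg (φ : Equiv.Perm (Phase n)) x 0 =
            fderiv ℝ (φ : Equiv.Perm (Phase n)) x := by
          rw [kAvg_eq]
          simp
        rw [h2]
        exact SympCt.admissible φ x
      · exact (not_not.mp (hgood x _ (mul_pos h0 hR))).admissible (by norm_num)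
    · ext1 x
      exact vmol_zero (by simp)
    · rfl
  have p2 : AdmPath (vmol (φ : Equiv.Perm (Phase n)) (fun _ => 1 * R))
      ((1 : SympCt n) : Equiv.Perm (Phase n)) := by
    have e1 : (((1 : SympCt n) : Equiv.Perm (Phase n)) : Phase n → Phase n) = fun x => x := rfl
    rw [e1]
    apply admPath_segment (contDiff_vmol (SympCt.contDiff φ) contDiff_const) contDiff_id
      (isCompact_closedBall 0 (N + R)) (hsupp 1 (right_mem_Icc.2 zero_le_one))
      (fun x _ => rfl)
    intro x t ht
    rw [fderiv_id]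
    apply admissible_near_one' _ ht
    apply hRclose _ contDiff_const
    · rw [one_mul]
    · have h0 : fderiv ℝ (fun _ : Phase n => 1 * R) x = 0 := (hasFDerivAt_const (1 * R) x).fderiv
      rw [h0, norm_zero]
      exact zero_le_one
  exact joined_of_admPath (p1.trans p2)

end Pool.Agent.CEF
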