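import Pool.Agent.CEF.Defs

/-!
# CEF [Pt]: point values of the derivative
-/

set_option maxSynthPendingDepth 3

open scoped ContDiff Topology ENNReal
open Set Function Filter MeasureTheory

namespace Pool.Agent.CEF

open Pool.Agent.Helper17

variable {E : Type*} [NormedAddCommGroup E] [InnerProductSpace ℝ E] [FiniteDimensional ℝ E]
  [MeasurableSpace E] [BorelSpace E] {F : Type*} [NormedAddCommGroup F]

/-- scaling of balls -/
private lemma Pt_ball {f : E → ℝ≥0∞} (hf : Measurable f) {R : ℝ} (hR : 0 < R) :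
    ∫⁻ z in Metric.closedBall (0 : E) R, f z = ENNReal.ofReal (R ^ Module.finrank ℝ E) *
      ∫⁻ z in Metric.closedBall (0 : E) 1, f (R • z) := by
  have hm : MeasurableSet (Metric.closedBall (0 : E) R) := measurableSet_closedBall
  have hm1 : MeasurableSet (Metric.closedBall (0 : E) 1) := measurableSet_closedBall
  have h1 : ∫⁻ z in Metric.closedBall (0 : E) 1, f (R • z) =
      ∫⁻ z, (Metric.closedBall (0 : E) R).indicator f (R • z) := by
    rw [← lintegral_indicator hm1]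
    congr 1
    ext z
    by_cases hz : z ∈ Metric.closedBall (0 : E) 1
    · have h2 : R • z ∈ Metric.closedBall (0 : E) R := by
        rw [mem_closedBall_zero_iff] at hz ⊢
        rw [norm_smul, Real.norm_of_nonneg hR.le]
        nlinarith
      rw [indicator_of_mem hz, indicator_of_mem h2]
    · have h2 : R • z ∉ Metric.closedBall (0 : E) R := by
        rw [mem_closedBall_zero_iff] at hz ⊢
        rw [norm_smul, Real.norm_of_nonneg hR.le]
        intro h
        exact hz (by nlinarith)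
      rw [indicator_of_notMem hz, indicator_of_notMem h2]
  rw [h1, ← lintegral_map (hf.indicator hm) (measurable_const_smul R),
    Measure.map_addHaar_smul _ hR.ne', lintegral_smul_measure, lintegral_indicator hm, smul_eq_mul,
    ← mul_assoc, ← ENNReal.ofReal_mul (by positivity), abs_of_nonneg (by positivity),
    mul_inv_cancel₀ (by positivity), ENNReal.ofReal_one, one_mul]

private lemma Pt_double {g : E → F} (hg : Continuous g) (q : ℕ) {R : ℝ} (hR : 0 < R) :
    ∫⁻ w in Metric.closedBall (0 : E) R, ∫⁻ z in Metric.closedBall (0 : E) R,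
      ‖g z - g w‖ₑ ^ q = ENNReal.ofReal (R ^ Module.finrank ℝ E) *
      (ENNReal.ofReal (R ^ Module.finrank ℝ E) *
      ∫⁻ w in Metric.closedBall (0 : E) 1, ∫⁻ z in Metric.closedBall (0 : E) 1,
        ‖g (R • z) - g (R • w)‖ₑ ^ q) := by
  have hmeas : Measurable (fun w => ∫⁻ z in Metric.closedBall (0 : E) R, ‖g z - g w‖ₑ ^ q) := by
    have h1 : Continuous (fun r : E × E => ‖g r.2 - g r.1‖ₑ ^ q) := by
      apply (ENNReal.continuous_pow q).comp
      apply Continuous.enorm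
      exact (hg.comp continuous_snd).sub (hg.comp continuous_fst)
    exact h1.measurable.lintegral_prod_right'
      (ν := volume.restrict (Metric.closedBall (0 : E) R))
  rw [Pt_ball hmeas hR]
  congr 1
  rw [← lintegral_const_mul' _ _ ENNReal.ofReal_ne_top]
  congr 1
  ext1 w
  refine Pt_ball ?_ hR
  exact ((ENNReal.continuous_pow q).comp (hg.sub continuous_const).enorm).measurable

private lemma Pt_point {g : E → F} (hg : Continuous g) (q : ℕ) {R : ℝ} (hR : 1 ≤ R) :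
    ∃ z₀ ∈ Metric.closedBall (0 : E) 1, ∫⁻ z in Metric.closedBall (0 : E) R,
      ‖g z - g z₀‖ₑ ^ q ≤ (∫⁻ w in Metric.closedBall (0 : E) R,
        ∫⁻ z in Metric.closedBall (0 : E) R, ‖g z - g w‖ₑ ^ q) /
        volume (Metric.closedBall (0 : E) 1) := by
  have hB0 : volume (Metric.closedBall (0 : E) 1) ≠ 0 :=
    (Metric.measure_closedBall_pos volume 0 one_pos).ne'
  have hB1 : volume (Metric.closedBall (0 : E) 1) ≠ ⊤ := measure_closedBall_lt_top.ne
  have hmeas : Measurable (fun w => ∫⁻ z in Metric.closedBall (0 : E) R, ‖g z - g w‖ₑ ^ q) := by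
    have h1 : Continuous (fun r : E × E => ‖g r.2 - g r.1‖ₑ ^ q) := by
      apply (ENNReal.continuous_pow q).comp
      apply Continuous.enorm
      exact (hg.comp continuous_snd).sub (hg.comp continuous_fst)
    exact h1.measurable.lintegral_prod_right'
      (ν := volume.restrict (Metric.closedBall (0 : E) R))
  obtain ⟨z₀, hz₀, hle⟩ := exists_le_setLAverage hB0 hB1 hmeas.aemeasurable
  refine ⟨z₀, hz₀, hle.trans ?_⟩
  rw [setLAverage_eq]
  exact ENNReal.div_le_div_right (lintegral_mono_set (Metric.closedBall_subset_closedBall hR)) _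

private lemma Pt_bochner {g : E → F} (hg : Continuous g) (q : ℕ) (R : ℝ) (b : F) {K : ℝ≥0∞}
    (hK : K ≠ ⊤) (h : ∫⁻ z in Metric.closedBall (0 : E) R, ‖g z - b‖ₑ ^ q ≤ K) :
    ∫ z in Metric.closedBall (0 : E) R, ‖g z - b‖ ^ q ≤ K.toReal := by
  have hc : Continuous (fun z => ‖g z - b‖ ^ q) := (hg.sub continuous_const).norm.pow q
  rw [integral_eq_lintegral_of_nonneg_ae (Eventually.of_forall fun z => by positivity)
    hc.aestronglyMeasurable]
  refine ENNReal.toReal_mono hK (le_trans (le_of_eq ?_) h)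
  congr 1
  ext z
  rw [ENNReal.ofReal_pow (norm_nonneg _), ofReal_norm]

/-- [Pt] (4) -/
lemma Pt_real4 (n : ℕ) : ∀ c : ℝ, ∀ R : ℝ, 1 ≤ R → ∃ C : ℝ, 0 ≤ C ∧
    ∀ φ : Phase n → Phase n, ContDiff ℝ ∞ φ →
    (∀ x s, 0 < s → osc 4 φ x s ≤ ENNReal.ofReal c) → ∀ x (s : ℝ), 0 < s → ∃ z₀, ‖z₀‖ ≤ 1 ∧
      ∫ z in Metric.closedBall (0 : Phase n) R,
        ‖fderiv ℝ φ (x + s • z) - fderiv ℝ φ (x + s • z₀)‖ ^ 4 ≤ C := by
  have hB0 : volume (Metric.closedBall (0 : Phase n) 1) ≠ 0 :=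
    (Metric.measure_closedBall_pos volume 0 one_pos).ne'
  intro c R hR
  have hR0 : 0 < R := by linarith
  set J := ENNReal.ofReal (R ^ Module.finrank ℝ (Phase n)) with hJ
  set K : ℝ≥0∞ := J * (J * ENNReal.ofReal c) / volume (Metric.closedBall (0 : Phase n) 1) with hK
  have hKt : K ≠ ⊤ := ENNReal.div_ne_top
    (ENNReal.mul_ne_top ENNReal.ofReal_ne_top (ENNReal.mul_ne_top ENNReal.ofReal_ne_top
      ENNReal.ofReal_ne_top)) hB0
  refine ⟨K.toReal, ENNReal.toReal_nonneg, fun φ hφ hosc x s hs => ?_⟩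
  have hg : Continuous (fun z : Phase n => fderiv ℝ φ (x + s • z)) :=
    (hφ.continuous_fderiv (by simp)).comp (continuous_const.add (continuous_const_smul s))
  obtain ⟨z₀, hz₀, h1⟩ := Pt_point hg 4 hR
  refine ⟨z₀, mem_closedBall_zero_iff.1 hz₀, ?_⟩
  refine Pt_bochner hg 4 R _ hKt (h1.trans ?_)
  rw [hK]
  refine ENNReal.div_le_div_right ?_ _
  rw [Pt_double hg 4 hR0]
  refine mul_le_mul' le_rfl (mul_le_mul' le_rfl ?_)
  have h2 := hosc x (R * s) (by positivity)
  rw [osc] at h2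
  refine le_trans (le_of_eq ?_) h2
  have hsw : ∀ z w : Phase n, ‖fderiv ℝ φ (x + s • R • z) - fderiv ℝ φ (x + s • R • w)‖ₑ ^ 4 =
      ‖fderiv ℝ φ (x + (R * s) • w) - fderiv ℝ φ (x + (R * s) • z)‖ₑ ^ 4 := by
    intro z w
    rw [← enorm_neg, neg_sub, smul_smul, smul_smul, mul_comm s R]
  simp only [hsw]

/-- [Pt] (2) -/
lemma Pt_real2 (n : ℕ) : ∃ C : ℝ, 0 ≤ C ∧ ∀ φ : Phase n → Phase n, ContDiff ℝ ∞ φ →
    ∀ ε : ℝ, 0 ≤ ε → ∀ x s, 0 < s →
    osc 2 φ x s ≤ ENNReal.ofReal ε → ∃ z₀, ‖z₀‖ ≤ 1 ∧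
      ∫ z in Metric.closedBall (0 : Phase n) 1,
        ‖fderiv ℝ φ (x + s • z) - fderiv ℝ φ (x + s • z₀)‖ ^ 2 ≤ C * ε := by
  have hB0 : volume (Metric.closedBall (0 : Phase n) 1) ≠ 0 :=
    (Metric.measure_closedBall_pos volume 0 one_pos).ne'
  refine ⟨(volume (Metric.closedBall (0 : Phase n) 1))⁻¹.toReal, ENNReal.toReal_nonneg,
    fun φ hφ ε hε x s hs hosc => ?_⟩
  have hg : Continuous (fun z : Phase n => fderiv ℝ φ (x + s • z)) :=
    (hφ.continuous_fderiv (by simp)).comp (continuous_const.add (continuous_const_smul s))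
  obtain ⟨z₀, hz₀, h1⟩ := Pt_point hg 2 le_rfl
  refine ⟨z₀, mem_closedBall_zero_iff.1 hz₀, ?_⟩
  have hKt : ENNReal.ofReal ε / volume (Metric.closedBall (0 : Phase n) 1) ≠ ⊤ :=
    ENNReal.div_ne_top ENNReal.ofReal_ne_top hB0
  have h2 := Pt_bochner hg 2 1 (fderiv ℝ φ (x + s • z₀)) hKt (h1.trans
    (ENNReal.div_le_div_right (le_trans (le_of_eq ?_) hosc) _))
  · refine h2.trans (le_of_eq ?_)
    rw [ENNReal.div_eq_inv_mul, ENNReal.toReal_mul, ENNReal.toReal_ofReal hε]
  · rw [osc]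
    have hsw : ∀ z w : Phase n, ‖fderiv ℝ φ (x + s • z) - fderiv ℝ φ (x + s • w)‖ₑ ^ 2 =
        ‖fderiv ℝ φ (x + s • w) - fderiv ℝ φ (x + s • z)‖ₑ ^ 2 := by
      intro z w
      rw [← enorm_neg, neg_sub]
    congr 1
    ext1 w
    congr 1
    ext1 z
    exact hsw z w

/-- **[Pt]** -/
theorem thm_Pt (n : ℕ) : St_Pt n := by
  first
  | exact ⟨Pt_real4 n, Pt_real2 n⟩
  | refine ⟨fun c R hR => ?_, Pt_real2 n⟩
    obtain ⟨C, hC, h⟩ := Pt_real4 n c R hR
    refine ⟨C, hC, fun φ hφ hosc x s hs => ?_⟩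
    have h1 := h φ hφ hosc x s (by exact_mod_cast hs)
    simpa only [Nat.cast_smul_eq_nsmul] using h1

end Pool.Agent.CEF
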