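import Mathlib
import Pool.Agent.CEF.Defs
import Pool.Agent.CEF.Pt
import Pool.Agent.Helper17.FlatAverage

/-!
# CEF, module Gro: logarithmic growth of the averages
-/

set_option autoImplicit false
set_option maxSynthPendingDepth 3

open scoped ContDiff Topology ENNReal
open Set Function Filter MeasureTheory

namespace Pool.Agent.CEF

open Pool.Agent.Helper17

theorem Gro_le (x : ℝ) (hx : 0 ≤ x) : x ≤ 1 + x ^ 4 := by
  rcases le_or_gt x 1 with h | h
  · have : 0 ≤ x ^ 4 := by positivity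
    linarith
  · have h1 : x ^ 1 ≤ x ^ 4 := pow_le_pow_right₀ h.le (by norm_num)
    rw [pow_one] at h1
    linarith

theorem Gro_mean {n : ℕ} {φ : Phase n → Phase n} (hφ : ContDiff ℝ ∞ φ) (x : Phase n) (s : ℝ)
    (B : Phase n →L[ℝ] Phase n) :
    ∫ z in Metric.closedBall (0 : Phase n) 1, ‖fderiv ℝ φ (x + s • z) - B‖ ≤
      volume.real (Metric.closedBall (0 : Phase n) 1) +
        ∫ z in Metric.closedBall (0 : Phase n) 1, ‖fderiv ℝ φ (x + s • z) - B‖ ^ 4 := by
  have hc0 : Continuous (fderiv ℝ φ) := hφ.continuous_fderiv (by simp)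
  have hg : Continuous (fun z : Phase n => fderiv ℝ φ (x + s • z)) :=
    hc0.comp (continuous_const.add (continuous_const_smul s))
  have hc : Continuous fun z : Phase n => ‖fderiv ℝ φ (x + s • z) - B‖ :=
    (hg.sub continuous_const).norm
  have hK : IsCompact (Metric.closedBall (0 : Phase n) 1) := isCompact_closedBall _ _
  have i1 : IntegrableOn (fun z : Phase n => ‖fderiv ℝ φ (x + s • z) - B‖)
      (Metric.closedBall (0 : Phase n) 1) := hc.continuousOn.integrableOn_compact hK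
  have i2 : IntegrableOn (fun z : Phase n => ‖fderiv ℝ φ (x + s • z) - B‖ ^ 4)
      (Metric.closedBall (0 : Phase n) 1) := (hc.pow 4).continuousOn.integrableOn_compact hK
  have i3 : IntegrableOn (fun _ : Phase n => (1 : ℝ))
      (Metric.closedBall (0 : Phase n) 1) := continuous_const.continuousOn.integrableOn_compact hK
  have h1 : ∫ z in Metric.closedBall (0 : Phase n) 1, ‖fderiv ℝ φ (x + s • z) - B‖ ≤
      ∫ z in Metric.closedBall (0 : Phase n) 1, (1 + ‖fderiv ℝ φ (x + s • z) - B‖ ^ 4) :=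
    integral_mono i1 (i3.add i2) fun z => Gro_le _ (norm_nonneg _)
  refine h1.trans (le_of_eq ?_)
  rw [integral_add i3 i2, setIntegral_const, smul_eq_mul, mul_one]

/-- Lipschitz along a curve. -/
theorem Gro_lip {n : ℕ} {f : ℝ → Phase n →L[ℝ] Phase n} {C : ℝ} {K : Set ℝ} (hK : Convex ℝ K)
    (h : ∀ t ∈ K, ∃ D : Phase n →L[ℝ] Phase n, HasDerivAt f D t ∧ ‖D‖ ≤ C) {a b : ℝ} (ha : a ∈ K)
    (hb : b ∈ K) : ‖f b - f a‖ ≤ C * |b - a| := by
  classical
  choose! D hD using h
  have h1 := hK.norm_image_sub_le_of_norm_hasDerivWithin_le (f := f) (f' := D) (C := C)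
    (fun t ht => (hD t ht).1.hasDerivWithinAt) (fun t ht => (hD t ht).2) ha hb
  rwa [Real.norm_eq_abs] at h1

set_option linter.unusedVariables false in
theorem thm_Gro (n : ℕ) (h1 : St_Pt n) (h2 : St_Ker n) : St_Gro n := by
  intro c
  obtain ⟨C₁, hC₁, h1⟩ := Pt_real4 n c 1 le_rfl
  obtain ⟨C₂, hC₂, h2⟩ := h2 (eta (Phase n)) (contDiff_eta (Phase n))
    (fun z hz => eta_eq_zero (Phase n) hz)
  set M : ℝ := volume.real (Metric.closedBall (0 : Phase n) 1) + C₁ with hM
  have hM0 : 0 ≤ M := add_nonneg measureReal_nonneg hC₁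
  refine ⟨C₂ * M, mul_nonneg hC₂ hM0, ?_⟩
  intro φ hφ hosc x x' s s' S hs hs' hS
  -- the derivative along a curve
  have key : ∀ (X : ℝ → Phase n) (R : ℝ → ℝ) (t : ℝ) (X' : Phase n) (R' : ℝ), HasDerivAt X X' t →
      HasDerivAt R R' t → 0 < R t → ∃ D : Phase n →L[ℝ] Phase n,
        HasDerivAt (fun t => kAvg φ (X t) (R t)) D t ∧ ‖D‖ ≤ C₂ * (‖X'‖ + |R'|) / R t * M := by
    intro X R t X' R' hX hR hRt
    obtain ⟨z₀, -, hz⟩ := h1 φ hφ hosc (X t) (R t) hRt
    obtain ⟨D, hD1, hD2⟩ := h2 φ hφ X R t X' R' hX hR hRt (fderiv ℝ φ (X t + R t • z₀))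
    refine ⟨D, hD1, hD2.trans ?_⟩
    refine mul_le_mul_of_nonneg_left ?_ (by positivity)
    exact (Gro_mean hφ _ _ _).trans (add_le_add_right hz _)
  -- vertical
  have vert : ∀ (y : Phase n) (r : ℝ), 0 < r →
      ‖kAvg φ y r - kAvg φ y S‖ ≤ C₂ * M * |Real.log (S / r)| := by
    intro y r hr
    have h3 := Gro_lip (f := fun t => kAvg φ y (Real.exp t)) (C := C₂ * M) (K := univ) convex_univ
      (fun t _ => by
        obtain ⟨D, hD1, hD2⟩ := key (fun _ => y) Real.exp t 0 (Real.exp t) (hasDerivAt_const t y)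
          (Real.hasDerivAt_exp t) (Real.exp_pos t)
        refine ⟨D, hD1, hD2.trans (le_of_eq ?_)⟩
        rw [norm_zero, zero_add, abs_of_pos (Real.exp_pos t), mul_div_assoc,
          div_self (Real.exp_pos t).ne', mul_one]) (mem_univ (Real.log S)) (mem_univ (Real.log r))
    rw [Real.exp_log hS, Real.exp_log hr] at h3
    rw [Real.log_div hS.ne' hr.ne', abs_sub_comm]
    exact h3
  -- horizontal
  have hor : ‖kAvg φ x S - kAvg φ x' S‖ ≤ C₂ * M * (‖x - x'‖ / S) := by
    have h3 := Gro_lip (f := fun t => kAvg φ (x' + t • (x - x')) S)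
      (C := C₂ * M * (‖x - x'‖ / S)) (K := univ) convex_univ
      (fun t _ => by
        have hX : HasDerivAt (fun t : ℝ => x' + t • (x - x')) (x - x') t := by
          have h4 := ((hasDerivAt_id t).smul_const (x - x')).const_add x'
          simpa using h4
        obtain ⟨D, hD1, hD2⟩ := key (fun t => x' + t • (x - x')) (fun _ => S) t (x - x') 0 hX
          (hasDerivAt_const t S) hS
        refine ⟨D, hD1, hD2.trans (le_of_eq ?_)⟩
        rw [abs_zero, add_zero]
        ring) (mem_univ 0) (mem_univ 1)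
    simpa using h3
  have e1 := vert x s hs
  have e2 := vert x' s' hs'
  have e3 : ‖kAvg φ x s - kAvg φ x' s'‖ ≤ ‖kAvg φ x s - kAvg φ x S‖ +
      ‖kAvg φ x S - kAvg φ x' S‖ + ‖kAvg φ x' s' - kAvg φ x' S‖ := by
    have h4 : kAvg φ x s - kAvg φ x' s' = (kAvg φ x s - kAvg φ x S) +
        (kAvg φ x S - kAvg φ x' S) - (kAvg φ x' s' - kAvg φ x' S) := by abel
    rw [h4]
    exact (norm_sub_le _ _).trans (add_le_add_left (norm_add_le _ _) _)
  refine e3.trans ((add_le_add (add_le_add e1 hor) e2).trans (le_of_eq ?_))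
  ring

end Pool.Agent.CEF
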