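import Pool.Agent.CEF.Defs

/-!
# CEF [Hmp]: squared humps
-/

set_option autoImplicit false
set_option maxSynthPendingDepth 3

open scoped ContDiff Topology
open Set Function Filter

namespace Pool.Agent.CEF

open Pool.Agent.Helper17

variable {n : ℕ}

private lemma Hmp_comp {F : Type} [NormedAddCommGroup F] [NormedSpace ℝ F] {g : Phase n → F}
    (hg : Differentiable ℝ g) (a : ℝ) (p x : Phase n) :
    HasFDerivAt (fun x => g (a • (x - p))) (a • fderiv ℝ g (a • (x - p))) x := by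
  have h1 : HasFDerivAt (fun x : Phase n => a • (x - p))
      (a • ContinuousLinearMap.id ℝ (Phase n)) x :=
    ((hasFDerivAt_id x).sub_const p).const_smul a
  have h2 := (hg (a • (x - p))).hasFDerivAt.comp x h1
  have h3 : (fderiv ℝ g (a • (x - p))).comp (a • ContinuousLinearMap.id ℝ (Phase n)) =
      a • fderiv ℝ g (a • (x - p)) := by
    ext1 v
    simp
  rw [h3] at h2
  exact h2

/-- the fourth power of the bump function -/
private noncomputable def Hmp_b (n : ℕ) (y : Phase n) : ℝ := (bmp n y) ^ 4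

private lemma Hmp_b_contDiff (n : ℕ) : ContDiff ℝ ∞ (Hmp_b n) := (contDiff_bmp n).pow 4

private lemma Hmp_b_compact (n : ℕ) : HasCompactSupport (Hmp_b n) :=
  HasCompactSupport.comp_left (bmp n).hasCompactSupport (g := fun z : ℝ => z ^ 4) (by norm_num)

private lemma Hmp_b_fderiv {C : ℝ} (hC : ∀ y, ‖fderiv ℝ (bmp n) y‖ ≤ C) (y : Phase n) :
    ‖fderiv ℝ (Hmp_b n) y‖ ≤ 4 * (bmp n y) ^ 3 * C := by
  have h1 : HasFDerivAt (bmp n) (fderiv ℝ (bmp n) y) y :=
    ((contDiff_bmp n).differentiable (by simp) _).hasFDerivAt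
  have h2 := h1.pow 4
  have h3 : fderiv ℝ (Hmp_b n) y = _ := HasFDerivAt.fderiv h2
  rw [h3, norm_smul]
  have hb : 0 ≤ bmp n y := (bmp n).nonneg
  have h4 : ‖(4 : ℕ) • bmp n y ^ (4 - 1)‖ = 4 * (bmp n y) ^ 3 := by
    rw [Real.norm_of_nonneg (by positivity)]
    simp
  rw [h4]
  exact mul_le_mul_of_nonneg_left (hC y) (by positivity)

private lemma Hmp_eq (η : ℝ) (p : Phase n) (l : ℝ) :
    hmp η p l = fun x => l ^ 2 * Hmp_b n ((η / l) • (x - p)) := by
  funext x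
  unfold hmp Hmp_b
  ring

private lemma Hmp_hasFDerivAt (η : ℝ) (p : Phase n) {l : ℝ} (hl : 0 < l) (x : Phase n) :
    HasFDerivAt (hmp η p l) ((l * η) • fderiv ℝ (Hmp_b n) ((η / l) • (x - p))) x := by
  have h1 := (Hmp_comp ((Hmp_b_contDiff n).differentiable (by simp)) (η / l) p x).const_mul (l ^ 2)
  rw [smul_smul, show l ^ 2 * (η / l) = l * η by field_simp] at h1
  rw [Hmp_eq]
  exact h1

/-- the elementary inequalities -/
private lemma Hmp_elem {t b a : ℝ} (ht0 : 0 ≤ t) (ht1 : t ≤ 1) (hb0 : 0 ≤ b) (hb1 : b ≤ 1)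
    (ha : 0 < a) (h : t * b ^ 4 ≤ a ^ 2) :
    t * b ^ 3 ≤ a ∧ t * b ^ 3 * |Real.log a| ≤ 2 * a := by
  obtain ⟨r, hr0, hr⟩ : ∃ r : ℝ, 0 ≤ r ∧ r * r = t := ⟨Real.sqrt t, Real.sqrt_nonneg _,
    Real.mul_self_sqrt ht0⟩
  have hr1 : r ≤ 1 := by nlinarith
  -- `τ = r b²`
  have hτ0 : 0 ≤ r * b ^ 2 := by positivity
  have hτa : r * b ^ 2 ≤ a := by
    refine (sq_le_sq₀ hτ0 ha.le).mp ?_
    calc (r * b ^ 2) ^ 2 = r * r * b ^ 4 := by ring
      _ = t * b ^ 4 := by rw [hr]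
      _ ≤ a ^ 2 := h
  have hrb : r * b ≤ 1 := mul_le_one₀ hr1 hb0 hb1
  have hrb0 : 0 ≤ r * b := mul_nonneg hr0 hb0
  have h3 : t * b ^ 3 = (r * b ^ 2) * (r * b) := by rw [← hr]; ring
  have h4 : t * b ^ 3 ≤ r * b ^ 2 := by
    rw [h3]
    exact mul_le_of_le_one_right hτ0 hrb
  have h5 : t * b ^ 3 ≤ a := h4.trans hτa
  have htb0 : 0 ≤ t * b ^ 3 := by positivity
  refine ⟨h5, ?_⟩
  rcases le_total 1 a with h1 | h1
  · have h6 : |Real.log a| ≤ a := by
      rw [abs_of_nonneg (Real.log_nonneg h1)]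
      exact (Real.log_le_sub_one_of_pos ha).trans (by linarith)
    have h7 : t * b ^ 3 ≤ 1 := mul_le_one₀ ht1 (by positivity) (pow_le_one₀ hb0 hb1)
    calc t * b ^ 3 * |Real.log a| ≤ 1 * a := mul_le_mul h7 h6 (abs_nonneg _) zero_le_one
      _ ≤ 2 * a := by linarith
  · obtain ⟨q, hq0, hq⟩ : ∃ q : ℝ, 0 < q ∧ q * q = a := ⟨Real.sqrt a, Real.sqrt_pos.mpr ha,
      Real.mul_self_sqrt ha.le⟩
    -- `r b ≤ q`
    have h6 : r * b ≤ q := by
      refine (sq_le_sq₀ hrb0 hq0.le).mp ?_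
      calc (r * b) ^ 2 = r * (r * b ^ 2) := by ring
        _ ≤ 1 * (r * b ^ 2) := mul_le_mul_of_nonneg_right hr1 hτ0
        _ = r * b ^ 2 := one_mul _
        _ ≤ a := hτa
        _ = q ^ 2 := by rw [← hq]; ring
    have h7 : t * b ^ 3 ≤ a * q := by
      rw [h3]
      exact mul_le_mul hτa h6 hrb0 ha.le
    have h8 : |Real.log a| ≤ 2 / q := by
      rw [abs_of_nonpos (Real.log_nonpos ha.le h1), ← hq, Real.log_mul hq0.ne' hq0.ne']
      have h9 := Real.log_le_sub_one_of_pos (inv_pos.mpr hq0)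
      rw [Real.log_inv] at h9
      rw [div_eq_mul_inv]
      linarith
    calc t * b ^ 3 * |Real.log a| ≤ (a * q) * (2 / q) :=
          mul_le_mul h7 h8 (abs_nonneg _) (by positivity)
      _ = 2 * a := by field_simp

theorem thm_Hmp (n : ℕ) : St_Hmp n := by
  obtain ⟨Cb, hCb0, hCb⟩ := exists_bmp_bound n
  have hd1 : ContDiff ℝ 2 (Hmp_b n) := (contDiff_infty.mp (Hmp_b_contDiff n)) 2
  have hd2 : ContDiff ℝ 1 (fderiv ℝ (Hmp_b n)) := hd1.fderiv_right (by norm_num)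
  obtain ⟨C₂, hC₂⟩ := ((Hmp_b_compact n).fderiv (𝕜 := ℝ)).fderiv (𝕜 := ℝ)
    |>.exists_bound_of_continuous (hd2.continuous_fderiv (by simp))
  obtain ⟨C, hC1, hC2, hC3⟩ : ∃ C : ℝ, 1 ≤ C ∧ 8 * Cb ≤ C ∧ C₂ ≤ C :=
    ⟨max 1 (max (8 * Cb) C₂), le_max_left _ _, (le_max_left _ _).trans (le_max_right _ _),
      (le_max_right _ _).trans (le_max_right _ _)⟩
  refine ⟨C, hC1, fun η p l hη hη1 hl => ⟨?_, ?_, ?_, ?_, ?_, ?_⟩⟩
  · rw [Hmp_eq]
    exact contDiff_const.mul ((Hmp_b_contDiff n).comp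
      ((contDiff_id.sub contDiff_const).const_smul _))
  · intro x
    have hb0 : 0 ≤ bmp n ((η / l) • (x - p)) := (bmp n).nonneg
    have hb1 : bmp n ((η / l) • (x - p)) ≤ 1 := (bmp n).le_one
    rw [Hmp_eq]
    have h1 : 0 ≤ Hmp_b n ((η / l) • (x - p)) := by unfold Hmp_b; positivity
    have h2 : Hmp_b n ((η / l) • (x - p)) ≤ 1 := pow_le_one₀ hb0 hb1
    exact ⟨by positivity, mul_le_of_le_one_right (by positivity) h2⟩
  · intro x hx
    have h1 : ‖(η / l) • (x - p)‖ ≤ 1 := by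
      rw [norm_smul, Real.norm_of_nonneg (by positivity), div_mul_eq_mul_div, div_le_one hl]
      exact hx
    unfold hmp
    rw [bmp_one h1]
    ring
  · intro x hx
    have h1 : 2 ≤ ‖(η / l) • (x - p)‖ := by
      rw [norm_smul, Real.norm_of_nonneg (by positivity), div_mul_eq_mul_div, le_div_iff₀ hl]
      exact hx
    unfold hmp
    rw [bmp_zero h1]
    ring
  · intro x
    have h1 : fderiv ℝ (hmp η p l) =
        fun x => (l * η) • fderiv ℝ (Hmp_b n) ((η / l) • (x - p)) :=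
      funext fun x => (Hmp_hasFDerivAt η p hl x).fderiv
    have h2 := (Hmp_comp (hd2.differentiable (by simp)) (η / l) p x).const_smul (l * η)
    have h3 : fderiv ℝ (fderiv ℝ (hmp η p l)) x =
        (l * η) • (η / l) • fderiv ℝ (fderiv ℝ (Hmp_b n)) ((η / l) • (x - p)) := by
      rw [h1]
      exact HasFDerivAt.fderiv h2
    rw [h3, smul_smul, show l * η * (η / l) = η ^ 2 by field_simp, norm_smul,
      Real.norm_of_nonneg (by positivity)]
    have h4 : η ^ 2 ≤ 1 := pow_le_one₀ hη.le hη1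
    calc η ^ 2 * ‖fderiv ℝ (fderiv ℝ (Hmp_b n)) ((η / l) • (x - p))‖ ≤
          1 * ‖fderiv ℝ (fderiv ℝ (Hmp_b n)) ((η / l) • (x - p))‖ :=
          mul_le_mul_of_nonneg_right h4 (norm_nonneg _)
      _ ≤ C := by rw [one_mul]; exact (hC₂ _).trans hC3
  · intro x t s ht0 ht1 hs hts
    obtain ⟨b, hb⟩ : ∃ b : ℝ, b = bmp n ((η / l) • (x - p)) := ⟨_, rfl⟩
    have hb0 : 0 ≤ b := by rw [hb]; exact (bmp n).nonneg
    have hb1 : b ≤ 1 := by rw [hb]; exact (bmp n).le_one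
    have h1 := (Hmp_hasFDerivAt η p hl x).const_mul t
    have h2 : fderiv ℝ (fun x => t * hmp η p l x) x =
        t • (l * η) • fderiv ℝ (Hmp_b n) ((η / l) • (x - p)) := HasFDerivAt.fderiv h1
    have h3 : ‖fderiv ℝ (fun x => t * hmp η p l x) x‖ ≤ 4 * Cb * η * l * (t * b ^ 3) := by
      rw [h2, norm_smul, norm_smul, Real.norm_of_nonneg ht0, Real.norm_of_nonneg (by positivity)]
      have h4 := Hmp_b_fderiv hCb ((η / l) • (x - p))
      rw [← hb] at h4
      calc t * (l * η * ‖fderiv ℝ (Hmp_b n) ((η / l) • (x - p))‖) ≤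
            t * (l * η * (4 * b ^ 3 * Cb)) := by
            refine mul_le_mul_of_nonneg_left (mul_le_mul_of_nonneg_left h4 (by positivity)) ht0
        _ = 4 * Cb * η * l * (t * b ^ 3) := by ring
    have ha : 0 < s / l := div_pos hs hl
    have h4 : t * b ^ 4 ≤ (s / l) ^ 2 := by
      rw [div_pow, le_div_iff₀ (by positivity)]
      have h5 : t * hmp η p l x = t * b ^ 4 * l ^ 2 := by
        unfold hmp
        rw [← hb]
        ring
      rw [← h5]
      exact hts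
    obtain ⟨h5, h6⟩ := Hmp_elem ht0 ht1 hb0 hb1 ha h4
    have hcon : 0 ≤ 4 * Cb * η * l := by positivity
    constructor
    · calc ‖fderiv ℝ (fun x => t * hmp η p l x) x‖ ≤ 4 * Cb * η * l * (t * b ^ 3) := h3
        _ ≤ 4 * Cb * η * l * (s / l) := mul_le_mul_of_nonneg_left h5 hcon
        _ = 4 * Cb * (η * s) := by field_simp
        _ ≤ C * (η * s) := mul_le_mul_of_nonneg_right (by linarith) (by positivity)
        _ = C * η * s := by ring
    · calc ‖fderiv ℝ (fun x => t * hmp η p l x) x‖ * |Real.log (s / l)| ≤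
            4 * Cb * η * l * (t * b ^ 3) * |Real.log (s / l)| :=
            mul_le_mul_of_nonneg_right h3 (abs_nonneg _)
        _ = 4 * Cb * η * l * (t * b ^ 3 * |Real.log (s / l)|) := by ring
        _ ≤ 4 * Cb * η * l * (2 * (s / l)) := mul_le_mul_of_nonneg_left h6 hcon
        _ = 8 * Cb * (η * s) := by
            field_simp
            ring
        _ ≤ C * (η * s) := mul_le_mul_of_nonneg_right hC2 (by positivity)
        _ = C * η * s := by ring

end Pool.Agent.CEF
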