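import Pool.Agent.CEF.Defs

set_option maxSynthPendingDepth 3

open scoped ContDiff Topology ENNReal
open Set Function Filter MeasureTheory

/-!
# Campaign CEF: the derivative of averages (statement St_Ker)
-/

namespace Pool.Agent.CEF

open Pool.Agent.Helper17

variable {n : ℕ}

lemma Ker_hcs {F : Type*} [Zero F] {κ : Phase n → F} (h : ∀ z, 1 < ‖z‖ → κ z = 0) :
    HasCompactSupport κ := by
  apply HasCompactSupport.intro (isCompact_closedBall (0 : Phase n) 1)
  intro z hz
  apply h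
  simpa using hz

lemma Ker_fderiv_zero {κ : Phase n → ℝ} (h : ∀ z, 1 < ‖z‖ → κ z = 0) {z : Phase n}
    (hz : 1 < ‖z‖) : fderiv ℝ κ z = 0 := by
  have h1 : κ =ᶠ[𝓝 z] fun _ => 0 := by
    filter_upwards [(isOpen_lt continuous_const continuous_norm).mem_nhds hz] with w hw
    exact h w hw
  rw [h1.fderiv_eq]
  simp

lemma Ker_bound {κ : Phase n → ℝ} (hκ : ContDiff ℝ ∞ κ) (h : ∀ z, 1 < ‖z‖ → κ z = 0) :
    ∃ C : ℝ, 0 ≤ C ∧ ∀ z, ‖fderiv ℝ κ z‖ ≤ C := by
  obtain ⟨C, hC⟩ := (isCompact_closedBall (0 : Phase n) 1).exists_bound_of_continuousOn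
    (hκ.continuous_fderiv (by simp)).continuousOn
  refine ⟨max C 0, le_max_right _ _, fun z => ?_⟩
  rcases le_or_gt ‖z‖ 1 with hz | hz
  · exact (hC z (by simpa using hz)).trans (le_max_left _ _)
  · rw [Ker_fderiv_zero h hz, norm_zero]
    exact le_max_right _ _

/-- Integration by parts against a kernel. -/
lemma Ker_ibp {κ : Phase n → ℝ} (hκ : ContDiff ℝ ∞ κ) (h : ∀ z, 1 < ‖z‖ → κ z = 0) :
    ∃ C : ℝ, 0 ≤ C ∧ ∀ (a : Phase n → (Phase n →L[ℝ] Phase n)), ContDiff ℝ ∞ a → ∀ v,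
      ‖∫ z, κ z • fderiv ℝ a z v‖ ≤ C * ‖v‖ * ∫ z in Metric.closedBall (0 : Phase n) 1, ‖a z‖ := by
  obtain ⟨C, hC0, hC⟩ := Ker_bound hκ h
  refine ⟨C, hC0, fun a ha v => ?_⟩
  have hκc : Continuous κ := hκ.continuous
  have hκ' : Continuous (fun z => fderiv ℝ κ z v) :=
    (hκ.continuous_fderiv (by simp)).clm_apply continuous_const
  have hac : Continuous a := ha.continuous
  have ha' : Continuous (fun z => fderiv ℝ a z v) :=
    (ha.continuous_fderiv (by simp)).clm_apply continuous_const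
  have h1 : Integrable (fun z => (fderiv ℝ κ z v) • a z) :=
    (hκ'.smul hac).integrable_of_hasCompactSupport
      (Ker_hcs fun z hz => by show (fderiv ℝ κ z v) • a z = 0; rw [Ker_fderiv_zero h hz]; simp)
  have h2 : Integrable (fun z => κ z • fderiv ℝ a z v) :=
    (hκc.smul ha').integrable_of_hasCompactSupport
      (Ker_hcs fun z hz => by show κ z • fderiv ℝ a z v = 0; rw [h z hz, zero_smul])
  have h3 : Integrable (fun z => κ z • a z) :=
    (hκc.smul hac).integrable_of_hasCompactSupport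
      (Ker_hcs fun z hz => by show κ z • a z = 0; rw [h z hz, zero_smul])
  have h4 := integral_smul_fderiv_eq_neg_fderiv_smul_of_integrable h1 h2 h3
    (fun z _ => hκ.differentiable (by simp) z) (fun z _ => ha.differentiable (by simp) z)
  rw [h4, norm_neg]
  have h5 : ∫ z, (fderiv ℝ κ z v) • a z =
      ∫ z in Metric.closedBall (0 : Phase n) 1, (fderiv ℝ κ z v) • a z := by
    rw [setIntegral_eq_integral_of_forall_compl_eq_zero]
    intro z hz
    rw [Ker_fderiv_zero h (by simpa using hz)]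
    simp
  rw [h5]
  refine (norm_integral_le_integral_norm _).trans ?_
  rw [← integral_const_mul]
  apply setIntegral_mono
  · exact (hκ'.smul hac).norm.continuousOn.integrableOn_compact (isCompact_closedBall _ _)
  · exact (continuous_const.mul hac.norm).continuousOn.integrableOn_compact
      (isCompact_closedBall _ _)
  · intro z
    show ‖(fderiv ℝ κ z v) • a z‖ ≤ C * ‖v‖ * ‖a z‖
    rw [norm_smul]
    apply mul_le_mul_of_nonneg_right _ (norm_nonneg _)
    exact ((fderiv ℝ κ z).le_opNorm v).trans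
      (mul_le_mul_of_nonneg_right (hC z) (norm_nonneg _))

/-- The linear map `(x, s) ↦ x + s z`. -/
noncomputable def Ker_L (z : Phase n) : Phase n × ℝ →L[ℝ] Phase n :=
  ContinuousLinearMap.fst ℝ (Phase n) ℝ + (ContinuousLinearMap.snd ℝ (Phase n) ℝ).smulRight z

lemma Ker_L_apply (z : Phase n) (p : Phase n × ℝ) : Ker_L z p = p.1 + p.2 • z := by
  simp [Ker_L]

lemma Ker_L_cont : Continuous (fun z : Phase n => Ker_L z) := by
  unfold Ker_L
  exact continuous_const.add (ContinuousLinearMap.smulRightL ℝ (Phase n × ℝ) (Phase n)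
    (ContinuousLinearMap.snd ℝ (Phase n) ℝ)).continuous

lemma Ker_hasFDerivAt {ζ : Phase n → ℝ} (hζ : ContDiff ℝ ∞ ζ) (h : ∀ z, 1 < ‖z‖ → ζ z = 0)
    {φ : Phase n → Phase n} (hφ : ContDiff ℝ ∞ φ) (x : Phase n) (s : ℝ) :
    HasFDerivAt (fun p : Phase n × ℝ => kz ζ φ p.1 p.2)
      (∫ z in Metric.closedBall (0 : Phase n) 1,
        ζ z • (fderiv ℝ (fderiv ℝ φ) (x + s • z)).comp (Ker_L z)) (x, s) := by
  obtain ⟨A, hA⟩ : ∃ A, A = fderiv ℝ φ := ⟨_, rfl⟩
  have hAs : ContDiff ℝ ∞ A := by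
    rw [hA]
    exact hφ.fderiv_right (by simp)
  obtain ⟨F, hF⟩ : ∃ F : Unit × Phase n → Phase n × ℝ → (Phase n →L[ℝ] Phase n),
    F = fun q p => ζ q.2 • A (p.1 + p.2 • q.2) := ⟨_, rfl⟩
  have hd : ∀ (q : Unit × Phase n) (p : Phase n × ℝ), HasFDerivAt (F q)
      (ζ q.2 • (fderiv ℝ A (p.1 + p.2 • q.2)).comp (Ker_L q.2)) p := by
    intro q p
    have h1 : HasFDerivAt (fun p => Ker_L q.2 p) (Ker_L q.2) p := (Ker_L q.2).hasFDerivAt
    have h2 : HasFDerivAt A (fderiv ℝ A (Ker_L q.2 p)) (Ker_L q.2 p) :=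
      (hAs.differentiable (by simp) _).hasFDerivAt
    have h3 := (h2.comp p h1).const_smul (ζ q.2)
    rw [Ker_L_apply] at h3
    have h4 : F q = ζ q.2 • A ∘ (fun p => Ker_L q.2 p) := by
      funext p
      rw [hF]
      simp [Ker_L_apply]
    rw [h4]
    exact h3
  have hcA : Continuous A := hAs.continuous
  have hcA' : Continuous (fderiv ℝ A) := hAs.continuous_fderiv (by simp)
  have h0 : Continuous (fun p : (Unit × Phase n) × (Phase n × ℝ) => p.2.1 + p.2.2 • p.1.2) := by
    fun_prop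
  have h1 : Continuous (fun p : (Unit × Phase n) × (Phase n × ℝ) => F p.1 p.2) := by
    rw [hF]
    exact (hζ.continuous.comp (continuous_snd.comp continuous_fst)).smul (hcA.comp h0)
  have h2 : ∀ q, Differentiable ℝ (F q) := fun q p => (hd q p).differentiableAt
  have h3 : Continuous (fun p : (Unit × Phase n) × (Phase n × ℝ) => fderiv ℝ (F p.1) p.2) := by
    have h4 : (fun p : (Unit × Phase n) × (Phase n × ℝ) => fderiv ℝ (F p.1) p.2) =
        fun p => ζ p.1.2 • (fderiv ℝ A (p.2.1 + p.2.2 • p.1.2)).comp (Ker_L p.1.2) := by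
      funext p
      exact (hd p.1 p.2).fderiv
    rw [h4]
    exact (hζ.continuous.comp (continuous_snd.comp continuous_fst)).smul
      ((hcA'.comp h0).clm_comp (Ker_L_cont.comp (continuous_snd.comp continuous_fst)))
  have : IsFiniteMeasure (volume.restrict (Metric.closedBall (0 : Phase n) 1)) :=
    isFiniteMeasure_restrict.2 (measure_closedBall_lt_top (x := (0 : Phase n)) (r := 1)).ne
  have h5 := hasFDerivAt_setIntegral (isCompact_closedBall (0 : Phase n) 1)
    (volume.restrict (Metric.closedBall (0 : Phase n) 1)) h1 h2 h3 () (x, s)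
  rw [Measure.restrict_restrict_of_subset (Subset.refl _)] at h5
  have h6 : (fun p : Phase n × ℝ => kz ζ φ p.1 p.2) =
      fun p => ∫ z in Metric.closedBall (0 : Phase n) 1, F ((), z) p := by
    funext p
    rw [kz, hF, ← hA]
    symm
    apply setIntegral_eq_integral_of_forall_compl_eq_zero
    intro z hz
    show ζ z • A (p.1 + p.2 • z) = 0
    rw [h z (by simpa using hz), zero_smul]
  rw [h6, ← hA]
  have h7 : ∀ z : Phase n, fderiv ℝ (F ((), z)) (x, s) =
      ζ z • (fderiv ℝ A (x + s • z)).comp (Ker_L z) := fun z => (hd ((), z) (x, s)).fderiv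
  simp only [h7] at h5
  exact h5

theorem thm_Ker (n : ℕ) : St_Ker n := by
  intro ζ hζ h
  obtain ⟨b, hb⟩ : ∃ b : OrthonormalBasis (Fin (Module.finrank ℝ (Phase n))) ℝ (Phase n),
    b = stdOrthonormalBasis ℝ (Phase n) := ⟨_, rfl⟩
  have hζi : ∀ i, ContDiff ℝ ∞ (fun z => ζ z * inner ℝ (b i) z) := fun i =>
    hζ.mul (contDiff_const.inner ℝ contDiff_id)
  have hζi0 : ∀ i, ∀ z, 1 < ‖z‖ → ζ z * inner ℝ (b i) z = 0 := fun i z hz => by
    rw [h z hz, zero_mul]
  obtain ⟨C₀, hC₀, hI₀⟩ := Ker_ibp hζ h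
  choose Ci hCi hIi using fun i => Ker_ibp (hζi i) (hζi0 i)
  refine ⟨C₀ + ∑ i, Ci i, by have := Finset.sum_nonneg fun i (_ : i ∈ Finset.univ) => hCi i
                             linarith, fun φ hφ X S t X' S' hX hS hS0 B => ?_⟩
  have hSum0 : 0 ≤ ∑ i, Ci i := Finset.sum_nonneg fun i _ => hCi i
  obtain ⟨x, hx⟩ : ∃ x, x = X t := ⟨_, rfl⟩
  obtain ⟨s, hs⟩ : ∃ s, s = S t := ⟨_, rfl⟩
  rw [← hs] at hS0
  obtain ⟨A, hA⟩ : ∃ A, A = fderiv ℝ φ := ⟨_, rfl⟩
  have hAs : ContDiff ℝ ∞ A := by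
    rw [hA]
    exact hφ.fderiv_right (by simp)
  have hcA' : Continuous (fderiv ℝ A) := hAs.continuous_fderiv (by simp)
  have h1 := Ker_hasFDerivAt hζ h hφ x s
  have h2 : HasDerivAt (fun t => (X t, S t)) (X', S') t := hX.prodMk hS
  rw [hx, hs] at h1
  have h3 := h1.comp_hasDerivAt t h2
  rw [← hx, ← hs, ← hA] at h3
  obtain ⟨a, ha⟩ : ∃ a : Phase n → (Phase n →L[ℝ] Phase n), a = fun z => A (x + s • z) - B :=
    ⟨_, rfl⟩
  have haff : ContDiff ℝ ∞ (fun z : Phase n => x + s • z) :=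
    contDiff_const.add (contDiff_id.const_smul s)
  have has : ContDiff ℝ ∞ a := by
    rw [ha]
    exact (hAs.comp haff).sub contDiff_const
  have had : ∀ z v, fderiv ℝ a z v = s • fderiv ℝ A (x + s • z) v := by
    intro z v
    have h4 : HasFDerivAt (fun z : Phase n => x + s • z)
        (s • ContinuousLinearMap.id ℝ (Phase n)) z :=
      ((hasFDerivAt_id z).const_smul s).const_add x
    have h5 : HasFDerivAt a ((fderiv ℝ A (x + s • z)).comp
        (s • ContinuousLinearMap.id ℝ (Phase n))) z := by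
      rw [ha]
      exact (((hAs.differentiable (by simp) _).hasFDerivAt.comp z h4)).sub_const B
    rw [h5.fderiv]
    simp
  have hint : ∀ v : Phase n → Phase n, Continuous v →
      Integrable (fun z => ζ z • fderiv ℝ A (x + s • z) (v z)) := by
    intro v hv
    exact (hζ.continuous.smul ((hcA'.comp haff.continuous).clm_apply
      hv)).integrable_of_hasCompactSupport (Ker_hcs fun z hz => by
        show ζ z • fderiv ℝ A (x + s • z) (v z) = 0
        rw [h z hz, zero_smul])
  -- the value of the derivative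
  have h4 : (∫ z in Metric.closedBall (0 : Phase n) 1,
      ζ z • (fderiv ℝ A (x + s • z)).comp (Ker_L z)) (X', S') =
      ∫ z, ζ z • fderiv ℝ A (x + s • z) (X' + S' • z) := by
    rw [ContinuousLinearMap.integral_apply]
    · have h40 : ∀ z ∉ Metric.closedBall (0 : Phase n) 1,
          ζ z • fderiv ℝ A (x + s • z) (X' + S' • z) = 0 := by
        intro z hz
        rw [h z (by simpa using hz), zero_smul]
      rw [← setIntegral_eq_integral_of_forall_compl_eq_zero h40]
      apply integral_congr_ae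
      refine Eventually.of_forall fun z => ?_
      simp [Ker_L_apply]
    · exact (hζ.continuous.smul ((hcA'.comp haff.continuous).clm_comp
        Ker_L_cont)).continuousOn.integrableOn_compact (isCompact_closedBall _ _)
  have h5 : ∀ z : Phase n, ζ z • fderiv ℝ A (x + s • z) (X' + S' • z) =
      ζ z • fderiv ℝ A (x + s • z) X' +
        ∑ i, S' • ((ζ z * inner ℝ (b i) z) • fderiv ℝ A (x + s • z) (b i)) := by
    intro z
    rw [map_add, smul_add]
    congr 1
    have h6 : z = ∑ i, inner ℝ (b i) z • b i := (b.sum_repr' z).symm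
    rw [map_smul]
    conv_lhs => rw [show fderiv ℝ A (x + s • z) z = fderiv ℝ A (x + s • z)
      (∑ i, inner ℝ (b i) z • b i) from by rw [← h6]]
    rw [map_sum, Finset.smul_sum, Finset.smul_sum]
    apply Finset.sum_congr rfl
    intro i _
    rw [map_smul, smul_smul, smul_smul, smul_smul]
    congr 1
    ring
  have hinti : ∀ i, Integrable (fun z => (ζ z * inner ℝ (b i) z) •
      fderiv ℝ A (x + s • z) (b i)) := by
    intro i
    exact ((hζi i).continuous.smul ((hcA'.comp haff.continuous).clm_apply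
      continuous_const)).integrable_of_hasCompactSupport
      (Ker_hcs fun z hz => by
        show (ζ z * inner ℝ (b i) z) • fderiv ℝ A (x + s • z) (b i) = 0
        rw [hζi0 i z hz, zero_smul])
  have h7 : ∫ z, ζ z • fderiv ℝ A (x + s • z) (X' + S' • z) =
      (∫ z, ζ z • fderiv ℝ A (x + s • z) X') +
        ∑ i, S' • ∫ z, (ζ z * inner ℝ (b i) z) • fderiv ℝ A (x + s • z) (b i) := by
    have hs1 : ∀ i, Integrable (fun z => S' • ((ζ z * inner ℝ (b i) z) •
        fderiv ℝ A (x + s • z) (b i))) := fun i => (hinti i).smul S'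
    have hs2 : Integrable (fun z => ∑ i, S' • ((ζ z * inner ℝ (b i) z) •
        fderiv ℝ A (x + s • z) (b i))) := integrable_finsetSum _ fun i _ => hs1 i
    simp_rw [h5]
    rw [integral_add (hint (fun _ => X') continuous_const) hs2,
      integral_finsetSum _ fun i _ => hs1 i]
    simp_rw [integral_smul]
  obtain ⟨I, hI⟩ : ∃ I, I = ∫ z in Metric.closedBall (0 : Phase n) 1, ‖a z‖ := ⟨_, rfl⟩
  have hI0 : 0 ≤ I := by
    rw [hI]
    exact integral_nonneg fun z => norm_nonneg _
  refine ⟨_, h3, ?_⟩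
  rw [h4, h7, ← hx, ← hs, ← hA]
  have h8 : ‖∫ z, ζ z • fderiv ℝ A (x + s • z) X'‖ ≤ s⁻¹ * (C₀ * ‖X'‖ * I) := by
    have h9 := hI₀ a has X'
    simp_rw [had, smul_comm _ s] at h9
    rw [integral_smul, norm_smul, Real.norm_of_nonneg hS0.le, ← hI] at h9
    rw [← div_eq_inv_mul, le_div_iff₀ hS0, mul_comm]
    exact h9
  have h10 : ∀ i, ‖S' • ∫ z, (ζ z * inner ℝ (b i) z) • fderiv ℝ A (x + s • z) (b i)‖ ≤
      |S'| * (s⁻¹ * (Ci i * I)) := by
    intro i
    rw [norm_smul, Real.norm_eq_abs]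
    apply mul_le_mul_of_nonneg_left _ (abs_nonneg _)
    have h9 := hIi i a has (b i)
    simp_rw [had, smul_comm _ s] at h9
    rw [integral_smul, norm_smul, Real.norm_of_nonneg hS0.le, ← hI, b.norm_eq_one, mul_one] at h9
    rw [← div_eq_inv_mul, le_div_iff₀ hS0, mul_comm]
    exact h9
  have h11 : ∫ z in Metric.closedBall (0 : Phase n) 1, ‖A (x + s • z) - B‖ = I := by
    rw [hI, ha]
  rw [h11]
  have h12 : 0 ≤ s⁻¹ := (inv_pos.2 hS0).le
  calc ‖(∫ z, ζ z • fderiv ℝ A (x + s • z) X') +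
        ∑ i, S' • ∫ z, (ζ z * inner ℝ (b i) z) • fderiv ℝ A (x + s • z) (b i)‖
      ≤ s⁻¹ * (C₀ * ‖X'‖ * I) + ∑ i, |S'| * (s⁻¹ * (Ci i * I)) :=
        (norm_add_le _ _).trans (add_le_add h8 ((norm_sum_le _ _).trans
          (Finset.sum_le_sum fun i _ => h10 i)))
    _ = (C₀ * ‖X'‖ + (∑ i, Ci i) * |S'|) * (s⁻¹ * I) := by
        rw [add_mul, Finset.sum_mul, Finset.sum_mul]
        congr 1
        · ring
        · exact Finset.sum_congr rfl fun i _ => by ring
    _ ≤ ((C₀ + ∑ i, Ci i) * (‖X'‖ + |S'|)) * (s⁻¹ * I) := by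
        apply mul_le_mul_of_nonneg_right _ (mul_nonneg h12 hI0)
        nlinarith [mul_nonneg hC₀ (abs_nonneg S'), mul_nonneg hSum0 (norm_nonneg X')]
    _ = (C₀ + ∑ i, Ci i) * (‖X'‖ + |S'|) / s * I := by
        rw [div_eq_mul_inv]
        ring

end Pool.Agent.CEF
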