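import Pool.Agent.CEF.Defs

/-!
# CEF: the contracted half of a symplectic matrix

`thm_Lin : St_Lin n`.
-/

open scoped ContDiff Topology ENNReal
open Set Function Filter MeasureTheory

namespace Pool.Agent.CEF

open Pool.Agent.Helper17

private lemma Lin_inj {n : ℕ} {A : Phase n →L[ℝ] Phase n} (hA : SympL A) :
    Function.Injective A := by
  rw [injective_iff_map_eq_zero]
  intro v hv
  apply eq_zero_of_omegaStd
  intro w
  rw [← hA v w, hv, omegaStd_zero_left]

private lemma Lin_surj {n : ℕ} {A : Phase n →L[ℝ] Phase n} (hA : SympL A) :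
    Function.Surjective A :=
  (LinearMap.injective_iff_surjective (f := (A : Phase n →ₗ[ℝ] Phase n))).1 (Lin_inj hA)

private lemma Lin_AJA {n : ℕ} {A : Phase n →L[ℝ] Phase n} (hA : SympL A) (x : Phase n) :
    A (Jl n (ContinuousLinearMap.adjoint A x)) = Jl n x := by
  rw [← sub_eq_zero]
  apply eq_zero_of_omegaStd
  intro v
  obtain ⟨w, rfl⟩ := Lin_surj hA v
  rw [omegaStd_sub_left, hA, omegaStd_eq_inner, omegaStd_eq_inner, Jl_Jl, Jl_Jl, inner_neg_left,
    inner_neg_left, ContinuousLinearMap.adjoint_inner_left]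
  ring

private lemma Lin_J {n : ℕ} {A : Phase n →L[ℝ] Phase n} (hA : SympL A) (y : Phase n) :
    ContinuousLinearMap.adjoint A (Jl n (A y)) = Jl n y := by
  apply ext_inner_right ℝ
  intro v
  rw [ContinuousLinearMap.adjoint_inner_left, ← omegaStd_eq_inner, ← omegaStd_eq_inner, hA]

private lemma Lin_adj_inj {n : ℕ} {A : Phase n →L[ℝ] Phase n} (hA : SympL A) (x : Phase n)
    (hx : ContinuousLinearMap.adjoint A x = 0) : x = 0 := by
  have h1 := Lin_AJA hA x
  rw [hx, map_zero, map_zero] at h1
  have h2 := Jl_Jl x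
  rw [← h1, map_zero] at h2
  exact (neg_eq_zero.1 h2.symm)

theorem thm_Lin (n : ℕ) : St_Lin n := by
  intro A hA
  constructor
  · -- the positive symmetric operator
    let S : Phase n →ₗ[ℝ] Phase n :=
      ((A ∘L ContinuousLinearMap.adjoint A : Phase n →L[ℝ] Phase n) : Phase n →ₗ[ℝ] Phase n)
    have hSa : ∀ x, S x = A (ContinuousLinearMap.adjoint A x) := fun x => rfl
    have hS : S.IsSymmetric := by
      intro x y
      rw [hSa, hSa, ← ContinuousLinearMap.adjoint_inner_right A,
        ← ContinuousLinearMap.adjoint_inner_left A]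
    obtain ⟨N, hN⟩ : ∃ N, Module.finrank ℝ (Phase n) = N := ⟨_, rfl⟩
    let b := hS.eigenvectorBasis hN
    let l : Fin N → ℝ := hS.eigenvalues hN
    have hb : ∀ i, S (b i) = l i • b i := fun i => hS.apply_eigenvectorBasis hN i
    have hSs : ∀ u v, omegaStd (S u) (S v) = omegaStd u v := by
      intro u v
      rw [hSa, hSa, hA, omegaStd_eq_inner, ContinuousLinearMap.adjoint_inner_right, Lin_AJA hA,
        ← omegaStd_eq_inner]
    have hort : ∀ i j, inner ℝ (b i) (b j) = if i = j then (1 : ℝ) else 0 :=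
      orthonormal_iff_ite.1 b.orthonormal
    have hin : ∀ x y : Phase n, inner ℝ x y = ∑ i, inner ℝ (b i) x * inner ℝ (b i) y := by
      intro x y
      rw [← b.sum_inner_mul_inner x y]
      exact Finset.sum_congr rfl fun i _ => by rw [real_inner_comm]
    have hom : ∀ i j, 1 < l i → 1 < l j → omegaStd (b i) (b j) = 0 := by
      intro i j hi hj
      have h1 := hSs (b i) (b j)
      rw [hb, hb, omegaStd_smul_left, omegaStd_smul_right] at h1
      have h2 : 1 < l i * l j := by nlinarith
      have h3 : (l i * l j - 1) * omegaStd (b i) (b j) = 0 := by linarith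
      exact (mul_eq_zero.1 h3).resolve_left (by linarith)
    let P : Phase n →L[ℝ] Phase n :=
      ∑ i ∈ Finset.univ.filter (fun i => l i ≤ 1), (innerSL ℝ (b i)).smulRight (b i)
    have hPa : ∀ X, P X = ∑ i ∈ Finset.univ.filter (fun i => l i ≤ 1), inner ℝ (b i) X • b i := by
      intro X
      simp only [P, _root_.sum_apply, ContinuousLinearMap.smulRight_apply,
        innerSL_apply_apply]
    have hP : ∀ X j, inner ℝ (b j) (P X) = if l j ≤ 1 then inner ℝ (b j) X else 0 := by
      intro X j
      rw [hPa, inner_sum, Finset.sum_filter]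
      have : ∀ i, (if l i ≤ 1 then inner ℝ (b j) (inner ℝ (b i) X • b i) else 0) =
          if j = i then (if l j ≤ 1 then inner ℝ (b j) X else 0) else (0 : ℝ) := by
        intro i
        rw [inner_smul_right, hort]
        by_cases h : j = i
        · subst h; simp
        · simp [h]
      rw [Finset.sum_congr rfl fun i _ => this i]
      simp
    have hPX : ∀ X, inner ℝ (P X) X = ‖P X‖ ^ 2 := by
      intro X
      rw [← real_inner_self_eq_norm_sq, hin (P X) X, hin (P X) (P X)]
      refine Finset.sum_congr rfl fun i _ => ?_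
      rw [hP]
      split_ifs <;> simp
    have hPn : ∀ X, ‖P X‖ ≤ ‖X‖ := by
      intro X
      by_cases h : P X = 0
      · rw [h, norm_zero]; exact norm_nonneg _
      · have h1 : ‖P X‖ ^ 2 ≤ ‖P X‖ * ‖X‖ := by
          rw [← hPX]; exact real_inner_le_norm _ _
        have h2 : 0 < ‖P X‖ := norm_pos_iff.2 h
        nlinarith
    refine ⟨P, hPn, ?_, ?_⟩
    · intro X Y
      have hexp : ∀ X : Phase n, X - P X =
          ∑ i, (if l i ≤ 1 then 0 else inner ℝ (b i) X) • b i := by
        intro X
        rw [← b.sum_repr' (X - P X)]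
        refine Finset.sum_congr rfl fun i _ => ?_
        congr 1
        rw [inner_sub_right, hP]
        split_ifs <;> simp
      rw [hexp X, hexp Y, ← omegaB_apply, map_sum]
      refine Finset.sum_eq_zero fun j _ => ?_
      rw [map_smul, map_sum, _root_.sum_apply, Finset.smul_sum]
      refine Finset.sum_eq_zero fun i _ => ?_
      rw [map_smul, _root_.smul_apply, omegaB_apply]
      by_cases hi : l i ≤ 1
      · simp [hi]
      · by_cases hj : l j ≤ 1
        · simp [hj]
        · rw [hom i j (not_le.1 hi) (not_le.1 hj)]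
          simp
    · intro X
      refine ⟨-Jl n (P X), by rw [norm_neg, norm_Jl], ?_, ?_⟩
      · rw [omegaStd_eq_inner, map_neg, Jl_Jl, neg_neg, hPX]
      · intro y hy
        rw [norm_neg, norm_Jl]
        have h1 := Lin_J hA y
        rw [hy, map_neg, Jl_Jl, neg_neg] at h1
        rw [← norm_Jl y, ← h1]
        have h2 : ‖ContinuousLinearMap.adjoint A (P X)‖ ^ 2 ≤ ‖P X‖ ^ 2 := by
          rw [← real_inner_self_eq_norm_sq, ContinuousLinearMap.adjoint_inner_right, ← hSa,
            ← real_inner_self_eq_norm_sq, hin (S (P X)) (P X), hin (P X) (P X)]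
          refine Finset.sum_le_sum fun i _ => ?_
          have h3 : inner ℝ (b i) (S (P X)) = l i * inner ℝ (b i) (P X) := by
            rw [← hS (b i) (P X), hb, real_inner_smul_left]
          rw [h3, hP]
          split_ifs with h4
          · have := mul_self_nonneg (inner ℝ (b i) X : ℝ)
            nlinarith
          · simp
        exact (sq_le_sq₀ (norm_nonneg _) (norm_nonneg _)).1 h2
  · intro hn
    set T := ContinuousLinearMap.adjoint A with hT
    have hnT : ‖T‖ = ‖A‖ := by
      rw [hT]; exact LinearIsometryEquiv.norm_map _ _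
    -- a nonzero vector
    have hne : ∃ v : Phase n, v ≠ 0 := by
      refine ⟨EuclideanSpace.single (Sum.inl ⟨0, Nat.pos_of_ne_zero hn⟩) 1, ?_⟩
      intro h
      have := congrArg (fun v : Phase n => v (Sum.inl ⟨0, Nat.pos_of_ne_zero hn⟩)) h
      simp at this
    obtain ⟨v, hv⟩ := hne
    have hTpos : 0 < ‖T‖ := by
      rw [norm_pos_iff]
      intro h
      exact hv (Lin_adj_inj hA v (by rw [← hT, h]; simp))
    have hx : ∃ x : Phase n, ‖T‖ / 2 * ‖x‖ < ‖T x‖ := by
      by_contra hcon
      push Not at hcon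
      have := ContinuousLinearMap.opNorm_le_bound T (by positivity) hcon
      linarith
    obtain ⟨x, hx⟩ := hx
    have hTx : 0 < ‖T x‖ := lt_of_le_of_lt (by positivity) hx
    refine ⟨(‖T x‖)⁻¹ • Jl n (T x), ?_, ?_⟩
    · rw [norm_smul, norm_Jl, norm_inv, norm_norm, inv_mul_cancel₀ hTx.ne']
    · rw [map_smul, Lin_AJA hA, norm_smul, norm_Jl, norm_inv, norm_norm, ← hnT]
      have h1 : ‖T x‖⁻¹ * ‖x‖ * ‖T‖ = (‖T‖ * ‖x‖) / ‖T x‖ := by
        field_simp
      rw [h1, div_le_iff₀ hTx]
      nlinarith

end Pool.Agent.CEF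

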