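import Pool.Agent.CEF.Defs
import Pool.Agent.Helper17.SobolevPoincare

/-!
# CEF [Poi]: the inequality of Poincare for the oscillation integrals (helper36)
-/

set_option autoImplicit false
set_option maxSynthPendingDepth 3

open scoped ContDiff Topology ENNReal
open Set Function Filter MeasureTheory

namespace Pool.Agent.CEF

open Pool.Agent.Helper17

lemma Poi_jensen {F : Type*} [NormedAddCommGroup F] {a : ℝ → F} (ha : Continuous a) {q : ℕ}
    (hq : q ≠ 0) :
    (∫⁻ t in Icc (0 : ℝ) 1, ‖a t‖ₑ) ^ q ≤ ∫⁻ t in Icc (0 : ℝ) 1, ‖a t‖ₑ ^ q := by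
  have : IsProbabilityMeasure (volume.restrict (Icc (0 : ℝ) 1)) :=
    ⟨by rw [Measure.restrict_apply MeasurableSet.univ, univ_inter, Real.volume_Icc]; simp⟩
  have hq1 : (1 : ℝ≥0∞) ≤ ((q : NNReal) : ℝ≥0∞) := by
    rw [ENNReal.coe_natCast]
    exact_mod_cast Nat.one_le_iff_ne_zero.2 hq
  have h1 : eLpNorm a 1 (volume.restrict (Icc (0 : ℝ) 1)) ≤
      eLpNorm a ((q : NNReal) : ℝ≥0∞) (volume.restrict (Icc (0 : ℝ) 1)) :=
    eLpNorm_le_eLpNorm_of_exponent_le hq1 ha.aestronglyMeasurable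
  rw [eLpNorm_one_eq_lintegral_enorm] at h1
  have h2 := pow_le_pow_left₀ (by positivity) h1 q
  refine h2.trans (le_of_eq ?_)
  have h3 := eLpNorm_nnreal_pow_eq_lintegral (f := a) (μ := volume.restrict (Icc (0 : ℝ) 1))
    (p := (q : NNReal)) (by exact_mod_cast hq)
  simp only [NNReal.coe_natCast, ENNReal.rpow_natCast] at h3
  exact h3

section

variable {E : Type*} [NormedAddCommGroup E] [InnerProductSpace ℝ E] [FiniteDimensional ℝ E]
  [MeasurableSpace E] [BorelSpace E]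
  {F : Type*} [NormedAddCommGroup F] [NormedSpace ℝ F] [CompleteSpace F]

lemma Poi_double {g : E → F} (hg : ContDiff ℝ 1 g) {q : ℕ} (hq : q ≠ 0) :
    ∫⁻ z in Metric.closedBall (0 : E) 1, ∫⁻ y in Metric.closedBall (0 : E) 1,
      ‖g z - g y‖ₑ ^ q ≤
      2 ^ q * (volume (Metric.closedBall (0 : E) 1) * (2 ^ (Module.finrank ℝ E) *
        ∫⁻ y in Metric.closedBall (0 : E) 1, ‖fderiv ℝ g y‖ₑ ^ q)) := by
  set B := Metric.closedBall (0 : E) 1 with hB
  have hBm : MeasurableSet B := measurableSet_closedBall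
  have hBc : Convex ℝ B := convex_closedBall 0 1
  have hfc : Continuous (fderiv ℝ g) := hg.continuous_fderiv (by simp)
  have h2q : (2 : ℝ≥0∞) ^ q ≠ ⊤ := ENNReal.pow_ne_top (by norm_num)
  calc ∫⁻ z in B, ∫⁻ y in B, ‖g z - g y‖ₑ ^ q ≤
        ∫⁻ z in B, ∫⁻ y in B, 2 ^ q *
          ∫⁻ t in Icc (0 : ℝ) 1, ‖fderiv ℝ g (y + t • (z - y))‖ₑ ^ q := by
        apply setLIntegral_mono' hBm
        intro z hz
        apply setLIntegral_mono' hBm
        intro y hy
        have h1 := enorm_sub_le_lintegral hg y z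
        have h2 : ‖z - y‖ₑ ≤ 2 := by
          rw [← ofReal_norm]
          have e2 : (2 : ℝ≥0∞) = ENNReal.ofReal 2 := by simp
          rw [e2]
          apply ENNReal.ofReal_le_ofReal
          refine (norm_sub_le _ _).trans ?_
          rw [hB, mem_closedBall_zero_iff] at hz hy
          linarith
        have hc : Continuous (fun t : ℝ => fderiv ℝ g (y + t • (z - y))) :=
          hfc.comp (continuous_const.add (continuous_id.smul continuous_const))
        calc ‖g z - g y‖ₑ ^ q ≤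
              (2 * ∫⁻ t in Icc (0 : ℝ) 1, ‖fderiv ℝ g (y + t • (z - y))‖ₑ) ^ q := by
              gcongr
              exact h1.trans (mul_le_mul' h2 le_rfl)
          _ = 2 ^ q * (∫⁻ t in Icc (0 : ℝ) 1, ‖fderiv ℝ g (y + t • (z - y))‖ₑ) ^ q := by
              rw [mul_pow]
          _ ≤ _ := mul_le_mul' le_rfl (Poi_jensen hc hq)
    _ = 2 ^ q * ∫⁻ z in B, ∫⁻ y in B,
          ∫⁻ t in Icc (0 : ℝ) 1, ‖fderiv ℝ g (y + t • (z - y))‖ₑ ^ q := by
        rw [← lintegral_const_mul' _ _ h2q]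
        congr 1
        ext1 z
        rw [lintegral_const_mul' _ _ h2q]
    _ ≤ _ := mul_le_mul' le_rfl (lintegral_segments_le_of_continuous
          ((ENNReal.continuous_pow q).comp hfc.enorm) hBc hBm)

end

variable {n : ℕ}

lemma Poi_fderiv {φ : Phase n → Phase n} (hφ : ContDiff ℝ ∞ φ) (x : Phase n) {s : ℝ}
    (hs : 0 < s) (z : Phase n) :
    ‖fderiv ℝ (fun z => fderiv ℝ φ (x + s • z)) z‖ =
      s * ‖fderiv ℝ (fderiv ℝ φ) (x + s • z)‖ := by
  have hdf : Differentiable ℝ (fderiv ℝ φ) :=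
    (hφ.fderiv_right (m := ∞) (by simp)).differentiable (by simp)
  have h1 : HasFDerivAt (fun z : Phase n => x + s • z) (s • ContinuousLinearMap.id ℝ (Phase n))
      z := ((hasFDerivAt_id z).const_smul s).const_add x
  have h2 : HasFDerivAt (fun z => fderiv ℝ φ (x + s • z))
      ((fderiv ℝ (fderiv ℝ φ) (x + s • z)).comp (s • ContinuousLinearMap.id ℝ (Phase n))) z :=
    ((hdf (x + s • z)).hasFDerivAt).comp z h1
  rw [h2.fderiv, ContinuousLinearMap.comp_smul, ContinuousLinearMap.comp_id, norm_smul,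
    Real.norm_of_nonneg hs.le]

lemma Poi_arith {V : ℝ≥0∞} (hV : V ≠ ⊤) (d : ℕ) (I : ℝ) :
    2 ^ 4 * (V * (2 ^ d * ENNReal.ofReal I)) =
      ENNReal.ofReal ((2 ^ 4 * (V.toReal * 2 ^ d)) * I) := by
  rw [ENNReal.ofReal_mul (by positivity), ENNReal.ofReal_mul (by positivity),
    ENNReal.ofReal_mul (by positivity), ENNReal.ofReal_toReal hV,
    ENNReal.ofReal_pow (by norm_num), ENNReal.ofReal_pow (by norm_num),
    ENNReal.ofReal_ofNat]
  ring

lemma Poi_lint {φ : Phase n → Phase n} (hφ : ContDiff ℝ ∞ φ) (x : Phase n) {s : ℝ}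
    (hs : 0 < s) (q : ℕ) :
    ∫⁻ y in Metric.closedBall (0 : Phase n) 1,
      ‖fderiv ℝ (fun z : Phase n => fderiv ℝ φ (x + s • z)) y‖ₑ ^ q =
      ENNReal.ofReal (∫ z in Metric.closedBall (0 : Phase n) 1,
        (s * ‖fderiv ℝ (fderiv ℝ φ) (x + s • z)‖) ^ q) := by
  have hdf : ContDiff ℝ ∞ (fderiv ℝ φ) := hφ.fderiv_right (m := ∞) (by simp)
  have hd2 : Continuous (fderiv ℝ (fderiv ℝ φ)) := hdf.continuous_fderiv (by simp)
  have hcont : Continuous (fun z : Phase n => (s * ‖fderiv ℝ (fderiv ℝ φ) (x + s • z)‖) ^ q) :=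
    (continuous_const.mul ((hd2.comp (continuous_const.add
      (continuous_id.const_smul s))).norm)).pow q
  have h0 : ∀ z : Phase n, 0 ≤ (s * ‖fderiv ℝ (fderiv ℝ φ) (x + s • z)‖) ^ q := fun z =>
    pow_nonneg (mul_nonneg hs.le (norm_nonneg _)) q
  rw [ofReal_integral_eq_lintegral_ofReal
    (hcont.continuousOn.integrableOn_compact (isCompact_closedBall _ _))
    (Eventually.of_forall h0)]
  congr 1
  ext1 z
  rw [← ofReal_norm, Poi_fderiv hφ x hs z, ENNReal.ofReal_pow (by positivity)]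

lemma Poi_cd {φ : Phase n → Phase n} (hφ : ContDiff ℝ ∞ φ) (x : Phase n) (s : ℝ) :
    ContDiff ℝ 1 (fun z : Phase n => fderiv ℝ φ (x + s • z)) := by
  have hdf : ContDiff ℝ 1 (fderiv ℝ φ) :=
    (hφ.fderiv_right (m := ∞) (by simp)).of_le (by simp)
  exact hdf.comp (contDiff_const.add (contDiff_id.const_smul s))

lemma Poi_main {φ : Phase n → Phase n} (hφ : ContDiff ℝ ∞ φ) (x : Phase n) {s : ℝ}
    (hs : 0 < s) {q : ℕ} (hq : q ≠ 0) (hq4 : q ≤ 4) :
    osc q φ x s ≤ ENNReal.ofReal ((2 ^ 4 * ((volume (Metric.closedBall (0 : Phase n) 1)).toReal *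
      2 ^ (Module.finrank ℝ (Phase n)))) * ∫ z in Metric.closedBall (0 : Phase n) 1,
      (s * ‖fderiv ℝ (fderiv ℝ φ) (x + s • z)‖) ^ q) := by
  have hV : volume (Metric.closedBall (0 : Phase n) 1) ≠ ⊤ := measure_closedBall_lt_top.ne
  rw [← Poi_arith hV, ← Poi_lint hφ x hs q]
  have e1 : (2 : ℝ≥0∞) ^ q ≤ 2 ^ 4 := pow_le_pow_right₀ (by norm_num) hq4
  exact (Poi_double (Poi_cd hφ x s) hq).trans (mul_le_mul' e1 le_rfl)

theorem thm_Poi (n : ℕ) : St_Poi n := by
  refine ⟨2 ^ 4 * ((volume (Metric.closedBall (0 : Phase n) 1)).toReal *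
      2 ^ (Module.finrank ℝ (Phase n))), by positivity, fun φ hφ x s hs => ⟨?_, ?_⟩⟩
  · exact Poi_main hφ x hs (by norm_num) (by norm_num)
  · exact Poi_main hφ x hs (by norm_num) (by norm_num)

end Pool.Agent.CEF
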