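import Pool.Agent.CEF.Defs

set_option maxSynthPendingDepth 3

open scoped ContDiff Topology
open Set Function Filter MeasureTheory

/-!
# Campaign CEF, module Quo: the quotient of two nearly symplectic maps
-/

namespace Pool.Agent.CEF

open Pool.Agent.Helper17

variable {n : ℕ}

lemma Quo_diff1 {f : Phase n → Phase n} (hf : ContDiff ℝ ∞ f) (x : Phase n) :
    DifferentiableAt ℝ f x := hf.differentiable (by simp) x

lemma Quo_diff2 {f : Phase n → Phase n} (hf : ContDiff ℝ ∞ f) (x : Phase n) :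
    DifferentiableAt ℝ (fderiv ℝ f) x :=
  ((hf.fderiv_right (m := ∞) (by simp)).differentiable (by simp)) x

/-- the second derivative of a composition -/
lemma Quo_comp2 {A Φ : Phase n → Phase n} (hA : ContDiff ℝ ∞ A) (hΦ : ContDiff ℝ ∞ Φ)
    (w v u : Phase n) :
    fderiv ℝ (fun w => (fderiv ℝ A (Φ w)).comp (fderiv ℝ Φ w)) w v u =
      fderiv ℝ A (Φ w) (fderiv ℝ (fderiv ℝ Φ) w v u) +
        fderiv ℝ (fderiv ℝ A) (Φ w) (fderiv ℝ Φ w v) (fderiv ℝ Φ w u) := by
  have h1 : HasFDerivAt (fun w => fderiv ℝ A (Φ w))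
      ((fderiv ℝ (fderiv ℝ A) (Φ w)).comp (fderiv ℝ Φ w)) w :=
    (Quo_diff2 hA (Φ w)).hasFDerivAt.comp w (Quo_diff1 hΦ w).hasFDerivAt
  have h2 : HasFDerivAt (fderiv ℝ Φ) (fderiv ℝ (fderiv ℝ Φ) w) w :=
    (Quo_diff2 hΦ w).hasFDerivAt
  rw [(h1.clm_comp h2).fderiv]
  simp

lemma Quo_fderiv_comp {A Φ : Phase n → Phase n} (hA : ContDiff ℝ ∞ A) (hΦ : ContDiff ℝ ∞ Φ) :
    fderiv ℝ (fun y => A (Φ y)) = fun w => (fderiv ℝ A (Φ w)).comp (fderiv ℝ Φ w) := by
  funext y
  exact fderiv_comp y (Quo_diff1 hA _) (Quo_diff1 hΦ _)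

/-- the second derivative of the inverse -/
lemma Quo_hess_inv {B Φ : Phase n → Phase n} (hB : ContDiff ℝ ∞ B) (hΦ : ContDiff ℝ ∞ Φ)
    (h1 : ∀ x, Φ (B x) = x) (h2 : ∀ y, B (Φ y) = y) (w v u : Phase n) :
    fderiv ℝ (fderiv ℝ Φ) w v u =
      -fderiv ℝ Φ w (fderiv ℝ (fderiv ℝ B) (Φ w) (fderiv ℝ Φ w v) (fderiv ℝ Φ w u)) := by
  have e1 := Quo_comp2 hB hΦ w v u
  have e2 : (fun w => (fderiv ℝ B (Φ w)).comp (fderiv ℝ Φ w)) =
      fun _ => ContinuousLinearMap.id ℝ (Phase n) := by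
    rw [← Quo_fderiv_comp hB hΦ]
    have e3 : (fun y => B (Φ y)) = id := funext h2
    rw [e3]
    funext y
    exact fderiv_id
  rw [e2] at e1
  have e4 : fderiv ℝ B (Φ w) (fderiv ℝ (fderiv ℝ Φ) w v u) =
      -(fderiv ℝ (fderiv ℝ B) (Φ w) (fderiv ℝ Φ w v) (fderiv ℝ Φ w u)) := by
    have e5 : fderiv ℝ (fun _ : Phase n => ContinuousLinearMap.id ℝ (Phase n)) w v u = 0 := by
      simp
    rw [e5] at e1
    exact eq_neg_of_add_eq_zero_left e1.symm
  have e6 := fderiv_inverse hΦ hB h1 (Φ w) (fderiv ℝ (fderiv ℝ Φ) w v u)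
  rw [h2] at e6
  rw [← e6, e4, map_neg]

/-- quantitative admissibility of the quotient of two nearly symplectic linear maps -/
lemma Quo_qadm {DA DB DP : Phase n →L[ℝ] Phase n} {L : ℝ} (hL1 : 1 ≤ L)
    (h1 : ∀ v, DP (DB v) = v) (h2 : ∀ v, DB (DP v) = v) (hL : ‖DB‖ ≤ L)
    (nA : NearL (1 / 2) DA) (nB : NearL (1 / 2) DB) :
    QAdm (1 / (2 * L ^ 2)) (DA.comp DP) := by
  intro u'
  have hL0 : 0 < L := by linarith
  set u := DP u' with hu
  have hu' : DB u = u' := h2 u'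
  have hnu : ‖u'‖ ≤ L * ‖u‖ := by
    rw [← hu']
    exact (DB.le_opNorm u).trans (mul_le_mul_of_nonneg_right hL (norm_nonneg _))
  rcases (norm_nonneg u).eq_or_lt with h0 | h0
  · have hz : ‖u'‖ = 0 := le_antisymm (by rw [← h0, mul_zero] at hnu; exact hnu) (norm_nonneg _)
    refine ⟨0, by simp, fun s _ => ?_⟩
    have hz' : u' = 0 := norm_eq_zero.1 hz
    rw [hz']
    simp [omegaStd_zero_left]
  · set k : ℝ := ‖u'‖ / (L * ‖u‖) with hk
    have hk0 : 0 ≤ k := by positivity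
    have hkL : k * (L * ‖u‖) = ‖u'‖ := by rw [hk]; field_simp
    refine ⟨k • DB (Jl n u), ?_, fun s hs => ?_⟩
    · rw [norm_smul, Real.norm_of_nonneg hk0]
      have h3 : ‖DB (Jl n u)‖ ≤ L * ‖u‖ := by
        have := DB.le_opNorm (Jl n u)
        rw [norm_Jl] at this
        exact this.trans (mul_le_mul_of_nonneg_right hL (norm_nonneg _))
      calc k * ‖DB (Jl n u)‖ ≤ k * (L * ‖u‖) := mul_le_mul_of_nonneg_left h3 hk0
        _ = ‖u'‖ := hkL
    · have e1 : (DA.comp DP) (k • DB (Jl n u)) = k • DA (Jl n u) := by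
        rw [ContinuousLinearMap.comp_apply, map_smul, h1, map_smul]
      have e2 : (DA.comp DP) u' = DA u := rfl
      rw [e1, e2, omegaStd_smul_right, omegaStd_smul_right]
      have e3 := nB.lower u
      rw [hu'] at e3
      have e4 := nA.lower u
      have e5 : 1 / 2 * ‖u‖ ^ 2 ≤ (1 - s) * omegaStd u' (DB (Jl n u)) +
          s * omegaStd (DA u) (DA (Jl n u)) := by
        have h5 : (1 - s) * (1 / 2 * ‖u‖ ^ 2) ≤ (1 - s) * omegaStd u' (DB (Jl n u)) :=
          mul_le_mul_of_nonneg_left (by linarith) (by linarith [hs.2])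
        have h6 : s * (1 / 2 * ‖u‖ ^ 2) ≤ s * omegaStd (DA u) (DA (Jl n u)) :=
          mul_le_mul_of_nonneg_left (by linarith) hs.1
        linarith
      have e6 : k * (1 / 2 * ‖u‖ ^ 2) ≤ (1 - s) * (k * omegaStd u' (DB (Jl n u))) +
          s * (k * omegaStd (DA u) (DA (Jl n u))) := by
        have := mul_le_mul_of_nonneg_left e5 hk0
        linarith
      refine le_trans ?_ e6
      have e7 : k * (1 / 2 * ‖u‖ ^ 2) = ‖u'‖ * ‖u‖ / (2 * L) := by
        rw [← hkL]; field_simp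
      rw [e7]
      have e8 : ‖u'‖ / L ≤ ‖u‖ := by rw [div_le_iff₀ hL0]; linarith
      calc 1 / (2 * L ^ 2) * ‖u'‖ ^ 2 = ‖u'‖ * (‖u'‖ / L) / (2 * L) := by field_simp
        _ ≤ ‖u'‖ * ‖u‖ / (2 * L) := by gcongr

lemma Quo_qadm_one {c : ℝ} (hc : c ≤ 1) : QAdm c (ContinuousLinearMap.id ℝ (Phase n)) := by
  intro u
  refine ⟨Jl n u, by rw [norm_Jl], fun s _ => ?_⟩
  simp only [ContinuousLinearMap.id_apply, omegaStd_Jl]
  nlinarith [sq_nonneg ‖u‖]

lemma Quo_adm_of_qadm {c : ℝ} (hc : 0 < c) {D : Phase n →L[ℝ] Phase n} (h : QAdm c D) :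
    Admissible D := by
  intro s hs u hu
  obtain ⟨v, -, hv⟩ := h u
  have h1 := hv s hs
  rw [hu v] at h1
  have h2 : ‖u‖ ^ 2 ≤ 0 := by
    by_contra h3
    have := mul_pos hc (not_le.1 h3)
    linarith
  have h3 : ‖u‖ = 0 := by
    have := sq_nonneg ‖u‖
    nlinarith [norm_nonneg u]
  exact norm_eq_zero.1 h3

/-- the derivatives of a rescaled map -/
lemma Quo_rescale {γ : Phase n → Phase n} (hγ : ContDiff ℝ ∞ γ) (P : Phase n) {r : ℝ}
    (hr : 0 < r) :
    fderiv ℝ (fun y => r⁻¹ • (γ (P + r • y) - P)) = fun y => fderiv ℝ γ (P + r • y) := by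
  funext y
  have h1 : HasFDerivAt (fun y : Phase n => P + r • y) (r • ContinuousLinearMap.id ℝ (Phase n)) y :=
    ((hasFDerivAt_id y).const_smul r).const_add P
  have h2 : HasFDerivAt (fun y => γ (P + r • y))
      ((fderiv ℝ γ (P + r • y)).comp (r • ContinuousLinearMap.id ℝ (Phase n))) y :=
    (Quo_diff1 hγ (P + r • y)).hasFDerivAt.comp y h1
  have h3 := (h2.sub_const P).const_smul r⁻¹
  refine HasFDerivAt.fderiv (h3.congr_fderiv ?_)
  ext1 v
  simp only [ContinuousLinearMap.smul_apply, ContinuousLinearMap.comp_apply,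
    ContinuousLinearMap.id_apply, map_smul]
  rw [smul_smul, inv_mul_cancel₀ hr.ne', one_smul]

lemma Quo_rescale2 {γ : Phase n → Phase n} (hγ : ContDiff ℝ ∞ γ) (P : Phase n) (r : ℝ)
    (y : Phase n) : ‖fderiv ℝ (fun y => fderiv ℝ γ (P + r • y)) y‖ ≤
      |r| * ‖fderiv ℝ (fderiv ℝ γ) (P + r • y)‖ := by
  have h1 : HasFDerivAt (fun y : Phase n => P + r • y) (r • ContinuousLinearMap.id ℝ (Phase n)) y :=
    ((hasFDerivAt_id y).const_smul r).const_add P
  have h2 : HasFDerivAt (fun y => fderiv ℝ γ (P + r • y))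
      ((fderiv ℝ (fderiv ℝ γ) (P + r • y)).comp (r • ContinuousLinearMap.id ℝ (Phase n))) y :=
    (Quo_diff2 hγ (P + r • y)).hasFDerivAt.comp y h1
  rw [h2.fderiv]
  refine ContinuousLinearMap.opNorm_le_bound _ (by positivity) fun v => ?_
  simp only [ContinuousLinearMap.smul_apply, ContinuousLinearMap.comp_apply,
    ContinuousLinearMap.id_apply, map_smul]
  rw [norm_smul, Real.norm_eq_abs, mul_assoc]
  exact mul_le_mul_of_nonneg_left (ContinuousLinearMap.le_opNorm _ _) (abs_nonneg _)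

theorem thm_Quo (n : ℕ) : St_Quo n := by
  intro Rm L H hRm hL1 hH
  have hL0 : 0 < L := by linarith
  refine ⟨L * Rm, 4 * L ^ 2, 16 * L ^ 2 * H + 64 * L ^ 4 * H, 1 / (2 * L ^ 2), by nlinarith,
    by positivity, by positivity, ?_⟩
  intro A B Φ p R r hR hRm' hr hA hB hΦ h1 h2 nA nB heq hbd
  set γ : Phase n → Phase n := fun y => A (Φ y) with hγ
  have hγs : ContDiff ℝ ∞ γ := hA.smooth.comp hΦ
  have hRr : 0 < R * r := mul_pos hR hr
  have hc1 : 1 / (2 * L ^ 2) ≤ 1 := by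
    rw [div_le_one (by positivity)]
    nlinarith
  -- bounds at every point
  have key : ∀ w, ‖fderiv ℝ γ w‖ ≤ 4 * L ^ 2 ∧
      ‖fderiv ℝ (fderiv ℝ γ) w‖ ≤ (16 * L ^ 2 * H + 64 * L ^ 4 * H) / r ∧
      QAdm (1 / (2 * L ^ 2)) (fderiv ℝ γ w) := by
    intro w
    by_cases hw : ‖Φ w - p‖ ≤ 2 * R * r
    · obtain ⟨hA1, hB1, hA2, hB2⟩ := hbd (Φ w) hw
      have hinv : ∀ v, fderiv ℝ B (Φ w) (fderiv ℝ Φ w v) = v := fun v =>
        fderiv_inverse hB.smooth hΦ h2 w v
      have hinv' : ∀ v, fderiv ℝ Φ w (fderiv ℝ B (Φ w) v) = v := by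
        intro v
        have := fderiv_inverse hΦ hB.smooth h1 (Φ w) v
        rwa [h2] at this
      have hP : ∀ v, ‖fderiv ℝ Φ w v‖ ≤ 4 * L * ‖v‖ := by
        intro v
        have := (nB (Φ w)).norm_ge (le_refl _) hL1 (by linarith) (fderiv ℝ Φ w v)
        rwa [hinv] at this
      have hPn : ‖fderiv ℝ Φ w‖ ≤ 4 * L :=
        ContinuousLinearMap.opNorm_le_bound _ (by positivity) hP
      have hd : fderiv ℝ γ w = (fderiv ℝ A (Φ w)).comp (fderiv ℝ Φ w) := by
        rw [hγ, Quo_fderiv_comp hA.smooth hΦ]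
      refine ⟨?_, ?_, ?_⟩
      · rw [hd]
        refine (ContinuousLinearMap.opNorm_comp_le _ _).trans ?_
        calc ‖fderiv ℝ A (Φ w)‖ * ‖fderiv ℝ Φ w‖ ≤ L * (4 * L) :=
              mul_le_mul hA1 hPn (norm_nonneg _) hL0.le
          _ = 4 * L ^ 2 := by ring
      · refine ContinuousLinearMap.opNorm_le_bound₂ _ (by positivity) fun v u => ?_
        have e1 : fderiv ℝ (fderiv ℝ γ) w v u =
            fderiv ℝ A (Φ w) (fderiv ℝ (fderiv ℝ Φ) w v u) +
            fderiv ℝ (fderiv ℝ A) (Φ w) (fderiv ℝ Φ w v) (fderiv ℝ Φ w u) := by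
          rw [hγ, Quo_fderiv_comp hA.smooth hΦ]
          exact Quo_comp2 hA.smooth hΦ w v u
        have e2 : ∀ (D : Phase n →L[ℝ] Phase n →L[ℝ] Phase n), ‖D‖ ≤ H / r →
            ‖D (fderiv ℝ Φ w v) (fderiv ℝ Φ w u)‖ ≤ H / r * (4 * L * ‖v‖) * (4 * L * ‖u‖) := by
          intro D hD
          refine (D.le_opNorm₂ _ _).trans ?_
          have h5 : 0 ≤ H / r := by positivity
          gcongr
          · exact hP v
          · exact hP u
        have e3 : ‖fderiv ℝ (fderiv ℝ Φ) w v u‖ ≤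
            4 * L * (H / r * (4 * L * ‖v‖) * (4 * L * ‖u‖)) := by
          rw [Quo_hess_inv hB.smooth hΦ h1 h2, norm_neg]
          exact (hP _).trans (mul_le_mul_of_nonneg_left (e2 _ hB2) (by positivity))
        have e4 : ‖fderiv ℝ A (Φ w) (fderiv ℝ (fderiv ℝ Φ) w v u)‖ ≤
            L * (4 * L * (H / r * (4 * L * ‖v‖) * (4 * L * ‖u‖))) :=
          ((fderiv ℝ A (Φ w)).le_opNorm _).trans
            (mul_le_mul hA1 e3 (norm_nonneg _) hL0.le)
        rw [e1]
        refine (norm_add_le _ _).trans ((add_le_add e4 (e2 _ hA2)).trans (le_of_eq ?_))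
        ring
      · rw [hd]
        exact Quo_qadm hL1 hinv' hinv hB1 (nA _) (nB _)
    · have hopen : ∀ᶠ w' in 𝓝 w, γ w' = w' := by
        have h5 : ∀ᶠ w' in 𝓝 w, R * r < ‖Φ w' - p‖ := by
          have hc : Continuous fun w' => ‖Φ w' - p‖ :=
            (hΦ.continuous.sub continuous_const).norm
          have h9 : R * r < ‖Φ w - p‖ := by
            have := not_le.1 hw
            nlinarith
          exact (hc.tendsto w).eventually_const_lt h9
        filter_upwards [h5] with w' hw'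
        change A (Φ w') = w'
        rw [heq _ hw', h2]
      have hd1 : fderiv ℝ γ w = ContinuousLinearMap.id ℝ (Phase n) := by
        have h6 : γ =ᶠ[𝓝 w] id := hopen
        rw [h6.fderiv_eq, fderiv_id]
      have hd2 : fderiv ℝ (fderiv ℝ γ) w = 0 := by
        have h6 : γ =ᶠ[𝓝 w] id := hopen
        have h7 : fderiv ℝ γ =ᶠ[𝓝 w] fun _ => ContinuousLinearMap.id ℝ (Phase n) := by
          have h8 : fderiv ℝ γ =ᶠ[𝓝 w] fderiv ℝ id := h6.fderiv
          filter_upwards [h8] with w' hw'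
          rw [hw', fderiv_id]
        rw [h7.fderiv_eq]
        simp
      refine ⟨?_, ?_, ?_⟩
      · rw [hd1]
        exact ContinuousLinearMap.norm_id_le.trans (by nlinarith)
      · rw [hd2, norm_zero]
        positivity
      · rw [hd1]
        exact Quo_qadm_one hc1
  refine ⟨⟨hγs, ?_, fun x => Quo_adm_of_qadm (by positivity) (key x).2.2⟩, ?_⟩
  · obtain ⟨K, hK, hAK⟩ := hA.supp
    obtain ⟨K', hK', hBK⟩ := hB.supp
    refine ⟨K ∪ K', hK.union hK', fun x hx => ?_⟩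
    have hx1 : x ∉ K := fun h => hx (Or.inl h)
    have hx2 : x ∉ K' := fun h => hx (Or.inr h)
    have h5 : Φ x = x := by
      have := h1 x
      rwa [hBK x hx2] at this
    change A (Φ x) = x
    rw [h5, hAK x hx1]
  · have hre := Quo_rescale hγs (B p) hr
    refine ⟨?_, ?_, ?_, ?_, ?_⟩
    · have h5 : ContDiff ℝ ∞ fun y : Phase n => B p + r • y :=
        contDiff_const.add ((contDiff_const (c := r)).smul (f := fun _ : Phase n => r)
          (g := fun y : Phase n => y) contDiff_id)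
      have h6 : ContDiff ℝ ∞ fun y : Phase n => γ (B p + r • y) - B p :=
        (hγs.comp h5).sub contDiff_const
      exact (contDiff_const (c := r⁻¹)).smul (f := fun _ : Phase n => r⁻¹) h6
    · intro y hy
      have hfar : R * r < ‖Φ (B p + r • y) - p‖ := by
        by_contra hcon
        have hle := not_lt.1 hcon
        have hlip : ‖B (Φ (B p + r • y)) - B p‖ ≤ L * ‖Φ (B p + r • y) - p‖ :=
          (convex_closedBall p (2 * R * r)).norm_image_sub_le_of_norm_fderiv_le (𝕜 := ℝ)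
            (fun x _ => Quo_diff1 hB.smooth x)
            (fun x hx => (hbd x (by rwa [mem_closedBall_iff_norm] at hx)).2.1)
            (Metric.mem_closedBall_self (by positivity))
            (by rw [mem_closedBall_iff_norm]; nlinarith)
        rw [h2, add_sub_cancel_left, norm_smul, Real.norm_of_nonneg hr.le] at hlip
        have h5 : L * ‖Φ (B p + r • y) - p‖ ≤ L * (R * r) := mul_le_mul_of_nonneg_left hle hL0.le
        have h6 : L * (R * r) ≤ L * (Rm * r) :=
          mul_le_mul_of_nonneg_left (mul_le_mul_of_nonneg_right hRm' hr.le) hL0.le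
        have h7 : r * ‖y‖ ≤ r * (L * Rm) := by linarith
        have h8 : ‖y‖ ≤ L * Rm := le_of_mul_le_mul_left h7 hr
        linarith
      change r⁻¹ • (A (Φ (B p + r • y)) - B p) = y
      rw [heq _ hfar, h2, add_sub_cancel_left, smul_smul, inv_mul_cancel₀ hr.ne', one_smul]
    · intro y
      change ‖fderiv ℝ (fun y => r⁻¹ • (γ (B p + r • y) - B p)) y‖ ≤ _
      rw [hre]
      exact (key _).1
    · intro y
      change ‖fderiv ℝ (fderiv ℝ (fun y => r⁻¹ • (γ (B p + r • y) - B p))) y‖ ≤ _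
      rw [hre]
      refine (Quo_rescale2 hγs (B p) r y).trans ?_
      have h5 := (key (B p + r • y)).2.1
      rw [abs_of_pos hr]
      calc r * ‖fderiv ℝ (fderiv ℝ γ) (B p + r • y)‖ ≤
          r * ((16 * L ^ 2 * H + 64 * L ^ 4 * H) / r) := mul_le_mul_of_nonneg_left h5 hr.le
        _ = 16 * L ^ 2 * H + 64 * L ^ 4 * H := by field_simp
    · intro y
      change QAdm _ (fderiv ℝ (fun y => r⁻¹ • (γ (B p + r • y) - B p)) y)
      rw [hre]
      exact (key _).2.2

end Pool.Agent.CEF
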