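import Mathlib
import Pool.Agent.CEF.Defs

/-!
# CEF, module Rho: the scale function is the square root of `F`
-/

set_option autoImplicit false
set_option maxSynthPendingDepth 3

open scoped ContDiff Topology ENNReal
open Set Function Filter MeasureTheory

namespace Pool.Agent.CEF

open Pool.Agent.Helper17

theorem Rho_gen {E : Type*} [NormedAddCommGroup E] [NormedSpace ℝ E] {F : E → ℝ}
    (hF : ContDiff ℝ ∞ F) (hpos : ∀ x, 0 < F x) :
    ContDiff ℝ ∞ (fun x => Real.sqrt (F x)) ∧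
    ∀ x, ‖fderiv ℝ (fun x => Real.sqrt (F x)) x‖ = ‖fderiv ℝ F x‖ / (2 * Real.sqrt (F x)) ∧
      ‖fderiv ℝ (fderiv ℝ (fun x => Real.sqrt (F x))) x‖ ≤
        (‖fderiv ℝ (fderiv ℝ F) x‖ / 2 + ‖fderiv ℝ (fun x => Real.sqrt (F x)) x‖ ^ 2) /
          Real.sqrt (F x) := by
  have hρ : ContDiff ℝ ∞ (fun x => Real.sqrt (F x)) := hF.sqrt fun x => (hpos x).ne'
  set ρ : E → ℝ := fun x => Real.sqrt (F x) with hρdef
  have hρ0 : ∀ x, 0 < ρ x := fun x => Real.sqrt_pos.2 (hpos x)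
  have hF1 : ∀ x, HasFDerivAt F (fderiv ℝ F x) x := fun x =>
    (hF.differentiable (by simp) x).hasFDerivAt
  have hρ1 : ∀ x, HasFDerivAt ρ (fderiv ℝ ρ x) x := fun x =>
    (hρ.differentiable (by simp) x).hasFDerivAt
  have h1 : ∀ x, fderiv ℝ ρ x = (1 / (2 * ρ x)) • fderiv ℝ F x := fun x =>
    ((hF1 x).sqrt (hpos x).ne').fderiv
  have h2 : (fun y => (2 * ρ y) • fderiv ℝ ρ y) = fderiv ℝ F := by
    funext y
    rw [h1 y, smul_smul, mul_one_div_cancel (mul_pos two_pos (hρ0 y)).ne', one_smul]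
  refine ⟨hρ, fun x => ⟨?_, ?_⟩⟩
  · rw [h1 x, norm_smul, Real.norm_of_nonneg (by have := hρ0 x; positivity)]
    change 1 / (2 * ρ x) * ‖fderiv ℝ F x‖ = ‖fderiv ℝ F x‖ / (2 * ρ x)
    ring
  · have hρ2 : HasFDerivAt (fderiv ℝ ρ) (fderiv ℝ (fderiv ℝ ρ) x) x :=
      ((hρ.fderiv_right (m := ∞) (by simp)).differentiable (by simp) x).hasFDerivAt
    have h3 : HasFDerivAt (fun y => 2 * ρ y) ((2 : ℝ) • fderiv ℝ ρ x) x := (hρ1 x).const_mul 2
    have h4 := h3.fun_smul hρ2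
    rw [h2] at h4
    have h5 := h4.fderiv
    have hx := hρ0 x
    change ‖fderiv ℝ (fderiv ℝ ρ) x‖ ≤
      (‖fderiv ℝ (fderiv ℝ F) x‖ / 2 + ‖fderiv ℝ ρ x‖ ^ 2) / ρ x
    refine ContinuousLinearMap.opNorm_le_bound _ (by positivity) fun v => ?_
    have h6 : (2 * ρ x) • fderiv ℝ (fderiv ℝ ρ) x v =
        fderiv ℝ (fderiv ℝ F) x v - (2 * fderiv ℝ ρ x v) • fderiv ℝ ρ x := by
      rw [h5]
      simp only [ContinuousLinearMap.add_apply, ContinuousLinearMap.smul_apply,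
        ContinuousLinearMap.smulRight_apply, smul_eq_mul]
      abel
    have h7 : (2 * ρ x) * ‖fderiv ℝ (fderiv ℝ ρ) x v‖ ≤
        ‖fderiv ℝ (fderiv ℝ F) x‖ * ‖v‖ + 2 * (‖fderiv ℝ ρ x‖ * ‖v‖) * ‖fderiv ℝ ρ x‖ := by
      have h8 : (2 * ρ x) * ‖fderiv ℝ (fderiv ℝ ρ) x v‖ =
          ‖(2 * ρ x) • fderiv ℝ (fderiv ℝ ρ) x v‖ := by
        rw [norm_smul, Real.norm_of_nonneg (by positivity)]
      rw [h8, h6]
      refine (norm_sub_le _ _).trans (add_le_add (ContinuousLinearMap.le_opNorm _ _) ?_)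
      rw [norm_smul, norm_mul, Real.norm_ofNat]
      exact mul_le_mul_of_nonneg_right (mul_le_mul_of_nonneg_left
        (ContinuousLinearMap.le_opNorm _ _) two_pos.le) (norm_nonneg _)
    have h9 : (‖fderiv ℝ (fderiv ℝ F) x‖ / 2 + ‖fderiv ℝ ρ x‖ ^ 2) / ρ x * ‖v‖ =
        (‖fderiv ℝ (fderiv ℝ F) x‖ * ‖v‖ + 2 * (‖fderiv ℝ ρ x‖ * ‖v‖) * ‖fderiv ℝ ρ x‖) /
          (2 * ρ x) := by
      field_simp
    rw [h9, le_div_iff₀ (by positivity), mul_comm]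
    exact h7

theorem thm_Rho (n : ℕ) : St_Rho n := fun _ hF hpos => Rho_gen hF hpos

end Pool.Agent.CEF
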