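import Pool.Agent.CEF.Defs

/-!
# CEF [Slo]: slopes of humps at boxes with bounded average
-/

set_option autoImplicit false

open scoped ContDiff Topology ENNReal
open Set Function Filter MeasureTheory

namespace Pool.Agent.CEF

open Pool.Agent.Helper17

lemma Slo_eta (E1 E2 κ : ℝ) (hE1 : 0 ≤ E1) (hE2 : 0 ≤ E2) (hκ : 0 < κ) :
    ∃ η : ℝ, 0 < η ∧ η ≤ 1 ∧ η * (E1 + E2 * |Real.log η|) ≤ κ := by
  have hE : 0 < E1 + 2 * E2 + 1 := by linarith
  set u : ℝ := min 1 (κ / (E1 + 2 * E2 + 1)) with hu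
  have hu0 : 0 < u := lt_min one_pos (div_pos hκ hE)
  have hu1 : u ≤ 1 := min_le_left _ _
  have hu2 : u * (E1 + 2 * E2 + 1) ≤ κ := by
    have : u ≤ κ / (E1 + 2 * E2 + 1) := min_le_right _ _
    rwa [le_div_iff₀ hE] at this
  refine ⟨u ^ 2, by positivity, by nlinarith, ?_⟩
  have hlog : |Real.log (u ^ 2)| ≤ 2 * (1 / u) := by
    rw [Real.log_pow]
    have h1 : Real.log u ≤ 0 := Real.log_nonpos hu0.le hu1
    have h2 : Real.log (1 / u) ≤ 1 / u - 1 := Real.log_le_sub_one_of_pos (by positivity)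
    rw [one_div, Real.log_inv, ← one_div] at h2
    rw [abs_le]
    constructor
    · push_cast
      linarith
    · have : (0 : ℝ) < 1 / u := by positivity
      push_cast
      linarith
  calc u ^ 2 * (E1 + E2 * |Real.log (u ^ 2)|) ≤ u ^ 2 * (E1 + E2 * (2 * (1 / u))) := by
        gcongr
    _ = u * (u * E1 + 2 * E2) := by
        field_simp
    _ ≤ u * (E1 + 2 * E2 + 1) := by
        have : u * E1 ≤ 1 * E1 := mul_le_mul_of_nonneg_right hu1 hE1
        refine mul_le_mul_of_nonneg_left ?_ hu0.le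
        linarith
    _ ≤ κ := hu2

lemma Slo_key {n : ℕ} {Cg Ch : ℝ} (hCg : 0 ≤ Cg) (hCh : 0 ≤ Ch) {φ : Phase n → Phase n}
    (hgro : ∀ x x' s s' S, 0 < s → 0 < s' → 0 < S →
      ‖kAvg φ x s - kAvg φ x' s'‖ ≤ Cg * (‖x - x'‖ / S + |Real.log (S / s)| + |Real.log (S / s')|))
    {η' l r M : ℝ} {p : Phase n} (hη : 0 < η') (hl : 0 < l) (hr : 0 < r)
    (hM : ‖kAvg φ p r‖ ≤ M) (h0 : ∀ x, 2 * l ≤ η' * ‖x - p‖ → hmp η' p l x = 0)
    (h1 : ∀ x (t s : ℝ), 0 ≤ t → t ≤ 1 → 0 < s → t * hmp η' p l x ≤ s ^ 2 →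
      ‖fderiv ℝ (fun x => t * hmp η' p l x) x‖ ≤ Ch * η' * s ∧
      ‖fderiv ℝ (fun x => t * hmp η' p l x) x‖ * |Real.log (s / l)| ≤ Ch * η' * s)
    {t κ : ℝ} (ht0 : 0 ≤ t) (ht1 : t ≤ 1)
    (hκ : Ch * η' * (1 + M + Cg * (3 + |Real.log η'| + |Real.log (l / (η' * r))|)) ≤ κ) :
    Slp κ φ (fun x => t * hmp η' p l x) := by
  intro x s hs hF
  have hM0 : 0 ≤ M := (norm_nonneg _).trans hM
  have hS : 0 < l / η' := div_pos hl hη
  have hκ' : Ch * η' * (1 + M + Cg * (3 + |Real.log η'| + |Real.log (l / (η' * r))|)) * s ≤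
      κ * s := mul_le_mul_of_nonneg_right hκ hs.le
  refine le_trans ?_ hκ'
  by_cases hx : 2 * l < η' * ‖x - p‖
  · have hz : (fun x => t * hmp η' p l x) =ᶠ[𝓝 x] fun _ => (0 : ℝ) := by
      have ho : IsOpen {y : Phase n | 2 * l < η' * ‖y - p‖} :=
        isOpen_lt continuous_const (continuous_const.mul (continuous_id.sub continuous_const).norm)
      filter_upwards [ho.mem_nhds hx] with y hy
      rw [h0 y (le_of_lt hy), mul_zero]
    rw [hz.fderiv_eq]
    simp only [fderiv_fun_const, Pi.zero_apply, norm_zero, zero_mul]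
    positivity
  · rw [not_lt] at hx
    obtain ⟨d1, d2⟩ := h1 x t s ht0 ht1 hs hF
    set D := ‖fderiv ℝ (fun x => t * hmp η' p l x) x‖ with hD
    have hD0 : 0 ≤ D := norm_nonneg _
    have g1 := hgro x p s r (l / η') hs hr hS
    have g2 : ‖x - p‖ / (l / η') ≤ 2 := by
      rw [div_le_iff₀ hS, mul_div_assoc', le_div_iff₀ hη]
      linarith
    have g3 : |Real.log (l / η' / s)| ≤ |Real.log (s / l)| + |Real.log η'| := by
      have e : Real.log (l / η' / s) = -(Real.log (s / l)) - Real.log η' := by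
        rw [Real.log_div hS.ne' hs.ne', Real.log_div hl.ne' hη.ne', Real.log_div hs.ne' hl.ne']
        ring
      rw [e]
      calc |-(Real.log (s / l)) - Real.log η'| ≤ |-(Real.log (s / l))| + |Real.log η'| :=
            abs_sub _ _
        _ = _ := by rw [abs_neg]
    have g4 : l / η' / r = l / (η' * r) := by
      rw [div_div]
    rw [g4] at g1
    have g5 : ‖kAvg φ x s‖ ≤ ‖kAvg φ x s - kAvg φ p r‖ + ‖kAvg φ p r‖ := by
      have := norm_add_le (kAvg φ x s - kAvg φ p r) (kAvg φ p r)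
      rwa [sub_add_cancel] at this
    have g6 : ‖kAvg φ x s‖ ≤ M + Cg * (2 + (|Real.log (s / l)| + |Real.log η'|) +
        |Real.log (l / (η' * r))|) := by
      have : Cg * (‖x - p‖ / (l / η') + |Real.log (l / η' / s)| + |Real.log (l / (η' * r))|) ≤
          Cg * (2 + (|Real.log (s / l)| + |Real.log η'|) + |Real.log (l / (η' * r))|) :=
        mul_le_mul_of_nonneg_left (by linarith) hCg
      linarith
    calc D * (1 + ‖kAvg φ x s‖)
        ≤ D * (1 + (M + Cg * (2 + (|Real.log (s / l)| + |Real.log η'|) +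
          |Real.log (l / (η' * r))|))) := by
          refine mul_le_mul_of_nonneg_left ?_ hD0
          linarith
      _ = D * (1 + M + Cg * (2 + |Real.log η'| + |Real.log (l / (η' * r))|)) +
          Cg * (D * |Real.log (s / l)|) := by ring
      _ ≤ (Ch * η' * s) * (1 + M + Cg * (2 + |Real.log η'| + |Real.log (l / (η' * r))|)) +
          Cg * (Ch * η' * s) := by
          refine add_le_add (mul_le_mul_of_nonneg_right d1 (by positivity))
            (mul_le_mul_of_nonneg_left d2 hCg)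
      _ = Ch * η' * (1 + M + Cg * (3 + |Real.log η'| + |Real.log (l / (η' * r))|)) * s := by ring

theorem thm_Slo (n : ℕ) (h1 : St_Gro n) (h2 : St_Hmp n) : St_Slo n := by
  intro c M κ₁ s₀ Kmax hκ hs0 hs1 hKm
  obtain ⟨Cg, hCg, hgro⟩ := h1 c
  obtain ⟨Ch, hCh, hhmp⟩ := h2
  set Λ : ℝ := Real.log (4 * Kmax / s₀) with hΛ
  have hΛ0 : 0 ≤ Λ := Real.log_nonneg (by
    rw [le_div_iff₀ hs0]
    linarith)
  obtain ⟨η, hη0, hη1, hη⟩ := Slo_eta (Ch * (1 + |M| + Cg * (3 + 2 * Λ))) (2 * Ch * Cg) κ₁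
    (by positivity) (by positivity) hκ
  refine ⟨η, hη0, hη1, ?_⟩
  intro φ hφ hosc p r K hr hKM hK1 hK2 t ht0 ht1
  have hM : M ≤ |M| := le_abs_self M
  have hK0 : 0 < K := by linarith
  have lK : |Real.log K| ≤ Λ := by
    rw [abs_of_nonneg (Real.log_nonneg hK1)]
    refine Real.log_le_log hK0 ?_
    rw [le_div_iff₀ hs0]
    nlinarith
  have l4K : |Real.log (4 * K)| ≤ Λ := by
    rw [abs_of_nonneg (Real.log_nonneg (by linarith))]
    refine Real.log_le_log (by linarith) ?_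
    rw [le_div_iff₀ hs0]
    nlinarith
  have l4Ks : |Real.log (s₀ / (4 * K))| ≤ Λ := by
    rw [← abs_neg, ← Real.log_inv, inv_div]
    rw [abs_of_nonneg (Real.log_nonneg (by
      rw [le_div_iff₀ hs0]
      linarith))]
    refine Real.log_le_log (by positivity) ?_
    gcongr
  have hb : ∀ η' a : ℝ, 0 < η' → η' ≤ η → |Real.log η'| ≤ |Real.log η| + Λ →
      a ≤ |Real.log η| + Λ → Ch * η' * (1 + M + Cg * (3 + |Real.log η'| + a)) ≤ κ₁ := by
    intro η' a e1 e2 e3 e4
    refine le_trans ?_ hη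
    have e5 : 1 + M + Cg * (3 + |Real.log η'| + a) ≤
        1 + |M| + Cg * (3 + 2 * Λ + 2 * |Real.log η|) := by
      have : Cg * (3 + |Real.log η'| + a) ≤ Cg * (3 + 2 * Λ + 2 * |Real.log η|) :=
        mul_le_mul_of_nonneg_left (by linarith) hCg
      linarith
    have e6 : 0 ≤ 1 + |M| + Cg * (3 + 2 * Λ + 2 * |Real.log η|) := by positivity
    calc Ch * η' * (1 + M + Cg * (3 + |Real.log η'| + a))
        ≤ Ch * η' * (1 + |M| + Cg * (3 + 2 * Λ + 2 * |Real.log η|)) :=
          mul_le_mul_of_nonneg_left e5 (by positivity)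
      _ ≤ Ch * η * (1 + |M| + Cg * (3 + 2 * Λ + 2 * |Real.log η|)) := by gcongr
      _ = η * (Ch * (1 + |M| + Cg * (3 + 2 * Λ)) + 2 * Ch * Cg * |Real.log η|) := by ring
  constructor
  · obtain ⟨-, -, -, a4, -, a6⟩ := hhmp η p (K * r) hη0 hη1 (by positivity)
    refine Slo_key hCg (by linarith) (hgro φ hφ hosc) hη0 (by positivity) hr hKM a4 a6 ht0 ht1 ?_
    refine hb η _ hη0 le_rfl (by linarith) ?_
    have e : K * r / (η * r) = K / η := by
      field_simp
    rw [e, Real.log_div hK0.ne' hη0.ne']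
    have := abs_sub (Real.log K) (Real.log η)
    linarith
  · have hη'0 : 0 < s₀ * η / (4 * K) := by positivity
    have hη'η : s₀ * η / (4 * K) ≤ η := by
      rw [div_le_iff₀ (by positivity)]
      nlinarith
    obtain ⟨-, -, -, a4, -, a6⟩ := hhmp (s₀ * η / (4 * K)) p (s₀ * r) hη'0
      (hη'η.trans hη1) (by positivity)
    refine Slo_key hCg (by linarith) (hgro φ hφ hosc) hη'0 (by positivity) hr hKM a4 a6 ht0 ht1 ?_
    refine hb _ _ hη'0 hη'η ?_ ?_
    · have e : s₀ * η / (4 * K) = s₀ / (4 * K) * η := by ring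
      rw [e, Real.log_mul (by positivity) hη0.ne']
      have := abs_add_le (Real.log (s₀ / (4 * K))) (Real.log η)
      linarith
    · have e : s₀ * r / (s₀ * η / (4 * K) * r) = 4 * K / η := by
        field_simp
      rw [e, Real.log_div (by positivity) hη0.ne']
      have := abs_sub (Real.log (4 * K)) (Real.log η)
      linarith

end Pool.Agent.CEF
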