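import Pool.Agent.CEF.Defs

/-!
# CEF, [Stp]: the combinatorial step over the smallest box

See `Pool/Agent/CEF/Defs.lean` for the statement and the proof in words.
-/

set_option maxSynthPendingDepth 3

open scoped ContDiff Topology ENNReal
open Set Function Filter MeasureTheory

namespace Pool.Agent.CEF

open Pool.Agent.Helper17

variable {n : ℕ}

/-- The window lemma for squared humps. -/
lemma Stp_window (hH : St_Hmp n) {η : ℝ} (hη0 : 0 < η) (hη1 : η ≤ 1) {p p' : Phase n}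
    {r r' K K' Λ : ℝ} (hr : 0 < r) (hr' : 0 < r') (hK : 0 < K) (hΛ : 1 ≤ Λ)
    (hKK : (4 * Λ ^ 2 + 2) * K < K')
    (h : ∃ y, ‖y - p'‖ ≤ Λ * r' ∧ r' ^ 2 < (2 * Λ) ^ 2 * hmp η p (K * r) y) :
    ∀ x, ‖x - p'‖ ≤ Λ * r' → (Λ * r') ^ 2 < hmp η p (K' * r) x := by
  obtain ⟨C, hC, hH⟩ := hH
  obtain ⟨y, hy1, hy2⟩ := h
  have hKr : 0 < K * r := by positivity
  have hK' : 0 < K' := lt_trans (by positivity) hKK
  have hK'r : 0 < K' * r := by positivity
  obtain ⟨-, hb, -, hz, -⟩ := hH η p (K * r) hη0 hη1 hKr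
  obtain ⟨-, -, he', -⟩ := hH η p (K' * r) hη0 hη1 hK'r
  have h1 : r' < 2 * Λ * (K * r) := by
    have h0 : r' ^ 2 < (2 * Λ * (K * r)) ^ 2 := by
      calc r' ^ 2 < (2 * Λ) ^ 2 * hmp η p (K * r) y := hy2
        _ ≤ (2 * Λ) ^ 2 * (K * r) ^ 2 := mul_le_mul_of_nonneg_left (hb y).2 (by positivity)
        _ = _ := by ring
    exact lt_of_pow_lt_pow_left₀ 2 (by positivity) h0
  have h2 : η * ‖y - p‖ < 2 * (K * r) := by
    by_contra hneg
    push Not at hneg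
    rw [hz y hneg, mul_zero] at hy2
    have : 0 < r' ^ 2 := by positivity
    linarith
  intro x hx
  have h3 : ‖x - p‖ ≤ 2 * (Λ * r') + ‖y - p‖ := by
    have e1 : x - p = (x - p') - (y - p') + (y - p) := by abel
    rw [e1]
    refine (norm_add_le _ _).trans ?_
    have := norm_sub_le (x - p') (y - p')
    linarith
  have h4 : Λ * r' ≤ 2 * Λ ^ 2 * (K * r) := by
    calc Λ * r' ≤ Λ * (2 * Λ * (K * r)) := mul_le_mul_of_nonneg_left h1.le (by linarith)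
      _ = _ := by ring
  have h5 : η * ‖x - p‖ ≤ K' * r := by
    calc η * ‖x - p‖ ≤ η * (2 * (Λ * r') + ‖y - p‖) := mul_le_mul_of_nonneg_left h3 hη0.le
      _ = η * (2 * (Λ * r')) + η * ‖y - p‖ := by ring
      _ ≤ 1 * (2 * (Λ * r')) + 2 * (K * r) :=
          add_le_add (mul_le_mul_of_nonneg_right hη1 (by positivity)) h2.le
      _ ≤ (4 * Λ ^ 2 + 2) * K * r := by nlinarith
      _ ≤ K' * r := mul_le_mul_of_nonneg_right hKK.le hr.le
  rw [he' x h5]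
  have h6 : Λ * r' < K' * r := by
    calc Λ * r' ≤ 2 * Λ ^ 2 * (K * r) := h4
      _ < (4 * Λ ^ 2 + 2) * K * r := by nlinarith [mul_pos (pow_pos (by linarith : 0 < Λ) 2) hKr]
      _ ≤ K' * r := mul_le_mul_of_nonneg_right hKK.le hr.le
  exact pow_lt_pow_left₀ h6 (by positivity) two_ne_zero

/-- slope conditions add up -/
lemma Stp_slp {κ κ' : ℝ} {φ : Phase n → Phase n} {F G : Phase n → ℝ} (hF : Slp κ φ F)
    (hG : Slp κ' φ G) (hF0 : ∀ x, 0 ≤ F x) (hG0 : ∀ x, 0 ≤ G x) (hFd : Differentiable ℝ F)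
    (hGd : Differentiable ℝ G) : Slp (κ + κ') φ (fun x => F x + G x) := by
  intro x s hs h
  have h1 := hF x s hs (by linarith [hG0 x])
  have h2 := hG x s hs (by linarith [hF0 x])
  have e1 : fderiv ℝ (fun x => F x + G x) x = fderiv ℝ F x + fderiv ℝ G x :=
    fderiv_add (hFd x) (hGd x)
  rw [e1]
  have h3 : 0 ≤ 1 + ‖kAvg φ x s‖ := by positivity
  calc ‖fderiv ℝ F x + fderiv ℝ G x‖ * (1 + ‖kAvg φ x s‖)
      ≤ (‖fderiv ℝ F x‖ + ‖fderiv ℝ G x‖) * (1 + ‖kAvg φ x s‖) :=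
        mul_le_mul_of_nonneg_right (norm_add_le _ _) h3
    _ = ‖fderiv ℝ F x‖ * (1 + ‖kAvg φ x s‖) + ‖fderiv ℝ G x‖ * (1 + ‖kAvg φ x s‖) := by ring
    _ ≤ κ * s + κ' * s := add_le_add h1 h2
    _ = (κ + κ') * s := by ring

/-- bounds of second derivatives add up -/
lemma Stp_hess {A B : ℝ} {F G : Phase n → ℝ} (hFs : ContDiff ℝ ∞ F) (hGs : ContDiff ℝ ∞ G)
    (hF : ∀ x, ‖fderiv ℝ (fderiv ℝ F) x‖ ≤ A) (hG : ∀ x, ‖fderiv ℝ (fderiv ℝ G) x‖ ≤ B)
    (x : Phase n) : ‖fderiv ℝ (fderiv ℝ (fun x => F x + G x)) x‖ ≤ A + B := by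
  have e1 : fderiv ℝ (fun x => F x + G x) = fun x => fderiv ℝ F x + fderiv ℝ G x := by
    funext y
    exact fderiv_add (hFs.differentiable (by simp) y) (hGs.differentiable (by simp) y)
  have hF1 : Differentiable ℝ (fderiv ℝ F) :=
    (hFs.fderiv_right (m := ∞) (by simp)).differentiable (by simp)
  have hG1 : Differentiable ℝ (fderiv ℝ G) :=
    (hGs.fderiv_right (m := ∞) (by simp)).differentiable (by simp)
  have e2 : fderiv ℝ (fun x => fderiv ℝ F x + fderiv ℝ G x) x =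
      fderiv ℝ (fderiv ℝ F) x + fderiv ℝ (fderiv ℝ G) x := fderiv_add (hF1 x) (hG1 x)
  rw [e1, e2]
  exact (norm_add_le _ _).trans (add_le_add (hF x) (hG x))

/-- **[Stp]** -/
theorem thm_Stp (n : ℕ) (h1 : St_Hmp n) : St_Stp n := by
  intro Λ₀ Λ κ₁ C₂ s₀ η K₀ W N hΛ₀ hΛΛ hκ₁ hs₀ hs₀N hη0 hη1 hK₀ hW1 hW hC₂ φ b bs F hlen hb hbs h
    hslp
  obtain ⟨CH, hCH, hH⟩ := id h1
  have hlen1 : bs.length ≤ N := by
    rw [List.length_cons] at hlen
    omega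
  have hΛ : 1 ≤ Λ := by linarith
  have hbs0 : ∀ b' ∈ bs, 0 < b'.2 := fun b' hb' => hb.trans_le (hbs b' hb')
  have hK₀0 : 0 < K₀ := by linarith
  set Λ' : ℝ := 2 ^ bs.length * Λ with hΛ'
  have hΛ'1 : 1 ≤ Λ' := by
    have : (1 : ℝ) ≤ 2 ^ bs.length := one_le_pow₀ (by norm_num)
    nlinarith
  have hΛ'0 : 0 < Λ' := by linarith
  have hΛ'N : Λ' ≤ 2 ^ N * Λ := by
    apply mul_le_mul_of_nonneg_right _ (by linarith)
    exact pow_le_pow_right₀ (by norm_num) hlen1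
  have hWΛ : 4 * Λ' ^ 2 + 2 < W := by
    have : Λ' ^ 2 ≤ (2 ^ N * Λ) ^ 2 := pow_le_pow_left₀ (by linarith) hΛ'N 2
    linarith
  have hΛs : Λ' * s₀ ≤ 1 / 2 := (mul_le_mul_of_nonneg_right hΛ'N hs₀.le).trans hs₀N
  have hs₀1 : s₀ ≤ 1 := by nlinarith
  have hlen' : (2 : ℝ) ^ (b :: bs).length * Λ = 2 * Λ' := by
    rw [List.length_cons, pow_succ, hΛ']; ring
  -- a good height
  obtain ⟨q, hq, hgood⟩ : ∃ q : ℕ, q ≤ bs.length ∧ ∀ b' ∈ bs,
      (∀ y, ‖y - b'.1‖ ≤ Λ' * b'.2 → (2 * Λ') ^ 2 * hmp η b.1 (K₀ * W ^ q * b.2) y ≤ b'.2 ^ 2) ∨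
      (∀ y, ‖y - b'.1‖ ≤ Λ' * b'.2 → (Λ' * b'.2) ^ 2 < hmp η b.1 (K₀ * W ^ q * b.2) y) := by
    by_contra hcon
    push Not at hcon
    have hcon' : ∀ q : Fin (bs.length + 1), ∃ i : Fin bs.length,
        (∃ y, ‖y - (bs.get i).1‖ ≤ Λ' * (bs.get i).2 ∧
          (bs.get i).2 ^ 2 < (2 * Λ') ^ 2 * hmp η b.1 (K₀ * W ^ (q : ℕ) * b.2) y) ∧
        (∃ y, ‖y - (bs.get i).1‖ ≤ Λ' * (bs.get i).2 ∧
          hmp η b.1 (K₀ * W ^ (q : ℕ) * b.2) y ≤ (Λ' * (bs.get i).2) ^ 2) := by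
      intro q
      obtain ⟨b', hb', h1, h2⟩ := hcon q (Nat.lt_succ_iff.1 q.2)
      obtain ⟨i, rfl⟩ := List.get_of_mem hb'
      exact ⟨i, h1, h2⟩
    choose idx hidx using hcon'
    obtain ⟨q₁, q₂, hne, heq⟩ := Fintype.exists_ne_map_eq_of_card_lt idx (by simp)
    wlog hlt : q₁ < q₂ generalizing q₁ q₂
    · exact this q₂ q₁ hne.symm heq.symm (lt_of_le_of_ne (not_lt.1 hlt) hne.symm)
    obtain ⟨h3, -⟩ := hidx q₁
    obtain ⟨-, y, hy1, hy2⟩ := hidx q₂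
    rw [← heq] at hy1 hy2
    have hKK : (4 * Λ' ^ 2 + 2) * (K₀ * W ^ (q₁ : ℕ)) < K₀ * W ^ (q₂ : ℕ) := by
      have e1 : W ^ ((q₁ : ℕ) + 1) ≤ W ^ (q₂ : ℕ) := pow_le_pow_right₀ hW1 hlt
      have e2 : 0 < W ^ (q₁ : ℕ) := pow_pos (by linarith) _
      calc (4 * Λ' ^ 2 + 2) * (K₀ * W ^ (q₁ : ℕ)) < W * (K₀ * W ^ (q₁ : ℕ)) :=
            mul_lt_mul_of_pos_right hWΛ (by positivity)
        _ = K₀ * W ^ ((q₁ : ℕ) + 1) := by ring
        _ ≤ K₀ * W ^ (q₂ : ℕ) := mul_le_mul_of_nonneg_left e1 hK₀0.le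
    have h2 := Stp_window h1 hη0 hη1 hb (hbs0 _ (List.get_mem bs (idx q₁)))
      (mul_pos hK₀0 (pow_pos (by linarith) _)) hΛ'1 hKK h3 y hy1
    exact absurd (h2.trans_le hy2) (lt_irrefl _)
  have hWq0 : 0 < W ^ q := pow_pos (by linarith) _
  have hWq1 : 1 ≤ W ^ q := one_le_pow₀ hW1
  set K := K₀ * W ^ q with hK
  have hKK₀ : K₀ ≤ K := by
    rw [hK]
    nlinarith
  have hKpos : 0 < K := by positivity
  have hKN : K ≤ K₀ * W ^ N := by
    rw [hK]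
    exact mul_le_mul_of_nonneg_left (pow_le_pow_right₀ hW1 (hq.trans hlen1)) hK₀0.le
  have hKb : 0 < K * b.2 := by positivity
  have hsb : 0 < s₀ * b.2 := by positivity
  -- the two humps
  have hη'0 : 0 < s₀ * η / (4 * K) := by positivity
  have hη'1 : s₀ * η / (4 * K) ≤ 1 := by
    rw [div_le_one (by positivity)]
    have : s₀ * η ≤ 1 * 1 := mul_le_mul hs₀1 hη1 hη0.le (by norm_num)
    linarith
  obtain ⟨c1, b1, -, -, -, -⟩ := hH (s₀ * η / (4 * K)) b.1 (s₀ * b.2) hη'0 hη'1 hsb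
  obtain ⟨c2, b2, e2, -, -, -⟩ := hH η b.1 (K * b.2) hη0 hη1 hKb
  have d1 := hC₂ (s₀ * η / (4 * K)) b.1 (s₀ * b.2) hη'0 hη'1 hsb
  have d2 := hC₂ η b.1 (K * b.2) hη0 hη1 hKb
  obtain ⟨s2, s1⟩ := hslp K hKK₀ hKN
  obtain ⟨a, ha, hF⟩ := h.pos
  have hF0 : ∀ x, 0 < F x := fun x => ha.trans_le (hF x)
  refine ⟨K, hKK₀, hKN, ?_⟩
  generalize hmp (s₀ * η / (4 * K)) b.1 (s₀ * b.2) = G₁ at *
  generalize hmp η b.1 (K * b.2) = G₂ at *
  have hFd : Differentiable ℝ F := h.smooth.differentiable (by simp)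
  have hd1 : Differentiable ℝ G₁ := c1.differentiable (by simp)
  have hd2 : Differentiable ℝ G₂ := c2.differentiable (by simp)
  refine ⟨?_, ?_, ?_, ?_, ?_, ?_, ?_⟩
  · exact (h.smooth.add c1).add c2
  · exact ⟨a, ha, fun x => by linarith [hF x, (b1 x).1, (b2 x).1]⟩
  · obtain ⟨B, hB⟩ := h.bdd
    exact ⟨B + (s₀ * b.2) ^ 2 + (K * b.2) ^ 2, fun x => add_le_add (add_le_add (hB x) (b1 x).2)
      (b2 x).2⟩
  · have h3 := h.slope
    have h4 := Stp_slp (Stp_slp h3 s1 (fun x => (hF0 x).le) (fun x => (b1 x).1) hFd hd1) s2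
      (fun x => add_nonneg (hF0 x).le (b1 x).1) (fun x => (b2 x).1) (hFd.add hd1) hd2
    have e3 : 2 * ((N : ℝ) - ((b :: bs).length : ℕ)) * κ₁ + κ₁ + κ₁ =
        2 * ((N : ℝ) - (bs.length : ℕ)) * κ₁ := by
      rw [List.length_cons]
      push_cast
      ring
    rw [e3] at h4
    exact h4
  · intro x
    have h4 := Stp_hess (h.smooth.add c1) c2 (Stp_hess h.smooth c1 h.hess d1) d2 x
    have e3 : 2 * ((N : ℝ) - ((b :: bs).length : ℕ)) * C₂ + C₂ + C₂ =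
        2 * ((N : ℝ) - (bs.length : ℕ)) * C₂ := by
      rw [List.length_cons]
      push_cast
      ring
    rw [e3] at h4
    exact h4
  · intro b' hb'
    rw [← hΛ']
    have hclear := h.clear b' (List.mem_cons_of_mem b hb')
    rw [hlen'] at hclear
    have hb'0 := hbs0 b' hb'
    have hbb' := hbs b' hb'
    have hmono : ∀ x, ‖x - b'.1‖ ≤ Λ' * b'.2 → ‖x - b'.1‖ ≤ 2 * Λ' * b'.2 := fun x hx =>
      hx.trans (by nlinarith [mul_pos hΛ'0 hb'0])
    rcases hclear with hc1 | hc1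
    · rcases hgood b' hb' with h3 | h3
      · left
        intro x hx
        have e3 := hc1 x (hmono x hx)
        have e4 := h3 x hx
        have e5 : (2 * Λ') ^ 2 * G₁ x ≤ b'.2 ^ 2 := by
          calc (2 * Λ') ^ 2 * G₁ x ≤ (2 * Λ') ^ 2 * (s₀ * b.2) ^ 2 :=
                mul_le_mul_of_nonneg_left (b1 x).2 (by positivity)
            _ = (2 * (Λ' * s₀) * b.2) ^ 2 := by ring
            _ ≤ (1 * b'.2) ^ 2 := by
                apply pow_le_pow_left₀ (by positivity)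
                exact mul_le_mul (by linarith) hbb' hb.le (by norm_num)
            _ = b'.2 ^ 2 := by ring
        have e6 : 4 * (Λ' ^ 2 * (F x + G₁ x + G₂ x)) =
            (2 * Λ') ^ 2 * F x + (2 * Λ') ^ 2 * G₁ x + (2 * Λ') ^ 2 * G₂ x := by ring
        have e7 : 0 < b'.2 ^ 2 := by positivity
        show Λ' ^ 2 * (F x + G₁ x + G₂ x) < b'.2 ^ 2
        linarith
      · right
        intro x hx
        have e3 := h3 x hx
        show (Λ' * b'.2) ^ 2 < F x + G₁ x + G₂ x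
        linarith [hF0 x, (b1 x).1]
    · right
      intro x hx
      have e3 := hc1 x (hmono x hx)
      have e4 : (Λ' * b'.2) ^ 2 ≤ (2 * Λ' * b'.2) ^ 2 := by
        apply pow_le_pow_left₀ (by positivity)
        nlinarith [mul_pos hΛ'0 hb'0]
      show (Λ' * b'.2) ^ 2 < F x + G₁ x + G₂ x
      linarith [(b1 x).1, (b2 x).1]
  · intro x s hs hbad
    rcases h.below x s hs hbad with h3 | ⟨b', hb', h3, h4, h5⟩
    · left
      show (8 * s) ^ 2 < F x + G₁ x + G₂ x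
      linarith [(b1 x).1, (b2 x).1]
    · rcases List.mem_cons.1 hb' with h6 | h6
      · left
        subst h6
        have e1 : η * ‖x - b'.1‖ ≤ K * b'.2 := by
          calc η * ‖x - b'.1‖ ≤ 1 * (Λ₀ * b'.2) :=
                mul_le_mul hη1 h3 (norm_nonneg _) zero_le_one
            _ ≤ K * b'.2 := by
                rw [one_mul]
                exact mul_le_mul_of_nonneg_right (by linarith) hb.le
        have e3 : (8 * s) ^ 2 < (K * b'.2) ^ 2 := by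
          apply pow_lt_pow_left₀ _ (by positivity) two_ne_zero
          calc 8 * s ≤ 8 * (Λ₀ * b'.2) := mul_le_mul_of_nonneg_left h5 (by norm_num)
            _ = 8 * Λ₀ * b'.2 := by ring
            _ < K * b'.2 := mul_lt_mul_of_pos_right (by linarith) hb
        show (8 * s) ^ 2 < F x + G₁ x + G₂ x
        rw [e2 x e1]
        linarith [hF0 x, (b1 x).1]
      · right
        exact ⟨b', h6, h3, h4, h5⟩

end Pool.Agent.CEF
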