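import Pool.Agent.CEF.Defs

/-!
# CEF [Tra]: transport in the contracted direction
-/

set_option autoImplicit false

open scoped ContDiff Topology ENNReal
open Set Function Filter MeasureTheory

namespace Pool.Agent.CEF

open Pool.Agent.Helper17

lemma Tra_cs {g : ℝ → ℝ} (hg : Continuous g) {τ : ℝ} (hτ : 0 ≤ τ) :
    (∫ t in (0 : ℝ)..τ, g t) ^ 2 ≤ τ * ∫ t in (0 : ℝ)..τ, g t ^ 2 := by
  rcases hτ.eq_or_lt with h0 | h0
  · subst h0
    simp
  · set I := ∫ t in (0 : ℝ)..τ, g t with hI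
    have i1 : IntervalIntegrable g volume 0 τ := hg.intervalIntegrable _ _
    have i2 : IntervalIntegrable (fun t => g t ^ 2) volume 0 τ :=
      (hg.pow 2).intervalIntegrable _ _
    have h1 : 0 ≤ ∫ t in (0 : ℝ)..τ, (g t - I / τ) ^ 2 :=
      intervalIntegral.integral_nonneg hτ fun t _ => sq_nonneg _
    have h2 : ∫ t in (0 : ℝ)..τ, (g t - I / τ) ^ 2 =
        (∫ t in (0 : ℝ)..τ, g t ^ 2) - 2 * (I / τ) * I + τ * (I / τ) ^ 2 := by
      have e : ∀ t, (g t - I / τ) ^ 2 = g t ^ 2 - 2 * (I / τ) * g t + (I / τ) ^ 2 := fun t => by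
        ring
      simp only [e]
      rw [intervalIntegral.integral_add (i2.sub (i1.const_mul _)) intervalIntegrable_const,
        intervalIntegral.integral_sub i2 (i1.const_mul _), intervalIntegral.integral_const_mul,
        intervalIntegral.integral_const, ← hI, smul_eq_mul, sub_zero]
    rw [h2] at h1
    have h3 : (∫ t in (0 : ℝ)..τ, g t ^ 2) - 2 * (I / τ) * I + τ * (I / τ) ^ 2 =
        (∫ t in (0 : ℝ)..τ, g t ^ 2) - I ^ 2 / τ := by
      field_simp
      ring
    rw [h3, sub_nonneg, div_le_iff₀ h0] at h1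
    linarith

/-- the pointwise bound -/
lemma Tra_pt (n : ℕ) (h1 : St_Dir n) {f : Phase n → Phase n} (hf : ContDiff ℝ ∞ f)
    (hs : ∀ z, SympL (fderiv ℝ f z)) {A₀ P : Phase n →L[ℝ] Phase n} {e : Phase n}
    {lam τ T : ℝ} (hA : SympL A₀)
    (hP : ∀ X, ∃ w : Phase n, ‖w‖ = ‖P X‖ ∧ omegaStd w X = ‖P X‖ ^ 2 ∧ ∀ y, A₀ y = w → ‖y‖ ≤ ‖w‖)
    (hlam : ‖A₀ e‖ ≤ lam) (h0 : 0 ≤ τ) (hT : τ ≤ T) (z : Phase n) :
    ‖P (f (z + τ • e) - f z - τ • A₀ e)‖ ^ 2 ≤ lam ^ 2 * T *
      ∫ t in (0 : ℝ)..T, (2 + 4 * ‖fderiv ℝ f (z + t • e) - A₀‖ ^ 4) := by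
  have hlam0 : 0 ≤ lam := (norm_nonneg _).trans hlam
  have hT0 : 0 ≤ T := h0.trans hT
  have hfd : Differentiable ℝ f := hf.differentiable (by simp)
  have hfc : Continuous (fun z => fderiv ℝ f z) := hf.continuous_fderiv (by simp)
  have hc : Continuous fun t : ℝ => fderiv ℝ f (z + t • e) :=
    hfc.comp (by fun_prop)
  have hN : Continuous fun t : ℝ => ‖fderiv ℝ f (z + t • e) - A₀‖ := (hc.sub continuous_const).norm
  have hder : ∀ t : ℝ, HasDerivAt (fun t : ℝ => P (f (z + t • e) - t • A₀ e))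
      (P (fderiv ℝ f (z + t • e) e - A₀ e)) t := by
    intro t
    have a1 : HasDerivAt (fun t : ℝ => z + t • e) e t := by
      have := ((hasDerivAt_id t).smul_const e).const_add z
      simpa using this
    have a2 : HasDerivAt (fun t : ℝ => f (z + t • e)) (fderiv ℝ f (z + t • e) e) t :=
      (hfd (z + t • e)).hasFDerivAt.comp_hasDerivAt t a1
    have a3 : HasDerivAt (fun t : ℝ => t • A₀ e) (A₀ e) t := by
      have := (hasDerivAt_id t).smul_const (A₀ e)
      simpa using this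
    exact P.hasFDerivAt.comp_hasDerivAt t (a2.sub a3)
  have hdc : Continuous fun t : ℝ => P (fderiv ℝ f (z + t • e) e - A₀ e) := by
    refine P.continuous.comp (Continuous.sub ?_ continuous_const)
    exact hc.clm_apply continuous_const
  have hint : ∫ t in (0 : ℝ)..τ, P (fderiv ℝ f (z + t • e) e - A₀ e) =
      P (f (z + τ • e) - f z - τ • A₀ e) := by
    rw [intervalIntegral.integral_eq_sub_of_hasDerivAt (fun t _ => hder t)
      (hdc.intervalIntegrable _ _), ← map_sub]
    congr 1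
    simp only [zero_smul, add_zero, sub_zero]
    abel
  rw [← hint]
  have hb : ∀ t : ℝ, ‖P (fderiv ℝ f (z + t • e) e - A₀ e)‖ ≤
      lam * (‖fderiv ℝ f (z + t • e) - A₀‖ * (1 + ‖fderiv ℝ f (z + t • e) - A₀‖)) := by
    intro t
    have := h1 A₀ (fderiv ℝ f (z + t • e)) P hA (hs _) hP e
    refine this.trans ?_
    rw [mul_comm lam]
    exact mul_le_mul_of_nonneg_left hlam (by positivity)
  have e1 : ‖∫ t in (0 : ℝ)..τ, P (fderiv ℝ f (z + t • e) e - A₀ e)‖ ≤
      ∫ t in (0 : ℝ)..τ, lam * (‖fderiv ℝ f (z + t • e) - A₀‖ *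
        (1 + ‖fderiv ℝ f (z + t • e) - A₀‖)) := by
    refine (intervalIntegral.norm_integral_le_integral_norm h0).trans ?_
    refine intervalIntegral.integral_mono_on h0 (hdc.norm.intervalIntegrable _ _) ?_
      fun t _ => hb t
    exact (continuous_const.mul (hN.mul (continuous_const.add hN))).intervalIntegrable _ _
  rw [intervalIntegral.integral_const_mul] at e1
  have e2 : (∫ t in (0 : ℝ)..τ, ‖fderiv ℝ f (z + t • e) - A₀‖ *
      (1 + ‖fderiv ℝ f (z + t • e) - A₀‖)) ^ 2 ≤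
      T * ∫ t in (0 : ℝ)..T, (2 + 4 * ‖fderiv ℝ f (z + t • e) - A₀‖ ^ 4) := by
    refine (Tra_cs (hN.mul (continuous_const.add hN)) h0).trans ?_
    have e3 : ∫ t in (0 : ℝ)..τ, (‖fderiv ℝ f (z + t • e) - A₀‖ *
        (1 + ‖fderiv ℝ f (z + t • e) - A₀‖)) ^ 2 ≤
        ∫ t in (0 : ℝ)..τ, (2 + 4 * ‖fderiv ℝ f (z + t • e) - A₀‖ ^ 4) := by
      refine intervalIntegral.integral_mono_on h0
        (((hN.mul (continuous_const.add hN)).pow 2).intervalIntegrable _ _)
        ((continuous_const.add (continuous_const.mul (hN.pow 4))).intervalIntegrable _ _) ?_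
      intro t _
      set x := ‖fderiv ℝ f (z + t • e) - A₀‖ with hx
      have hx0 : 0 ≤ x := norm_nonneg _
      nlinarith [sq_nonneg (x ^ 2 - 1), sq_nonneg (x ^ 2 - x), sq_nonneg (x - 1), sq_nonneg x,
        sq_nonneg (x ^ 2)]
    have e4 : ∫ t in (0 : ℝ)..τ, (2 + 4 * ‖fderiv ℝ f (z + t • e) - A₀‖ ^ 4) ≤
        ∫ t in (0 : ℝ)..T, (2 + 4 * ‖fderiv ℝ f (z + t • e) - A₀‖ ^ 4) := by
      refine intervalIntegral.integral_mono_interval le_rfl h0 hT ?_
        ((continuous_const.add (continuous_const.mul (hN.pow 4))).intervalIntegrable _ _)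
      exact Eventually.of_forall fun t => by
        show (0 : ℝ) ≤ _
        positivity
    have e5 : 0 ≤ ∫ t in (0 : ℝ)..T, (2 + 4 * ‖fderiv ℝ f (z + t • e) - A₀‖ ^ 4) :=
      intervalIntegral.integral_nonneg hT0 fun t _ => by positivity
    calc τ * _ ≤ τ * ∫ t in (0 : ℝ)..T, (2 + 4 * ‖fderiv ℝ f (z + t • e) - A₀‖ ^ 4) :=
          mul_le_mul_of_nonneg_left (e3.trans e4) h0
      _ ≤ _ := mul_le_mul_of_nonneg_right hT e5
  calc ‖∫ t in (0 : ℝ)..τ, P (fderiv ℝ f (z + t • e) e - A₀ e)‖ ^ 2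
      ≤ (lam * ∫ t in (0 : ℝ)..τ, ‖fderiv ℝ f (z + t • e) - A₀‖ *
        (1 + ‖fderiv ℝ f (z + t • e) - A₀‖)) ^ 2 :=
        pow_le_pow_left₀ (norm_nonneg _) e1 2
    _ = lam ^ 2 * (∫ t in (0 : ℝ)..τ, ‖fderiv ℝ f (z + t • e) - A₀‖ *
        (1 + ‖fderiv ℝ f (z + t • e) - A₀‖)) ^ 2 := by ring
    _ ≤ lam ^ 2 * (T * ∫ t in (0 : ℝ)..T, (2 + 4 * ‖fderiv ℝ f (z + t • e) - A₀‖ ^ 4)) :=
        mul_le_mul_of_nonneg_left e2 (sq_nonneg _)
    _ = _ := by ring

/-- continuity and exchange of the integrals -/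
lemma Tra_fub {n : ℕ} (F : ℝ → Phase n → ℝ) (hF : Continuous (uncurry F)) {T : ℝ} (hT : 0 ≤ T) :
    Continuous (fun z => ∫ t in (0 : ℝ)..T, F t z) ∧
    Continuous (fun t => ∫ z in Metric.closedBall (0 : Phase n) 1, F t z) ∧
    ∫ t in (0 : ℝ)..T, ∫ z in Metric.closedBall (0 : Phase n) 1, F t z =
      ∫ z in Metric.closedBall (0 : Phase n) 1, ∫ t in (0 : ℝ)..T, F t z := by
  have hK : IsCompact (Metric.closedBall (0 : Phase n) 1) := isCompact_closedBall _ _
  refine ⟨?_, ?_, ?_⟩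
  · have h1 : Continuous (uncurry fun (z : Phase n) (t : ℝ) => F t z) :=
      hF.comp (continuous_snd.prodMk continuous_fst)
    exact intervalIntegral.continuous_parametric_intervalIntegral_of_continuous' h1 0 T
  · exact continuous_parametric_integral_of_continuous hF hK
  · refine intervalIntegral_integral_swap ?_
    rw [Measure.prod_restrict]
    have : IntegrableOn (uncurry F) (Icc (0 : ℝ) T ×ˢ Metric.closedBall (0 : Phase n) 1)
        (volume.prod volume) :=
      hF.continuousOn.integrableOn_compact (isCompact_Icc.prod hK)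
    refine this.mono_set (prod_mono ?_ le_rfl)
    rw [uIoc_of_le hT]
    exact Ioc_subset_Icc_self

theorem thm_Tra (n : ℕ) (h1 : St_Dir n) : St_Tra n := by
  intro T hT
  set V : ℝ := volume.real (Metric.closedBall (0 : Phase n) 1) with hV
  have hV0 : 0 ≤ V := measureReal_nonneg
  refine ⟨T ^ 2 * (2 * V + 4), by positivity, ?_⟩
  intro f hf hs A₀ P e lam τ J hA hP he hlam h0 hτ hJ
  have hfd : Differentiable ℝ f := hf.differentiable (by simp)
  have hfc : Continuous (fun z => fderiv ℝ f z) := hf.continuous_fderiv (by simp)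
  have hK : IsCompact (Metric.closedBall (0 : Phase n) 1) := isCompact_closedBall _ _
  have hF : Continuous fun q : ℝ × Phase n =>
      (2 + 4 * ‖fderiv ℝ f (q.2 + q.1 • e) - A₀‖ ^ 4 : ℝ) := by
    refine continuous_const.add (continuous_const.mul (Continuous.pow ?_ 4))
    exact ((hfc.comp (by fun_prop)).sub continuous_const).norm
  have hJ0 : 0 ≤ J := le_trans (integral_nonneg fun z => by positivity) hJ
  -- the integral over the ball, for fixed `t`
  have hball : ∀ t ∈ Icc (0 : ℝ) T, ∫ z in Metric.closedBall (0 : Phase n) 1,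
      (2 + 4 * ‖fderiv ℝ f (z + t • e) - A₀‖ ^ 4) ≤ 2 * V + 4 * J := by
    intro t ht
    have hc : Continuous fun z : Phase n => ‖fderiv ℝ f (z + t • e) - A₀‖ ^ 4 :=
      (((hfc.comp (by fun_prop)).sub continuous_const).norm).pow 4
    have hc' : Continuous fun z : Phase n => ‖fderiv ℝ f z - A₀‖ ^ 4 :=
      ((hfc.sub continuous_const).norm).pow 4
    have hcst : IntegrableOn (fun _ : Phase n => (2 : ℝ)) (Metric.closedBall (0 : Phase n) 1)
        volume := continuous_const.continuousOn.integrableOn_compact hK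
    rw [integral_add hcst
      ((hc.continuousOn.integrableOn_compact hK).const_mul 4), integral_const_mul,
      setIntegral_const, smul_eq_mul, mul_comm V]
    have h2 : ∫ z in Metric.closedBall (0 : Phase n) 1, ‖fderiv ℝ f (z + t • e) - A₀‖ ^ 4 ≤ J := by
      refine le_trans ?_ hJ
      have h3 : ∫ z in Metric.closedBall (0 : Phase n) 1, ‖fderiv ℝ f (z + t • e) - A₀‖ ^ 4 =
          ∫ z in Metric.closedBall (t • e) 1, ‖fderiv ℝ f z - A₀‖ ^ 4 := by
        have h4 : (fun z : Phase n => z + t • e) ⁻¹' Metric.closedBall (t • e) 1 =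
            Metric.closedBall (0 : Phase n) 1 := by
          ext z
          simp [dist_eq_norm]
        rw [← h4]
        exact (measurePreserving_add_right volume (t • e)).setIntegral_preimage_emb
          (MeasurableEquiv.addRight (t • e)).measurableEmbedding
          (fun z => ‖fderiv ℝ f z - A₀‖ ^ 4) _
      rw [h3]
      refine setIntegral_mono_set
        (hc'.continuousOn.integrableOn_compact (isCompact_closedBall _ _))
        (Eventually.of_forall fun z => by
          show (0 : ℝ) ≤ _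
          positivity) (Eventually.of_forall ?_)
      intro z hz
      have hz' : ‖z - t • e‖ ≤ 1 := by
        have : z ∈ Metric.closedBall (t • e) 1 := hz
        rwa [Metric.mem_closedBall, dist_eq_norm] at this
      show z ∈ Metric.closedBall (0 : Phase n) (T + 1)
      rw [Metric.mem_closedBall, dist_eq_norm, sub_zero]
      have h5 : ‖t • e‖ ≤ T := by
        rw [norm_smul, he, mul_one, Real.norm_eq_abs, abs_of_nonneg ht.1]
        exact ht.2
      calc ‖z‖ = ‖t • e + (z - t • e)‖ := by rw [add_sub_cancel]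
        _ ≤ ‖t • e‖ + ‖z - t • e‖ := norm_add_le _ _
        _ ≤ T + 1 := by linarith
    linarith
  have hpt := fun z => Tra_pt n h1 hf hs hA hP hlam h0 hτ z
  have hG : Continuous fun z : Phase n => ‖P (f (z + τ • e) - f z - τ • A₀ e)‖ ^ 2 := by
    refine Continuous.pow (Continuous.norm (P.continuous.comp ?_)) 2
    exact ((hfd.continuous.comp (by fun_prop)).sub hfd.continuous).sub continuous_const
  obtain ⟨hI2', hI3, hsw⟩ := Tra_fub (fun (t : ℝ) (z : Phase n) =>
    (2 + 4 * ‖fderiv ℝ f (z + t • e) - A₀‖ ^ 4 : ℝ)) hF hT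
  have hI2 : IntegrableOn (fun z : Phase n => ∫ t in (0 : ℝ)..T,
      (2 + 4 * ‖fderiv ℝ f (z + t • e) - A₀‖ ^ 4)) (Metric.closedBall (0 : Phase n) 1) :=
    hI2'.continuousOn.integrableOn_compact hK
  calc ∫ z in Metric.closedBall (0 : Phase n) 1, ‖P (f (z + τ • e) - f z - τ • A₀ e)‖ ^ 2
      ≤ ∫ z in Metric.closedBall (0 : Phase n) 1, lam ^ 2 * T *
        ∫ t in (0 : ℝ)..T, (2 + 4 * ‖fderiv ℝ f (z + t • e) - A₀‖ ^ 4) :=
        setIntegral_mono (hG.continuousOn.integrableOn_compact hK) (hI2.const_mul _) hpt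
    _ = lam ^ 2 * T * ∫ t in (0 : ℝ)..T, ∫ z in Metric.closedBall (0 : Phase n) 1,
        (2 + 4 * ‖fderiv ℝ f (z + t • e) - A₀‖ ^ 4) := by
        rw [integral_const_mul, hsw]
    _ ≤ lam ^ 2 * T * ∫ _t in (0 : ℝ)..T, (2 * V + 4 * J) := by
        refine mul_le_mul_of_nonneg_left ?_ (by positivity)
        exact intervalIntegral.integral_mono_on hT (hI3.intervalIntegrable _ _)
          intervalIntegrable_const hball
    _ = T ^ 2 * lam ^ 2 * (2 * V + 4 * J) := by
        rw [intervalIntegral.integral_const, sub_zero, smul_eq_mul]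
        ring
    _ ≤ T ^ 2 * lam ^ 2 * ((2 * V + 4) * (1 + J)) := by
        refine mul_le_mul_of_nonneg_left ?_ (by positivity)
        nlinarith
    _ = T ^ 2 * (2 * V + 4) * lam ^ 2 * (1 + J) := by ring

end Pool.Agent.CEF
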