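import Pool.Agent.CEF.Defs
import Pool.Agent.Helper17.SobolevVar

/-!
# CEF, module Var: small oscillation gives a nearly symplectic average
-/

set_option autoImplicit false
set_option maxSynthPendingDepth 3

open scoped ContDiff Topology ENNReal
open Set Function Filter MeasureTheory

namespace Pool.Agent.CEF

open Pool.Agent.Helper17

variable {n : ℕ}

/-- the mean over the kernel is bounded by the integral over the ball -/
private lemma Var_eta (n : ℕ) : ∃ M : ℝ, 0 ≤ M ∧ ∀ f : Phase n → ℝ, Continuous f → (∀ z, 0 ≤ f z) →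
    ∫ z, f z ∂(etaMeasure n) ≤ M * ∫ z in Metric.closedBall (0 : Phase n) 1, f z := by
  obtain ⟨C, hC⟩ := (hasCompactSupport_eta (Phase n)).exists_bound_of_continuous
    (contDiff_eta (Phase n)).continuous
  refine ⟨max C 0, le_max_right _ _, fun f hf hf0 => ?_⟩
  rw [integral_etaMeasure]
  have h1 : ∫ z, eta (Phase n) z • f z =
      ∫ z in Metric.closedBall (0 : Phase n) 1, eta (Phase n) z • f z := by
    symm
    apply setIntegral_eq_integral_of_forall_compl_eq_zero
    intro z hz
    have h2 : eta (Phase n) z = 0 := eta_eq_zero _ (by simpa using hz)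
    rw [h2, zero_smul]
  rw [h1, ← integral_const_mul]
  have hc := isCompact_closedBall (0 : Phase n) 1
  apply setIntegral_mono_on
  · exact (((contDiff_eta (Phase n)).continuous.smul hf).continuousOn).integrableOn_compact hc
  · exact ((continuous_const.mul hf).continuousOn).integrableOn_compact hc
  · exact measurableSet_closedBall
  · intro z _
    rw [smul_eq_mul]
    refine mul_le_mul_of_nonneg_right ?_ (hf0 z)
    exact ((le_abs_self _).trans (hC z)).trans (le_max_left _ _)

private lemma Var_key (φ : SympCt n) (x : Phase n) (s : ℝ) (B : Phase n →L[ℝ] Phase n)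
    (v w : Phase n) :
    |omegaStd (kAvg (φ : Equiv.Perm (Phase n)) x s v) (kAvg (φ : Equiv.Perm (Phase n)) x s w) -
      omegaStd v w| ≤ (∫ z, ‖fderiv ℝ (φ : Equiv.Perm (Phase n)) (x + s • z) - B‖ ^ 2
        ∂(etaMeasure n)) * ‖v‖ * ‖w‖ := by
  set μ := etaMeasure n with hμd
  have hμ : μ (Metric.closedBall 0 1)ᶜ = 0 := etaMeasure_compl
  have hKd : kAvg (φ : Equiv.Perm (Phase n)) x s =
      ∫ z, fderiv ℝ (φ : Equiv.Perm (Phase n)) (x + s • z) ∂μ := (integral_etaMeasure _).symm
  set A := kAvg (φ : Equiv.Perm (Phase n)) x s with hA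
  set D : Phase n → Phase n →L[ℝ] Phase n := fun z =>
    fderiv ℝ (φ : Equiv.Perm (Phase n)) (x + s • z) with hD
  have hDc : Continuous D :=
    ((SympCt.contDiff φ).continuous_fderiv (by simp)).comp
      (continuous_const.add (continuous_const_smul s))
  have hDi : Integrable D μ := integrable_of_continuous_supp μ hμ hDc
  have hAv : ∀ v, A v = ∫ z, D z v ∂μ := fun v => by
    rw [hKd]
    exact ContinuousLinearMap.integral_apply hDi v
  have hDvi : ∀ v, Integrable (fun z => D z v) μ := fun v =>
    integrable_of_continuous_supp μ hμ (hDc.clm_apply continuous_const)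
  have hleft : ∀ v w, ∫ z, omegaStd (D z v) w ∂μ = omegaStd (A v) w := by
    intro v w
    have h1 : ∀ z, omegaStd (D z v) w = (omegaB n).flip w (D z v) := fun z => by
      simp [omegaB_apply]
    simp only [h1]
    rw [ContinuousLinearMap.integral_comp_comm _ (hDvi v), ← hAv]
    simp [omegaB_apply]
  have hright : ∀ v w, ∫ z, omegaStd w (D z v) ∂μ = omegaStd w (A v) := by
    intro v w
    have h1 : ∀ z, omegaStd w (D z v) = (omegaB n) w (D z v) := fun z => by
      simp [omegaB_apply]
    simp only [h1]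
    rw [ContinuousLinearMap.integral_comp_comm _ (hDvi v), ← hAv]
    simp [omegaB_apply]
  have hsymp : ∀ z, omegaStd (D z v) (D z w) = omegaStd v w := fun z => by
    rw [hD]
    simp only
    rw [φ.2.2.2.1]
  have hexp : ∀ z, omegaStd (D z v - A v) (D z w - A w) =
      omegaStd v w - omegaStd (D z v) (A w) - omegaStd (A v) (D z w) +
        omegaStd (A v) (A w) := by
    intro z
    rw [← hsymp z]
    simp only [omegaStd_sub_left, omegaStd_sub_right]
    ring
  have i1 : Integrable (fun z => omegaStd (D z v) (A w)) μ := by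
    have h1 : ∀ z, omegaStd (D z v) (A w) = (omegaB n).flip (A w) (D z v) :=
      fun z => by simp [omegaB_apply]
    simp only [h1]
    exact ContinuousLinearMap.integrable_comp _ (hDvi v)
  have i2 : Integrable (fun z => omegaStd (A v) (D z w)) μ := by
    have h1 : ∀ z, omegaStd (A v) (D z w) = (omegaB n) (A v) (D z w) :=
      fun z => by simp [omegaB_apply]
    simp only [h1]
    exact ContinuousLinearMap.integrable_comp _ (hDvi w)
  have hint : ∫ z, omegaStd (D z v - A v) (D z w - A w) ∂μ =
      omegaStd v w - omegaStd (A v) (A w) := by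
    simp only [hexp]
    have j1 : Integrable (fun z => omegaStd v w - omegaStd (D z v) (A w)) μ :=
      (integrable_const _).sub i1
    have j2 : Integrable (fun z => omegaStd v w - omegaStd (D z v) (A w) -
      omegaStd (A v) (D z w)) μ := j1.sub i2
    rw [integral_add j2 (integrable_const _), integral_sub j1 i2,
      integral_sub (integrable_const _) i1, hleft, hright]
    simp
  -- the mean square oscillation of single vectors
  have hcB : Continuous (fun z => ‖D z - B‖ ^ 2) := (hDc.sub continuous_const).norm.pow 2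
  have hvar : ∀ u, ∫ z, ‖D z u - A u‖ ^ 2 ∂μ ≤ (∫ z, ‖D z - B‖ ^ 2 ∂μ) * ‖u‖ ^ 2 := by
    intro u
    have h1 := integral_sub_mean_sq_le μ hμ (g := fun z => D z u)
      (hDc.clm_apply continuous_const) (B u)
    rw [← hAv u] at h1
    refine h1.trans ?_
    rw [← integral_mul_const]
    apply integral_mono
    · exact integrable_of_continuous_supp μ hμ
        (((hDc.clm_apply continuous_const).sub continuous_const).norm.pow 2)
    · exact integrable_of_continuous_supp μ hμ (hcB.mul continuous_const)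
    · intro z
      show ‖D z u - B u‖ ^ 2 ≤ ‖D z - B‖ ^ 2 * ‖u‖ ^ 2
      rw [← mul_pow]
      refine pow_le_pow_left₀ (norm_nonneg _) ?_ 2
      have := (D z - B).le_opNorm u
      simpa using this
  by_cases hv : v = 0
  · subst hv
    rw [map_zero, omegaStd_zero_left, omegaStd_zero_left]
    simp
  by_cases hw : w = 0
  · subst hw
    have h0 : ∀ u : Phase n, omegaStd u (0 : Phase n) = 0 := fun u => by
      have h1 := omegaStd_sub_right u (0 : Phase n) 0
      rwa [sub_self, sub_self] at h1
    rw [map_zero, h0, h0]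
    simp
  have hv0 : 0 < ‖v‖ := norm_pos_iff.2 hv
  have hw0 : 0 < ‖w‖ := norm_pos_iff.2 hw
  have c1 : ∀ u, Continuous (fun z => ‖D z u - A u‖ ^ 2) := fun u =>
    ((hDc.clm_apply continuous_const).sub continuous_const).norm.pow 2
  have hb : |∫ z, omegaStd (D z v - A v) (D z w - A w) ∂μ| ≤
      ∫ z, ((‖w‖ / ‖v‖ / 2) * ‖D z v - A v‖ ^ 2 + (‖v‖ / ‖w‖ / 2) * ‖D z w - A w‖ ^ 2) ∂μ := by
    refine (abs_integral_le_integral_abs).trans ?_
    apply integral_mono
    · apply Integrable.abs
      simp only [hexp]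
      exact (((integrable_const _).sub i1).sub i2).add (integrable_const _)
    · exact ((integrable_of_continuous_supp μ hμ (c1 v)).const_mul _).add
        ((integrable_of_continuous_supp μ hμ (c1 w)).const_mul _)
    · intro z
      show |omegaStd (D z v - A v) (D z w - A w)| ≤ _
      refine (abs_omegaStd_le _ _).trans ?_
      set a := ‖D z v - A v‖
      set b := ‖D z w - A w‖
      have h3 : (‖w‖ / ‖v‖ / 2) * a ^ 2 + (‖v‖ / ‖w‖ / 2) * b ^ 2 - a * b =
          (‖w‖ * a - ‖v‖ * b) ^ 2 / (2 * ‖v‖ * ‖w‖) := by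
        field_simp
        ring
      have h4 : 0 ≤ (‖w‖ * a - ‖v‖ * b) ^ 2 / (2 * ‖v‖ * ‖w‖) := by positivity
      linarith
  rw [hint, integral_add ((integrable_of_continuous_supp μ hμ (c1 v)).const_mul _)
    ((integrable_of_continuous_supp μ hμ (c1 w)).const_mul _), integral_const_mul,
    integral_const_mul] at hb
  rw [abs_sub_comm]
  refine hb.trans ?_
  have k1 := mul_le_mul_of_nonneg_left (hvar v) (by positivity : 0 ≤ ‖w‖ / ‖v‖ / 2)
  have k2 := mul_le_mul_of_nonneg_left (hvar w) (by positivity : 0 ≤ ‖v‖ / ‖w‖ / 2)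
  refine (add_le_add k1 k2).trans (le_of_eq ?_)
  field_simp
  ring

theorem thm_Var (n : ℕ) (h1 : St_Pt n) : St_Var n := by
  obtain ⟨-, C, hC0, hC⟩ := h1
  obtain ⟨M, hM0, hM⟩ := Var_eta n
  refine ⟨1 / (4 * (M * C + 1)), by positivity, ?_⟩
  intro φ x s hs hosc hbad
  apply hbad
  obtain ⟨z₀, -, hz⟩ := hC (φ : Equiv.Perm (Phase n)) (SympCt.contDiff φ)
    (1 / (4 * (M * C + 1))) (by positivity) x s hs hosc
  intro v w
  refine (Var_key φ x s (fderiv ℝ (φ : Equiv.Perm (Phase n)) (x + s • z₀)) v w).trans ?_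
  have hDc : Continuous fun z => fderiv ℝ (φ : Equiv.Perm (Phase n)) (x + s • z) :=
    ((SympCt.contDiff φ).continuous_fderiv (by simp)).comp
      (continuous_const.add (continuous_const_smul s))
  have h2 := hM (fun z => ‖fderiv ℝ (φ : Equiv.Perm (Phase n)) (x + s • z) -
    fderiv ℝ (φ : Equiv.Perm (Phase n)) (x + s • z₀)‖ ^ 2)
    ((hDc.sub continuous_const).norm.pow 2) (fun z => by positivity)
  have h3 : ∫ z, ‖fderiv ℝ (φ : Equiv.Perm (Phase n)) (x + s • z) -
      fderiv ℝ (φ : Equiv.Perm (Phase n)) (x + s • z₀)‖ ^ 2 ∂(etaMeasure n) ≤ 1 / 4 := by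
    refine h2.trans ((mul_le_mul_of_nonneg_left hz hM0).trans ?_)
    have h5 : 0 < M * C + 1 := by positivity
    have h4 : M * (C * (1 / (4 * (M * C + 1)))) = (1 / 4) * ((M * C) / (M * C + 1)) := by
      field_simp
    rw [h4]
    have h6 : (M * C) / (M * C + 1) ≤ 1 := by
      rw [div_le_one h5]
      linarith
    linarith
  have h4 : 0 ≤ ‖v‖ * ‖w‖ := by positivity
  calc _ = (∫ z, ‖fderiv ℝ (φ : Equiv.Perm (Phase n)) (x + s • z) -
      fderiv ℝ (φ : Equiv.Perm (Phase n)) (x + s • z₀)‖ ^ 2 ∂(etaMeasure n)) * (‖v‖ * ‖w‖) := by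
        ring
    _ ≤ 1 / 4 * (‖v‖ * ‖w‖) := mul_le_mul_of_nonneg_right h3 h4
    _ = 1 / 4 * ‖v‖ * ‖w‖ := by ring

end Pool.Agent.CEF
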