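import Mathlib
import Pool.Agent.CEF.Defs

set_option maxSynthPendingDepth 3

/-!
# CEF / Vm1: first derivatives of the mollification at a variable scale
-/

open scoped ContDiff Topology ENNReal
open Set Function Filter MeasureTheory

namespace Pool.Agent.CEF

open Pool.Agent.Helper17

variable {n : ℕ}

theorem Vm1_eta_bound (n : ℕ) : ∃ M : ℝ, 0 ≤ M ∧ ∀ z, eta (Phase n) z ≤ M := by
  obtain ⟨C, hC⟩ := (hasCompactSupport_eta (Phase n)).exists_bound_of_continuous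
    (contDiff_eta (Phase n)).continuous
  exact ⟨C, (norm_nonneg _).trans (hC 0), fun z => (le_abs_self _).trans (hC z)⟩

/-- the integral of a continuous function against `eta` is bounded by that of its fourth power -/
theorem Vm1_int_le {M : ℝ} (hM0 : 0 ≤ M) (hM : ∀ z, eta (Phase n) z ≤ M) {g : Phase n → ℝ}
    (hg : Continuous g) (hg0 : ∀ z, 0 ≤ g z) {F : Phase n → Phase n}
    (hF : ∀ z, ‖z‖ ≤ 1 → ‖F z‖ ≤ g z) :
    ‖∫ z, F z ∂(etaMeasure n)‖ ≤ M * ((volume.real (Metric.closedBall (0 : Phase n) 1)) +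
      ∫ z in Metric.closedBall (0 : Phase n) 1, g z ^ 4) := by
  rw [integral_etaMeasure]
  have h0 : ∫ z, eta (Phase n) z • F z =
      ∫ z in Metric.closedBall (0 : Phase n) 1, eta (Phase n) z • F z := by
    symm
    apply setIntegral_eq_integral_of_forall_compl_eq_zero
    intro z hz
    rw [eta_eq_zero (Phase n) (by simpa using hz), zero_smul]
  have hi4 : IntegrableOn (fun z => g z ^ 4) (Metric.closedBall (0 : Phase n) 1) :=
    (hg.pow 4).continuousOn.integrableOn_compact (isCompact_closedBall _ _)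
  have hi1 : IntegrableOn (fun _ : Phase n => (1 : ℝ)) (Metric.closedBall (0 : Phase n) 1) :=
    continuous_const.continuousOn.integrableOn_compact (isCompact_closedBall _ _)
  have h1 : ∫ z in Metric.closedBall (0 : Phase n) 1, M * (1 + g z ^ 4) =
      M * ((volume.real (Metric.closedBall (0 : Phase n) 1)) +
      ∫ z in Metric.closedBall (0 : Phase n) 1, g z ^ 4) := by
    rw [integral_const_mul, integral_add hi1 hi4]
    simp
  rw [h0, ← h1]
  apply norm_integral_le_of_norm_le ((hi1.add hi4).const_mul M)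
  filter_upwards [ae_restrict_mem (measurableSet_closedBall (x := (0 : Phase n)))] with z hz
  have hz1 : ‖z‖ ≤ 1 := by simpa using hz
  rw [norm_smul, Real.norm_of_nonneg (eta_nonneg (Phase n) z)]
  have h2 : g z ≤ 1 + g z ^ 4 := by
    rcases le_or_gt (g z) 1 with h | h
    · have := pow_nonneg (hg0 z) 4
      linarith
    · have := le_self_pow₀ h.le (show (4 : ℕ) ≠ 0 by norm_num)
      linarith
  exact mul_le_mul (hM z) ((hF z hz1).trans h2) (norm_nonneg _) hM0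

/-- the formula for the derivative -/
theorem Vm1_fderiv {φ : Phase n → Phase n} (hφ : ContDiff ℝ ∞ φ) {ρ : Phase n → ℝ}
    (hρ : ContDiff ℝ ∞ ρ) (x v : Phase n) :
    fderiv ℝ (vmol φ ρ) x v = kAvg φ x (ρ x) v + fderiv ℝ ρ x v • kQ φ x (ρ x) := by
  have hc1 : Continuous (fun z => fderiv ℝ φ (x + ρ x • z)) :=
    (hφ.continuous_fderiv (by simp)).comp (continuous_const.add (continuous_const_smul _))
  have hc2 : Continuous (fun z : Phase n => (fderiv ℝ ρ x).smulRight z) :=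
    (ContinuousLinearMap.smulRightL ℝ (Phase n) (Phase n) (fderiv ℝ ρ x)).continuous
  have hc3 : Continuous (fun z => (fderiv ℝ φ (x + ρ x • z)).comp
      (ContinuousLinearMap.id ℝ (Phase n) + (fderiv ℝ ρ x).smulRight z)) :=
    hc1.clm_comp (continuous_const.add hc2)
  have hc4 : Continuous (fun z => fderiv ℝ φ (x + ρ x • z) v) := hc1.clm_apply continuous_const
  have hc5 : Continuous (fun z => fderiv ℝ φ (x + ρ x • z) z) := hc1.clm_apply continuous_id
  rw [(hasFDerivAt_vmol hφ hρ x).fderiv, kAvg_eq,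
    ContinuousLinearMap.integral_apply (integrable_etaMeasure hc3),
    ContinuousLinearMap.integral_apply (integrable_etaMeasure hc1), kQ, ← integral_smul]
  have hc6 : Continuous (fun z => fderiv ℝ ρ x v • fderiv ℝ φ (x + ρ x • z) z) :=
    (continuous_const_smul (fderiv ℝ ρ x v)).comp hc5
  rw [← integral_add (integrable_etaMeasure hc4) (integrable_etaMeasure hc6)]
  congr 1
  ext1 z
  simp

/-- subtraction of a constant matrix from the first moment -/
theorem Vm1_kQ {φ : Phase n → Phase n} (hφ : ContDiff ℝ ∞ φ) (x : Phase n) (s : ℝ)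
    (B : Phase n →L[ℝ] Phase n) :
    kQ φ x s = ∫ z, (fderiv ℝ φ (x + s • z) - B) z ∂(etaMeasure n) := by
  have hc1 : Continuous (fun z => fderiv ℝ φ (x + s • z)) :=
    (hφ.continuous_fderiv (by simp)).comp (continuous_const.add (continuous_const_smul _))
  have hc5 : Continuous (fun z => fderiv ℝ φ (x + s • z) z) := hc1.clm_apply continuous_id
  have h2 : ∫ z, B z ∂(etaMeasure n) = 0 := by
    have h3 := ContinuousLinearMap.integral_comp_comm B
      (integrable_etaMeasure (n := n) (g := fun z => z) continuous_id)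
    rw [integral_etaMeasure_id, map_zero] at h3
    exact h3
  have h4 : ∫ z, (fderiv ℝ φ (x + s • z) - B) z ∂(etaMeasure n) =
      ∫ z, fderiv ℝ φ (x + s • z) z ∂(etaMeasure n) - ∫ z, B z ∂(etaMeasure n) := by
    rw [← integral_sub (integrable_etaMeasure hc5) (integrable_etaMeasure B.continuous)]
    rfl
  rw [h4, h2, sub_zero, kQ]

/-- the oscillation integrals of a rescaled map -/
theorem Vm1_osc {φ : Phase n → Phase n} (hφ : ContDiff ℝ ∞ φ) (x : Phase n) {s : ℝ} (hs : 0 < s)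
    (q : ℕ) : (∀ y, fderiv ℝ (fun z => s⁻¹ • φ (x + s • z)) y = fderiv ℝ φ (x + s • y)) ∧
      ∀ (y : Phase n) (t : ℝ), osc q (fun z => s⁻¹ • φ (x + s • z)) y t =
        osc q φ (x + s • y) (s * t) := by
  have h1 : ∀ y, fderiv ℝ (fun z => s⁻¹ • φ (x + s • z)) y = fderiv ℝ φ (x + s • y) := by
    intro y
    have h2 : HasFDerivAt (fun z : Phase n => x + s • z)
        (s • ContinuousLinearMap.id ℝ (Phase n)) y :=
      ((hasFDerivAt_id y).const_smul s).const_add x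
    have h3 : HasFDerivAt (fun z : Phase n => s⁻¹ • φ (x + s • z))
        (s⁻¹ • (fderiv ℝ φ (x + s • y)).comp (s • ContinuousLinearMap.id ℝ (Phase n))) y :=
      ((hφ.differentiable (by simp) (x + s • y)).hasFDerivAt.comp y h2).const_smul s⁻¹
    rw [h3.fderiv]
    ext1 v
    simp [smul_smul, hs.ne']
  refine ⟨h1, fun y t => ?_⟩
  have h4 : ∀ z : Phase n, x + s • (y + t • z) = x + s • y + (s * t) • z := fun z => by
    rw [smul_add, smul_smul, add_assoc]
  unfold osc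
  simp only [h1, h4]

/-- the point values of [Pt] (4) for `R = 1` and all real scales -/
theorem Vm1_pt (h1 : St_Pt n) (c : ℝ) : ∃ C : ℝ, 0 ≤ C ∧ ∀ φ : Phase n → Phase n,
    ContDiff ℝ ∞ φ → (∀ x s, 0 < s → osc 4 φ x s ≤ ENNReal.ofReal c) →
    ∀ (x : Phase n) (s : ℝ), 0 < s → ∃ z₀ : Phase n, ‖z₀‖ ≤ 1 ∧
      ∫ z in Metric.closedBall (0 : Phase n) 1,
        ‖fderiv ℝ φ (x + s • z) - fderiv ℝ φ (x + s • z₀)‖ ^ 4 ≤ C := by
  obtain ⟨C₁, hC₁, hP⟩ := h1.1 c 1 le_rfl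
  refine ⟨C₁, hC₁, fun φ hφ hosc x s hs => ?_⟩
  obtain ⟨hf, ho⟩ := Vm1_osc hφ x hs 4
  have hsm : ContDiff ℝ ∞ (fun z : Phase n => s⁻¹ • φ (x + s • z)) :=
    (hφ.comp (contDiff_const.add (contDiff_const_smul s))).const_smul s⁻¹
  obtain ⟨z₀, hz, h2⟩ := hP _ hsm (fun y t ht => by
    rw [ho]
    exact hosc _ _ (mul_pos hs ht)) 0 1 one_pos
  refine ⟨z₀, hz, ?_⟩
  simpa only [hf, zero_add, one_smul] using h2

/-- [Vm1] -/
theorem thm_Vm1 (n : ℕ) (h1 : St_Pt n) : St_Vm1 n := by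
  intro c
  obtain ⟨C₁, hC₁, hP⟩ := Vm1_pt h1 c
  obtain ⟨M, hM0, hM⟩ := Vm1_eta_bound n
  obtain ⟨q, hq⟩ : ∃ q : ℝ, q = M * ((volume.real (Metric.closedBall (0 : Phase n) 1)) + C₁) :=
    ⟨_, rfl⟩
  have hq0 : 0 ≤ q := by
    rw [hq]
    have : 0 ≤ volume.real (Metric.closedBall (0 : Phase n) 1) := measureReal_nonneg
    positivity
  refine ⟨2 * q, by positivity, fun φ hφ hosc ρ hρ x hx => ?_⟩
  obtain ⟨z₀, -, hz₀⟩ := hP φ hφ hosc x (ρ x) hx
  obtain ⟨B, hB⟩ : ∃ B, B = fderiv ℝ φ (x + ρ x • z₀) := ⟨_, rfl⟩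
  rw [← hB] at hz₀
  have hc1 : Continuous (fun z => fderiv ℝ φ (x + ρ x • z)) :=
    (hφ.continuous_fderiv (by simp)).comp (continuous_const.add (continuous_const_smul _))
  have hQ : ‖kQ φ x (ρ x)‖ ≤ q := by
    rw [Vm1_kQ hφ x (ρ x) B]
    refine (Vm1_int_le hM0 hM (g := fun z => ‖fderiv ℝ φ (x + ρ x • z) - B‖)
      (hc1.sub continuous_const).norm (fun z => norm_nonneg _) (fun z hz => ?_)).trans ?_
    · refine (ContinuousLinearMap.le_opNorm _ _).trans ?_
      exact mul_le_of_le_one_right (norm_nonneg _) hz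
    · rw [hq]
      apply mul_le_mul_of_nonneg_left _ hM0
      linarith
  obtain ⟨Q, hQdef⟩ : ∃ Q, Q = kQ φ x (ρ x) := ⟨_, rfl⟩
  obtain ⟨K, hK⟩ : ∃ K, K = kAvg φ x (ρ x) := ⟨_, rfl⟩
  obtain ⟨ℓ, hℓ⟩ : ∃ ℓ, ℓ = fderiv ℝ ρ x := ⟨_, rfl⟩
  have hD : ∀ v, fderiv ℝ (vmol φ ρ) x v = K v + ℓ v • Q := fun v => by
    rw [hQdef, hK, hℓ]
    exact Vm1_fderiv hφ hρ x v
  rw [← hQdef] at hQ
  rw [← hK, ← hℓ]
  have hℓv : ∀ v, |ℓ v| ≤ ‖ℓ‖ * ‖v‖ := fun v => by
    rw [← Real.norm_eq_abs]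
    exact ℓ.le_opNorm v
  have hn : 0 ≤ ‖ℓ‖ := norm_nonneg _
  constructor
  · apply ContinuousLinearMap.opNorm_le_bound _ (by positivity)
    intro v
    rw [sub_apply, hD, add_sub_cancel_left, norm_smul, Real.norm_eq_abs]
    calc |ℓ v| * ‖Q‖ ≤ (‖ℓ‖ * ‖v‖) * q :=
          mul_le_mul (hℓv v) hQ (norm_nonneg _) (by positivity)
      _ ≤ (‖ℓ‖ * ‖v‖) * (2 * q) := by
          apply mul_le_mul_of_nonneg_left _ (by positivity)
          linarith
      _ = 2 * q * ‖ℓ‖ * ‖v‖ := by ring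
  · intro θ hθ v w
    rw [hD, hD, omegaStd_add_left, omegaStd_add_right, omegaStd_add_right, omegaStd_smul_left,
      omegaStd_smul_right, omegaStd_smul_left, omegaStd_smul_right, omegaStd_self]
    have hKu : ∀ u, ‖K u‖ ≤ ‖K‖ * ‖u‖ := fun u => K.le_opNorm u
    have e1 := hθ v w
    have e2 : |ℓ w * omegaStd (K v) Q| ≤ q * ‖ℓ‖ * ‖K‖ * ‖v‖ * ‖w‖ := by
      rw [abs_mul]
      calc |ℓ w| * |omegaStd (K v) Q| ≤ (‖ℓ‖ * ‖w‖) * ((‖K‖ * ‖v‖) * q) := by
            apply mul_le_mul (hℓv w) _ (abs_nonneg _) (by positivity)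
            exact (abs_omegaStd_le _ _).trans (mul_le_mul (hKu v) hQ (norm_nonneg _)
              (by positivity))
        _ = q * ‖ℓ‖ * ‖K‖ * ‖v‖ * ‖w‖ := by ring
    have e3 : |ℓ v * omegaStd Q (K w)| ≤ q * ‖ℓ‖ * ‖K‖ * ‖v‖ * ‖w‖ := by
      rw [abs_mul]
      calc |ℓ v| * |omegaStd Q (K w)| ≤ (‖ℓ‖ * ‖v‖) * (q * (‖K‖ * ‖w‖)) := by
            apply mul_le_mul (hℓv v) _ (abs_nonneg _) (by positivity)
            exact (abs_omegaStd_le _ _).trans (mul_le_mul hQ (hKu w) (norm_nonneg _)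
              (by positivity))
        _ = q * ‖ℓ‖ * ‖K‖ * ‖v‖ * ‖w‖ := by ring
    have e4 : 0 ≤ q * ‖ℓ‖ * ‖v‖ * ‖w‖ := by positivity
    have e5 : (θ + 2 * q * (‖ℓ‖ * (1 + ‖K‖))) * ‖v‖ * ‖w‖ = θ * ‖v‖ * ‖w‖ +
        2 * (q * ‖ℓ‖ * ‖v‖ * ‖w‖) + 2 * (q * ‖ℓ‖ * ‖K‖ * ‖v‖ * ‖w‖) := by ring
    rw [e5]
    have e6 : omegaStd (K v) (K w) + ℓ w * omegaStd (K v) Q +
        (ℓ v * omegaStd Q (K w) + ℓ v * (ℓ w * 0)) - omegaStd v w =
        (omegaStd (K v) (K w) - omegaStd v w) + ℓ w * omegaStd (K v) Q +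
          ℓ v * omegaStd Q (K w) := by ring
    rw [e6]
    have e7 := abs_add_le ((omegaStd (K v) (K w) - omegaStd v w) + ℓ w * omegaStd (K v) Q)
      (ℓ v * omegaStd Q (K w))
    have e8 := abs_add_le (omegaStd (K v) (K w) - omegaStd v w) (ℓ w * omegaStd (K v) Q)
    linarith

end Pool.Agent.CEF
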