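import Mathlib
import Pool.Agent.CEF.Defs

set_option maxSynthPendingDepth 3

open scoped ContDiff Topology ENNReal
open Set Function Filter MeasureTheory

/-!
# [Vm2] Second derivatives of the mollification at a variable scale
-/

namespace Pool.Agent.CEF

open Pool.Agent.Helper17

variable {n : ℕ}

/-- The first moments of the kernel. -/
noncomputable def Vm2_z (n : ℕ) (i : Fin n ⊕ Fin n) (z : Phase n) : ℝ := eta (Phase n) z * z i

lemma Vm2_z_smooth (i : Fin n ⊕ Fin n) : ContDiff ℝ ∞ (Vm2_z n i) :=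
  (contDiff_eta (Phase n)).mul (EuclideanSpace.proj i : Phase n →L[ℝ] ℝ).contDiff

lemma Vm2_z_supp (i : Fin n ⊕ Fin n) (z : Phase n) (hz : 1 < ‖z‖) : Vm2_z n i z = 0 := by
  rw [Vm2_z, eta_eq_zero _ hz, zero_mul]

lemma Vm2_cont {φ : Phase n → Phase n} (hφ : ContDiff ℝ ∞ φ) (x : Phase n) (s : ℝ) :
    Continuous (fun z : Phase n => fderiv ℝ φ (x + s • z)) :=
  (hφ.continuous_fderiv (by simp)).comp (continuous_const.add (continuous_const_smul _))

lemma Vm2_int {φ : Phase n → Phase n} (hφ : ContDiff ℝ ∞ φ) (x : Phase n) (s : ℝ)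
    (i : Fin n ⊕ Fin n) :
    Integrable (fun z : Phase n => Vm2_z n i z • fderiv ℝ φ (x + s • z)) := by
  have h1 : Continuous (fun z : Phase n => z i • fderiv ℝ φ (x + s • z)) :=
    (EuclideanSpace.proj i : Phase n →L[ℝ] ℝ).continuous.smul (Vm2_cont hφ x s)
  refine (integrable_eta_smul h1).congr (Eventually.of_forall fun z => ?_)
  simp only [Vm2_z, smul_smul]

lemma Vm2_sum (z : Phase n) : ∑ i, z i • (EuclideanSpace.single i (1 : ℝ) : Phase n) = z := by
  have h := (EuclideanSpace.basisFun (Fin n ⊕ Fin n) ℝ).sum_repr z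
  simpa using h

lemma Vm2_kQ {φ : Phase n → Phase n} (hφ : ContDiff ℝ ∞ φ) (x : Phase n) (s : ℝ) :
    kQ φ x s = ∑ i, kz (Vm2_z n i) φ x s (EuclideanSpace.single i (1 : ℝ)) := by
  have h1 : ∀ i, kz (Vm2_z n i) φ x s (EuclideanSpace.single i (1 : ℝ)) =
      ∫ z, (Vm2_z n i z • fderiv ℝ φ (x + s • z)) (EuclideanSpace.single i (1 : ℝ)) := fun i =>
    ContinuousLinearMap.integral_apply (Vm2_int hφ x s i) _
  simp only [h1]
  rw [← integral_finsetSum]
  · rw [kQ, integral_etaMeasure]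
    refine integral_congr_ae (Eventually.of_forall fun z => ?_)
    simp only [Vm2_z, smul_apply]
    conv_lhs => rw [← Vm2_sum z]
    rw [Vm2_sum z]
    have h2 : fderiv ℝ φ (x + s • z) z =
        ∑ i, z i • fderiv ℝ φ (x + s • z) (EuclideanSpace.single i (1 : ℝ)) := by
      conv_lhs => rw [← Vm2_sum z, map_sum]
      rw [Vm2_sum z]
      exact Finset.sum_congr rfl fun i _ => map_smul _ _ _
    rw [h2, Finset.smul_sum]
    exact Finset.sum_congr rfl fun i _ => smul_smul _ _ _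
  · intro i _
    exact (Vm2_int hφ x s i).apply_continuousLinearMap _

lemma Vm2_fd {φ : Phase n → Phase n} (hφ : ContDiff ℝ ∞ φ) {ρ : Phase n → ℝ}
    (hρ : ContDiff ℝ ∞ ρ) (y : Phase n) :
    fderiv ℝ (vmol φ ρ) y = kz (eta (Phase n)) φ y (ρ y) +
      ContinuousLinearMap.smulRightL ℝ (Phase n) (Phase n) (fderiv ℝ ρ y) (kQ φ y (ρ y)) := by
  have hc1 := Vm2_cont hφ y (ρ y)
  have hc2 : Continuous (fun z : Phase n => (fderiv ℝ ρ y).smulRight z) :=
    (ContinuousLinearMap.smulRightL ℝ (Phase n) (Phase n) (fderiv ℝ ρ y)).continuous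
  have hc3 : Continuous (fun z => (fderiv ℝ φ (y + ρ y • z)).comp
      (ContinuousLinearMap.id ℝ (Phase n) + (fderiv ℝ ρ y).smulRight z)) :=
    hc1.clm_comp (continuous_const.add hc2)
  rw [(hasFDerivAt_vmol hφ hρ y).fderiv]
  ext1 v
  rw [ContinuousLinearMap.integral_apply (integrable_etaMeasure hc3)]
  have h1 : kz (eta (Phase n)) φ y (ρ y) = ∫ z, fderiv ℝ φ (y + ρ y • z) ∂(etaMeasure n) :=
    kAvg_eq φ y (ρ y)
  rw [add_apply, h1,
    ContinuousLinearMap.integral_apply (integrable_etaMeasure hc1)]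
  have h2 : ContinuousLinearMap.smulRightL ℝ (Phase n) (Phase n) (fderiv ℝ ρ y)
      (kQ φ y (ρ y)) v = ∫ z, fderiv ℝ ρ y v • fderiv ℝ φ (y + ρ y • z) z ∂(etaMeasure n) := by
    rw [integral_smul]
    rfl
  have hc4 : Continuous (fun z : Phase n => fderiv ℝ φ (y + ρ y • z) v) :=
    hc1.clm_apply continuous_const
  have hc5 : Continuous (fun z : Phase n => fderiv ℝ ρ y v • fderiv ℝ φ (y + ρ y • z) z) :=
    Continuous.fun_smul continuous_const (hc1.clm_apply continuous_id)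
  rw [h2, ← integral_add (integrable_etaMeasure hc4) (integrable_etaMeasure hc5)]
  refine integral_congr_ae (Eventually.of_forall fun z => ?_)
  simp

/-- The bound of the first moment of the derivative. -/
lemma Vm2_kQ_le {φ : Phase n → Phase n} (hφ : ContDiff ℝ ∞ φ) (x : Phase n) (s : ℝ)
    (B : Phase n →L[ℝ] Phase n) {b : ℝ} (hb : ∀ z, eta (Phase n) z ≤ b) :
    ‖kQ φ x s‖ ≤ b * ∫ z in Metric.closedBall (0 : Phase n) 1, ‖fderiv ℝ φ (x + s • z) - B‖ := by
  have hc1 := Vm2_cont hφ x s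
  have hc2 : Continuous (fun z : Phase n => fderiv ℝ φ (x + s • z) z) :=
    hc1.clm_apply continuous_id
  have hc3 : Continuous (fun z : Phase n => fderiv ℝ φ (x + s • z) - B) :=
    hc1.sub continuous_const
  have h1 : kQ φ x s = ∫ z, (fderiv ℝ φ (x + s • z) - B) z ∂(etaMeasure n) := by
    have h2 : ∫ z, B z ∂(etaMeasure n) = 0 := by
      have h3 := ContinuousLinearMap.integral_comp_comm B
        (integrable_etaMeasure (n := n) (g := fun z => z) continuous_id)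
      rw [integral_etaMeasure_id, map_zero] at h3
      exact h3
    have h4 : ∀ z, (fderiv ℝ φ (x + s • z) - B) z = fderiv ℝ φ (x + s • z) z - B z := fun z => rfl
    simp only [h4]
    rw [integral_sub (integrable_etaMeasure hc2) (integrable_etaMeasure B.continuous), h2, sub_zero]
    rfl
  have hb0 : 0 ≤ b := (eta_nonneg _ 0).trans (hb 0)
  rw [h1, ← restrict_etaMeasure, restrict_etaMeasure, integral_etaMeasure]
  have h5 : ∫ z, eta (Phase n) z • (fderiv ℝ φ (x + s • z) - B) z =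
      ∫ z in Metric.closedBall (0 : Phase n) 1,
        eta (Phase n) z • (fderiv ℝ φ (x + s • z) - B) z := by
    rw [setIntegral_eq_integral_of_forall_compl_eq_zero]
    intro z hz
    have hz' : 1 < ‖z‖ := by
      by_contra hcon
      exact hz (by simpa using not_lt.1 hcon)
    rw [eta_eq_zero _ hz', zero_smul]
  rw [h5, ← integral_const_mul]
  have hi : IntegrableOn (fun z : Phase n => b * ‖fderiv ℝ φ (x + s • z) - B‖)
      (Metric.closedBall (0 : Phase n) 1) volume :=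
    (continuous_const.mul hc3.norm).continuousOn.integrableOn_compact
      (isCompact_closedBall (0 : Phase n) 1)
  refine norm_integral_le_of_norm_le hi ?_
  refine (ae_restrict_iff' measurableSet_closedBall).2 (Eventually.of_forall fun z hz => ?_)
  have hz1 : ‖z‖ ≤ 1 := by simpa using hz
  rw [norm_smul, Real.norm_of_nonneg (eta_nonneg _ z)]
  refine mul_le_mul (hb z) ?_ (norm_nonneg _) hb0
  refine (ContinuousLinearMap.le_opNorm _ _).trans ?_
  exact mul_le_of_le_one_right (norm_nonneg _) hz1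

/-- Passing from the scale one to all scales. -/
lemma Vm2_scale {c Cp : ℝ} (h : ∀ φ : Phase n → Phase n, ContDiff ℝ ∞ φ →
    (∀ x s, 0 < s → osc 4 φ x s ≤ ENNReal.ofReal c) → ∀ x : Phase n, ∃ z₀ : Phase n, ‖z₀‖ ≤ 1 ∧
      ∫ z in Metric.closedBall (0 : Phase n) 1, ‖fderiv ℝ φ (x + z) - fderiv ℝ φ (x + z₀)‖ ^ 4 ≤ Cp)
    (φ : Phase n → Phase n) (hφ : ContDiff ℝ ∞ φ)
    (hosc : ∀ x s, 0 < s → osc 4 φ x s ≤ ENNReal.ofReal c) (x : Phase n) (σ : ℝ) (hσ : 0 < σ) :
    ∃ z₀ : Phase n, ‖z₀‖ ≤ 1 ∧ ∫ z in Metric.closedBall (0 : Phase n) 1,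
      ‖fderiv ℝ φ (x + σ • z) - fderiv ℝ φ (x + σ • z₀)‖ ^ 4 ≤ Cp := by
  let ψ : Phase n → Phase n := fun y => σ⁻¹ • φ (σ • y)
  have hψ : ContDiff ℝ ∞ ψ := (hφ.comp (contDiff_const_smul σ)).const_smul σ⁻¹
  have hd : ∀ y, fderiv ℝ ψ y = fderiv ℝ φ (σ • y) := by
    intro y
    have h1 : HasFDerivAt (fun y : Phase n => σ • y) (σ • ContinuousLinearMap.id ℝ (Phase n)) y :=
      (hasFDerivAt_id y).const_smul σ
    have h2 : HasFDerivAt (fun y : Phase n => φ (σ • y)) _ y :=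
      ((hφ.differentiable (by simp) (σ • y)).hasFDerivAt).comp y h1
    have h3 : HasFDerivAt ψ _ y := h2.const_smul σ⁻¹
    rw [h3.fderiv]
    ext1 v
    simp [smul_smul, hσ.ne']
  have ho : ∀ x s, 0 < s → osc 4 ψ x s ≤ ENNReal.ofReal c := by
    intro x s hs
    have h1 : osc 4 ψ x s = osc 4 φ (σ • x) (σ * s) := by
      simp only [osc, hd, smul_add, smul_smul]
    rw [h1]
    exact hosc _ _ (mul_pos hσ hs)
  obtain ⟨z₀, hz₀, hz⟩ := h ψ hψ ho (σ⁻¹ • x)
  refine ⟨z₀, hz₀, ?_⟩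
  have h1 : ∀ z, fderiv ℝ ψ (σ⁻¹ • x + z) = fderiv ℝ φ (x + σ • z) := by
    intro z
    rw [hd, smul_add, smul_smul, mul_inv_cancel₀ hσ.ne', one_smul]
  simpa only [h1] using hz

lemma Vm2_pow (a : ℝ) (ha : 0 ≤ a) : a ≤ 1 + a ^ 4 := by
  rcases le_or_gt a 1 with h | h
  · have : 0 ≤ a ^ 4 := by positivity
    linarith
  · have h1 : 1 ≤ a ^ 3 := one_le_pow₀ h.le
    have h2 : a ^ 4 = a * a ^ 3 := by ring
    nlinarith

theorem thm_Vm2 (n : ℕ) (h1 : St_Pt n) (h2 : St_Ker n) : St_Vm2 n := by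
  intro c
  obtain ⟨Cp, hCp0, hCp⟩ := h1.1 c 1 le_rfl
  obtain ⟨C0, hC00, hC0⟩ := h2 (eta (Phase n)) (contDiff_eta (Phase n))
    (fun z hz => eta_eq_zero _ hz)
  choose Ci hCi0 hCi using fun i => h2 (Vm2_z n i) (Vm2_z_smooth i) (Vm2_z_supp i)
  obtain ⟨b, hb⟩ : ∃ b : ℝ, ∀ z, eta (Phase n) z ≤ b := by
    obtain ⟨b, hb⟩ := (contDiff_eta (Phase n)).continuous.bounded_above_of_compact_support
      (hasCompactSupport_eta (Phase n))
    exact ⟨b, fun z => (le_abs_self _).trans (hb z)⟩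
  have hb0 : 0 ≤ b := (eta_nonneg _ 0).trans (hb 0)
  let V : ℝ := (volume : Measure (Phase n)).real (Metric.closedBall (0 : Phase n) 1)
  have hV0 : 0 ≤ V := measureReal_nonneg
  let J : ℝ := V + Cp
  have hJ0 : 0 ≤ J := add_nonneg hV0 hCp0
  have hS0 : 0 ≤ ∑ i, Ci i := Finset.sum_nonneg fun i _ => hCi0 i
  refine ⟨2 * J * (C0 + ∑ i, Ci i) + b * J, by positivity, ?_⟩
  intro φ hφ hosc ρ hρ x H hH0 hρx hD1 hD2
  obtain ⟨z₀, -, hz₀⟩ := Vm2_scale (fun φ hφ hosc x => by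
    have h3 := hCp φ hφ hosc x 1 one_pos
    simpa only [one_smul] using h3) φ hφ hosc x (ρ x) hρx
  set B : Phase n →L[ℝ] Phase n := fderiv ℝ φ (x + ρ x • z₀) with hB
  set I : ℝ := ∫ z in Metric.closedBall (0 : Phase n) 1, ‖fderiv ℝ φ (x + ρ x • z) - B‖ with hI
  have hI0 : 0 ≤ I := integral_nonneg fun _ => norm_nonneg _
  have hIJ : I ≤ J := by
    have hc3 : Continuous (fun z : Phase n => fderiv ℝ φ (x + ρ x • z) - B) :=
      (Vm2_cont hφ x (ρ x)).sub continuous_const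
    have hK := isCompact_closedBall (0 : Phase n) 1
    have i1 : IntegrableOn (fun z : Phase n => ‖fderiv ℝ φ (x + ρ x • z) - B‖)
        (Metric.closedBall (0 : Phase n) 1) volume := hc3.norm.continuousOn.integrableOn_compact hK
    have i2 : IntegrableOn (fun z : Phase n => ‖fderiv ℝ φ (x + ρ x • z) - B‖ ^ 4)
        (Metric.closedBall (0 : Phase n) 1) volume :=
      (hc3.norm.pow 4).continuousOn.integrableOn_compact hK
    have i3 : IntegrableOn (fun _ : Phase n => (1 : ℝ))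
        (Metric.closedBall (0 : Phase n) 1) volume :=
      continuousOn_const.integrableOn_compact hK
    have i4 : IntegrableOn (fun z : Phase n => (1 : ℝ) + ‖fderiv ℝ φ (x + ρ x • z) - B‖ ^ 4)
        (Metric.closedBall (0 : Phase n) 1) volume := i3.add i2
    calc I ≤ ∫ z in Metric.closedBall (0 : Phase n) 1,
          ((1 : ℝ) + ‖fderiv ℝ φ (x + ρ x • z) - B‖ ^ 4) :=
        integral_mono i1 i4 fun z => Vm2_pow _ (norm_nonneg _)
      _ = V + ∫ z in Metric.closedBall (0 : Phase n) 1,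
          ‖fderiv ℝ φ (x + ρ x • z) - B‖ ^ 4 := by
        rw [integral_add i3 i2, setIntegral_const, smul_eq_mul, mul_one]
      _ ≤ J := by
        change V + _ ≤ V + Cp
        linarith
  have hF : ContDiff ℝ ∞ (fderiv ℝ (vmol φ ρ)) := (contDiff_vmol hφ hρ).fderiv_right (by simp)
  have hG : ContDiff ℝ ∞ (fderiv ℝ ρ) := hρ.fderiv_right (by simp)
  refine ContinuousLinearMap.opNorm_le_bound _ (by positivity) fun v => ?_
  let X : ℝ → Phase n := fun t => x + t • v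
  let S : ℝ → ℝ := fun t => ρ (X t)
  have hX0 : X 0 = x := by simp [X]
  have hX : HasDerivAt X v 0 := by
    have h3 : HasDerivAt (fun t : ℝ => t • v) ((1 : ℝ) • v) 0 :=
      (hasDerivAt_id (0 : ℝ)).smul_const v
    rw [one_smul] at h3
    exact h3.const_add x
  have hcomp : ∀ {E : Type} [NormedAddCommGroup E] [NormedSpace ℝ E] {f : Phase n → E},
      ContDiff ℝ ∞ f → HasDerivAt (fun t => f (X t)) (fderiv ℝ f x v) 0 := by
    intro E _ _ f hf
    have h3 : HasFDerivAt f (fderiv ℝ f x) (X 0) := by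
      rw [hX0]
      exact (hf.differentiable (by simp) x).hasFDerivAt
    exact h3.comp_hasDerivAt (0 : ℝ) hX
  have hS : HasDerivAt S (fderiv ℝ ρ x v) 0 := hcomp hρ
  have hS0' : S 0 = ρ x := by simp [S, hX0]
  have hSpos : 0 < S 0 := by rw [hS0']; exact hρx
  obtain ⟨D0, hD0, hD0'⟩ := hC0 φ hφ X S 0 v _ hX hS hSpos B
  choose Di hDi hDi' using fun i => hCi i φ hφ X S 0 v _ hX hS hSpos B
  rw [hX0, hS0', ← hI] at hD0'
  simp only [hX0, hS0', ← hI] at hDi'
  have hQ : HasDerivAt (fun t => kQ φ (X t) (S t))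
      (∑ i, Di i (EuclideanSpace.single i (1 : ℝ))) 0 := by
    have h3 : (fun t => kQ φ (X t) (S t)) =
        fun t => ∑ i, kz (Vm2_z n i) φ (X t) (S t) (EuclideanSpace.single i (1 : ℝ)) :=
      funext fun t => Vm2_kQ hφ _ _
    rw [h3]
    refine HasDerivAt.fun_sum fun i _ => ?_
    have h4 := (hDi i).clm_apply (hasDerivAt_const (0 : ℝ) (EuclideanSpace.single i (1 : ℝ)))
    simpa using h4
  have hρ2 := hcomp hG
  have hbil : HasDerivAt (fun t => ContinuousLinearMap.smulRightL ℝ (Phase n) (Phase n)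
      (fderiv ℝ ρ (X t)) (kQ φ (X t) (S t)))
      (ContinuousLinearMap.smulRightL ℝ (Phase n) (Phase n) (fderiv ℝ (fderiv ℝ ρ) x v)
        (kQ φ x (ρ x)) + ContinuousLinearMap.smulRightL ℝ (Phase n) (Phase n) (fderiv ℝ ρ x)
        (∑ i, Di i (EuclideanSpace.single i (1 : ℝ)))) 0 := by
    have h4 := ((ContinuousLinearMap.smulRightL ℝ (Phase n) (Phase n)).hasFDerivAt
      (x := fderiv ℝ ρ (X 0))).comp_hasDerivAt (0 : ℝ) hρ2
    have h5 := h4.clm_apply hQ
    simp only [Function.comp_apply, hX0, hS0'] at h5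
    exact h5
  have hmain : fderiv ℝ (fderiv ℝ (vmol φ ρ)) x v = D0 +
      (ContinuousLinearMap.smulRightL ℝ (Phase n) (Phase n) (fderiv ℝ (fderiv ℝ ρ) x v)
        (kQ φ x (ρ x)) + ContinuousLinearMap.smulRightL ℝ (Phase n) (Phase n) (fderiv ℝ ρ x)
        (∑ i, Di i (EuclideanSpace.single i (1 : ℝ)))) := by
    have h3 := hcomp hF
    have h4 : (fun t => fderiv ℝ (vmol φ ρ) (X t)) = fun t =>
        kz (eta (Phase n)) φ (X t) (S t) + ContinuousLinearMap.smulRightL ℝ (Phase n) (Phase n)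
          (fderiv ℝ ρ (X t)) (kQ φ (X t) (S t)) := funext fun t => Vm2_fd hφ hρ _
    rw [h4] at h3
    exact h3.unique (hD0.add hbil)
  have hv : |fderiv ℝ ρ x v| ≤ ‖v‖ := by
    refine ((fderiv ℝ ρ x).le_opNorm v).trans ?_
    exact mul_le_of_le_one_left (norm_nonneg _) hD1
  have hest : ∀ (C : ℝ), 0 ≤ C → C * (‖v‖ + |fderiv ℝ ρ x v|) / ρ x * I ≤
      2 * J * C / ρ x * ‖v‖ := by
    intro C hC
    have h3 : C * (‖v‖ + |fderiv ℝ ρ x v|) / ρ x ≤ C * (2 * ‖v‖) / ρ x := by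
      gcongr
      linarith
    calc C * (‖v‖ + |fderiv ℝ ρ x v|) / ρ x * I ≤ C * (2 * ‖v‖) / ρ x * J := by
          refine mul_le_mul h3 hIJ hI0 (by positivity)
      _ = _ := by ring
  have e1 : ‖D0‖ ≤ 2 * J * C0 / ρ x * ‖v‖ := hD0'.trans (hest C0 hC00)
  have e2 : ‖ContinuousLinearMap.smulRightL ℝ (Phase n) (Phase n) (fderiv ℝ (fderiv ℝ ρ) x v)
      (kQ φ x (ρ x))‖ ≤ H / ρ x * ‖v‖ * (b * J) := by
    change ‖(fderiv ℝ (fderiv ℝ ρ) x v).smulRight (kQ φ x (ρ x))‖ ≤ _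
    rw [ContinuousLinearMap.norm_smulRight_apply]
    refine mul_le_mul ?_ ?_ (norm_nonneg _) (by positivity)
    · refine ((fderiv ℝ (fderiv ℝ ρ) x).le_opNorm v).trans ?_
      exact mul_le_mul_of_nonneg_right hD2 (norm_nonneg _)
    · refine (Vm2_kQ_le hφ x (ρ x) B hb).trans ?_
      exact mul_le_mul_of_nonneg_left hIJ hb0
  have e3 : ‖ContinuousLinearMap.smulRightL ℝ (Phase n) (Phase n) (fderiv ℝ ρ x)
      (∑ i, Di i (EuclideanSpace.single i (1 : ℝ)))‖ ≤ 2 * J * (∑ i, Ci i) / ρ x * ‖v‖ := by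
    change ‖(fderiv ℝ ρ x).smulRight (∑ i, Di i (EuclideanSpace.single i (1 : ℝ)))‖ ≤ _
    rw [ContinuousLinearMap.norm_smulRight_apply]
    refine (mul_le_of_le_one_left (norm_nonneg _) hD1).trans ?_
    refine (norm_sum_le _ _).trans ?_
    rw [Finset.mul_sum, Finset.sum_div, Finset.sum_mul]
    refine Finset.sum_le_sum fun i _ => ?_
    refine ((Di i).le_opNorm _).trans ?_
    rw [PiLp.norm_single, norm_one, mul_one]
    exact (hDi' i).trans (hest (Ci i) (hCi0 i))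
  rw [hmain]
  calc _ ≤ ‖D0‖ + (‖ContinuousLinearMap.smulRightL ℝ (Phase n) (Phase n)
        (fderiv ℝ (fderiv ℝ ρ) x v) (kQ φ x (ρ x))‖ +
        ‖ContinuousLinearMap.smulRightL ℝ (Phase n) (Phase n) (fderiv ℝ ρ x)
          (∑ i, Di i (EuclideanSpace.single i (1 : ℝ)))‖) :=
        (norm_add_le _ _).trans (add_le_add le_rfl (norm_add_le _ _))
    _ ≤ 2 * J * C0 / ρ x * ‖v‖ + (H / ρ x * ‖v‖ * (b * J) +
        2 * J * (∑ i, Ci i) / ρ x * ‖v‖) := by
        linarith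
    _ ≤ (2 * J * (C0 + ∑ i, Ci i) + b * J) * (1 + H) / ρ x * ‖v‖ := by
        have h3 : 0 ≤ (2 * J * (C0 + ∑ i, Ci i) * H + b * J) / ρ x * ‖v‖ := by positivity
        have h4 : (2 * J * (C0 + ∑ i, Ci i) + b * J) * (1 + H) / ρ x * ‖v‖ =
          2 * J * C0 / ρ x * ‖v‖ + (H / ρ x * ‖v‖ * (b * J) +
            2 * J * (∑ i, Ci i) / ρ x * ‖v‖) +
            (2 * J * (C0 + ∑ i, Ci i) * H + b * J) / ρ x * ‖v‖ := by ring
        linarith

end Pool.Agent.CEF
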