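import Pool.Agent.CEF.Defs

/-!
# CEF, Wed: integration by parts for a wedge product
-/

set_option autoImplicit false
set_option maxSynthPendingDepth 3

open scoped ContDiff Topology ENNReal
open Set Function Filter MeasureTheory

namespace Pool.Agent.CEF

open Pool.Agent.Helper17

variable {n : ℕ}

/-- the second factor -/
theorem Wed_hasFDerivAt_G {G : Phase n → Phase n} (hG : ContDiff ℝ ∞ G) (v z : Phase n) :
    HasFDerivAt (fun z => fderiv ℝ G z v) ((fderiv ℝ (fderiv ℝ G) z).flip v) z := by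
  have h1 : DifferentiableAt ℝ (fderiv ℝ G) z :=
    ((hG.fderiv_right (m := ∞) (by simp)).differentiable (by simp)) z
  have h2 := h1.hasFDerivAt.clm_apply (hasFDerivAt_const v z)
  refine h2.congr_fderiv ?_
  ext u : 1
  simp

/-- the product -/
theorem Wed_hasFDerivAt {F G : Phase n → Phase n} (hF : ContDiff ℝ ∞ F) (hG : ContDiff ℝ ∞ G)
    (v z : Phase n) : ∃ L : Phase n →L[ℝ] ℝ,
    HasFDerivAt (fun z => omegaStd (F z) (fderiv ℝ G z v)) L z ∧
    ∀ u, L u = omegaStd (F z) (fderiv ℝ (fderiv ℝ G) z u v) +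
      omegaStd (fderiv ℝ F z u) (fderiv ℝ G z v) := by
  have h1 : HasFDerivAt F (fderiv ℝ F z) z := (hF.differentiable (by simp) z).hasFDerivAt
  have h2 := (omegaB n).hasFDerivAt_of_bilinear h1 (Wed_hasFDerivAt_G hG v z)
  exact ⟨_, h2, fun u => rfl⟩

theorem Wed_cont {F G : Phase n → Phase n} (hF : ContDiff ℝ ∞ F) (hG : ContDiff ℝ ∞ G)
    (v : Phase n) : Continuous fun z => omegaStd (F z) (fderiv ℝ G z v) :=
  continuous_iff_continuousAt.2 fun z => (Wed_hasFDerivAt hF hG v z).choose_spec.1.continuousAt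

theorem Wed_contD {F G : Phase n → Phase n} (hF : ContDiff ℝ ∞ F) (hG : ContDiff ℝ ∞ G)
    (v u : Phase n) : Continuous fun z => fderiv ℝ (fun z => omegaStd (F z) (fderiv ℝ G z v)) z u := by
  have h1 : ContDiff ℝ 1 (fun z => omegaStd (F z) (fderiv ℝ G z v)) := by
    have h2 : ContDiff ℝ 1 (fun z => fderiv ℝ G z v) :=
      ((hG.fderiv_right (m := ∞) (by simp)).of_le (by exact_mod_cast le_top)).clm_apply
        contDiff_const
    have h3 : ContDiff ℝ 1 (fun z => omegaB n (F z)) :=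
      (omegaB n).contDiff.comp (hF.of_le (by simp))
    exact h3.clm_apply h2
  exact (h1.continuous_fderiv (by simp)).clm_apply continuous_const

/-- integration by parts -/
theorem Wed_parts {F G : Phase n → Phase n} (hF : ContDiff ℝ ∞ F) (hG : ContDiff ℝ ∞ G)
    (u v : Phase n) :
    ∫ z, eta (Phase n) z * fderiv ℝ (fun z => omegaStd (F z) (fderiv ℝ G z v)) z u =
      -∫ z, fderiv ℝ (eta (Phase n)) z u * omegaStd (F z) (fderiv ℝ G z v) := by
  refine integral_mul_fderiv_eq_neg_fderiv_mul_of_integrable ?_ ?_ ?_ ?_ ?_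
  · have := integrable_fderiv_eta_smul (Wed_cont hF hG v) u
    simpa using this
  · have := integrable_eta_smul (Wed_contD hF hG v u)
    simpa using this
  · have := integrable_eta_smul (Wed_cont hF hG v)
    simpa using this
  · exact fun z _ => (contDiff_eta (Phase n)).differentiable (by simp) z
  · exact fun z _ => (Wed_hasFDerivAt hF hG v z).choose_spec.1.differentiableAt

theorem thm_Wed (n : ℕ) : St_Wed n := by
  obtain ⟨M, hM⟩ : ∃ M : ℝ, ∀ z, ‖fderiv ℝ (eta (Phase n)) z‖ ≤ M := by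
    have h1 : Continuous (fderiv ℝ (eta (Phase n))) :=
      (contDiff_eta (Phase n)).continuous_fderiv (by simp)
    exact h1.bounded_above_of_compact_support ((hasCompactSupport_eta (Phase n)).fderiv (𝕜 := ℝ))
  have hM0 : 0 ≤ M := (norm_nonneg _).trans (hM 0)
  refine ⟨M, hM0, fun F G hF hG u v a ha => ?_⟩
  -- the identity
  have hsym : ∀ z, fderiv ℝ (fun z => omegaStd (F z) (fderiv ℝ G z v)) z u -
      fderiv ℝ (fun z => omegaStd (F z) (fderiv ℝ G z u)) z v =
      omegaStd (fderiv ℝ F z u) (fderiv ℝ G z v) - omegaStd (fderiv ℝ F z v) (fderiv ℝ G z u) := by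
    intro z
    obtain ⟨L, hL, hL'⟩ := Wed_hasFDerivAt hF hG v z
    obtain ⟨L₂, hL₂, hL₂'⟩ := Wed_hasFDerivAt hF hG u z
    have h1 : fderiv ℝ (fderiv ℝ G) z u v = fderiv ℝ (fderiv ℝ G) z v u :=
      (hG.contDiffAt.isSymmSndFDerivAt (by
        rw [minSmoothness_of_isRCLikeNormedField]
        exact WithTop.coe_le_coe.2 le_top)) u v
    rw [hL.fderiv, hL₂.fderiv, hL', hL₂', h1]
    ring
  have hid : ∫ z, (omegaStd (fderiv ℝ F z u) (fderiv ℝ G z v) -
        omegaStd (fderiv ℝ F z v) (fderiv ℝ G z u)) ∂(etaMeasure n) =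
      -∫ z, (fderiv ℝ (eta (Phase n)) z u * omegaStd (F z) (fderiv ℝ G z v) -
        fderiv ℝ (eta (Phase n)) z v * omegaStd (F z) (fderiv ℝ G z u)) := by
    rw [integral_etaMeasure, integral_sub, neg_sub, ← neg_sub_neg, ← Wed_parts hF hG u v,
      ← Wed_parts hF hG v u, ← integral_sub]
    · refine integral_congr_ae (Eventually.of_forall fun z => ?_)
      simp only [smul_eq_mul]
      rw [← hsym z]
      ring
    · have := integrable_eta_smul (Wed_contD hF hG v u)
      simpa using this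
    · have := integrable_eta_smul (Wed_contD hF hG u v)
      simpa using this
    · have := integrable_fderiv_eta_smul (Wed_cont hF hG v) u
      simpa using this
    · have := integrable_fderiv_eta_smul (Wed_cont hF hG u) v
      simpa using this
  rw [hid, abs_neg]
  set g : Phase n → ℝ := fun z => fderiv ℝ (eta (Phase n)) z u * omegaStd (F z) (fderiv ℝ G z v) -
        fderiv ℝ (eta (Phase n)) z v * omegaStd (F z) (fderiv ℝ G z u) with hg
  have hset : ∫ z, g z = ∫ z in Metric.closedBall (0 : Phase n) 1, g z := by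
    rw [setIntegral_eq_integral_of_forall_compl_eq_zero]
    intro z hz
    rw [mem_closedBall_zero_iff, not_le] at hz
    rw [hg]
    simp only
    rw [fderiv_eta_eq_zero _ hz]
    simp
  have hFc : Continuous F := hF.continuous
  have hGc : Continuous (fderiv ℝ G) := hG.continuous_fderiv (by simp)
  have i1 : IntegrableOn (fun z => ‖F z‖ ^ 2) (Metric.closedBall (0 : Phase n) 1) :=
    (hFc.norm.pow 2).continuousOn.integrableOn_compact (isCompact_closedBall _ _)
  have i2 : IntegrableOn (fun z => ‖fderiv ℝ G z‖ ^ 2) (Metric.closedBall (0 : Phase n) 1) :=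
    (hGc.norm.pow 2).continuousOn.integrableOn_compact (isCompact_closedBall _ _)
  have hb : ∀ z, ‖g z‖ ≤ M * ‖u‖ * ‖v‖ * (a * ‖F z‖ ^ 2 + a⁻¹ * ‖fderiv ℝ G z‖ ^ 2) := by
    intro z
    have h1 : ∀ p q : Phase n, |fderiv ℝ (eta (Phase n)) z p * omegaStd (F z) (fderiv ℝ G z q)| ≤
        M * ‖p‖ * ‖q‖ * (‖F z‖ * ‖fderiv ℝ G z‖) := by
      intro p q
      rw [abs_mul]
      have h2 : |fderiv ℝ (eta (Phase n)) z p| ≤ M * ‖p‖ := by
        have := (fderiv ℝ (eta (Phase n)) z).le_opNorm p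
        rw [Real.norm_eq_abs] at this
        exact this.trans (mul_le_mul_of_nonneg_right (hM z) (norm_nonneg p))
      have h3 : |omegaStd (F z) (fderiv ℝ G z q)| ≤ ‖F z‖ * (‖fderiv ℝ G z‖ * ‖q‖) :=
        (abs_omegaStd_le _ _).trans (mul_le_mul_of_nonneg_left
          ((fderiv ℝ G z).le_opNorm q) (norm_nonneg _))
      calc _ ≤ (M * ‖p‖) * (‖F z‖ * (‖fderiv ℝ G z‖ * ‖q‖)) :=
            mul_le_mul h2 h3 (abs_nonneg _) (mul_nonneg hM0 (norm_nonneg _))
        _ = _ := by ring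
    have h4 : ‖F z‖ * ‖fderiv ℝ G z‖ ≤ (a * ‖F z‖ ^ 2 + a⁻¹ * ‖fderiv ℝ G z‖ ^ 2) / 2 := by
      have h5 : 0 ≤ a⁻¹ * (a * ‖F z‖ - ‖fderiv ℝ G z‖) ^ 2 := by positivity
      have h6 : a⁻¹ * (a * ‖F z‖ - ‖fderiv ℝ G z‖) ^ 2 =
          a * ‖F z‖ ^ 2 - 2 * (‖F z‖ * ‖fderiv ℝ G z‖) + a⁻¹ * ‖fderiv ℝ G z‖ ^ 2 := by
        field_simp
        ring
      rw [h6] at h5
      linarith
    have h7 : ‖g z‖ ≤ M * ‖u‖ * ‖v‖ * (2 * (‖F z‖ * ‖fderiv ℝ G z‖)) := by
      rw [Real.norm_eq_abs, hg]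
      refine (abs_sub _ _).trans ?_
      have h8 := h1 u v
      have h9 := h1 v u
      have e : M * ‖v‖ * ‖u‖ * (‖F z‖ * ‖fderiv ℝ G z‖) =
          M * ‖u‖ * ‖v‖ * (‖F z‖ * ‖fderiv ℝ G z‖) := by ring
      rw [e] at h9
      linarith
    refine h7.trans (mul_le_mul_of_nonneg_left ?_ (by positivity))
    linarith
  rw [hset, ← Real.norm_eq_abs]
  refine (norm_integral_le_integral_norm _).trans ?_
  have hint : IntegrableOn (fun z => M * ‖u‖ * ‖v‖ * (a * ‖F z‖ ^ 2 + a⁻¹ * ‖fderiv ℝ G z‖ ^ 2))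
      (Metric.closedBall (0 : Phase n) 1) :=
    ((i1.const_mul a).add (i2.const_mul a⁻¹)).const_mul _
  refine (integral_mono_of_nonneg (Eventually.of_forall fun z => norm_nonneg _) hint
    (Eventually.of_forall hb)).trans (le_of_eq ?_)
  rw [integral_const_mul, integral_add (i1.const_mul a) (i2.const_mul a⁻¹), integral_const_mul,
    integral_const_mul]

end Pool.Agent.CEF
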