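import Mathlib
import Pool.Agent.Helper17.SympBase
import Pool.Agent.CEF.Energy
import Pool.Agent.CEF.Sub
import Pool.Agent.CEF.Defs
import Pool.Agent.CEF.Asm5
import Pool.Agent.CEF.Pt
import Pool.Agent.CEF.Ker
import Pool.Agent.CEF.Gro
import Pool.Agent.CEF.Vm1
import Pool.Agent.CEF.Vm2
import Pool.Agent.CEF.Var
import Pool.Agent.CEF.Lin
import Pool.Agent.CEF.Dir
import Pool.Agent.CEF.Wed
import Pool.Agent.CEF.Tra
import Pool.Agent.CEF.Aff
import Pool.Agent.CEF.Cv2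
import Pool.Agent.CEF.Deg
import Pool.Agent.CEF.Cov
import Pool.Agent.CEF.Gap
import Pool.Agent.CEF.Cls
import Pool.Agent.CEF.Quo
import Pool.Agent.CEF.Hmp
import Pool.Agent.CEF.Slo
import Pool.Agent.CEF.Stp
import Pool.Agent.CEF.Rho
import Pool.Agent.CEF.Poi
import Pool.Agent.CEF.Eng
import Pool.Agent.CEF.Frc
import Pool.Agent.CEF.FrF

open scoped ContDiff Distributions Topology ENNReal
open Set Function TopologicalSpace MeasureTheory

namespace Pool.Agent.CEF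

open Pool.Agent.Helper17

/-- The energy in the form used in the proofs. -/
lemma critEnergy_eq {n : ℕ} {p : ℝ} (hp : 0 < p) (φ : SympCt n) : critEnergy p φ =
    if p = 2 * n then ∫⁻ x, ‖iteratedFDeriv ℝ 2 (φ : Equiv.Perm (Phase n)) x‖ₑ ^ (2 * n)
    else ∫⁻ x, ∫⁻ y, ‖fderiv ℝ (φ : Equiv.Perm (Phase n)) x -
      fderiv ℝ (φ : Equiv.Perm (Phase n)) y‖ₑ ^ p / ‖x - y‖ₑ ^ (4 * n) := by
  rw [critEnergy]
  split_ifs with h
  · apply lintegral_congr
    intro x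
    rw [hessNorm, ENNReal.ofReal_pow (norm_nonneg _), ofReal_norm]
  · apply lintegral_congr
    intro x
    apply lintegral_congr
    intro y
    have hd : derivDist φ x y = ‖fderiv ℝ (φ : Equiv.Perm (Phase n)) x -
        fderiv ℝ (φ : Equiv.Perm (Phase n)) y‖ := by
      rw [derivDist, dist_eq_norm]
      rfl
    rw [hd, ← ofReal_norm, ← ofReal_norm]
    rcases eq_or_ne x y with rfl | hxy
    · have e4 : ‖(0 : Phase n →L[ℝ] Phase n)‖ = 0 := ContinuousLinearMap.opNorm_zero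
      simp [e4, Real.zero_rpow hp.ne', ENNReal.zero_rpow_of_pos hp]
    · have h1 : 0 < ‖x - y‖ := norm_pos_iff.2 (sub_ne_zero.2 hxy)
      rw [ENNReal.ofReal_div_of_pos (pow_pos h1 _), ENNReal.ofReal_pow h1.le,
        ENNReal.ofReal_rpow_of_nonneg (norm_nonneg _) hp.le]

/-- The path components which contain an element of critical energy at most `E`. -/
def energyClasses (n : ℕ) (p : ℝ) (E : ℝ≥0∞) : Set (ZerothHomotopy (SympCt n)) :=
  {c | ∃ φ : SympCt n, ZerothHomotopy.mk φ = c ∧ critEnergy p φ ≤ E}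

variable {n : ℕ}

lemma pt (n : ℕ) : St_Pt n := thm_Pt n
lemma ker (n : ℕ) : St_Ker n := thm_Ker n
lemma gro (n : ℕ) : St_Gro n := thm_Gro n (pt n) (ker n)
lemma var (n : ℕ) : St_Var n := thm_Var n (pt n)
lemma hmp' (n : ℕ) : St_Hmp n := thm_Hmp n

lemma deg (n : ℕ) : St_Deg n :=
  thm_Deg n (pt n) (thm_Lin n) (thm_Tra n (thm_Dir n)) (thm_Aff n) (thm_Cv2 n (thm_Wed n))

lemma abs' (n : ℕ) : St_Abs n :=
  thm_Abs n (thm_Vm1 n (pt n)) (thm_Vm2 n (pt n) (ker n)) (gro n) (deg n) (thm_Cov n (var n))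
    (thm_Cls n) (thm_Quo n) (hmp' n) (thm_Slo n (gro n) (hmp' n)) (thm_Stp n (hmp' n)) (thm_Rho n)

lemma norm_iter (φ : SympCt n) (x : Phase n) :
    ‖iteratedFDeriv ℝ 2 (φ : Equiv.Perm (Phase n)) x‖ₑ =
      ‖fderiv ℝ (fderiv ℝ (φ : Equiv.Perm (Phase n))) x‖ₑ := by
  rw [← ofReal_norm, ← ofReal_norm, ← norm_iteratedFDeriv_fderiv, norm_iteratedFDeriv_one]

lemma energy_eq (hn : n ≠ 0) (φ : SympCt n) :
    ∫⁻ x, ‖iteratedFDeriv ℝ 2 (φ : Equiv.Perm (Phase n)) x‖ₑ ^ (2 * n) =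
      ENNReal.ofReal (∫ x, ‖fderiv ℝ (fderiv ℝ (φ : Equiv.Perm (Phase n))) x‖ ^ (2 * n)) := by
  have h0 : ∀ x, 0 ≤ ‖fderiv ℝ (fderiv ℝ (φ : Equiv.Perm (Phase n))) x‖ ^ (2 * n) := by
    intro x
    positivity
  rw [ofReal_integral_eq_lintegral_ofReal (integrable_energy φ (by omega))
    (Filter.Eventually.of_forall h0)]
  apply lintegral_congr
  intro x
  rw [norm_iter, ← ofReal_norm]
  exact (ENNReal.ofReal_pow
    (norm_nonneg (fderiv ℝ (fderiv ℝ (φ : Equiv.Perm (Phase n))) x)) _).symm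

lemma energy_nonneg (φ : SympCt n) :
    0 ≤ ∫ x, ‖fderiv ℝ (fderiv ℝ (φ : Equiv.Perm (Phase n))) x‖ ^ (2 * n) := by
  apply integral_nonneg
  intro x
  positivity

lemma critEnergy_one (hn : n ≠ 0) (p : ℝ) (hp : 2 * n ≤ p) : critEnergy p (1 : SympCt n) = 0 := by
  have e1 : (((1 : SympCt n) : Equiv.Perm (Phase n)) : Phase n → Phase n) = fun x => x := rfl
  have e2 : fderiv ℝ (fun x : Phase n => x) =
      fun _ => ContinuousLinearMap.id ℝ (Phase n) := by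
    ext1 x
    exact fderiv_fun_id
  rw [critEnergy_eq (by
    have h1 : (0 : ℝ) < n := by exact_mod_cast Nat.pos_of_ne_zero hn
    linarith)]
  split_ifs with h
  · rw [energy_eq hn, e1, e2]
    have e3 : ∀ x : Phase n, fderiv ℝ (fun _ : Phase n => ContinuousLinearMap.id ℝ (Phase n)) x =
        0 := fun x => (hasFDerivAt_const _ x).fderiv
    have e4 : ‖(0 : Phase n →L[ℝ] Phase n →L[ℝ] Phase n)‖ = 0 := ContinuousLinearMap.opNorm_zero
    simp only [e3, e4]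
    rw [zero_pow (by omega)]
    simp
  · have hp0 : 0 < p := by
      have h1 : (0 : ℝ) < n := by exact_mod_cast Nat.pos_of_ne_zero hn
      linarith
    have e4 : ‖(0 : Phase n →L[ℝ] Phase n)‖ₑ = 0 := @enorm_zero (Phase n →L[ℝ] Phase n) _ _
    simp [e1, e2, e4, ENNReal.zero_rpow_of_pos hp0]

lemma pos_of_le (hn : n ≠ 0) {p : ℝ} (hp : 2 * n ≤ p) : 0 < p := by
  have h1 : (0 : ℝ) < n := by exact_mod_cast Nat.pos_of_ne_zero hn
  linarith

/-- Bounded critical energy: finitely many classes. -/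
lemma finite_energyClasses (hn : 2 ≤ n) (p : ℝ) (hp : 2 * n ≤ p) (E : ℝ≥0∞) (hE : E ≠ ⊤) :
    (energyClasses n p E).Finite := by
  have hn0 : n ≠ 0 := by omega
  obtain ⟨c, N, δ, hδ, hctrl⟩ : ∃ (c : ℝ) (N : ℝ → ℕ) (δ : ℝ → ℝ),
      (∀ ε, 0 < ε → 0 < δ ε ∧ δ ε ≤ 1) ∧ ∀ φ : SympCt n, critEnergy p φ ≤ E →
        Ctrl c N δ (φ : Equiv.Perm (Phase n)) := by
    rcases hp.eq_or_lt with h | h
    · obtain ⟨c, N, δ, hδ, h1⟩ := (thm_Eng n (thm_Poi n) hn).1 E.toReal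
      refine ⟨c, N, δ, hδ, fun φ hφ => h1 φ ?_⟩
      rw [critEnergy_eq (pos_of_le hn0 hp), if_pos h.symm, energy_eq hn0] at hφ
      have h2 := ENNReal.toReal_mono hE hφ
      rwa [ENNReal.toReal_ofReal (energy_nonneg φ)] at h2
    · obtain ⟨c, N, δ, hδ, h1⟩ := (thm_Frc n hn p h).1 E.toReal
      refine ⟨c, N, δ, hδ, fun φ hφ => h1 φ ?_⟩
      rw [critEnergy_eq (pos_of_le hn0 hp), if_neg h.ne'] at hφ
      rw [ENNReal.ofReal_toReal hE]
      exact hφ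
  obtain ⟨F, hF, h1⟩ := abs' n hn0 c N δ hδ
  refine (hF.image (fun g => ZerothHomotopy.mk g)).subset ?_
  rintro cl ⟨φ, rfl, hφ⟩
  obtain ⟨g, hg, hj⟩ := h1 φ (hctrl φ hφ)
  exact ⟨g, hg, ZerothHomotopy.sound (hj.symm).somePath⟩

/-- The critical energies are finite. -/
lemma critEnergy_ne_top (hn : 2 ≤ n) (p : ℝ) (hp : 2 * n ≤ p) (φ : SympCt n) :
    critEnergy p φ ≠ ⊤ := by
  have hn0 : n ≠ 0 := by omega
  rcases hp.eq_or_lt with h | h
  · rw [critEnergy_eq (pos_of_le hn0 hp), if_pos h.symm, energy_eq hn0]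
    exact ENNReal.ofReal_ne_top
  · rw [critEnergy_eq (pos_of_le hn0 hp), if_neg h.ne']
    exact (thm_FrF n hn0 p h φ).ne

/-- Small energy: isotopic to the identity. -/
lemma exists_gap (hn : 2 ≤ n) (p : ℝ) (hp : 2 * n ≤ p) :
    ∃ ε : ℝ≥0∞, 0 < ε ∧ energyClasses n p ε = {ZerothHomotopy.mk 1} := by
  have hn0 : n ≠ 0 := by omega
  obtain ⟨ε₁, hε₁, hvar⟩ := var n
  obtain ⟨ε, hε, h1⟩ : ∃ ε : ℝ≥0∞, 0 < ε ∧ ∀ φ : SympCt n, critEnergy p φ ≤ ε →
      ∀ x s, 0 < s → osc 2 (φ : Equiv.Perm (Phase n)) x s ≤ ENNReal.ofReal ε₁ := by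
    rcases hp.eq_or_lt with h | h
    · obtain ⟨E₀, hE₀, h1⟩ := (thm_Eng n (thm_Poi n) hn).2 ε₁ hε₁
      refine ⟨ENNReal.ofReal E₀, ENNReal.ofReal_pos.2 hE₀, fun φ hφ => h1 φ ?_⟩
      rw [critEnergy_eq (pos_of_le hn0 hp), if_pos h.symm, energy_eq hn0] at hφ
      exact (ENNReal.ofReal_le_ofReal_iff hE₀.le).1 hφ
    · obtain ⟨E₀, hE₀, h1⟩ := (thm_Frc n hn p h).2 ε₁ hε₁
      refine ⟨ENNReal.ofReal E₀, ENNReal.ofReal_pos.2 hE₀, fun φ hφ => h1 φ ?_⟩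
      rw [critEnergy_eq (pos_of_le hn0 hp), if_neg h.ne'] at hφ
      exact hφ
  refine ⟨ε, hε, Set.eq_singleton_iff_unique_mem.2 ⟨⟨1, rfl, ?_⟩, ?_⟩⟩
  · rw [critEnergy_one hn0 p hp]
    exact zero_le
  · rintro cl ⟨φ, rfl, hφ⟩
    exact ZerothHomotopy.sound (thm_Gap n hn0 φ fun x s hs => hvar φ x s hs (h1 φ hφ x s hs)).somePath

/-- The minimal energy is subadditive. -/
lemma minEnergy_mul (hn : 2 ≤ n) (p : ℝ) (hp : 2 * n ≤ p) (φ ψ : SympCt n) :
    minEnergy p (ZerothHomotopy.mk (φ * ψ)) ≤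
      minEnergy p (ZerothHomotopy.mk φ) + minEnergy p (ZerothHomotopy.mk ψ) := by
  have hn0 : n ≠ 0 := by omega
  have hp0 : 0 ≤ p := by
    have h1 : (0 : ℝ) ≤ n := Nat.cast_nonneg n
    linarith
  have key : ∀ φ' ψ' : SympCt n, ZerothHomotopy.mk φ' = ZerothHomotopy.mk φ →
      ZerothHomotopy.mk ψ' = ZerothHomotopy.mk ψ →
      minEnergy p (ZerothHomotopy.mk (φ * ψ)) ≤ critEnergy p φ' + critEnergy p ψ' := by
    intro φ' ψ' h1 h2
    have j1 : Joined φ' φ := Quotient.exact h1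
    have j2 : Joined ψ' ψ := Quotient.exact h2
    refine ENNReal.le_of_forall_pos_le_add fun η hη _ => ?_
    obtain ⟨χ, hj, hE, hF⟩ := Sub_main hn0 φ' ψ' hp0 (η := (η : ℝ≥0∞)) (by exact_mod_cast hη)
    have h3 : ZerothHomotopy.mk χ = ZerothHomotopy.mk (φ * ψ) :=
      ZerothHomotopy.sound ((hj.symm.trans (j1.mul_right' ψ')).trans (j2.mul_left' φ)).somePath
    refine (iInf_le (fun φ : {φ'' : SympCt n // ZerothHomotopy.mk φ'' =
      ZerothHomotopy.mk (φ * ψ)} => critEnergy p φ.1) ⟨χ, h3⟩).trans ?_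
    change critEnergy p χ ≤ _
    have hp1 := pos_of_le hn0 hp
    rw [critEnergy_eq hp1, critEnergy_eq hp1, critEnergy_eq hp1]
    split_ifs with h
    · simp only [norm_iter]
      exact hE.trans le_self_add
    · exact hF
  exact ENNReal.le_iInf_add_iInf fun φ' ψ' => key φ'.1 ψ'.1 φ'.2 ψ'.2

/-- Only finitely many classes have minimal energy at most `E`. -/
lemma finite_minEnergy (hn : 2 ≤ n) (p : ℝ) (hp : 2 * n ≤ p) (E : ℝ≥0∞) (hE : E ≠ ⊤) :
    {c : ZerothHomotopy (SympCt n) | minEnergy p c ≤ E}.Finite := by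
  refine (finite_energyClasses hn p hp (E + 1) (ENNReal.add_ne_top.2 ⟨hE, ENNReal.one_ne_top⟩)).subset
    fun c hc => ?_
  have h1 : minEnergy p c < E + 1 :=
    lt_of_le_of_lt hc (ENNReal.lt_add_right hE one_ne_zero)
  obtain ⟨φ, hφ⟩ := iInf_lt_iff.1 h1
  exact ⟨φ.1, φ.2, hφ.le⟩

lemma minEnergy_mk_le (p : ℝ) (φ : SympCt n) :
    minEnergy p (ZerothHomotopy.mk φ) ≤ critEnergy p φ :=
  iInf_le (fun ψ : {ψ : SympCt n // ZerothHomotopy.mk ψ = ZerothHomotopy.mk φ} =>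
    critEnergy p ψ.1) ⟨φ, rfl⟩

lemma minEnergy_ne_top (hn : 2 ≤ n) (p : ℝ) (hp : 2 * n ≤ p) (c : ZerothHomotopy (SympCt n)) :
    minEnergy p c ≠ ⊤ := by
  induction c using ZerothHomotopy.rec with
  | mk φ => exact ne_top_of_le_ne_top (critEnergy_ne_top hn p hp φ) (minEnergy_mk_le p φ)

/-- The gap at the identity component. -/
lemma gap_minEnergy (hn : 2 ≤ n) (p : ℝ) (hp : 2 * n ≤ p) : ∃ ε : ℝ≥0∞, 0 < ε ∧
    ∀ c : ZerothHomotopy (SympCt n), c ≠ ZerothHomotopy.mk 1 → ε ≤ minEnergy p c := by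
  obtain ⟨ε, hε, h⟩ := exists_gap hn p hp
  refine ⟨ε, hε, fun c hc => le_iInf fun φ => ?_⟩
  by_contra h1
  have h2 : c ∈ energyClasses n p ε := ⟨φ.1, φ.2, (not_le.1 h1).le⟩
  rw [h] at h2
  exact hc h2

/-- The set of path components is countable. -/
lemma countable_classes (hn : 2 ≤ n) : Countable (ZerothHomotopy (SympCt n)) := by
  have h : (⋃ k : ℕ, energyClasses n (2 * n) k) = (Set.univ : Set (ZerothHomotopy (SympCt n))) := by
    refine Set.eq_univ_of_forall fun c => ?_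
    induction c using ZerothHomotopy.rec with
    | mk φ =>
      obtain ⟨k, hk⟩ := ENNReal.exists_nat_gt (critEnergy_ne_top hn (2 * n) le_rfl φ)
      exact Set.mem_iUnion.2 ⟨k, φ, rfl, hk.le⟩
  rw [← Set.countable_univ_iff, ← h]
  exact Set.countable_iUnion fun k =>
    (finite_energyClasses hn (2 * n) le_rfl k (ENNReal.natCast_ne_top k)).countable

end Pool.Agent.CEF
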