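import Pool.Agent.CEF.Defs

/-!
# Campaign CEF: a nearly affine contracted half gives a nearly symplectic average (Cv2)
-/

set_option autoImplicit false
set_option maxSynthPendingDepth 3

open scoped ContDiff Topology ENNReal
open Set Function Filter MeasureTheory

namespace Pool.Agent.CEF

open Pool.Agent.Helper17

variable {n : ℕ}

lemma Cv2_kAvg (f : Phase n → Phase n) : kAvg f 0 1 = ∫ z, fderiv ℝ f z ∂(etaMeasure n) := by
  rw [integral_etaMeasure, kAvg]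
  refine integral_congr_ae (Eventually.of_forall fun z => ?_)
  simp

/-- the derivative of the kernel is bounded -/
lemma Cv2_bound (n : ℕ) : ∃ s : ℝ, 0 ≤ s ∧ ∀ z, ‖fderiv ℝ (eta (Phase n)) z‖ ≤ s := by
  have h1 : Continuous (fderiv ℝ (eta (Phase n))) :=
    (contDiff_eta (Phase n)).continuous_fderiv (by simp)
  obtain ⟨s, hs⟩ := h1.bounded_above_of_compact_support
    ((hasCompactSupport_eta (Phase n)).fderiv (𝕜 := ℝ))
  exact ⟨s, (norm_nonneg _).trans (hs 0), hs⟩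

/-- integration by parts for the average of a derivative -/
lemma Cv2_ibp {F : Phase n → Phase n} (hF : ContDiff ℝ ∞ F) (u : Phase n) :
    ∫ z, fderiv ℝ F z u ∂(etaMeasure n) = -∫ z, (fderiv ℝ (eta (Phase n)) z u) • F z := by
  have h1 := integral_smul_fderiv_eq_neg_fderiv_smul_of_integrable (μ := volume)
    (f := eta (Phase n)) (g := F) (v := u)
    (integrable_fderiv_eta_smul hF.continuous u)
    (integrable_eta_smul ((hF.continuous_fderiv (by simp)).clm_apply continuous_const))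
    (integrable_eta_smul hF.continuous)
    (fun z _ => (contDiff_eta (Phase n)).differentiable (by simp) z)
    (fun z _ => hF.differentiable (by simp) z)
  rw [integral_etaMeasure, ← h1]

lemma Cv2_ball_int {F : Type*} [NormedAddCommGroup F] {g : Phase n → F} (hg : Continuous g) :
    IntegrableOn g (Metric.closedBall (0 : Phase n) 1) :=
  hg.continuousOn.integrableOn_compact (isCompact_closedBall (0 : Phase n) 1)

/-- the average of a derivative is controlled by the `L²` norm of the map on the ball -/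
lemma Cv2_avg {s : ℝ} (hs0 : 0 ≤ s) (hs : ∀ z, ‖fderiv ℝ (eta (Phase n)) z‖ ≤ s)
    {F : Phase n → Phase n} (hF : ContDiff ℝ ∞ F) {μ : ℝ}
    (hμ : ∫ z in Metric.closedBall (0 : Phase n) 1, ‖F z‖ ^ 2 ≤ μ) (u : Phase n) :
    ‖∫ z, fderiv ℝ F z u ∂(etaMeasure n)‖ ≤
      s * Real.sqrt (volume.real (Metric.closedBall (0 : Phase n) 1) * μ) * ‖u‖ := by
  rw [Cv2_ibp hF, norm_neg]
  have h1 : ∫ z, (fderiv ℝ (eta (Phase n)) z u) • F z =
      ∫ z in Metric.closedBall (0 : Phase n) 1, (fderiv ℝ (eta (Phase n)) z u) • F z := by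
    symm
    apply setIntegral_eq_integral_of_forall_compl_eq_zero
    intro z hz
    have : 1 < ‖z‖ := by simpa using hz
    rw [fderiv_eta_eq_zero _ this]
    simp
  have h2 : ‖∫ z in Metric.closedBall (0 : Phase n) 1, (fderiv ℝ (eta (Phase n)) z u) • F z‖ ≤
      ∫ z in Metric.closedBall (0 : Phase n) 1, s * ‖u‖ * ‖F z‖ := by
    apply norm_integral_le_of_norm_le ((Cv2_ball_int hF.continuous.norm).const_mul (s * ‖u‖))
    refine Eventually.of_forall fun z => ?_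
    rw [norm_smul]
    have h3 : ‖fderiv ℝ (eta (Phase n)) z u‖ ≤ s * ‖u‖ :=
      (ContinuousLinearMap.le_opNorm _ _).trans
        (mul_le_mul_of_nonneg_right (hs z) (norm_nonneg _))
    exact mul_le_mul_of_nonneg_right h3 (norm_nonneg _)
  have h4 : ∫ z in Metric.closedBall (0 : Phase n) 1, ‖F z‖ ≤
      Real.sqrt (volume.real (Metric.closedBall (0 : Phase n) 1) * μ) := by
    apply Real.le_sqrt_of_sq_le
    have h5 := setIntegral_pow_le (f := fun z => ‖F z‖) (fun _ => norm_nonneg _) (m := 2)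
      (by norm_num) (S := Metric.closedBall (0 : Phase n) 1)
      (isCompact_closedBall (0 : Phase n) 1).measure_lt_top.ne
      (Cv2_ball_int hF.continuous.norm) (Cv2_ball_int (hF.continuous.norm.pow 2))
    refine h5.trans ?_
    have h6 : volume.real (Metric.closedBall (0 : Phase n) 1) ^ (2 - 1) =
        volume.real (Metric.closedBall (0 : Phase n) 1) := by norm_num
    rw [h6]
    exact mul_le_mul_of_nonneg_left hμ measureReal_nonneg
  rw [h1]
  refine h2.trans ?_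
  rw [integral_const_mul]
  calc s * ‖u‖ * ∫ z in Metric.closedBall (0 : Phase n) 1, ‖F z‖
      ≤ s * ‖u‖ * Real.sqrt (volume.real (Metric.closedBall (0 : Phase n) 1) * μ) :=
        mul_le_mul_of_nonneg_left h4 (by positivity)
    _ = _ := by ring

/-- integrals of linear functions of a function with mean zero -/
lemma Cv2_lin {X : Phase n → (Phase n →L[ℝ] Phase n)} (hX : Continuous X)
    (h0 : ∫ z, X z ∂(etaMeasure n) = 0) (M : Phase n →L[ℝ] Phase n) (c w : Phase n) :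
    ∫ z, omegaStd c (M (X z w)) ∂(etaMeasure n) = 0 := by
  have h := (((omegaB n c).comp M).comp
    (ContinuousLinearMap.apply ℝ (Phase n) w)).integral_comp_comm (integrable_etaMeasure hX)
  rw [h0, map_zero] at h
  exact h

lemma Cv2_cont {X Y : Phase n → Phase n} (hX : Continuous X) (hY : Continuous Y) :
    Continuous fun z => omegaStd (X z) (Y z) := by
  have : Continuous fun z => omegaB n (X z) (Y z) :=
    ((omegaB n).continuous.comp hX).clm_apply hY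
  exact this

/-- six integrals which vanish -/
lemma Cv2_six {ν : Measure (Phase n)} {f₁ f₂ f₃ f₄ f₅ f₆ : Phase n → ℝ} (l₁ : Integrable f₁ ν)
    (l₂ : Integrable f₂ ν) (l₃ : Integrable f₃ ν) (l₄ : Integrable f₄ ν) (l₅ : Integrable f₅ ν)
    (l₆ : Integrable f₆ ν) (z₁ : ∫ z, f₁ z ∂ν = 0) (z₂ : ∫ z, f₂ z ∂ν = 0)
    (z₃ : ∫ z, f₃ z ∂ν = 0) (z₄ : ∫ z, f₄ z ∂ν = 0) (z₅ : ∫ z, f₅ z ∂ν = 0)
    (z₆ : ∫ z, f₆ z ∂ν = 0) :
    Integrable (fun z => f₁ z - f₂ z + f₃ z - f₄ z - f₅ z + f₆ z) ν ∧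
      ∫ z, (f₁ z - f₂ z + f₃ z - f₄ z - f₅ z + f₆ z) ∂ν = 0 := by
  have i₂ : Integrable (fun z => f₁ z - f₂ z) ν := l₁.sub l₂
  have i₃ : Integrable (fun z => f₁ z - f₂ z + f₃ z) ν := i₂.add l₃
  have i₄ : Integrable (fun z => f₁ z - f₂ z + f₃ z - f₄ z) ν := i₃.sub l₄
  have i₅ : Integrable (fun z => f₁ z - f₂ z + f₃ z - f₄ z - f₅ z) ν := i₄.sub l₅
  refine ⟨i₅.add l₆, ?_⟩
  rw [integral_add i₅ l₆, integral_sub i₄ l₅, integral_sub i₃ l₄, integral_add i₂ l₃,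
    integral_sub l₁ l₂, z₁, z₂, z₃, z₄, z₅, z₆]
  ring

/-- the integral of the pointwise identity -/
lemma Cv2_sum {ν : Measure (Phase n)} [IsProbabilityMeasure ν] {f₁ f₂ f₃ : Phase n → ℝ}
    {c d : ℝ} (l₁ : Integrable f₁ ν) (l₂ : Integrable f₂ ν)
    (l₃ : Integrable f₃ ν ∧ ∫ z, f₃ z ∂ν = 0) (h : ∀ z, d = f₁ z - f₂ z + c + f₃ z) :
    d = (∫ z, f₁ z ∂ν) - (∫ z, f₂ z ∂ν) + c := by
  have i₂ : Integrable (fun z => f₁ z - f₂ z) ν := l₁.sub l₂
  have i₃ : Integrable (fun z => f₁ z - f₂ z + c) ν := i₂.add (integrable_const _)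
  have e : ∫ _z, d ∂ν = ∫ z, (f₁ z - f₂ z + c + f₃ z) ∂ν :=
    integral_congr_ae (Eventually.of_forall fun z => h z)
  rw [integral_add i₃ l₃.1, l₃.2, integral_add i₂ (integrable_const _), integral_sub l₁ l₂,
    integral_const, integral_const] at e
  simpa using e

theorem thm_Cv2 (n : ℕ) (h1 : St_Wed n) : St_Cv2 n := by
  obtain ⟨Cw, hCw, hW⟩ := h1
  obtain ⟨s, hs0, hs⟩ := Cv2_bound n
  intro C₂
  obtain ⟨V, hV⟩ : ∃ V, V = volume.real (Metric.closedBall (0 : Phase n) 1) := ⟨_, rfl⟩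
  have hV0 : 0 ≤ V := hV ▸ measureReal_nonneg
  obtain ⟨D, hD⟩ : ∃ D, D = max C₂ 0 := ⟨_, rfl⟩
  have hD0 : 0 ≤ D := hD ▸ le_max_right _ _
  have hDC : C₂ ≤ D := hD ▸ le_max_left _ _
  obtain ⟨Q, hQ⟩ : ∃ Q, Q = 2 * D + V ^ 2 * s ^ 2 := ⟨_, rfl⟩
  have hQ0 : 0 ≤ Q := by rw [hQ]; positivity
  obtain ⟨a, ha⟩ : ∃ a, a = 8 * (Cw * Q) + 1 := ⟨_, rfl⟩
  have ha0 : 0 < a := by rw [ha]; positivity
  have haQ : Cw * Q * a⁻¹ ≤ 1 / 8 := by
    rw [← div_eq_mul_inv, div_le_iff₀ ha0, ha]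
    linarith [mul_nonneg hCw hQ0]
  obtain ⟨R, hR⟩ : ∃ R, R = 3 / 2 * Cw * a + s ^ 2 * V := ⟨_, rfl⟩
  have hR0 : 0 ≤ R := by rw [hR]; positivity
  obtain ⟨μ, hμ⟩ : ∃ μ, μ = min 1 (1 / (8 * (R + 1))) := ⟨_, rfl⟩
  have hμ0 : 0 < μ := by
    rw [hμ]
    exact lt_min one_pos (by positivity)
  have hμ1 : μ ≤ 1 := hμ ▸ min_le_left _ _
  have hμR : R * μ ≤ 1 / 8 := by
    have h2 : μ ≤ 1 / (8 * (R + 1)) := hμ ▸ min_le_right _ _
    calc R * μ ≤ R * (1 / (8 * (R + 1))) := mul_le_mul_of_nonneg_left h2 hR0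
      _ ≤ 1 / 8 := by
        rw [mul_one_div, div_le_div_iff₀ (by positivity) (by norm_num)]
        linarith
  refine ⟨μ, hμ0, fun f hf hsy P B b hP hPω hX2 hF2 => ?_⟩
  have hf' : ContDiff ℝ ∞ (fderiv ℝ f) := hf.fderiv_right (by simp)
  obtain ⟨K, hK⟩ : ∃ K, K = kAvg f 0 1 := ⟨_, rfl⟩
  rw [← hK] at hX2 ⊢
  have hK' : K = ∫ z, fderiv ℝ f z ∂(etaMeasure n) := hK.trans (Cv2_kAvg f)
  -- the two auxiliary maps
  let F : Phase n → Phase n := fun z => P (f z - b - B z)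
  let G : Phase n → Phase n := fun z => f z - K z
  have hF : ContDiff ℝ ∞ F := P.contDiff.comp ((hf.sub contDiff_const).sub B.contDiff)
  have hG : ContDiff ℝ ∞ G := hf.sub K.contDiff
  let X : Phase n → (Phase n →L[ℝ] Phase n) := fun z => fderiv ℝ f z - K
  have hXc : Continuous X := hf'.continuous.sub continuous_const
  obtain ⟨C', hC'⟩ : ∃ C' : Phase n →L[ℝ] Phase n, C' = P.comp (B - K) := ⟨_, rfl⟩
  have hdf : ∀ z, HasFDerivAt f (fderiv ℝ f z) z := fun z =>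
    (hf.differentiable (by simp) z).hasFDerivAt
  have hDF : ∀ z, fderiv ℝ F z = P.comp (X z) - C' := by
    intro z
    have h2 : HasFDerivAt F (P.comp (fderiv ℝ f z - B)) z :=
      P.hasFDerivAt.comp z (((hdf z).sub_const b).sub B.hasFDerivAt)
    rw [h2.fderiv, hC']
    ext v : 1
    simp [X]
  have hDG : ∀ z, fderiv ℝ G z = X z := fun z => ((hdf z).sub K.hasFDerivAt).fderiv
  have hX0 : ∫ z, X z ∂(etaMeasure n) = 0 := by
    have h2 : ∫ z, X z ∂(etaMeasure n) = (∫ z, fderiv ℝ f z ∂(etaMeasure n)) - K := by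
      show ∫ z, (fderiv ℝ f z - K) ∂(etaMeasure n) = _
      rw [integral_sub (integrable_etaMeasure hf'.continuous) (integrable_const _),
        integral_const]
      simp
    rw [h2, ← hK', sub_self]
  -- the constant matrix
  have hC'n : ‖C'‖ ≤ s * Real.sqrt (V * μ) := by
    apply ContinuousLinearMap.opNorm_le_bound _ (by positivity)
    intro u
    have h2 := Cv2_avg hs0 hs hF hF2 u
    have h3 : ∫ z, fderiv ℝ F z u ∂(etaMeasure n) = -(C' u) := by
      have e1 : ∀ z, fderiv ℝ F z u = P (X z u) - C' u := by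
        intro z; rw [hDF]; rfl
      simp only [e1]
      have hPX : Continuous fun z => P (X z u) :=
        P.continuous.comp (hXc.clm_apply continuous_const)
      rw [integral_sub (integrable_etaMeasure hPX) (integrable_const _), integral_const]
      have h4 := (P.comp (ContinuousLinearMap.apply ℝ (Phase n) u)).integral_comp_comm
        (integrable_etaMeasure hXc)
      rw [hX0, map_zero] at h4
      have h5 : ∫ z, P (X z u) ∂(etaMeasure n) = 0 := h4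
      rw [h5]
      simp
    rw [h3, norm_neg, ← hV] at h2
    exact h2
  have hC'2 : ‖C'‖ ^ 2 ≤ s ^ 2 * V * μ := by
    calc ‖C'‖ ^ 2 ≤ (s * Real.sqrt (V * μ)) ^ 2 := pow_le_pow_left₀ (norm_nonneg _) hC'n 2
      _ = s ^ 2 * V * μ := by
        rw [mul_pow, Real.sq_sqrt (by positivity)]; ring
  -- the `L²` norm of `DF`
  have hDFc : Continuous (fderiv ℝ F) := hF.continuous_fderiv (by simp)
  have hPn : ‖P‖ ≤ 1 := ContinuousLinearMap.opNorm_le_bound _ zero_le_one fun Y => by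
    rw [one_mul]; exact hP Y
  have hDF2 : ∫ z in Metric.closedBall (0 : Phase n) 1, ‖fderiv ℝ F z‖ ^ 2 ≤
      2 * D + 2 * V * (s ^ 2 * V * μ) := by
    have h2 : ∫ z in Metric.closedBall (0 : Phase n) 1, ‖fderiv ℝ F z‖ ^ 2 ≤
        ∫ z in Metric.closedBall (0 : Phase n) 1, (2 * ‖X z‖ ^ 2 + 2 * ‖C'‖ ^ 2) := by
      apply integral_mono (Cv2_ball_int (hDFc.norm.pow 2))
        (Cv2_ball_int (((hXc.norm.pow 2).const_mul 2).add continuous_const))
      intro z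
      show ‖fderiv ℝ F z‖ ^ 2 ≤ 2 * ‖X z‖ ^ 2 + 2 * ‖C'‖ ^ 2
      have h3 : ‖fderiv ℝ F z‖ ≤ ‖X z‖ + ‖C'‖ := by
        rw [hDF]
        refine (norm_sub_le _ _).trans ?_
        have h4 : ‖P.comp (X z)‖ ≤ ‖X z‖ := by
          refine (ContinuousLinearMap.opNorm_comp_le _ _).trans ?_
          exact mul_le_of_le_one_left (norm_nonneg _) hPn
        linarith
      have h5 : ‖fderiv ℝ F z‖ ^ 2 ≤ (‖X z‖ + ‖C'‖) ^ 2 :=
        pow_le_pow_left₀ (norm_nonneg _) h3 2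
      nlinarith [sq_nonneg (‖X z‖ - ‖C'‖)]
    have c1 : IntegrableOn (fun z => 2 * ‖X z‖ ^ 2) (Metric.closedBall (0 : Phase n) 1) :=
      Cv2_ball_int (continuous_const.mul (hXc.norm.pow 2))
    have c2 : IntegrableOn (fun _ : Phase n => 2 * ‖C'‖ ^ 2)
        (Metric.closedBall (0 : Phase n) 1) := Cv2_ball_int continuous_const
    rw [integral_add c1 c2, integral_const_mul, setIntegral_const, smul_eq_mul, ← hV] at h2
    have h6 : 2 * ∫ z in Metric.closedBall (0 : Phase n) 1, ‖X z‖ ^ 2 ≤ 2 * D := by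
      have : ∫ z in Metric.closedBall (0 : Phase n) 1, ‖X z‖ ^ 2 ≤ D := hX2.trans hDC
      linarith
    have h7 : V * (2 * ‖C'‖ ^ 2) ≤ 2 * V * (s ^ 2 * V * μ) := by
      have := mul_le_mul_of_nonneg_left hC'2 hV0
      linarith
    linarith
  -- the main estimate
  intro u v
  have hXu : ∀ w, Continuous fun z => X z w := fun w => hXc.clm_apply continuous_const
  have hFu : ∀ w, Continuous fun z => fderiv ℝ F z w := fun w =>
    hDFc.clm_apply continuous_const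
  have hI1 : Integrable (fun z => omegaStd (fderiv ℝ F z u) (fderiv ℝ G z v) -
      omegaStd (fderiv ℝ F z v) (fderiv ℝ G z u)) (etaMeasure n) := by
    simp only [hDG]
    exact integrable_etaMeasure ((Cv2_cont (hFu u) (hXu v)).sub (Cv2_cont (hFu v) (hXu u)))
  have hI2 : Integrable (fun z => omegaStd (fderiv ℝ F z u) (fderiv ℝ F z v)) (etaMeasure n) :=
    integrable_etaMeasure (Cv2_cont (hFu u) (hFu v))
  have hL : ∀ (M : Phase n →L[ℝ] Phase n) (c w : Phase n),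
      Integrable (fun z => omegaStd c (M (X z w))) (etaMeasure n) := fun M c w =>
    integrable_etaMeasure (Cv2_cont continuous_const (M.continuous.comp (hXu w)))
  have hid : ∀ z, omegaStd u v - omegaStd (K u) (K v) =
      (omegaStd (fderiv ℝ F z u) (fderiv ℝ G z v) -
        omegaStd (fderiv ℝ F z v) (fderiv ℝ G z u)) -
      omegaStd (fderiv ℝ F z u) (fderiv ℝ F z v) + omegaStd (C' u) (C' v) +
      (omegaStd (C' u) (ContinuousLinearMap.id ℝ (Phase n) (X z v)) -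
        omegaStd (C' v) (ContinuousLinearMap.id ℝ (Phase n) (X z u)) +
        omegaStd (C' v) (P (X z u)) - omegaStd (C' u) (P (X z v)) -
        omegaStd (K v) (ContinuousLinearMap.id ℝ (Phase n) (X z u)) +
        omegaStd (K u) (ContinuousLinearMap.id ℝ (Phase n) (X z v))) := by
    intro z
    have e1 := hsy z u v
    have e2 := hPω (X z u) (X z v)
    have e3 : ∀ w, fderiv ℝ f z w = X z w + K w := fun w => by simp [X]
    have e4 : ∀ w, fderiv ℝ F z w = P (X z w) - C' w := fun w => by rw [hDF]; rfl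
    rw [e3, e3] at e1
    simp only [omegaStd_add_left, omegaStd_add_right] at e1
    simp only [omegaStd_sub_left, omegaStd_sub_right] at e2
    simp only [hDG, e4, ContinuousLinearMap.id_apply, omegaStd_sub_left, omegaStd_sub_right]
    have s1 := omegaStd_swap (X z u) (P (X z v))
    have s2 := omegaStd_swap (X z u) (K v)
    have s3 := omegaStd_swap (P (X z u)) (C' v)
    linarith
  have hint : omegaStd u v - omegaStd (K u) (K v) =
      (∫ z, (omegaStd (fderiv ℝ F z u) (fderiv ℝ G z v) -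
        omegaStd (fderiv ℝ F z v) (fderiv ℝ G z u)) ∂(etaMeasure n)) -
      (∫ z, omegaStd (fderiv ℝ F z u) (fderiv ℝ F z v) ∂(etaMeasure n)) +
      omegaStd (C' u) (C' v) := by
    exact Cv2_sum hI1 hI2 (Cv2_six (hL (ContinuousLinearMap.id ℝ (Phase n)) (C' u) v)
      (hL (ContinuousLinearMap.id ℝ (Phase n)) (C' v) u) (hL P (C' v) u) (hL P (C' u) v)
      (hL (ContinuousLinearMap.id ℝ (Phase n)) (K v) u)
      (hL (ContinuousLinearMap.id ℝ (Phase n)) (K u) v) (Cv2_lin hXc hX0 _ _ _)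
      (Cv2_lin hXc hX0 _ _ _) (Cv2_lin hXc hX0 _ _ _) (Cv2_lin hXc hX0 _ _ _)
      (Cv2_lin hXc hX0 _ _ _) (Cv2_lin hXc hX0 _ _ _)) hid
  have hw1 := hW F G hF hG u v a ha0
  have hw2 := hW F F hF hF u v a ha0
  have hanti : ∫ z, (omegaStd (fderiv ℝ F z u) (fderiv ℝ F z v) -
      omegaStd (fderiv ℝ F z v) (fderiv ℝ F z u)) ∂(etaMeasure n) =
      2 * ∫ z, omegaStd (fderiv ℝ F z u) (fderiv ℝ F z v) ∂(etaMeasure n) := by
    rw [← integral_const_mul]
    refine integral_congr_ae (Eventually.of_forall fun z => ?_)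
    show omegaStd (fderiv ℝ F z u) (fderiv ℝ F z v) -
      omegaStd (fderiv ℝ F z v) (fderiv ℝ F z u) = 2 * omegaStd (fderiv ℝ F z u) (fderiv ℝ F z v)
    rw [omegaStd_swap (fderiv ℝ F z v) (fderiv ℝ F z u)]
    ring
  rw [hanti] at hw2
  have hFμ : ∫ z in Metric.closedBall (0 : Phase n) 1, ‖F z‖ ^ 2 ≤ μ := hF2
  have hGX : ∫ z in Metric.closedBall (0 : Phase n) 1, ‖fderiv ℝ G z‖ ^ 2 ≤ D := by
    simp only [hDG]
    exact hX2.trans hDC
  have hai : 0 < a⁻¹ := inv_pos.2 ha0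
  have hN : 0 ≤ Cw * ‖u‖ * ‖v‖ := by positivity
  have b1 : |∫ z, (omegaStd (fderiv ℝ F z u) (fderiv ℝ G z v) -
        omegaStd (fderiv ℝ F z v) (fderiv ℝ G z u)) ∂(etaMeasure n)| ≤
      Cw * ‖u‖ * ‖v‖ * (a * μ + a⁻¹ * D) :=
    hw1.trans (mul_le_mul_of_nonneg_left (add_le_add
      (mul_le_mul_of_nonneg_left hFμ ha0.le) (mul_le_mul_of_nonneg_left hGX hai.le)) hN)
  have b2 : |2 * ∫ z, omegaStd (fderiv ℝ F z u) (fderiv ℝ F z v) ∂(etaMeasure n)| ≤
      Cw * ‖u‖ * ‖v‖ * (a * μ + a⁻¹ * (2 * D + 2 * V * (s ^ 2 * V * μ))) :=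
    hw2.trans (mul_le_mul_of_nonneg_left (add_le_add
      (mul_le_mul_of_nonneg_left hFμ ha0.le) (mul_le_mul_of_nonneg_left hDF2 hai.le)) hN)
  have b3 : |omegaStd (C' u) (C' v)| ≤ s ^ 2 * V * μ * (‖u‖ * ‖v‖) := by
    refine (abs_omegaStd_le _ _).trans ?_
    calc ‖C' u‖ * ‖C' v‖ ≤ (‖C'‖ * ‖u‖) * (‖C'‖ * ‖v‖) :=
          mul_le_mul (C'.le_opNorm u) (C'.le_opNorm v) (norm_nonneg _) (by positivity)
      _ = ‖C'‖ ^ 2 * (‖u‖ * ‖v‖) := by ring
      _ ≤ _ := mul_le_mul_of_nonneg_right hC'2 (by positivity)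
  obtain ⟨I₁, hI₁⟩ : ∃ I₁, I₁ = ∫ z, (omegaStd (fderiv ℝ F z u) (fderiv ℝ G z v) -
        omegaStd (fderiv ℝ F z v) (fderiv ℝ G z u)) ∂(etaMeasure n) := ⟨_, rfl⟩
  obtain ⟨I₂, hI₂⟩ : ∃ I₂, I₂ = ∫ z, omegaStd (fderiv ℝ F z u) (fderiv ℝ F z v)
    ∂(etaMeasure n) := ⟨_, rfl⟩
  rw [← hI₁, ← hI₂] at hint
  rw [← hI₁] at b1
  rw [← hI₂] at b2
  have hneg : omegaStd (K u) (K v) - omegaStd u v = -(I₁ - I₂ + omegaStd (C' u) (C' v)) := by
    linarith
  rw [hneg, abs_neg]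
  have t1 : |I₁ - I₂ + omegaStd (C' u) (C' v)| ≤ |I₁| + |I₂| + |omegaStd (C' u) (C' v)| :=
    (abs_add_le _ _).trans (add_le_add (abs_sub _ _) le_rfl)
  rw [abs_mul, abs_two] at b2
  obtain ⟨N, hNN⟩ : ∃ N, N = ‖u‖ * ‖v‖ := ⟨_, rfl⟩
  have hN0 : 0 ≤ N := by rw [hNN]; positivity
  have e1 : Cw * ‖u‖ * ‖v‖ = Cw * N := by rw [hNN]; ring
  have e2 : (1 / 4 : ℝ) * ‖u‖ * ‖v‖ = 1 / 4 * N := by rw [hNN]; ring
  rw [e1] at b1 b2
  rw [← hNN] at b3
  rw [e2]
  have key : Cw * (a * μ + a⁻¹ * D) + 1 / 2 * (Cw * (a * μ + a⁻¹ *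
      (2 * D + 2 * V * (s ^ 2 * V * μ)))) + s ^ 2 * V * μ ≤ 1 / 4 := by
    have k1 : Cw * (a * μ + a⁻¹ * D) + 1 / 2 * (Cw * (a * μ + a⁻¹ *
        (2 * D + 2 * V * (s ^ 2 * V * μ)))) + s ^ 2 * V * μ =
        R * μ + Cw * (2 * D + V ^ 2 * s ^ 2 * μ) * a⁻¹ := by
      rw [hR]; ring
    have k2 : Cw * (2 * D + V ^ 2 * s ^ 2 * μ) * a⁻¹ ≤ Cw * Q * a⁻¹ := by
      apply mul_le_mul_of_nonneg_right _ hai.le
      apply mul_le_mul_of_nonneg_left _ hCw
      rw [hQ]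
      have : V ^ 2 * s ^ 2 * μ ≤ V ^ 2 * s ^ 2 * 1 :=
        mul_le_mul_of_nonneg_left hμ1 (by positivity)
      linarith
    rw [k1]
    linarith
  calc |I₁ - I₂ + omegaStd (C' u) (C' v)| ≤ |I₁| + |I₂| + |omegaStd (C' u) (C' v)| := t1
    _ ≤ (Cw * (a * μ + a⁻¹ * D) + 1 / 2 * (Cw * (a * μ + a⁻¹ *
      (2 * D + 2 * V * (s ^ 2 * V * μ)))) + s ^ 2 * V * μ) * N := by
        have b2' : |I₂| ≤ 1 / 2 * (Cw * N * (a * μ + a⁻¹ *
          (2 * D + 2 * V * (s ^ 2 * V * μ)))) := by linarith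
        calc |I₁| + |I₂| + |omegaStd (C' u) (C' v)| ≤ Cw * N * (a * μ + a⁻¹ * D) +
            1 / 2 * (Cw * N * (a * μ + a⁻¹ * (2 * D + 2 * V * (s ^ 2 * V * μ)))) +
            s ^ 2 * V * μ * N := add_le_add (add_le_add b1 b2') b3
          _ = _ := by ring
    _ ≤ 1 / 4 * N := mul_le_mul_of_nonneg_right key hN0

end Pool.Agent.CEF
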